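import Pool.Agent.Helper43_Billiard.Bd

set_option autoImplicit false

/-! # Composition of real power series, by explicit finite sums -/

namespace Helper43.Billiard

open PowerSeries Finset

/-- Composition `g ∘ ψ`, meant for `ψ` without constant term. -/
noncomputable def comp (g ψ : ℝ⟦X⟧) : ℝ⟦X⟧ :=
  mk fun m => ∑ i ∈ range (m + 1), coeff i g * coeff m (ψ ^ i)

variable {g g' ψ ψ' χ : ℝ⟦X⟧}

lemma coeff_pow_eq_zero (hψ : (X : ℝ⟦X⟧) ∣ ψ) {m i : ℕ} (h : m < i) : coeff m (ψ ^ i) = 0 :=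
  X_pow_dvd_iff.mp (pow_dvd_pow_of_dvd hψ i) m h

lemma coeff_comp (hψ : (X : ℝ⟦X⟧) ∣ ψ) {m N : ℕ} (hN : m < N) :
    coeff m (comp g ψ) = ∑ i ∈ range N, coeff i g * coeff m (ψ ^ i) := by
  rw [comp, coeff_mk]
  refine sum_subset (range_subset_range.mpr hN) fun i _ hi => ?_
  rw [mem_range, not_lt] at hi
  rw [coeff_pow_eq_zero hψ (by omega), mul_zero]

/-- modulo `X ^ N`, composition is evaluation of a polynomial -/
lemma comp_mod (hψ : (X : ℝ⟦X⟧) ∣ ψ) (N : ℕ) :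
    (X : ℝ⟦X⟧) ^ N ∣ comp g ψ - ∑ i ∈ range N, coeff i g • ψ ^ i := by
  rw [X_pow_dvd_iff]
  intro m hm
  rw [map_sub, coeff_comp hψ hm, map_sum, sub_eq_zero]
  simp

lemma comp_add (g g' ψ : ℝ⟦X⟧) : comp (g + g') ψ = comp g ψ + comp g' ψ := by
  ext m
  simp only [comp, coeff_mk, map_add, add_mul, sum_add_distrib]

lemma comp_smul (a : ℝ) (g ψ : ℝ⟦X⟧) : comp (a • g) ψ = a • comp g ψ := by
  ext m
  simp only [comp, coeff_mk, coeff_smul, smul_eq_mul, mul_sum, mul_assoc]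

lemma comp_neg (g ψ : ℝ⟦X⟧) : comp (-g) ψ = - comp g ψ := by
  have := comp_smul (-1) g ψ
  simpa using this

lemma comp_sub (g g' ψ : ℝ⟦X⟧) : comp (g - g') ψ = comp g ψ - comp g' ψ := by
  rw [sub_eq_add_neg, comp_add, comp_neg, sub_eq_add_neg]

lemma comp_C (a : ℝ) (ψ : ℝ⟦X⟧) : comp (C a) ψ = C a := by
  ext m
  simp only [comp, coeff_mk]
  rw [sum_range_succ']
  simp [coeff_C, coeff_one]

lemma comp_X (hψ : (X : ℝ⟦X⟧) ∣ ψ) : comp X ψ = ψ := by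
  ext m
  rw [coeff_comp hψ (show m < m + 2 by omega), sum_range_succ', sum_range_succ']
  simp [coeff_X]

lemma comp_monomial (hψ : (X : ℝ⟦X⟧) ∣ ψ) (n : ℕ) (a : ℝ) : comp (monomial n a) ψ = a • ψ ^ n := by
  ext m
  rw [coeff_comp hψ (show m < m + n + 1 by omega), coeff_smul, smul_eq_mul]
  rw [sum_eq_single n]
  · rw [coeff_monomial_same]
  · intro i _ hi
    rw [coeff_monomial, if_neg hi, zero_mul]
  · intro h
    exact absurd (mem_range.mpr (by omega)) h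

/-- composition preserves order in the outer argument -/
lemma comp_dvd_of_dvd {n : ℕ} (hg : (X : ℝ⟦X⟧) ^ n ∣ g) :
    (X : ℝ⟦X⟧) ^ n ∣ comp g ψ := by
  rw [X_pow_dvd_iff] at hg ⊢
  intro m hm
  rw [comp, coeff_mk]
  refine sum_eq_zero fun i hi => ?_
  rw [mem_range] at hi
  rw [hg i (by omega), zero_mul]

lemma comp_congr_left {n : ℕ} (hg : (X : ℝ⟦X⟧) ^ n ∣ g - g') :
    (X : ℝ⟦X⟧) ^ n ∣ comp g ψ - comp g' ψ := by
  rw [← comp_sub]
  exact comp_dvd_of_dvd hg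

lemma comp_congr_right {n : ℕ} (hψ : (X : ℝ⟦X⟧) ∣ ψ) (hψ' : (X : ℝ⟦X⟧) ∣ ψ')
    (h : (X : ℝ⟦X⟧) ^ n ∣ ψ - ψ') : (X : ℝ⟦X⟧) ^ n ∣ comp g ψ - comp g ψ' := by
  have h1 := comp_mod (g := g) hψ n
  have h2 := comp_mod (g := g) hψ' n
  have h3 : (X : ℝ⟦X⟧) ^ n ∣ (∑ i ∈ range n, coeff i g • ψ ^ i) - ∑ i ∈ range n, coeff i g • ψ' ^ i := by
    rw [← sum_sub_distrib]
    refine dvd_sum fun i _ => ?_
    rw [← smul_sub, smul_eq_C_mul]
    exact dvd_mul_of_dvd_right (h.trans (sub_dvd_pow_sub_pow ψ ψ' i)) _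
  have := (h1.sub h2).add h3
  refine this.trans (dvd_of_eq ?_)
  ring

/-- First order Taylor formula. -/
lemma comp_taylor {n : ℕ} (hn : 1 ≤ n) (hψ : (X : ℝ⟦X⟧) ∣ ψ) (hχ : (X : ℝ⟦X⟧) ^ n ∣ χ) :
    (X : ℝ⟦X⟧) ^ (2 * n) ∣ comp g (ψ + χ) - comp g ψ - comp (d⁄dX ℝ g) ψ * χ := by
  have hXχ : (X : ℝ⟦X⟧) ∣ χ := (dvd_pow_self X (by omega)).trans hχ
  have h1 := comp_mod (g := g) (hψ.add hXχ) (2 * n + 1)
  have h2 := comp_mod (g := g) hψ (2 * n + 1)
  have h3 := comp_mod (g := d⁄dX ℝ g) hψ (2 * n)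
  have hχ2 : (X : ℝ⟦X⟧) ^ (2 * n) ∣ χ ^ 2 := by
    rw [mul_comm, pow_mul]
    exact pow_dvd_pow_of_dvd hχ 2
  have h4 : (X : ℝ⟦X⟧) ^ (2 * n) ∣ (∑ i ∈ range (2 * n + 1), coeff i g • (ψ + χ) ^ i)
      - (∑ i ∈ range (2 * n + 1), coeff i g • ψ ^ i)
      - (∑ i ∈ range (2 * n), coeff i (d⁄dX ℝ g) • ψ ^ i) * χ := by
    have e : (∑ i ∈ range (2 * n + 1), coeff i g • (ψ + χ) ^ i)
      - (∑ i ∈ range (2 * n + 1), coeff i g • ψ ^ i)
      - (∑ i ∈ range (2 * n), coeff i (d⁄dX ℝ g) • ψ ^ i) * χ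
      = ∑ i ∈ range (2 * n + 1), coeff i g • ((ψ + χ) ^ i - ψ ^ i - (i : ℝ⟦X⟧) * ψ ^ (i - 1) * χ) := by
      have e2 : (∑ i ∈ range (2 * n), coeff i (d⁄dX ℝ g) • ψ ^ i) * χ
          = ∑ i ∈ range (2 * n + 1), coeff i g • ((i : ℝ⟦X⟧) * ψ ^ (i - 1) * χ) := by
        rw [sum_range_succ', sum_mul]
        simp only [Nat.cast_zero, zero_mul, smul_zero, add_zero]
        refine sum_congr rfl fun i _ => ?_
        rw [coeff_derivative, Nat.add_sub_cancel]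
        simp only [smul_eq_C_mul, map_mul, map_add, map_one, map_natCast]
        push_cast
        ring
      rw [e2, ← sum_sub_distrib, ← sum_sub_distrib]
      refine sum_congr rfl fun i _ => ?_
      rw [smul_sub, smul_sub]
    rw [e]
    refine dvd_sum fun i _ => ?_
    rw [smul_eq_C_mul]
    refine dvd_mul_of_dvd_right ?_ _
    obtain ⟨k, hk⟩ := Polynomial.powAddExpansion ψ χ i
    rw [hk]
    have : ψ ^ i + (i : ℝ⟦X⟧) * ψ ^ (i - 1) * χ + k * χ ^ 2 - ψ ^ i - (i : ℝ⟦X⟧) * ψ ^ (i - 1) * χ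
      = k * χ ^ 2 := by ring
    rw [this]
    exact dvd_mul_of_dvd_right hχ2 _
  have h1' := (pow_dvd_pow (X : ℝ⟦X⟧) (show 2 * n ≤ 2 * n + 1 by omega)).trans h1
  have h2' := (pow_dvd_pow (X : ℝ⟦X⟧) (show 2 * n ≤ 2 * n + 1 by omega)).trans h2
  have := ((h1'.sub h2').sub (h3.mul_right χ)).add h4
  refine this.trans (dvd_of_eq ?_)
  ring

lemma rescale_comp (a : ℝ) (g ψ : ℝ⟦X⟧) : rescale a (comp g ψ) = comp g (rescale a ψ) := by
  ext m
  rw [coeff_rescale]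
  simp only [comp, coeff_mk, ← map_pow, coeff_rescale, mul_sum]
  refine sum_congr rfl fun i _ => ?_
  ring

lemma comp_rescale (a : ℝ) (g ψ : ℝ⟦X⟧) : comp (rescale a g) ψ = comp g (a • ψ) := by
  ext m
  simp only [comp, coeff_mk, coeff_rescale, _root_.smul_pow, coeff_smul, smul_eq_mul]
  refine sum_congr rfl fun i _ => ?_
  ring

/-- chain rule for the Euler operator -/
lemma Dr_comp (hψ : (X : ℝ⟦X⟧) ∣ ψ) : Dr (comp g ψ) = comp (d⁄dX ℝ g) ψ * Dr ψ := by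
  have Dr_pow : ∀ i : ℕ, Dr (ψ ^ i) = (i : ℝ⟦X⟧) * ψ ^ (i - 1) * Dr ψ := by
    intro i
    rw [Dr_eq, Dr_eq, derivative_pow]
    ring
  have key : ∀ N : ℕ, (X : ℝ⟦X⟧) ^ N ∣ Dr (comp g ψ) - comp (d⁄dX ℝ g) ψ * Dr ψ := by
    intro N
    have h1 := Dr_X_pow_dvd ((pow_dvd_pow (X : ℝ⟦X⟧) (show N ≤ N + 1 by omega)).trans
      (comp_mod (g := g) hψ (N + 1)))
    have h3 := comp_mod (g := d⁄dX ℝ g) hψ N
    have e : Dr (∑ i ∈ range (N + 1), coeff i g • ψ ^ i)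
        = (∑ i ∈ range N, coeff i (d⁄dX ℝ g) • ψ ^ i) * Dr ψ := by
      have e0 : Dr (∑ i ∈ range (N + 1), coeff i g • ψ ^ i)
          = ∑ i ∈ range (N + 1), coeff i g • Dr (ψ ^ i) := by
        have hz : Dr 0 = 0 := by ext m; simp [coeff_Dr]
        have : ∀ s : Finset ℕ, Dr (∑ i ∈ s, coeff i g • ψ ^ i) = ∑ i ∈ s, coeff i g • Dr (ψ ^ i) := by
          intro s
          classical
          induction s using Finset.induction_on with
          | empty => simpa using hz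
          | insert a s ha ih => rw [sum_insert ha, sum_insert ha, Dr_add, Dr_smul, ih]
        exact this _
      rw [e0, sum_range_succ', sum_mul]
      simp only [Dr_pow]
      simp only [Nat.cast_zero, zero_mul, smul_zero, add_zero]
      refine sum_congr rfl fun i _ => ?_
      rw [coeff_derivative, Nat.add_sub_cancel]
      simp only [smul_eq_C_mul, map_mul, map_add, map_one, map_natCast]
      push_cast
      ring
    rw [Dr_sub, e] at h1
    have := h1.sub (h3.mul_right (Dr ψ))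
    refine this.trans (dvd_of_eq ?_)
    ring
  ext m
  have := X_pow_dvd_iff.mp (key (m + 1)) m (Nat.lt_succ_self m)
  rwa [map_sub, sub_eq_zero] at this

lemma Bd.comp {ρ M M' : ℝ} (h0 : 0 ≤ ρ) (hX : (PowerSeries.X : ℝ⟦X⟧) ∣ ψ) (hψ : Bd ρ ψ M) (hg : Bd M g M') :
    Bd ρ (comp g ψ) M' := by
  intro N
  calc ∑ m ∈ range N, |coeff m (Helper43.Billiard.comp g ψ)| * ρ ^ m
      ≤ ∑ m ∈ range N, ∑ i ∈ range N, |coeff i g| * (|coeff m (ψ ^ i)| * ρ ^ m) := by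
        refine sum_le_sum fun m hm => ?_
        rw [coeff_comp hX (mem_range.mp hm)]
        calc |∑ i ∈ range N, coeff i g * coeff m (ψ ^ i)| * ρ ^ m
            ≤ (∑ i ∈ range N, |coeff i g * coeff m (ψ ^ i)|) * ρ ^ m :=
              mul_le_mul_of_nonneg_right (abs_sum_le_sum_abs _ _) (pow_nonneg h0 m)
          _ = _ := by
              rw [sum_mul]
              refine sum_congr rfl fun i _ => ?_
              rw [abs_mul]
              ring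
    _ = ∑ i ∈ range N, |coeff i g| * ∑ m ∈ range N, |coeff m (ψ ^ i)| * ρ ^ m := by
        rw [sum_comm]
        refine sum_congr rfl fun i _ => ?_
        rw [mul_sum]
    _ ≤ ∑ i ∈ range N, |coeff i g| * M ^ i :=
        sum_le_sum fun i _ => mul_le_mul_of_nonneg_left (hψ.pow h0 i N) (abs_nonneg _)
    _ ≤ M' := hg N

/-- difference of powers -/
lemma Bd.pow_sub_pow {ρ M M' : ℝ} {f g : ℝ⟦X⟧} (h0 : 0 ≤ ρ) (hf : Bd ρ f M) (hg : Bd ρ g M')
    (m : ℕ) : Bd ρ ((f + g) ^ m - f ^ m) ((M + M') ^ m - M ^ m) := by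
  induction m with
  | zero => simpa using Bd.zero
  | succ m ih =>
    have e1 : (f + g) ^ (m + 1) - f ^ (m + 1) = (f + g) * ((f + g) ^ m - f ^ m) + g * f ^ m := by
      ring
    have e2 : (M + M') ^ (m + 1) - M ^ (m + 1) = (M + M') * ((M + M') ^ m - M ^ m) + M' * M ^ m := by
      ring
    rw [e1, e2]
    exact ((hf.add hg h0).mul ih h0).add (hg.mul (hf.pow h0 m) h0) h0

end Helper43.Billiard
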