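import Pool.Agent.Helper43_Billiard.StepV

set_option autoImplicit false

/-! # The weighted Abel operator -/

namespace Helper43.Billiard

open PowerSeries Finset Real

/-! ### Integrals of cosines and sines -/

/-- `∫ cos^(2j) sin^(2l)` over a period -/
noncomputable def Icl (j l : ℕ) : ℝ := ∫ φ in (0 : ℝ)..(2 * π), cos φ ^ (2 * j) * sin φ ^ (2 * l)

lemma Icl_nonneg (j l : ℕ) : 0 ≤ Icl j l := by
  refine intervalIntegral.integral_nonneg Real.two_pi_pos.le fun φ _ => ?_
  rw [pow_mul, pow_mul]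
  positivity

lemma Icl_rec (j l : ℕ) : (2 * j + 2 * l + 2 : ℝ) * Icl j (l + 1) = (2 * l + 1) * Icl j l := by
  have h1 : ∀ φ ∈ Set.uIcc (0 : ℝ) (2 * π), HasDerivAt (fun φ => cos φ ^ (2 * j + 1) * sin φ ^ (2 * l + 1))
      ((2 * l + 1) * (cos φ ^ (2 * j) * sin φ ^ (2 * l))
        - (2 * j + 2 * l + 2) * (cos φ ^ (2 * j) * sin φ ^ (2 * (l + 1)))) φ := by
    intro φ _
    have h := ((hasDerivAt_cos φ).fun_pow (2 * j + 1)).fun_mul ((hasDerivAt_sin φ).fun_pow (2 * l + 1))
    refine h.congr_deriv ?_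
    rw [Nat.add_sub_cancel, Nat.add_sub_cancel]
    push_cast
    have hs : cos φ ^ 2 = 1 - sin φ ^ 2 := Real.cos_sq' φ
    have e1 : cos φ ^ (2 * j + 1) = cos φ ^ (2 * j) * cos φ := pow_succ _ _
    have e2 : sin φ ^ (2 * l + 1) = sin φ ^ (2 * l) * sin φ := pow_succ _ _
    have e3 : sin φ ^ (2 * (l + 1)) = sin φ ^ (2 * l) * sin φ ^ 2 := by rw [← pow_add]; ring_nf
    rw [e1, e2, e3]
    linear_combination ((2 * l + 1) * cos φ ^ (2 * j) * sin φ ^ (2 * l)) * hs
  have h2 := intervalIntegral.integral_eq_sub_of_hasDerivAt h1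
    (Continuous.intervalIntegrable (by fun_prop) _ _)
  rw [intervalIntegral.integral_sub, intervalIntegral.integral_const_mul,
    intervalIntegral.integral_const_mul] at h2
  · simp only [sin_two_pi, sin_zero, ne_eq, Nat.add_eq_zero_iff, mul_eq_zero, OfNat.ofNat_ne_zero,
      false_or, one_ne_zero, and_false, not_false_eq_true, zero_pow, mul_zero, sub_zero] at h2
    unfold Icl
    linarith
  · exact Continuous.intervalIntegrable (by fun_prop) _ _
  · exact Continuous.intervalIntegrable (by fun_prop) _ _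

lemma choose_Icl_le (j l : ℕ) : ((2 * j).choose l : ℝ) * Icl j l ≤ 2 ^ l * Icl j 0 := by
  induction l with
  | zero => simp
  | succ l ih =>
    have hI := Icl_nonneg j l
    have hI0 := Icl_nonneg j 0
    by_cases hl : 2 * j ≤ l
    · rw [Nat.choose_eq_zero_of_lt (by omega)]
      push_cast
      rw [zero_mul]
      positivity
    · push Not at hl
      have h1 := Icl_rec j l
      have h2 : ((2 * j).choose (l + 1) : ℝ) * (l + 1) = (2 * j).choose l * (2 * j - l) := by
        have := Nat.choose_succ_right_eq (2 * j) l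
        have h3 : (((2 * j).choose (l + 1) * (l + 1) : ℕ) : ℝ) = (((2 * j).choose l * (2 * j - l) : ℕ) : ℝ) := by
          rw [this]
        push_cast [Nat.cast_sub hl.le] at h3
        exact h3
      have hden : (0 : ℝ) < (2 * j + 2 * l + 2) * (l + 1) := by positivity
      have h4 : ((2 * j).choose (l + 1) : ℝ) * Icl j (l + 1) * ((2 * j + 2 * l + 2) * (l + 1))
          = ((2 * j).choose l * Icl j l) * ((2 * j - l) * (2 * l + 1)) := by
        calc ((2 * j).choose (l + 1) : ℝ) * Icl j (l + 1) * ((2 * j + 2 * l + 2) * (l + 1))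
            = ((2 * j).choose (l + 1) * (l + 1)) * ((2 * j + 2 * l + 2) * Icl j (l + 1)) := by ring
          _ = _ := by rw [h1, h2]; ring
      have hlj : (l : ℝ) ≤ 2 * j := by exact_mod_cast hl.le
      have h5 : ((2 * (j : ℝ) - l) * (2 * l + 1)) ≤ 2 * ((2 * j + 2 * l + 2) * (l + 1)) := by
        have hj0 : (0 : ℝ) ≤ j := Nat.cast_nonneg _
        have hl0 : (0 : ℝ) ≤ l := Nat.cast_nonneg _
        nlinarith
      have h6 : 0 ≤ ((2 * j).choose l : ℝ) * Icl j l := by positivity
      have h7 : ((2 * j).choose (l + 1) : ℝ) * Icl j (l + 1) * ((2 * j + 2 * l + 2) * (l + 1))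
          ≤ (2 ^ (l + 1) * Icl j 0) * ((2 * j + 2 * l + 2) * (l + 1)) := by
        rw [h4]
        calc ((2 * j).choose l * Icl j l) * ((2 * (j : ℝ) - l) * (2 * l + 1))
            ≤ ((2 * j).choose l * Icl j l) * (2 * ((2 * j + 2 * l + 2) * (l + 1))) :=
              mul_le_mul_of_nonneg_left h5 h6
          _ ≤ (2 ^ l * Icl j 0) * (2 * ((2 * j + 2 * l + 2) * (l + 1))) :=
              mul_le_mul_of_nonneg_right ih (by positivity)
          _ = _ := by ring
      exact le_of_mul_le_mul_right h7 hden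

/-- averages of even powers of cosine -/
noncomputable def cc (i : ℕ) : ℝ := (∫ φ in (0 : ℝ)..(2 * π), cos φ ^ i) / (2 * π)

lemma cc_even (j : ℕ) : cc (2 * j) = Icl j 0 / (2 * π) := by
  simp [cc, Icl]

lemma cc_rec (j : ℕ) : cc (2 * (j + 1)) = (2 * j + 1) / (2 * j + 2) * cc (2 * j) := by
  rw [cc_even, cc_even]
  have h1 := Icl_rec j 0
  have h2 : Icl (j + 1) 0 = Icl j 0 - Icl j 1 := by
    unfold Icl
    rw [← intervalIntegral.integral_sub]
    · congr 1
      ext φ
      have hs : cos φ ^ 2 = 1 - sin φ ^ 2 := Real.cos_sq' φ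
      have e3 : cos φ ^ (2 * (j + 1)) = cos φ ^ (2 * j) * cos φ ^ 2 := by rw [← pow_add]; ring_nf
      rw [e3, hs]
      ring
    · exact Continuous.intervalIntegrable (by fun_prop) _ _
    · exact Continuous.intervalIntegrable (by fun_prop) _ _
  have hj : (0 : ℝ) < 2 * j + 2 := by positivity
  have hpi := Real.two_pi_pos.ne'
  rw [h2]
  norm_num at h1
  have h3 : Icl j 1 = Icl j 0 / (2 * j + 2) := by
    field_simp
    linarith
  rw [h3]
  field_simp
  ring

lemma cc_zero : cc (2 * 0) = 1 := by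
  have hpi := Real.two_pi_pos.ne'
  simp [cc]

lemma cc_lower (j : ℕ) : 1 / (2 * j + 1 : ℝ) ≤ cc (2 * j) := by
  induction j with
  | zero => rw [cc_zero]; norm_num
  | succ j ih =>
    rw [cc_rec]
    push_cast
    have h1 : (0 : ℝ) < 2 * j + 1 := by positivity
    have h2 : (0 : ℝ) < 2 * j + 2 := by positivity
    calc 1 / (2 * (j + 1 : ℝ) + 1) ≤ 1 / (2 * j + 2) := by
          apply one_div_le_one_div_of_le h2
          linarith
      _ = (2 * j + 1) / (2 * j + 2) * (1 / (2 * j + 1)) := by field_simp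
      _ ≤ _ := mul_le_mul_of_nonneg_left ih (by positivity)

lemma cc_pos (j : ℕ) : 0 < cc (2 * j) := lt_of_lt_of_le (by positivity) (cc_lower j)

lemma int_weighted_le (j : ℕ) {ε : ℝ} (h0 : 0 ≤ ε) (h1 : 2 * ε < 1) :
    ∫ φ in (0 : ℝ)..(2 * π), cos φ ^ (2 * j) * (1 + ε * sin φ ^ 2) ^ (2 * j)
      ≤ Icl j 0 / (1 - 2 * ε) := by
  have e : ∀ φ : ℝ, cos φ ^ (2 * j) * (1 + ε * sin φ ^ 2) ^ (2 * j)
      = ∑ l ∈ range (2 * j + 1), (ε ^ l * (2 * j).choose l) * (cos φ ^ (2 * j) * sin φ ^ (2 * l)) := by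
    intro φ
    rw [add_comm (1 : ℝ), add_pow, mul_sum]
    refine sum_congr rfl fun l _ => ?_
    rw [one_pow, mul_one, mul_pow, ← pow_mul]
    ring
  simp only [e]
  rw [intervalIntegral.integral_finsetSum]
  · have hI0 := Icl_nonneg j 0
    calc ∑ l ∈ range (2 * j + 1), ∫ φ in (0 : ℝ)..(2 * π),
          (ε ^ l * (2 * j).choose l) * (cos φ ^ (2 * j) * sin φ ^ (2 * l))
        = ∑ l ∈ range (2 * j + 1), ε ^ l * ((2 * j).choose l * Icl j l) := by
          refine sum_congr rfl fun l _ => ?_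
          rw [intervalIntegral.integral_const_mul, mul_assoc]
          rfl
      _ ≤ ∑ l ∈ range (2 * j + 1), (2 * ε) ^ l * Icl j 0 := by
          refine sum_le_sum fun l _ => ?_
          calc ε ^ l * ((2 * j).choose l * Icl j l) ≤ ε ^ l * (2 ^ l * Icl j 0) :=
                mul_le_mul_of_nonneg_left (choose_Icl_le j l) (pow_nonneg h0 l)
            _ = _ := by rw [mul_pow]; ring
      _ = (∑ l ∈ range (2 * j + 1), (2 * ε) ^ l) * Icl j 0 := by rw [sum_mul]
      _ ≤ (1 / (1 - 2 * ε)) * Icl j 0 := by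
          refine mul_le_mul_of_nonneg_right ?_ hI0
          rw [geom_sum_eq (by linarith : 2 * ε ≠ 1)]
          have h3 : (0 : ℝ) < 1 - 2 * ε := by linarith
          have h4 : ((2 * ε) ^ (2 * j + 1) - 1) / (2 * ε - 1) = (1 - (2 * ε) ^ (2 * j + 1)) / (1 - 2 * ε) := by
            rw [← neg_div_neg_eq]
            congr 1 <;> ring
          rw [h4]
          apply div_le_div_of_nonneg_right _ h3.le
          have : 0 ≤ (2 * ε) ^ (2 * j + 1) := by positivity
          linarith
      _ = _ := by ring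
  · intro l _
    exact Continuous.intervalIntegrable (by fun_prop) _ _

/-! ### Triangular systems -/

open Classical in
/-- solution of a lower triangular system -/
noncomputable def triSol (P : ℕ → Prop) (t : ℕ → ℕ → ℝ) (b : ℕ → ℝ) : ℕ → ℝ
  | m => if P m then (b m - ∑ i : Fin m, t m i * triSol P t b i) / t m m else 0
termination_by m => m
decreasing_by exact i.2

lemma triSol_of_not {P : ℕ → Prop} {t : ℕ → ℕ → ℝ} {b : ℕ → ℝ} {m : ℕ} (h : ¬ P m) :
    triSol P t b m = 0 := by
  rw [triSol, if_neg h]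

lemma triSol_eq {P : ℕ → Prop} {t : ℕ → ℕ → ℝ} {b : ℕ → ℝ} {m : ℕ} (h : P m) (ht : t m m ≠ 0) :
    ∑ i ∈ range (m + 1), t m i * triSol P t b i = b m := by
  rw [sum_range_succ]
  conv_lhs => rw [triSol]
  rw [if_pos h, Finset.sum_range (fun i => t m i * triSol P t b i)]
  field_simp
  ring

lemma triSol_zero {P : ℕ → Prop} {t : ℕ → ℕ → ℝ} {b : ℕ → ℝ} {N : ℕ} (h : ∀ m < N, P m → b m = 0) :
    ∀ m < N, triSol P t b m = 0 := by
  intro m
  induction m using Nat.strong_induction_on with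
  | _ m ih =>
    intro hm
    rw [triSol]
    split_ifs with hP
    · rw [h m hm hP]
      have : ∑ i : Fin m, t m i * triSol P t b i = 0 := by
        refine Finset.sum_eq_zero fun i _ => ?_
        rw [ih i i.2 (lt_trans i.2 hm), mul_zero]
      rw [this]
      simp
    · rfl

end Helper43.Billiard
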