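import Pool.Agent.Helper43_Billiard.RealEL

set_option autoImplicit false

/-! # The angle function on the plane -/

namespace Helper43.Billiard

open PowerSeries Finset Real

variable {α s κ ρ η δ : ℝ} {Cc Vc h : ℝ⟦X⟧} {A : Fam} {K : ℕ}

lemma FSol.periodic (S : FSol α s κ δ η A h) : Function.Periodic A (2 * π) := by
  intro φ
  rw [two_mul, ← add_assoc, S.anti, S.anti, neg_neg]

/-- the angle function on the plane -/
noncomputable def az (δ : ℝ) (A : Fam) (z : ℂ) : ℝ := aR δ A ‖z‖ (Complex.arg z)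

lemma aR_zero (S : FSol α s κ δ η A h) (φ : ℝ) : aR δ A 0 φ = 0 := by
  rw [aR, ev_at_zero, coeff_zero_eq_constantCoeff_apply, X_dvd_iff.mp (S.X_dvd φ), mul_zero]

lemma az_polar (S : FSol α s κ δ η A h) {r : ℝ} (hr : 0 ≤ r) (φ : ℝ) :
    az δ A (r * Complex.exp (φ * Complex.I)) = aR δ A r φ := by
  rcases hr.eq_or_lt with rfl | hr
  · rw [Complex.ofReal_zero, zero_mul, az, norm_zero, aR_zero S, aR_zero S]
  · have hn : ‖(r : ℂ) * Complex.exp (φ * Complex.I)‖ = r := by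
      rw [norm_mul, Complex.norm_exp_ofReal_mul_I, mul_one, Complex.norm_real, Real.norm_eq_abs,
        abs_of_pos hr]
    rw [az, hn, Complex.arg_real_mul _ hr, Complex.arg_exp_mul_I, aR, aR]
    congr 2
    rw [toIocMod]
    exact S.periodic.sub_zsmul_eq _

lemma az_rot (S : FSol α s κ δ η A h) (z : ℂ) (t : ℝ) :
    az δ A (Complex.exp (t * Complex.I) * z) = aR δ A ‖z‖ (Complex.arg z + t) := by
  have : Complex.exp (t * Complex.I) * z
      = (‖z‖ : ℂ) * Complex.exp (((Complex.arg z + t : ℝ) : ℂ) * Complex.I) := by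
    conv_lhs => rw [← Complex.norm_mul_exp_arg_mul_I z]
    rw [Complex.ofReal_add, add_mul, Complex.exp_add]
    ring
  rw [this, az_polar S (norm_nonneg z)]

theorem az_EL (N : Num α s κ (1 / 2) η δ) (hδ : 0 < δ) (hδ1 : δ ≤ 1 / 64)
    (S : FSol α s κ δ η A h) {z : ℂ} (hz : ‖z‖ ≤ 1 / 2) {a ap am : ℝ} (ha : a = az δ A z)
    (hap : ap = az δ A (Complex.exp (α * Complex.I) * z))
    (ham : am = az δ A (Complex.exp (((-α : ℝ) : ℂ) * Complex.I) * z)) :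
    hr1 δ h ((a - ap) / 2) * cos ((a + ap) / 2) - hr κ δ h ((a - ap) / 2) * sin ((a + ap) / 2)
    = hr1 δ h ((am - a) / 2) * cos ((am + a) / 2) + hr κ δ h ((am - a) / 2) * sin ((am + a) / 2) := by
  rw [az_rot S] at hap ham
  rw [az] at ha
  rw [ha, hap, ham, ← sub_eq_add_neg]
  exact real_EL N hδ hδ1 S (by rw [abs_of_nonneg (norm_nonneg z)]; exact hz) _

/-! ### strict differentiability at the origin -/

lemma ev_radial {f : ℝ⟦X⟧} {M : ℝ} (hX : (X : ℝ⟦X⟧) ^ 3 ∣ f) (hf : Bd (1 / 2) (Dr f) M) {r₁ r₂ : ℝ}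
    (h0 : 0 ≤ r₁) (h12 : r₁ ≤ r₂) (h2 : r₂ ≤ 1 / 2) :
    |ev f r₂ - ev f r₁| ≤ 8 * r₂ ^ 2 * (r₂ - r₁) * M := by
  have hf0 : Bd (1 / 2) f M := by
    refine hf.of_coeff_le (by norm_num) fun m => ?_
    rcases Nat.eq_zero_or_pos m with hm | hm
    · subst hm
      rw [X_pow_dvd_iff.mp hX 0 (by norm_num), abs_zero]
      exact abs_nonneg _
    · rw [coeff_Dr, abs_mul, Nat.abs_cast]
      have : (1 : ℝ) ≤ m := by exact_mod_cast hm
      exact le_mul_of_one_le_left (abs_nonneg _) this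
  have a1 : |r₁| ≤ 1 / 2 := by rw [abs_of_nonneg h0]; linarith
  have a2 : |r₂| ≤ 1 / 2 := by rw [abs_of_nonneg (by linarith)]; exact h2
  rw [ev, ev, ← (hf0.summable a2).tsum_sub (hf0.summable a1)]
  have hs := (hf.summable_abs (by norm_num)).hasSum.mul_left (8 * r₂ ^ 2 * (r₂ - r₁))
  have hb := tsum_of_norm_bounded hs (f := fun m => coeff m f * r₂ ^ m - coeff m f * r₁ ^ m) fun m => ?_
  · rw [Real.norm_eq_abs] at hb
    refine hb.trans ?_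
    have h3 : ∑' m, |coeff m (Dr f)| * (1 / 2) ^ m ≤ M :=
      Real.tsum_le_of_sum_range_le (fun m => by positivity) hf
    refine mul_le_mul_of_nonneg_left h3 ?_
    have : 0 ≤ r₂ - r₁ := by linarith
    positivity
  · rw [← mul_sub, norm_mul, Real.norm_eq_abs, Real.norm_eq_abs]
    rcases Nat.lt_or_ge m 3 with hm | hm
    · rw [X_pow_dvd_iff.mp hX m hm, abs_zero, zero_mul]
      have : 0 ≤ r₂ - r₁ := by linarith
      positivity
    · have h4 := abs_pow_sub_pow_le r₂ r₁ m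
      rw [abs_of_nonneg (by linarith : 0 ≤ r₂ - r₁), abs_of_nonneg (h0.trans h12), abs_of_nonneg h0,
        max_eq_left h12] at h4
      have h5 : r₂ ^ (m - 1) ≤ 8 * r₂ ^ 2 * (1 / 2) ^ m := by
        obtain ⟨k, rfl⟩ : ∃ k, m = k + 3 := ⟨m - 3, by omega⟩
        have e1 : r₂ ^ (k + 3 - 1) = r₂ ^ 2 * r₂ ^ k := by
          rw [show k + 3 - 1 = 2 + k by omega, pow_add]
        have e2 : r₂ ^ k ≤ (1 / 2) ^ k := pow_le_pow_left₀ (h0.trans h12) h2 k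
        rw [e1]
        calc r₂ ^ 2 * r₂ ^ k ≤ r₂ ^ 2 * (1 / 2) ^ k := mul_le_mul_of_nonneg_left e2 (by positivity)
          _ = 8 * r₂ ^ 2 * (1 / 2) ^ (k + 3) := by rw [pow_add]; ring
      rw [coeff_Dr, abs_mul, Nat.abs_cast]
      have hc := abs_nonneg (coeff m f)
      have h6 : 0 ≤ r₂ - r₁ := by linarith
      calc |coeff m f| * |r₂ ^ m - r₁ ^ m| ≤ |coeff m f| * ((r₂ - r₁) * m * r₂ ^ (m - 1)) :=
            mul_le_mul_of_nonneg_left h4 hc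
        _ ≤ |coeff m f| * ((r₂ - r₁) * m * (8 * r₂ ^ 2 * (1 / 2) ^ m)) := by
            refine mul_le_mul_of_nonneg_left ?_ hc
            exact mul_le_mul_of_nonneg_left h5 (by positivity)
        _ = _ := by ring

lemma ev_angular {f g : ℝ⟦X⟧} {M B C : ℝ} (hX : (X : ℝ⟦X⟧) ^ 3 ∣ f) (hX' : (X : ℝ⟦X⟧) ^ 3 ∣ g)
    (hf : Bd (1 / 2) f M) (hg : Bd (1 / 2) g M) (hC : 0 ≤ C)
    (hd : ∀ m, |coeff m f - coeff m g| ≤ C * 2 ^ m * B) (hB : 0 ≤ B) {r : ℝ} (h0 : 0 ≤ r)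
    (hr : r ≤ 1 / 4) : |ev f r - ev g r| ≤ 128 * C * r ^ 3 * B := by
  have a1 : |r| ≤ 1 / 2 := by rw [abs_of_nonneg h0]; linarith
  rw [ev, ev, ← (hf.summable a1).tsum_sub (hg.summable a1)]
  have hgeo := (hasSum_geometric_of_lt_one (r := (1 : ℝ) / 2) (by norm_num) (by norm_num)).mul_left
    (64 * C * r ^ 3 * B)
  have hb := tsum_of_norm_bounded hgeo (f := fun m => coeff m f * r ^ m - coeff m g * r ^ m) fun m => ?_
  · rw [Real.norm_eq_abs] at hb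
    refine hb.trans (le_of_eq ?_)
    norm_num
    ring
  · rw [← sub_mul, norm_mul, Real.norm_eq_abs, Real.norm_eq_abs, abs_of_nonneg (pow_nonneg h0 m)]
    rcases Nat.lt_or_ge m 3 with hm | hm
    · rw [X_pow_dvd_iff.mp hX m hm, X_pow_dvd_iff.mp hX' m hm, sub_zero, abs_zero, zero_mul]
      positivity
    · obtain ⟨k, rfl⟩ : ∃ k, m = k + 3 := ⟨m - 3, by omega⟩
      have e2 : (2 * r) ^ k ≤ (1 / 2) ^ k := pow_le_pow_left₀ (by linarith) (by linarith) k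
      calc |coeff (k + 3) f - coeff (k + 3) g| * r ^ (k + 3)
          ≤ (C * 2 ^ (k + 3) * B) * r ^ (k + 3) := mul_le_mul_of_nonneg_right (hd _) (by positivity)
        _ = 8 * C * r ^ 3 * B * (2 * r) ^ k := by rw [pow_add, pow_add, mul_pow]; ring
        _ ≤ 8 * C * r ^ 3 * B * (1 / 2) ^ k := mul_le_mul_of_nonneg_left e2 (by positivity)
        _ = 64 * C * r ^ 3 * B * (1 / 2) ^ (k + 3) := by rw [pow_add]; ring

lemma coeff_lipschitz (S : FSol α s κ δ η A h) (m : ℕ) (φ₁ φ₂ : ℝ) :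
    |coeff m (A φ₂ - A0 φ₂) - coeff m (A φ₁ - A0 φ₁)| ≤ η * 2 ^ m * |φ₂ - φ₁| := by
  obtain ⟨K, hK⟩ := S.smooth m
  have hA0 : cf m A0 ∈ TP ((m + 0) * 1) := FamA_A0.cls m
  set F : ℝ → ℝ := fun φ => cf m A φ - cf m A0 φ with hF
  have hd : ∀ φ, HasDerivAt F (deriv (cf m A) φ - deriv (cf m A0) φ) φ := fun φ =>
    (TP_hasDerivAt hK φ).sub (TP_hasDerivAt hA0 φ)
  have hb : ∀ φ, ‖deriv F φ‖ ≤ η * 2 ^ m := by
    intro φ
    rw [(hd φ).deriv, Real.norm_eq_abs]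
    have h1 := (S.ctl.q0 φ).coeff_le (by norm_num) m
    rw [map_sub, coeff_Dp, ← Dp_A0, coeff_Dp] at h1
    have h2 : ((1 : ℝ) / 2) ^ m * 2 ^ m = 1 := by rw [← mul_pow]; norm_num
    calc |deriv (cf m A) φ - deriv (cf m A0) φ|
        = |deriv (cf m A) φ - deriv (cf m A0) φ| * (1 / 2) ^ m * 2 ^ m := by rw [mul_assoc, h2, mul_one]
      _ ≤ η * 2 ^ m := mul_le_mul_of_nonneg_right h1 (by positivity)
  have := Convex.norm_image_sub_le_of_norm_deriv_le (s := Set.univ) (f := F)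
    (fun x _ => (hd x).differentiableAt) (fun x _ => hb x) convex_univ (Set.mem_univ φ₁) (Set.mem_univ φ₂)
  rw [Real.norm_eq_abs, Real.norm_eq_abs] at this
  exact this

lemma az_add_im (S : FSol α s κ δ η A h) {r : ℝ} (hr : 0 ≤ r) (hr1 : r ≤ 1 / 2) (φ : ℝ) :
    az δ A (r * Complex.exp (φ * Complex.I)) + δ * ((r : ℂ) * Complex.exp (φ * Complex.I)).im
      = δ * ev (A φ - A0 φ) r := by
  rw [az_polar S hr, aR]
  have a1 : |r| ≤ 1 / 2 := by rw [abs_of_nonneg hr]; exact hr1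
  have b0 : Bd (1 / 2) (A0 φ) (1 / 2) := Bd_A0 (by norm_num) φ
  have b1 : Bd (1 / 2) (A φ) (1 / 2 + η) := by
    have := b0.add (S.ctl.a0 φ) (by norm_num)
    rwa [add_sub_cancel] at this
  have e0 : ev (A0 φ) r = -sin φ * r := by
    rw [A0, ← smul_eq_C_mul, ev_smul]
    congr 1
    rw [ev, tsum_eq_single 1]
    · simp
    · intro m hm; rw [coeff_X, if_neg hm, zero_mul]
  have him : ((r : ℂ) * Complex.exp (φ * Complex.I)).im = r * sin φ := by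
    rw [Complex.im_ofReal_mul, Complex.exp_ofReal_mul_I_im]
  rw [ev_sub b1 b0 a1, e0, him]
  ring

lemma polar_diff {r₁ r₂ φ Δ : ℝ} (h0 : 0 ≤ r₁) (h12 : r₁ ≤ r₂) (hΔ : |Δ| ≤ π) {z w : ℂ}
    (hz : z = r₁ * Complex.exp (((φ + Δ : ℝ) : ℂ) * Complex.I))
    (hw : w = r₂ * Complex.exp ((φ : ℂ) * Complex.I)) :
    r₁ * |Δ| ≤ 2 * ‖z - w‖ ∧ r₂ - r₁ ≤ ‖z - w‖ := by
  have hzn : ‖z‖ = r₁ := by
    rw [hz, norm_mul, Complex.norm_exp_ofReal_mul_I, mul_one, Complex.norm_real, Real.norm_eq_abs,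
      abs_of_nonneg h0]
  have hwn : ‖w‖ = r₂ := by
    rw [hw, norm_mul, Complex.norm_exp_ofReal_mul_I, mul_one, Complex.norm_real, Real.norm_eq_abs,
      abs_of_nonneg (h0.trans h12)]
  have hsq : ‖z - w‖ ^ 2 = r₁ ^ 2 + r₂ ^ 2 - 2 * r₁ * r₂ * cos Δ := by
    rw [← Complex.normSq_eq_norm_sq, Complex.normSq_apply, Complex.sub_re, Complex.sub_im, hz, hw,
      Complex.re_ofReal_mul, Complex.re_ofReal_mul, Complex.im_ofReal_mul, Complex.im_ofReal_mul,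
      Complex.exp_ofReal_mul_I_re, Complex.exp_ofReal_mul_I_re, Complex.exp_ofReal_mul_I_im,
      Complex.exp_ofReal_mul_I_im, cos_add, sin_add]
    have h1 := Real.sin_sq_add_cos_sq φ
    have h2 := Real.sin_sq_add_cos_sq Δ
    linear_combination (r₁ ^ 2 * (sin Δ ^ 2 + cos Δ ^ 2) + r₂ ^ 2 - 2 * r₁ * r₂ * cos Δ) * h1
      + r₁ ^ 2 * h2
  have hn0 := norm_nonneg (z - w)
  have hcos := cos_le_one Δ
  constructor
  · have h1 : 4 * (r₁ * sin (Δ / 2)) ^ 2 ≤ ‖z - w‖ ^ 2 := by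
      have h3 : cos Δ = 1 - 2 * sin (Δ / 2) ^ 2 := by
        have := Real.cos_two_mul (Δ / 2)
        rw [show 2 * (Δ / 2) = Δ by ring] at this
        have h4 := Real.sin_sq_add_cos_sq (Δ / 2)
        linarith
      rw [hsq, h3]
      have h5 : 0 ≤ sin (Δ / 2) ^ 2 := sq_nonneg _
      nlinarith [mul_nonneg (mul_nonneg h0 (sub_nonneg.mpr h12)) h5, sq_nonneg (r₂ - r₁)]
    have h2 : 2 * (r₁ * |sin (Δ / 2)|) ≤ ‖z - w‖ := by
      refine abs_le_of_sq_le_sq' ?_ hn0 |>.2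
      rw [mul_pow, mul_pow, sq_abs]
      nlinarith
    have h3 : 2 / π * |Δ / 2| ≤ |sin (Δ / 2)| := by
      refine mul_abs_le_abs_sin ?_
      rw [abs_div, abs_two]
      linarith
    have h4 : |Δ| / π ≤ |sin (Δ / 2)| := by
      refine le_trans (le_of_eq ?_) h3
      rw [abs_div, abs_two]
      ring
    have h5 : |Δ| ≤ 4 * |sin (Δ / 2)| := by
      rw [div_le_iff₀ Real.pi_pos] at h4
      have := Real.pi_le_four
      nlinarith [abs_nonneg (sin (Δ / 2))]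
    nlinarith [mul_le_mul_of_nonneg_left h5 h0]
  · have := norm_sub_norm_le w z
    rw [hzn, hwn, norm_sub_rev] at this
    exact this

lemma az_diff (S : FSol α s κ δ η A h) (hδ : 0 < δ) (hη : 0 ≤ η) {z w : ℂ} (hzw : ‖z‖ ≤ ‖w‖)
    (hw : ‖w‖ ≤ 1 / 4) :
    |(az δ A z + δ * z.im) - (az δ A w + δ * w.im)| ≤ 264 * δ * η * ‖w‖ ^ 2 * ‖z - w‖ := by
  by_cases hw0 : w = 0
  · subst hw0
    rw [norm_zero] at hzw
    have hz0 : z = 0 := norm_le_zero_iff.mp hzw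
    subst hz0
    simp
  set Δ := Complex.arg (z / w) with hΔ
  set φ := Complex.arg w with hφ
  have hwp : w = (‖w‖ : ℝ) * Complex.exp ((φ : ℂ) * Complex.I) := (Complex.norm_mul_exp_arg_mul_I w).symm
  have hzp : z = (‖z‖ : ℝ) * Complex.exp (((φ + Δ : ℝ) : ℂ) * Complex.I) := by
    have h1 : z = w * (z / w) := by field_simp
    have h2 : z / w = (‖z / w‖ : ℝ) * Complex.exp ((Δ : ℂ) * Complex.I) :=
      (Complex.norm_mul_exp_arg_mul_I _).symm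
    have hwn : (‖w‖ : ℂ) ≠ 0 := by exact_mod_cast norm_ne_zero_iff.mpr hw0
    calc z = w * (z / w) := h1
      _ = ((‖w‖ : ℝ) * Complex.exp ((φ : ℂ) * Complex.I)) * ((‖z / w‖ : ℝ) * Complex.exp ((Δ : ℂ) * Complex.I)) := by
          rw [← hwp, ← h2]
      _ = _ := by
          rw [norm_div, Complex.ofReal_add, add_mul, Complex.exp_add]
          push_cast
          field_simp
  obtain ⟨hd1, hd2⟩ := polar_diff (norm_nonneg z) hzw (Complex.abs_arg_le_pi _) hzp hwp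
  have hz4 : ‖z‖ ≤ 1 / 4 := hzw.trans hw
  have e1 := az_add_im S (norm_nonneg z) (by linarith) (φ + Δ)
  have e2 := az_add_im S (norm_nonneg w) (by linarith) φ
  rw [← hzp] at e1
  rw [← hwp] at e2
  rw [e1, e2, ← mul_sub, abs_mul, abs_of_pos hδ]
  have hDr : ∀ φ, Bd (1 / 2) (Dr (A φ - A0 φ)) η := fun φ => by
    have := S.ctl.p0 φ
    rwa [show A0 φ = Dr (A0 φ) by rw [A0, Dr_C_mul_X], ← Dr_sub] at this
  have b1 := ev_radial (S.lead φ) (hDr φ) (norm_nonneg z) hzw (by linarith)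
  have b2 := ev_angular (f := A (φ + Δ) - A0 (φ + Δ)) (g := A φ - A0 φ) (M := η) (B := |Δ|) (C := η)
    (S.lead _) (S.lead _) (S.ctl.a0 _) (S.ctl.a0 _) hη (fun m => by
      have := coeff_lipschitz S m φ (φ + Δ)
      rwa [add_sub_cancel_left] at this) (abs_nonneg _) (norm_nonneg z) hz4
  have key : |ev (A (φ + Δ) - A0 (φ + Δ)) ‖z‖ - ev (A φ - A0 φ) ‖w‖|
      ≤ 264 * η * ‖w‖ ^ 2 * ‖z - w‖ := by
    have h1 : |ev (A (φ + Δ) - A0 (φ + Δ)) ‖z‖ - ev (A φ - A0 φ) ‖w‖|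
        ≤ |ev (A (φ + Δ) - A0 (φ + Δ)) ‖z‖ - ev (A φ - A0 φ) ‖z‖|
          + |ev (A φ - A0 φ) ‖w‖ - ev (A φ - A0 φ) ‖z‖| := by
      have := abs_sub_le (ev (A (φ + Δ) - A0 (φ + Δ)) ‖z‖) (ev (A φ - A0 φ) ‖z‖) (ev (A φ - A0 φ) ‖w‖)
      rwa [abs_sub_comm (ev (A φ - A0 φ) ‖z‖) (ev (A φ - A0 φ) ‖w‖)] at this
    have hz0 := norm_nonneg z
    have hn0 := norm_nonneg (z - w)
    have h2 : ‖z‖ ^ 2 ≤ ‖w‖ ^ 2 := pow_le_pow_left₀ hz0 hzw 2
    have h3 : 128 * η * ‖z‖ ^ 3 * |Δ| ≤ 256 * η * ‖w‖ ^ 2 * ‖z - w‖ := by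
      calc 128 * η * ‖z‖ ^ 3 * |Δ| = 128 * η * ‖z‖ ^ 2 * (‖z‖ * |Δ|) := by ring
        _ ≤ 128 * η * ‖z‖ ^ 2 * (2 * ‖z - w‖) := mul_le_mul_of_nonneg_left hd1 (by positivity)
        _ = ‖z‖ ^ 2 * (256 * η * ‖z - w‖) := by ring
        _ ≤ ‖w‖ ^ 2 * (256 * η * ‖z - w‖) := mul_le_mul_of_nonneg_right h2 (by positivity)
        _ = _ := by ring
    have h4 : 8 * ‖w‖ ^ 2 * (‖w‖ - ‖z‖) * η ≤ 8 * η * ‖w‖ ^ 2 * ‖z - w‖ := by
      calc 8 * ‖w‖ ^ 2 * (‖w‖ - ‖z‖) * η = 8 * η * ‖w‖ ^ 2 * (‖w‖ - ‖z‖) := by ring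
        _ ≤ _ := mul_le_mul_of_nonneg_left hd2 (by positivity)
    linarith
  calc δ * |ev (A (φ + Δ) - A0 (φ + Δ)) ‖z‖ - ev (A φ - A0 φ) ‖w‖|
      ≤ δ * (264 * η * ‖w‖ ^ 2 * ‖z - w‖) := mul_le_mul_of_nonneg_left key hδ.le
    _ = _ := by ring

theorem az_strict (S : FSol α s κ δ η A h) (hδ : 0 < δ) (hη : 0 ≤ η) :
    HasStrictFDerivAt (az δ A) ((-δ) • Complex.imCLM) 0 := by
  rw [hasStrictFDerivAt_iff_isLittleO, Asymptotics.isLittleO_iff]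
  intro c hc
  set C := 264 * δ * η with hC
  have hC0 : 0 ≤ C := by positivity
  obtain ⟨ε, hε0, hε4, hεc⟩ : ∃ ε : ℝ, 0 < ε ∧ ε ≤ 1 / 4 ∧ C * ε ≤ c := by
    refine ⟨min (1 / 4) (c / (C + 1)), lt_min (by norm_num) (by positivity), min_le_left _ _, ?_⟩
    calc C * min (1 / 4) (c / (C + 1)) ≤ C * (c / (C + 1)) :=
          mul_le_mul_of_nonneg_left (min_le_right _ _) hC0
      _ ≤ c := by
          rw [mul_div_assoc', div_le_iff₀ (by positivity)]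
          nlinarith
  have hball : Metric.ball ((0 : ℂ), (0 : ℂ)) ε ∈ nhds ((0 : ℂ), (0 : ℂ)) := Metric.ball_mem_nhds _ hε0
  filter_upwards [hball] with p hp
  rw [Metric.mem_ball, Prod.dist_eq, max_lt_iff] at hp
  simp only [dist_zero_right] at hp
  have main : ∀ z w : ℂ, ‖z‖ ≤ ‖w‖ → ‖w‖ < ε →
      |(az δ A z + δ * z.im) - (az δ A w + δ * w.im)| ≤ c * ‖z - w‖ := by
    intro z w hzw hw
    refine (az_diff S hδ hη hzw (by linarith)).trans ?_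
    refine mul_le_mul_of_nonneg_right ?_ (norm_nonneg _)
    have h1 : ‖w‖ ^ 2 ≤ ε := by nlinarith [norm_nonneg w]
    calc 264 * δ * η * ‖w‖ ^ 2 ≤ C * ε := mul_le_mul_of_nonneg_left h1 hC0
      _ ≤ c := hεc
  have e : az δ A p.1 - az δ A p.2 - ((-δ) • Complex.imCLM) (p.1 - p.2)
      = (az δ A p.1 + δ * p.1.im) - (az δ A p.2 + δ * p.2.im) := by
    simp only [_root_.smul_apply, Complex.imCLM_apply, Complex.sub_im, smul_eq_mul]
    ring
  rw [e, Real.norm_eq_abs]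
  rcases le_total ‖p.1‖ ‖p.2‖ with hle | hle
  · exact main _ _ hle hp.2
  · rw [abs_sub_comm, norm_sub_rev]
    exact main _ _ hle hp.1

end Helper43.Billiard
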