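import Pool.Agent.Helper43_Billiard.Degree
import Pool.Agent.Helper43_Billiard.ZFun

set_option autoImplicit false

/-! # Real-analyticity of the angle function -/

namespace Helper43.Billiard

open PowerSeries Finset Real

variable {α s κ ρ η δ : ℝ} {Cc Vc h : ℝ⟦X⟧} {A : Fam} {K : ℕ}

/-- the multilinear map behind the monomial `Im (z ^ P * conj z ^ (m - P))` -/
noncomputable def mono (m P : ℕ) : ContinuousMultilinearMap ℝ (fun _ : Fin m => ℂ) ℝ :=
  Complex.imCLM.compContinuousMultilinearMap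
    ((ContinuousMultilinearMap.mkPiAlgebraFin ℝ m ℂ).compContinuousLinearMap
      (fun i => if (i : ℕ) < P then ContinuousLinearMap.id ℝ ℂ else (Complex.conjCLE : ℂ →L[ℝ] ℂ)))

lemma prod_range_ite (z w : ℂ) (P d : ℕ) :
    ∏ i ∈ range (P + d), (if i < P then z else w) = z ^ P * w ^ d := by
  induction d with
  | zero =>
    rw [add_zero, pow_zero, mul_one, prod_congr rfl (g := fun _ => z), prod_const, card_range]
    intro i hi
    rw [if_pos (mem_range.mp hi)]
  | succ d ih =>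
    rw [← add_assoc, prod_range_succ, ih, if_neg (by omega), pow_succ, mul_assoc]

lemma mono_apply {m P : ℕ} (hP : P ≤ m) (z : ℂ) :
    mono m P (fun _ => z) = (z ^ P * (starRingEnd ℂ) z ^ (m - P)).im := by
  obtain ⟨d, rfl⟩ := Nat.exists_eq_add_of_le hP
  rw [mono, ContinuousLinearMap.compContinuousMultilinearMap_coe, Function.comp_apply,
    ContinuousMultilinearMap.compContinuousLinearMap_apply, ContinuousMultilinearMap.mkPiAlgebraFin_apply,
    List.prod_ofFn, Complex.imCLM_apply, Nat.add_sub_cancel_left, ← prod_range_ite,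
    ← Fin.prod_univ_eq_prod_range]
  congr 1
  refine prod_congr rfl fun i _ => ?_
  split_ifs
  · rfl
  · simp

lemma norm_mono_le (m P : ℕ) : ‖mono m P‖ ≤ 1 := by
  refine (ContinuousLinearMap.norm_compContinuousMultilinearMap_le _ _).trans ?_
  rw [Complex.imCLM_norm, one_mul]
  refine (ContinuousMultilinearMap.norm_compContinuousLinearMap_le _ _).trans ?_
  have h1 : ‖ContinuousMultilinearMap.mkPiAlgebraFin ℝ m ℂ‖ ≤ 1 := by
    refine (ContinuousMultilinearMap.norm_mkPiAlgebraFin_le).trans ?_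
    simp
  have h2 : ∏ i : Fin m, ‖(if (i : ℕ) < P then ContinuousLinearMap.id ℝ ℂ else (Complex.conjCLE : ℂ →L[ℝ] ℂ))‖ ≤ 1 := by
    refine prod_le_one (fun i _ => norm_nonneg _) fun i _ => ?_
    split_ifs
    · exact ContinuousLinearMap.norm_id_le
    · rw [Complex.conjCLE_norm]
  calc _ ≤ 1 * 1 := mul_le_mul h1 h2 (prod_nonneg fun i _ => norm_nonneg _) zero_le_one
    _ = 1 := one_mul 1

lemma im_mono (z : ℂ) (Q j : ℕ) :
    (z ^ (Q + j) * (starRingEnd ℂ) z ^ Q).im = ‖z‖ ^ (2 * Q + j) * sin (j * Complex.arg z) := by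
  have h1 : z ^ (Q + j) * (starRingEnd ℂ) z ^ Q = ((‖z‖ ^ (2 * Q) : ℝ) : ℂ) * z ^ j := by
    rw [pow_add, mul_right_comm, ← mul_pow, Complex.mul_conj, Complex.normSq_eq_norm_sq, pow_mul]
    push_cast
    ring
  have h2 : z ^ j = ((‖z‖ ^ j : ℝ) : ℂ) * Complex.exp (((j * Complex.arg z : ℝ) : ℂ) * Complex.I) := by
    conv_lhs => rw [← Complex.norm_mul_exp_arg_mul_I z]
    rw [mul_pow, ← Complex.exp_nat_mul]
    push_cast
    congr 2
    ring
  rw [h1, Complex.im_ofReal_mul, h2, Complex.im_ofReal_mul, Complex.exp_ofReal_mul_I_im, pow_add]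
  ring

/-- Fourier representation of the coefficients -/
lemma exists_rep (S : FSol α s κ δ η A h) (hdeg : ∀ m, cf m A ∈ TP m) {M : ℝ}
    (hM : ∀ φ, Bd (1 / 2) (A φ) M) (m : ℕ) :
    ∃ b : ℕ → ℝ, (∀ k < m, |b k| ≤ 2 * (M * 2 ^ m)) ∧ ∀ φ, cf m A φ
      = ∑ k ∈ range m, if Odd m ∧ Odd (k + 1) then b k * sin ((k + 1 : ℕ) * φ) else 0 := by
  obtain ⟨a₀, a, b, h⟩ := exists_fourier (hdeg m)
  have hbd : ∀ φ, |cf m A φ| ≤ M * 2 ^ m := by
    intro φ
    have h1 := abs_coeff_le_div (by norm_num : (0 : ℝ) < 1 / 2) (hM φ) m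
    refine h1.trans (le_of_eq ?_)
    rw [one_div, inv_pow, div_inv_eq_mul]
  refine ⟨b, fun k hk => fourier_bound_sin h hbd hk, fun φ => ?_⟩
  have hodd : ∀ φ, cf m A (-φ) = -cf m A φ := fun φ => by
    simp only [cf, S.odd, map_neg]
  have hanti : ∀ φ, cf m A (φ + π) = -cf m A φ := fun φ => by
    simp only [cf, S.anti, map_neg]
  rcases Nat.even_or_odd m with hm | hm
  · have h0 : cf m A φ = 0 := oddS_iff.mp (S.rodd φ) m hm
    rw [h0]
    symm
    refine sum_eq_zero fun k _ => ?_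
    rw [if_neg]
    rintro ⟨h1, -⟩
    exact (Nat.not_even_iff_odd.mpr h1) hm
  · have e1 : cf m A φ = (cf m A φ - cf m A (-φ) - cf m A (φ + π) + cf m A (-φ + π)) / 4 := by
      rw [hanti, hanti, hodd]; ring
    rw [e1, h, h, h, h]
    simp only [tsum']
    rw [show a₀ + ∑ k ∈ range m, (a k * cos ((k + 1 : ℕ) * φ) + b k * sin ((k + 1 : ℕ) * φ))
        - (a₀ + ∑ k ∈ range m, (a k * cos ((k + 1 : ℕ) * (-φ)) + b k * sin ((k + 1 : ℕ) * (-φ))))
        - (a₀ + ∑ k ∈ range m, (a k * cos ((k + 1 : ℕ) * (φ + π)) + b k * sin ((k + 1 : ℕ) * (φ + π))))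
        + (a₀ + ∑ k ∈ range m, (a k * cos ((k + 1 : ℕ) * (-φ + π)) + b k * sin ((k + 1 : ℕ) * (-φ + π))))
      = ∑ k ∈ range m, (a k * cos ((k + 1 : ℕ) * φ) + b k * sin ((k + 1 : ℕ) * φ)
        - (a k * cos ((k + 1 : ℕ) * (-φ)) + b k * sin ((k + 1 : ℕ) * (-φ)))
        - (a k * cos ((k + 1 : ℕ) * (φ + π)) + b k * sin ((k + 1 : ℕ) * (φ + π)))
        + (a k * cos ((k + 1 : ℕ) * (-φ + π)) + b k * sin ((k + 1 : ℕ) * (-φ + π)))) by
        rw [sum_add_distrib (f := fun k => a k * cos ((k + 1 : ℕ) * φ) + b k * sin ((k + 1 : ℕ) * φ)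
            - (a k * cos ((k + 1 : ℕ) * (-φ)) + b k * sin ((k + 1 : ℕ) * (-φ)))
            - (a k * cos ((k + 1 : ℕ) * (φ + π)) + b k * sin ((k + 1 : ℕ) * (φ + π)))),
          sum_sub_distrib (f := fun k => a k * cos ((k + 1 : ℕ) * φ) + b k * sin ((k + 1 : ℕ) * φ)
            - (a k * cos ((k + 1 : ℕ) * (-φ)) + b k * sin ((k + 1 : ℕ) * (-φ)))), sum_sub_distrib]
        ring, sum_div]
    refine sum_congr rfl fun k _ => ?_
    have f1 : ((k + 1 : ℕ) : ℝ) * (φ + π) = (k + 1 : ℕ) * φ + (k + 1 : ℕ) * π := by ring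
    have f2 : ((k + 1 : ℕ) : ℝ) * (-φ + π) = -((k + 1 : ℕ) * φ) + (k + 1 : ℕ) * π := by ring
    have f3 : ((k + 1 : ℕ) : ℝ) * (-φ) = -((k + 1 : ℕ) * φ) := by ring
    rw [f1, f2, f3, cos_add_nat_mul_pi, sin_add_nat_mul_pi, cos_add_nat_mul_pi, sin_add_nat_mul_pi,
      cos_neg, sin_neg]
    rcases Nat.even_or_odd (k + 1) with hk | hk
    · rw [if_neg (fun h => (Nat.not_even_iff_odd.mpr h.2) hk), hk.neg_one_pow]
      ring
    · rw [if_pos ⟨hm, hk⟩, hk.neg_one_pow]
      ring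

theorem az_analytic (S : FSol α s κ δ η A h) (hdeg : ∀ m, cf m A ∈ TP m) {M : ℝ}
    (hM : ∀ φ, Bd (1 / 2) (A φ) M) : AnalyticAt ℝ (az δ A) 0 := by
  have hM0 := (hM 0).nonneg
  choose b hb hrep using exists_rep S hdeg hM
  set p : FormalMultilinearSeries ℝ ℂ ℝ := fun m =>
    δ • ∑ k ∈ range m, (if Odd m ∧ Odd (k + 1) then b m k • mono m ((m + (k + 1)) / 2) else 0) with hp
  have hpa : ∀ (m : ℕ) (z : ℂ), p m (fun _ => z) = δ * (coeff m (A (Complex.arg z)) * ‖z‖ ^ m) := by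
    intro m z
    have h1 : coeff m (A (Complex.arg z)) = ∑ k ∈ range m, if Odd m ∧ Odd (k + 1) then
        b m k * sin ((k + 1 : ℕ) * Complex.arg z) else 0 := hrep m _
    rw [h1]
    simp only [hp, _root_.smul_apply, _root_.sum_apply, smul_eq_mul]
    congr 1
    rw [sum_mul]
    refine sum_congr rfl fun k hk => ?_
    rw [mem_range] at hk
    split_ifs with hc
    · obtain ⟨⟨i, hi⟩, ⟨l, hl⟩⟩ := hc
      have hP : (m + (k + 1)) / 2 = (i - l) + (k + 1) := by omega
      have hPm : (m + (k + 1)) / 2 ≤ m := by omega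
      have hQ : m - (m + (k + 1)) / 2 = i - l := by omega
      rw [_root_.smul_apply, mono_apply hPm, hQ, hP, im_mono, smul_eq_mul]
      have : 2 * (i - l) + (k + 1) = m := by omega
      rw [this]
      ring
    · rw [_root_.zero_apply, zero_mul]
  have hpn : ∀ m, ‖p m‖ ≤ |δ| * (m * (2 * (M * 2 ^ m))) := by
    intro m
    simp only [hp]
    rw [norm_smul, Real.norm_eq_abs]
    refine mul_le_mul_of_nonneg_left ?_ (abs_nonneg _)
    refine (norm_sum_le _ _).trans ?_
    calc ∑ k ∈ range m, ‖(if Odd m ∧ Odd (k + 1) then b m k • mono m ((m + (k + 1)) / 2) else 0)‖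
        ≤ ∑ k ∈ range m, 2 * (M * 2 ^ m) := by
          refine sum_le_sum fun k hk => ?_
          rw [mem_range] at hk
          split_ifs
          · rw [norm_smul, Real.norm_eq_abs]
            calc |b m k| * ‖mono m ((m + (k + 1)) / 2)‖ ≤ (2 * (M * 2 ^ m)) * 1 :=
                  mul_le_mul (hb m k hk) (norm_mono_le _ _) (norm_nonneg _) (by positivity)
              _ = _ := mul_one _
          · rw [norm_zero]; positivity
      _ = m * (2 * (M * 2 ^ m)) := by rw [sum_const, card_range, nsmul_eq_mul]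
  have hrad : ((1 / 4 : NNReal) : ENNReal) ≤ p.radius := by
    refine p.le_radius_of_bound (|δ| * (2 * M)) fun m => ?_
    refine (mul_le_mul_of_nonneg_right (hpn m) (by positivity)).trans ?_
    have h1 : ((1 / 4 : NNReal) : ℝ) = 1 / 4 := by norm_num
    rw [h1]
    have h2 : (m : ℝ) * (1 / 2) ^ m ≤ 1 := by
      have h3 : (m : ℝ) ≤ 2 ^ m := by exact_mod_cast Nat.lt_two_pow_self.le
      calc (m : ℝ) * (1 / 2) ^ m ≤ 2 ^ m * (1 / 2) ^ m := mul_le_mul_of_nonneg_right h3 (by positivity)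
        _ = 1 := by rw [← mul_pow]; norm_num
    have h4 : ((2 : ℝ)) ^ m * (1 / 4) ^ m = (1 / 2) ^ m := by rw [← mul_pow]; norm_num
    calc |δ| * (m * (2 * (M * 2 ^ m))) * (1 / 4) ^ m = |δ| * (2 * M) * (m * (2 ^ m * (1 / 4) ^ m)) := by ring
      _ = |δ| * (2 * M) * (m * (1 / 2) ^ m) := by rw [h4]
      _ ≤ |δ| * (2 * M) * 1 := mul_le_mul_of_nonneg_left h2 (by positivity)
      _ = _ := mul_one _
  have hball : HasFPowerSeriesOnBall (az δ A) p 0 ((1 / 4 : NNReal) : ENNReal) :=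
    { r_le := hrad
      r_pos := by norm_num
      hasSum := by
        intro y hy
        rw [zero_add]
        have hy' : ‖y‖ ≤ 1 / 2 := by
          rw [Metric.mem_eball, edist_dist, dist_zero_right] at hy
          have h1 := (ENNReal.ofReal_lt_coe_iff (norm_nonneg y)).mp hy
          have h2 : ((1 / 4 : NNReal) : ℝ) = 1 / 4 := by norm_num
          rw [h2] at h1
          linarith
        have hs := ((hM (Complex.arg y)).summable (x := ‖y‖)
          (by rw [abs_of_nonneg (norm_nonneg y)]; exact hy')).hasSum.mul_left δ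
        have e1 : (fun n => p n fun _ => y) = fun m => δ * (coeff m (A (Complex.arg y)) * ‖y‖ ^ m) :=
          funext fun m => hpa m y
        rw [e1]
        exact hs }
  exact hball.analyticAt

end Helper43.Billiard
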