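import Pool.Agent.Helper43_Billiard.Domain

set_option autoImplicit false

/-! # The billiard map of the table -/

namespace Helper43.Billiard

open Real Set

variable {ϱ : ℝ → ℝ} {y₀ : ℝ}

lemma inner_eq (v w : ℂ) : inner ℝ v w = v.re * w.re + v.im * w.im := by
  rw [Complex.inner, Complex.mul_re, Complex.conj_re, Complex.conj_im]; ring

lemma norm_one_iff (d : ℂ) : ‖d‖ = 1 ↔ d.re ^ 2 + d.im ^ 2 = 1 := by
  have h : ‖d‖ ^ 2 = d.re ^ 2 + d.im ^ 2 := by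
    rw [← Complex.normSq_eq_norm_sq, Complex.normSq_apply]; ring
  constructor
  · intro h1; rw [← h, h1]; norm_num
  · intro h1
    rw [h1] at h
    nlinarith [norm_nonneg d]

lemma onLine_iff (ℓ : ℂ × ℝ) (x : ℂ) : OnLine ℓ x ↔ ℓ.1.re * x.im - ℓ.1.im * x.re = ℓ.2 := by
  rw [OnLine, Complex.mul_im, Complex.conj_re, Complex.conj_im]
  constructor <;> intro h <;> linarith

lemma onLine_param {ℓ : ℂ × ℝ} (hd : ‖ℓ.1‖ = 1) {x y : ℂ} (hx : OnLine ℓ x) (hy : OnLine ℓ y) :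
    ∃ t : ℝ, y = x + t • ℓ.1 := by
  rw [onLine_iff] at hx hy
  rw [norm_one_iff] at hd
  refine ⟨ℓ.1.re * (y.re - x.re) + ℓ.1.im * (y.im - x.im), ?_⟩
  apply Complex.ext
  · simp only [Complex.add_re, Complex.real_smul, Complex.re_ofReal_mul]
    linear_combination (-(y.re - x.re)) * hd - ℓ.1.im * (hy - hx)
  · simp only [Complex.add_im, Complex.real_smul, Complex.im_ofReal_mul]
    linear_combination (-(y.im - x.im)) * hd + ℓ.1.re * (hy - hx)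

lemma onLine_add {ℓ : ℂ × ℝ} {x : ℂ} (hx : OnLine ℓ x) (t : ℝ) : OnLine ℓ (x + t • ℓ.1) := by
  rw [onLine_iff] at hx ⊢
  simp only [Complex.add_re, Complex.add_im, Complex.real_smul, Complex.re_ofReal_mul,
    Complex.im_ofReal_mul]
  linarith

lemma norm_nrm (ψ : ℝ) : ‖nrm ψ‖ = 1 := by
  rw [norm_one_iff]; exact Real.sin_sq_add_cos_sq ψ

lemma exists_nrm {ν : ℂ} (h : ‖ν‖ = 1) : ∃ θ, ν = nrm θ := by
  rw [norm_one_iff] at h
  have hw : ‖(⟨ν.im, ν.re⟩ : ℂ)‖ = 1 := by rw [norm_one_iff]; simp only; linarith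
  have hw0 : (⟨ν.im, ν.re⟩ : ℂ) ≠ 0 := by
    intro h0; rw [h0, norm_zero] at hw; norm_num at hw
  refine ⟨Complex.arg ⟨ν.im, ν.re⟩, ?_⟩
  apply Complex.ext
  · simp only [nrm]; rw [Complex.sin_arg, hw]; simp
  · simp only [nrm]; rw [Complex.cos_arg hw0, hw]; simp

section bm
variable (C : Curv ϱ y₀)
include C

omit C in
lemma outer_gam (ψ : ℝ) {x : ℂ} (hx : x ∈ Dom ϱ y₀) : inner ℝ (nrm ψ) (x - gam ϱ y₀ ψ) < 0 := by
  have := hx ψ
  rw [inner_eq]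
  simp only [nrm, gam, Complex.sub_re, Complex.sub_im, Hs] at this ⊢
  linarith

omit C in
lemma isOuterNormal_gam (ψ : ℝ) : IsOuterNormal (Dom ϱ y₀) (gam ϱ y₀ ψ) (nrm ψ) :=
  ⟨norm_nrm ψ, fun _ hx => (outer_gam ψ hx).le⟩

lemma outerNormal_unique {ψ : ℝ} {ν : ℂ} (h : IsOuterNormal (Dom ϱ y₀) (gam ϱ y₀ ψ) ν) : ν = nrm ψ := by
  obtain ⟨θ, rfl⟩ := exists_nrm h.1
  have h1 : closure (Dom ϱ y₀) ⊆ {x | inner ℝ (nrm θ) (x - gam ϱ y₀ ψ) ≤ 0} :=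
    closure_minimal h.2 (isClosed_le (by fun_prop) continuous_const)
  rw [closure_Dom C] at h1
  have h2 := h1 (gam_mem' C θ)
  simp only [mem_ofPred_eq] at h2
  rw [inner_eq] at h2
  have h3 := gam_mem' C ψ θ
  have h4 : gam ϱ y₀ ψ = gam ϱ y₀ θ := by
    refine eq_gam_of_gap_zero C (gam_mem' C ψ) (le_antisymm h3 ?_)
    simp only [nrm, gam, Complex.sub_re, Complex.sub_im, Hs] at h2 ⊢
    linarith
  exact (nrm_eq_of_gam_eq C h4).symm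

lemma exit_exists {d x₀ : ℂ} (hd : ‖d‖ = 1) (hx : x₀ ∈ Dom ϱ y₀) :
    ∃ t : ℝ, 0 < t ∧ ∃ ψ, x₀ + t • d = gam ϱ y₀ ψ := by
  obtain ⟨R, hR⟩ : ∃ R, ∀ x ∈ Dom' ϱ y₀, ‖x‖ ≤ R := by
    have := (isBounded_Dom C).closure
    rw [closure_Dom C] at this
    exact this.exists_norm_le
  set M := R + ‖x₀‖ + 1 with hM
  have hR0 : 0 ≤ R := (norm_nonneg _).trans (hR x₀ (Dom_subset hx))
  have hM0 : 0 ≤ M := by have := norm_nonneg x₀; linarith
  set S := (fun t : ℝ => x₀ + t • d) '' Icc 0 M with hS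
  have hpre : IsPreconnected S :=
    isPreconnected_Icc.image _ (by fun_prop)
  by_contra hcon
  push Not at hcon
  have hsub : S ⊆ Dom ϱ y₀ ∪ (Dom' ϱ y₀)ᶜ := by
    rintro _ ⟨t, ht, rfl⟩
    by_cases h1 : x₀ + t • d ∈ Dom' ϱ y₀
    · left
      by_contra h2
      have h3 : x₀ + t • d ∈ frontier (Dom ϱ y₀) := by
        rw [(isOpen_Dom C).frontier_eq, closure_Dom C]; exact ⟨h1, h2⟩
      rw [frontier_Dom C] at h3
      obtain ⟨ψ, hψ⟩ := h3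
      rcases ht.1.eq_or_lt with h4 | h4
      · rw [← h4] at h2
        exact h2 (by simpa using hx)
      · exact hcon t h4 ψ hψ.symm
    · right; exact h1
  have h1 : (S ∩ Dom ϱ y₀).Nonempty := ⟨x₀, ⟨0, ⟨le_refl _, hM0⟩, by simp⟩, hx⟩
  have h2 : (S ∩ (Dom' ϱ y₀)ᶜ).Nonempty := by
    refine ⟨x₀ + M • d, ⟨M, ⟨hM0, le_refl _⟩, rfl⟩, fun h => ?_⟩
    have h3 := hR _ h
    have h4 : ‖M • d‖ = M := by rw [norm_smul, hd, mul_one, Real.norm_eq_abs, abs_of_nonneg hM0]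
    have h5 := norm_sub_norm_le (M • d) (-x₀)
    rw [norm_neg, sub_neg_eq_add, h4, add_comm] at h5
    linarith
  obtain ⟨z, -, hz1, hz2⟩ := hpre _ _ (isOpen_Dom C) isClosed_Dom'.isOpen_compl hsub h1 h2
  exact hz2 (Dom_subset hz1)

lemma exit_unique {d x₀ : ℂ} (hx : x₀ ∈ Dom ϱ y₀) {t₁ t₂ : ℝ} (h1 : 0 < t₁) (h2 : 0 < t₂)
    (hf1 : x₀ + t₁ • d ∈ frontier (Dom ϱ y₀)) (hf2 : x₀ + t₂ • d ∈ frontier (Dom ϱ y₀)) : t₁ = t₂ := by
  have key : ∀ {t₁ t₂ : ℝ}, 0 < t₁ → t₁ < t₂ → x₀ + t₁ • d ∈ frontier (Dom ϱ y₀) →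
      x₀ + t₂ • d ∈ frontier (Dom ϱ y₀) → False := by
    intro t₁ t₂ h1 h12 hf1 hf2
    rw [(isOpen_Dom C).frontier_eq, closure_Dom C] at hf1 hf2
    apply hf1.2
    have h2 : 0 < t₂ := h1.trans h12
    have h3 := combo_mem hx hf2.1 (a := 1 - t₁ / t₂) (b := t₁ / t₂)
      (by rw [sub_pos, div_lt_one h2]; exact h12) (by positivity) (by ring)
    have e : (1 - t₁ / t₂) • x₀ + (t₁ / t₂) • (x₀ + t₂ • d) = x₀ + t₁ • d := by
      rw [smul_add, smul_smul, div_mul_cancel₀ _ h2.ne', sub_smul, one_smul]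
      abel
    rwa [e] at h3
  rcases lt_trichotomy t₁ t₂ with h | h | h
  · exact (key h1 h hf1 hf2).elim
  · exact h
  · exact (key h2 h hf2 hf1).elim

/-- a direction pointing inwards at a boundary point enters the domain -/
lemma enter {ψ : ℝ} {d : ℂ} (hd : ‖d‖ = 1) (h : inner ℝ (nrm ψ) d < 0) :
    ∃ t : ℝ, 0 < t ∧ gam ϱ y₀ ψ + t • d ∈ Dom ϱ y₀ := by
  have hH := continuous_Hs C
  set Q := gam ϱ y₀ ψ with hQ
  set D : ℝ → ℝ := fun θ => sin θ * d.re + cos θ * d.im with hD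
  set F : ℝ → ℝ := fun θ => Hs ϱ y₀ θ - (Q.re * sin θ + Q.im * cos θ) with hF
  have hF0 : ∀ θ, 0 ≤ F θ := fun θ => by
    have := gam_mem' C ψ θ
    simp only [hF]; linarith
  have hDle : ∀ θ, D θ ≤ 1 := by
    intro θ
    rw [norm_one_iff] at hd
    have := Real.sin_sq_add_cos_sq θ
    simp only [hD]
    nlinarith [sq_nonneg (sin θ - d.re), sq_nonneg (cos θ - d.im)]
  set K : Set ℝ := Icc (ψ - π) (ψ + π) ∩ {θ | 0 ≤ D θ} with hK
  have hKc : IsCompact K :=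
    isCompact_Icc.inter_right (isClosed_le continuous_const (by simp only [hD]; fun_prop))
  have hFc : Continuous F := by simp only [hF]; fun_prop
  obtain ⟨m, hm0, hm⟩ : ∃ m : ℝ, 0 < m ∧ ∀ θ ∈ K, m ≤ F θ := by
    rcases K.eq_empty_or_nonempty with hKe | hKn
    · exact ⟨1, one_pos, fun θ hθ => by rw [hKe] at hθ; exact hθ.elim⟩
    · obtain ⟨θ, hθ, hmin⟩ := hKc.exists_isMinOn hKn hFc.continuousOn
      refine ⟨F θ, ?_, fun θ' hθ' => hmin hθ'⟩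
      refine lt_of_le_of_ne (hF0 θ) fun h0 => ?_
      have h1 : Q = gam ϱ y₀ θ := eq_gam_of_gap_zero C (gam_mem' C ψ) (by
        simp only [hF] at h0; linarith)
      have h2 := nrm_eq_of_gam_eq C h1
      have h3 := hθ.2
      simp only [mem_ofPred_eq, hD] at h3
      rw [h2, inner_eq] at h
      simp only [nrm] at h
      linarith
  refine ⟨m / 2, by positivity, fun θ => ?_⟩
  obtain ⟨k, hk⟩ := exists_near ψ θ
  set θ' := θ + k * (2 * π) with hθ'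
  have e3 : sin θ' = sin θ := sin_add_int_mul_two_pi θ k
  have e4 : cos θ' = cos θ := cos_add_int_mul_two_pi θ k
  have e5 : Hs ϱ y₀ θ' = Hs ϱ y₀ θ := (Hs_periodic C).int_mul k θ
  rw [← e3, ← e4, ← e5]
  have hI : θ' ∈ Icc (ψ - π) (ψ + π) := by
    rw [abs_le] at hk
    exact ⟨by linarith, by linarith⟩
  have goal : Q.re * sin θ' + Q.im * cos θ' + m / 2 * D θ' < Hs ϱ y₀ θ' := by
    rcases lt_or_ge (D θ') 0 with h1 | h1
    · have h2 := hF0 θ'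
      simp only [hF] at h2
      nlinarith
    · have h2 := hm θ' ⟨hI, h1⟩
      have h3 := hDle θ'
      simp only [hF] at h2
      nlinarith
  simp only [Complex.add_re, Complex.add_im, Complex.real_smul, Complex.re_ofReal_mul,
    Complex.im_ofReal_mul]
  simp only [hD] at goal
  linarith

omit C in
lemma reflect_norm {d ν : ℂ} (hd : ‖d‖ = 1) (hν : ‖ν‖ = 1) :
    ‖d - (2 * inner ℝ ν d : ℝ) • ν‖ = 1 ∧ inner ℝ ν (d - (2 * inner ℝ ν d : ℝ) • ν) = -inner ℝ ν d := by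
  rw [norm_one_iff] at hd hν ⊢
  simp only [inner_eq, Complex.sub_re, Complex.sub_im, Complex.real_smul, Complex.re_ofReal_mul,
    Complex.im_ofReal_mul]
  constructor
  · linear_combination hd + (4 * (ν.re * d.re + ν.im * d.im) ^ 2) * hν
  · linear_combination (-(2 * (ν.re * d.re + ν.im * d.im))) * hν

lemma reflects_exists {ℓ : ℂ × ℝ} (hℓ : ℓ ∈ Phase (Dom ϱ y₀)) :
    ∃ ℓ' ∈ Phase (Dom ϱ y₀), Reflects (Dom ϱ y₀) ℓ ℓ' := by
  obtain ⟨hd, x₀, hx, hon⟩ := hℓ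
  obtain ⟨t, ht, ψ, hψ⟩ := exit_exists C hd hx
  have hν := norm_nrm ψ
  have hpos : 0 < inner ℝ (nrm ψ) ℓ.1 := by
    have h1 := outer_gam ψ hx
    rw [← hψ, inner_eq] at h1
    rw [inner_eq]
    simp only [Complex.sub_re, Complex.sub_im, Complex.add_re, Complex.add_im, Complex.real_smul,
      Complex.re_ofReal_mul, Complex.im_ofReal_mul] at h1
    by_contra hcon
    rw [not_lt] at hcon
    nlinarith
  obtain ⟨hn1, hn2⟩ := reflect_norm hd hν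
  set d' := ℓ.1 - (2 * inner ℝ (nrm ψ) ℓ.1 : ℝ) • nrm ψ with hd'
  set Q := gam ϱ y₀ ψ with hQ
  refine ⟨(d', ((starRingEnd ℂ) d' * Q).im), ⟨hn1, ?_⟩, Q, nrm ψ, ?_, isOuterNormal_gam ψ, ?_, hpos, rfl, rfl⟩
  · obtain ⟨t', -, hmem⟩ := enter C (ψ := ψ) hn1 (by rw [hn2]; linarith)
    exact ⟨_, hmem, onLine_add (ℓ := (d', ((starRingEnd ℂ) d' * Q).im)) rfl t'⟩
  · rw [frontier_Dom C]; exact ⟨ψ, rfl⟩
  · rw [← hψ]; exact onLine_add hon t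

lemma reflects_unique {ℓ ℓ₁ ℓ₂ : ℂ × ℝ} (hℓ : ℓ ∈ Phase (Dom ϱ y₀))
    (h1 : Reflects (Dom ϱ y₀) ℓ ℓ₁) (h2 : Reflects (Dom ϱ y₀) ℓ ℓ₂) : ℓ₁ = ℓ₂ := by
  obtain ⟨hd, x₀, hx, hon⟩ := hℓ
  have key : ∀ {ℓ' : ℂ × ℝ}, Reflects (Dom ϱ y₀) ℓ ℓ' → ∃ t : ℝ, 0 < t ∧ ∃ ψ, x₀ + t • ℓ.1 = gam ϱ y₀ ψ ∧
      ℓ'.1 = ℓ.1 - (2 * inner ℝ (nrm ψ) ℓ.1 : ℝ) • nrm ψ ∧ OnLine ℓ' (gam ϱ y₀ ψ) := by
    rintro ℓ' ⟨Q, ν, hQ, hν, hQl, hpos, hdir, hQl'⟩
    obtain ⟨t, ht⟩ := onLine_param hd hon hQl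
    have hQ' := hQ
    rw [frontier_Dom C] at hQ'
    obtain ⟨ψ, hψ⟩ := hQ'
    have hνψ : ν = nrm ψ := by rw [← hψ] at hν; exact outerNormal_unique C hν
    have ht0 : 0 < t := by
      have h3 := hν.2 x₀ hx
      rw [ht, inner_eq] at h3
      rw [inner_eq] at hpos
      simp only [Complex.sub_re, Complex.sub_im, Complex.add_re, Complex.add_im, Complex.real_smul,
        Complex.re_ofReal_mul, Complex.im_ofReal_mul] at h3
      have h4 : 0 ≤ t := by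
        by_contra hcon
        rw [not_le] at hcon
        nlinarith
      refine lt_of_le_of_ne h4 fun h5 => ?_
      rw [← h5, zero_smul, add_zero] at ht
      rw [ht, (isOpen_Dom C).frontier_eq] at hQ
      exact hQ.2 hx
    refine ⟨t, ht0, ψ, by rw [← ht, hψ], by rw [← hνψ]; exact hdir, by rw [hψ]; exact hQl'⟩
  obtain ⟨t₁, ht₁, ψ₁, e1, d1, o1⟩ := key h1
  obtain ⟨t₂, ht₂, ψ₂, e2, d2, o2⟩ := key h2
  have hf : ∀ ψ, gam ϱ y₀ ψ ∈ frontier (Dom ϱ y₀) := fun ψ => by rw [frontier_Dom C]; exact ⟨ψ, rfl⟩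
  have ht := exit_unique C hx ht₁ ht₂ (by rw [e1]; exact hf _) (by rw [e2]; exact hf _)
  subst ht
  have hg : gam ϱ y₀ ψ₁ = gam ϱ y₀ ψ₂ := by rw [← e1, ← e2]
  have hn := nrm_eq_of_gam_eq C hg
  rw [← hn] at d2
  rw [← hg] at o2
  have hfst : ℓ₁.1 = ℓ₂.1 := by rw [d1, d2]
  refine Prod.ext hfst ?_
  rw [OnLine] at o1 o2
  rw [← o1, ← o2, hfst]

/-- the billiard map exists -/
lemma exists_billiardMap : ∃ T : Phase (Dom ϱ y₀) → Phase (Dom ϱ y₀), IsBilliardMap (Dom ϱ y₀) T := by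
  choose f hf1 hf2 using fun ℓ : Phase (Dom ϱ y₀) => reflects_exists C ℓ.2
  refine ⟨fun ℓ => ⟨f ℓ, hf1 ℓ⟩, fun ℓ ℓ' => ⟨fun h => ?_, fun h => ?_⟩⟩
  · exact reflects_unique C ℓ.2 h (hf2 ℓ)
  · rw [h]; exact hf2 ℓ

end bm

/-- mirror image in the `x`-axis -/
noncomputable def mir (ℓ : ℂ × ℝ) : ℂ × ℝ := ((starRingEnd ℂ) ℓ.1, -ℓ.2)

lemma mir_mir (ℓ : ℂ × ℝ) : mir (mir ℓ) = ℓ := by
  simp [mir]

lemma onLine_mir {ℓ : ℂ × ℝ} {x : ℂ} (h : OnLine ℓ x) : OnLine (mir ℓ) ((starRingEnd ℂ) x) := by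
  rw [onLine_iff] at h ⊢
  simp only [mir, Complex.conj_re, Complex.conj_im]
  linarith

lemma conj_mem {Ω : Set ℂ} (hΩ : IsSymmetricOval Ω) {x : ℂ} (hx : x ∈ Ω) : (starRingEnd ℂ) x ∈ Ω :=
  hΩ.reflect_y x hx

lemma phase_mir {Ω : Set ℂ} (hΩ : IsSymmetricOval Ω) {ℓ : ℂ × ℝ} (h : ℓ ∈ Phase Ω) : mir ℓ ∈ Phase Ω := by
  obtain ⟨hd, x, hx, hon⟩ := h
  refine ⟨?_, _, conj_mem hΩ hx, onLine_mir hon⟩
  simp only [mir]
  rw [RCLike.norm_conj]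
  exact hd

lemma frontier_conj {Ω : Set ℂ} (hΩ : IsSymmetricOval Ω) {x : ℂ} (hx : x ∈ frontier Ω) :
    (starRingEnd ℂ) x ∈ frontier Ω := by
  rw [hΩ.isOpen.frontier_eq] at hx ⊢
  constructor
  · have h1 : (starRingEnd ℂ) x ∈ closure ((starRingEnd ℂ) '' Ω) :=
      image_closure_subset_closure_image Complex.continuous_conj ⟨x, hx.1, rfl⟩
    refine closure_mono ?_ h1
    rintro _ ⟨y, hy, rfl⟩
    exact conj_mem hΩ hy
  · intro h
    have := conj_mem hΩ h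
    rw [Complex.conj_conj] at this
    exact hx.2 this

lemma reflects_mir {Ω : Set ℂ} (hΩ : IsSymmetricOval Ω) {ℓ ℓ' : ℂ × ℝ} (h : Reflects Ω ℓ ℓ') :
    Reflects Ω (mir ℓ) (mir ℓ') := by
  obtain ⟨Q, ν, hQ, hν, hQl, hpos, hdir, hQl'⟩ := h
  have hin : ∀ v w : ℂ, inner ℝ ((starRingEnd ℂ) v) ((starRingEnd ℂ) w) = inner ℝ v w := by
    intro v w
    rw [inner_eq, inner_eq, Complex.conj_re, Complex.conj_re, Complex.conj_im, Complex.conj_im]; ring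
  refine ⟨(starRingEnd ℂ) Q, (starRingEnd ℂ) ν, frontier_conj hΩ hQ, ⟨?_, ?_⟩, onLine_mir hQl, ?_, ?_,
    onLine_mir hQl'⟩
  · rw [RCLike.norm_conj]; exact hν.1
  · intro x hx
    have h1 := hν.2 _ (conj_mem hΩ hx)
    rw [← hin, map_sub, Complex.conj_conj] at h1
    exact h1
  · simp only [mir]; rw [hin]; exact hpos
  · simp only [mir]
    rw [hin, hdir, map_sub, Complex.real_smul, Complex.real_smul, map_mul, Complex.conj_ofReal]

end Helper43.Billiard
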