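import Mathlib

set_option autoImplicit false

/-! # Majorant bounds for real power series -/

namespace Helper43.Billiard

open PowerSeries Finset

/-- `Bd ρ f M`: the weighted sum of the absolute values of the coefficients of `f` is at most
`M` (all partial sums are). -/
def Bd (ρ : ℝ) (f : ℝ⟦X⟧) (M : ℝ) : Prop :=
  ∀ N : ℕ, ∑ m ∈ range N, |coeff m f| * ρ ^ m ≤ M

variable {ρ : ℝ} {f g : ℝ⟦X⟧} {M M' : ℝ}

lemma Bd.nonneg (h : Bd ρ f M) : 0 ≤ M := by simpa using h 0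

lemma Bd.mono (h : Bd ρ f M) (hM : M ≤ M') : Bd ρ f M' := fun N => (h N).trans hM

lemma Bd.mono_radius {ρ' : ℝ} (h : Bd ρ f M) (h0 : 0 ≤ ρ') (hρ : ρ' ≤ ρ) : Bd ρ' f M := by
  intro N
  refine (sum_le_sum fun m _ => ?_).trans (h N)
  exact mul_le_mul_of_nonneg_left (pow_le_pow_left₀ h0 hρ m) (abs_nonneg _)

lemma Bd.add (hf : Bd ρ f M) (hg : Bd ρ g M') (h0 : 0 ≤ ρ) : Bd ρ (f + g) (M + M') := by
  intro N
  calc ∑ m ∈ range N, |coeff m (f + g)| * ρ ^ m
      ≤ ∑ m ∈ range N, (|coeff m f| * ρ ^ m + |coeff m g| * ρ ^ m) := by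
        refine sum_le_sum fun m _ => ?_
        rw [map_add, ← add_mul]
        exact mul_le_mul_of_nonneg_right (abs_add_le _ _) (pow_nonneg h0 m)
    _ = _ := sum_add_distrib
    _ ≤ _ := add_le_add (hf N) (hg N)

lemma Bd.neg (hf : Bd ρ f M) : Bd ρ (-f) M := by
  intro N
  simpa using hf N

lemma Bd.sub (hf : Bd ρ f M) (hg : Bd ρ g M') (h0 : 0 ≤ ρ) : Bd ρ (f - g) (M + M') := by
  rw [sub_eq_add_neg]
  exact hf.add hg.neg h0

lemma Bd.smul (a : ℝ) (hf : Bd ρ f M) : Bd ρ (a • f) (|a| * M) := by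
  intro N
  have : ∑ m ∈ range N, |coeff m (a • f)| * ρ ^ m = |a| * ∑ m ∈ range N, |coeff m f| * ρ ^ m := by
    rw [mul_sum]
    refine sum_congr rfl fun m _ => ?_
    rw [coeff_smul, smul_eq_mul, abs_mul, mul_assoc]
  rw [this]
  exact mul_le_mul_of_nonneg_left (hf N) (abs_nonneg a)

lemma Bd.zero : Bd ρ 0 0 := by
  intro N
  simp

lemma Bd.monomial (h0 : 0 ≤ ρ) (n : ℕ) (a : ℝ) : Bd ρ (monomial n a) (|a| * ρ ^ n) := by
  intro N
  calc ∑ m ∈ range N, |coeff m (PowerSeries.monomial n a)| * ρ ^ m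
      ≤ ∑ m ∈ range N, (if m = n then |a| * ρ ^ n else 0) := by
        refine sum_le_sum fun m _ => ?_
        rw [coeff_monomial]
        split_ifs with h
        · rw [h]
        · simp
    _ ≤ _ := by
        rw [sum_ite_eq']
        split_ifs
        · exact le_refl _
        · positivity

lemma Bd.C (h0 : 0 ≤ ρ) (a : ℝ) : Bd ρ (PowerSeries.C a) |a| := by
  have := Bd.monomial h0 0 a
  simpa using this

lemma Bd.one (h0 : 0 ≤ ρ) : Bd ρ 1 1 := by
  have := Bd.C h0 1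
  simpa using this

lemma Bd.X (h0 : 0 ≤ ρ) : Bd ρ (PowerSeries.X : ℝ⟦X⟧) ρ := by
  have := Bd.monomial h0 1 1
  simpa [← PowerSeries.X_eq] using this

lemma partial_mul (f g : ℝ⟦X⟧) (h0 : 0 ≤ ρ) (N : ℕ) :
    ∑ m ∈ range N, |coeff m (f * g)| * ρ ^ m
      ≤ (∑ i ∈ range N, |coeff i f| * ρ ^ i) * (∑ j ∈ range N, |coeff j g| * ρ ^ j) := by
  calc ∑ m ∈ range N, |coeff m (f * g)| * ρ ^ m
      ≤ ∑ m ∈ range N, ∑ p ∈ antidiagonal m, (|coeff p.1 f| * ρ ^ p.1) * (|coeff p.2 g| * ρ ^ p.2) := by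
        refine sum_le_sum fun m _ => ?_
        rw [coeff_mul]
        calc |∑ p ∈ antidiagonal m, coeff p.1 f * coeff p.2 g| * ρ ^ m
            ≤ (∑ p ∈ antidiagonal m, |coeff p.1 f * coeff p.2 g|) * ρ ^ m :=
              mul_le_mul_of_nonneg_right (abs_sum_le_sum_abs _ _) (pow_nonneg h0 m)
          _ = _ := by
              rw [sum_mul]
              refine sum_congr rfl fun p hp => ?_
              rw [HasAntidiagonal.mem_antidiagonal] at hp
              rw [← hp, abs_mul, pow_add]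
              ring
    _ ≤ ∑ q ∈ range N ×ˢ range N, (|coeff q.1 f| * ρ ^ q.1) * (|coeff q.2 g| * ρ ^ q.2) := by
        rw [sum_sigma']
        have hinj : Set.InjOn (fun x : (_ : ℕ) × ℕ × ℕ => x.2)
            ((range N).sigma fun m => antidiagonal m : Finset _) := by
          rintro ⟨a, p⟩ ha ⟨b, q⟩ hb hab
          simp only [coe_sigma, Set.mem_sigma_iff, mem_coe, HasAntidiagonal.mem_antidiagonal] at ha hb
          simp only at hab
          subst hab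
          obtain rfl : a = b := ha.2.symm.trans hb.2
          rfl
        rw [← sum_image (f := fun q : ℕ × ℕ => (|coeff q.1 f| * ρ ^ q.1) * (|coeff q.2 g| * ρ ^ q.2))
          hinj]
        refine sum_le_sum_of_subset_of_nonneg ?_ fun q _ _ => by positivity
        intro q hq
        rw [mem_image] at hq
        obtain ⟨⟨a, p⟩, ha, rfl⟩ := hq
        simp only [mem_sigma, mem_range, HasAntidiagonal.mem_antidiagonal] at ha
        simp only [mem_product, mem_range]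
        omega
    _ = (∑ i ∈ range N, |coeff i f| * ρ ^ i) * (∑ j ∈ range N, |coeff j g| * ρ ^ j) := by
        rw [sum_mul_sum, sum_product]

lemma Bd.mul (hf : Bd ρ f M) (hg : Bd ρ g M') (h0 : 0 ≤ ρ) : Bd ρ (f * g) (M * M') := by
  intro N
  refine (partial_mul f g h0 N).trans ?_
  refine mul_le_mul (hf N) (hg N) ?_ hf.nonneg
  exact sum_nonneg fun m _ => mul_nonneg (abs_nonneg _) (pow_nonneg h0 m)

lemma Bd.pow (hf : Bd ρ f M) (h0 : 0 ≤ ρ) (k : ℕ) : Bd ρ (f ^ k) (M ^ k) := by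
  induction k with
  | zero => simpa using Bd.one h0
  | succ k ih =>
    rw [pow_succ, pow_succ]
    exact ih.mul hf h0

lemma Bd.sum {ι : Type*} (s : Finset ι) (F : ι → ℝ⟦X⟧) (G : ι → ℝ) (h0 : 0 ≤ ρ)
    (h : ∀ i ∈ s, Bd ρ (F i) (G i)) : Bd ρ (∑ i ∈ s, F i) (∑ i ∈ s, G i) := by
  classical
  induction s using Finset.induction_on with
  | empty => simpa using Bd.zero
  | insert a s ha ih =>
    rw [sum_insert ha, sum_insert ha]
    exact (h a (mem_insert_self a s)).add (ih fun i hi => h i (mem_insert_of_mem hi)) h0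

lemma Bd.coeff_le (hf : Bd ρ f M) (h0 : 0 ≤ ρ) (m : ℕ) : |coeff m f| * ρ ^ m ≤ M := by
  refine le_trans ?_ (hf (m + 1))
  rw [sum_range_succ]
  have : 0 ≤ ∑ x ∈ range m, |coeff x f| * ρ ^ x :=
    sum_nonneg fun x _ => mul_nonneg (abs_nonneg _) (pow_nonneg h0 x)
  linarith

lemma Bd.of_coeff_le (hg : Bd ρ g M) (h0 : 0 ≤ ρ) (h : ∀ m, |coeff m f| ≤ |coeff m g|) :
    Bd ρ f M := by
  intro N
  refine (sum_le_sum fun m _ => ?_).trans (hg N)
  exact mul_le_mul_of_nonneg_right (h m) (pow_nonneg h0 m)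

/-- If only finitely many coefficients are nonzero and each is bounded. -/
lemma Bd.of_forall_coeff_le (N₀ : ℕ) (h0 : 0 ≤ ρ)
    (hz : ∀ m, N₀ ≤ m → coeff m f = 0) (h : ∀ m, m < N₀ → |coeff m f| * ρ ^ m ≤ M) :
    Bd ρ f (N₀ * M) := by
  intro N
  calc ∑ m ∈ range N, |coeff m f| * ρ ^ m
      ≤ ∑ m ∈ range (max N N₀), |coeff m f| * ρ ^ m := by
        refine sum_le_sum_of_subset_of_nonneg ?_ fun m _ _ => ?_
        · exact range_subset_range.mpr (le_max_left _ _)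
        · exact mul_nonneg (abs_nonneg _) (pow_nonneg h0 m)
    _ = ∑ m ∈ range N₀, |coeff m f| * ρ ^ m := by
        symm
        refine sum_subset (range_subset_range.mpr (le_max_right _ _)) fun m _ hm => ?_
        rw [mem_range, not_lt] at hm
        rw [hz m hm]
        simp
    _ ≤ ∑ m ∈ range N₀, M := sum_le_sum fun m hm => h m (mem_range.mp hm)
    _ = N₀ * M := by simp

lemma Bd.of_coeff_le_mul {K : ℝ} (hg : Bd ρ g M) (h0 : 0 ≤ ρ) (hK : 0 ≤ K)
    (h : ∀ m, |coeff m f| ≤ K * |coeff m g|) : Bd ρ f (K * M) := by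
  intro N
  calc ∑ m ∈ range N, |coeff m f| * ρ ^ m ≤ ∑ m ∈ range N, K * (|coeff m g| * ρ ^ m) := by
        refine sum_le_sum fun m _ => ?_
        rw [← mul_assoc]
        exact mul_le_mul_of_nonneg_right (h m) (pow_nonneg h0 m)
    _ = K * ∑ m ∈ range N, |coeff m g| * ρ ^ m := by rw [mul_sum]
    _ ≤ _ := mul_le_mul_of_nonneg_left (hg N) hK

/-- Truncation. -/
noncomputable def tr (N : ℕ) (f : ℝ⟦X⟧) : ℝ⟦X⟧ := mk fun m => if m < N then coeff m f else 0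

lemma coeff_tr (N m : ℕ) (f : ℝ⟦X⟧) : coeff m (tr N f) = if m < N then coeff m f else 0 := by
  rw [tr, coeff_mk]

lemma Bd.tr (hf : Bd ρ f M) (h0 : 0 ≤ ρ) (N : ℕ) : Bd ρ (tr N f) M := by
  refine hf.of_coeff_le h0 fun m => ?_
  rw [coeff_tr]
  split_ifs
  · exact le_refl _
  · simp

lemma X_pow_dvd_sub_tr (N : ℕ) (f : ℝ⟦X⟧) : (PowerSeries.X : ℝ⟦X⟧) ^ N ∣ f - Helper43.Billiard.tr N f := by
  rw [X_pow_dvd_iff]
  intro m hm
  rw [map_sub, coeff_tr, if_pos hm, sub_self]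

lemma X_pow_dvd_tr_sub (N : ℕ) (f : ℝ⟦X⟧) : (PowerSeries.X : ℝ⟦X⟧) ^ N ∣ Helper43.Billiard.tr N f - f := by
  rw [← neg_sub, dvd_neg]
  exact X_pow_dvd_sub_tr N f

/-- Shrinking the radius gains for high order series. -/
lemma Bd.shrink (hf : Bd ρ f M) (h0 : 0 ≤ ρ) {q : ℝ} (hq0 : 0 ≤ q) (hq1 : q ≤ 1) {n : ℕ}
    (hn : (PowerSeries.X : ℝ⟦X⟧) ^ n ∣ f) : Bd (q * ρ) f (q ^ n * M) := by
  intro N
  calc ∑ m ∈ range N, |coeff m f| * (q * ρ) ^ m
      ≤ ∑ m ∈ range N, q ^ n * (|coeff m f| * ρ ^ m) := by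
        refine sum_le_sum fun m _ => ?_
        by_cases hm : m < n
        · rw [X_pow_dvd_iff.mp hn m hm]
          simp
        · rw [mul_pow]
          have h1 : q ^ m ≤ q ^ n := pow_le_pow_of_le_one hq0 hq1 (not_lt.mp hm)
          have h2 : 0 ≤ |coeff m f| * ρ ^ m := mul_nonneg (abs_nonneg _) (pow_nonneg h0 m)
          calc |coeff m f| * (q ^ m * ρ ^ m) = q ^ m * (|coeff m f| * ρ ^ m) := by ring
            _ ≤ _ := mul_le_mul_of_nonneg_right h1 h2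
    _ = q ^ n * ∑ m ∈ range N, |coeff m f| * ρ ^ m := by rw [mul_sum]
    _ ≤ _ := mul_le_mul_of_nonneg_left (hf N) (pow_nonneg hq0 n)

/-- Division by a power of `X`. -/
lemma Bd.of_X_pow_mul {n : ℕ} (hρ : 0 < ρ) (hf : Bd ρ (PowerSeries.X ^ n * f) M) :
    Bd ρ f (M / ρ ^ n) := by
  intro N
  rw [le_div_iff₀ (pow_pos hρ n)]
  refine le_trans (le_of_eq ?_) (hf (n + N))
  rw [sum_range_add, sum_eq_zero (s := range n), zero_add, sum_mul]
  · refine sum_congr rfl fun m _ => ?_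
    rw [coeff_X_pow_mul', if_pos (Nat.le_add_right n m), Nat.add_sub_cancel_left, pow_add]
    ring
  · intro m hm
    rw [coeff_X_pow_mul', if_neg (by rw [mem_range] at hm; omega)]
    simp

/-- The inverse of `1 - e`. -/
lemma Bd.inv_of_mul_eq_one {e g : ℝ⟦X⟧} (h0 : 0 ≤ ρ)
    (he : Bd ρ e M) (hM : M < 1) (hg : (1 - e) * g = 1) : Bd ρ g (1 / (1 - M)) := by
  intro N
  have hg' : g = 1 + e * g := by linear_combination hg
  have key : ∑ m ∈ range N, |coeff m g| * ρ ^ m ≤ 1 + M * ∑ m ∈ range N, |coeff m g| * ρ ^ m := by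
    calc ∑ m ∈ range N, |coeff m g| * ρ ^ m
        ≤ ∑ m ∈ range N, |coeff m (1 : ℝ⟦X⟧)| * ρ ^ m
          + ∑ m ∈ range N, |coeff m (e * g)| * ρ ^ m := by
          rw [← sum_add_distrib]
          refine sum_le_sum fun m _ => ?_
          rw [← add_mul]
          refine mul_le_mul_of_nonneg_right ?_ (pow_nonneg h0 m)
          conv_lhs => rw [hg', map_add]
          exact abs_add_le _ _
      _ ≤ 1 + (∑ m ∈ range N, |coeff m e| * ρ ^ m) * ∑ m ∈ range N, |coeff m g| * ρ ^ m :=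
          add_le_add (Bd.one h0 N) (partial_mul e g h0 N)
      _ ≤ _ := by
          have : 0 ≤ ∑ m ∈ range N, |coeff m g| * ρ ^ m :=
            sum_nonneg fun m _ => mul_nonneg (abs_nonneg _) (pow_nonneg h0 m)
          have := mul_le_mul_of_nonneg_right (he N) this
          linarith
  rw [le_div_iff₀ (by linarith)]
  linarith

/-- The Euler operator `X d/dX`. -/
noncomputable def Dr (f : ℝ⟦X⟧) : ℝ⟦X⟧ := mk fun m => (m : ℝ) * coeff m f

lemma coeff_Dr (m : ℕ) (f : ℝ⟦X⟧) : coeff m (Dr f) = (m : ℝ) * coeff m f := by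
  rw [Dr, coeff_mk]

lemma Dr_add (f g : ℝ⟦X⟧) : Dr (f + g) = Dr f + Dr g := by
  ext m
  simp only [coeff_Dr, map_add]
  ring

lemma Dr_sub (f g : ℝ⟦X⟧) : Dr (f - g) = Dr f - Dr g := by
  ext m
  simp only [coeff_Dr, map_sub]
  ring

lemma Dr_neg (f : ℝ⟦X⟧) : Dr (-f) = -Dr f := by
  ext m
  simp only [coeff_Dr, map_neg]
  ring

lemma Dr_smul (a : ℝ) (f : ℝ⟦X⟧) : Dr (a • f) = a • Dr f := by
  ext m
  simp only [coeff_Dr, coeff_smul, smul_eq_mul]
  ring

lemma Dr_eq (f : ℝ⟦X⟧) : Dr f = PowerSeries.X * d⁄dX ℝ f := by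
  ext m
  rw [coeff_Dr]
  cases m with
  | zero => simp
  | succ m =>
    rw [coeff_succ_X_mul, coeff_derivative]
    push_cast
    ring

lemma Dr_mul (f g : ℝ⟦X⟧) : Dr (f * g) = Dr f * g + f * Dr g := by
  rw [Dr_eq, Dr_eq, Dr_eq, Derivation.leibniz]
  simp only [smul_eq_mul]
  ring

lemma Dr_X_pow_dvd {n : ℕ} (h : (PowerSeries.X : ℝ⟦X⟧) ^ n ∣ f) : (PowerSeries.X : ℝ⟦X⟧) ^ n ∣ Dr f := by
  rw [X_pow_dvd_iff] at h ⊢
  intro m hm
  rw [coeff_Dr, h m hm, mul_zero]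

lemma Bd.Dr (hf : Bd ρ f M) (h0 : 0 ≤ ρ) {N₀ : ℕ} (hz : ∀ m, N₀ ≤ m → coeff m f = 0) :
    Bd ρ (Helper43.Billiard.Dr f) (N₀ * M) := by
  refine hf.of_coeff_le_mul h0 (Nat.cast_nonneg _) fun m => ?_
  rw [coeff_Dr, abs_mul, Nat.abs_cast]
  by_cases hm : m < N₀
  · exact mul_le_mul_of_nonneg_right (by exact_mod_cast hm.le) (abs_nonneg _)
  · rw [hz m (not_lt.mp hm)]
    simp

lemma Bd.derivative (hf : Bd ρ f M) (hρ : 0 < ρ) {N₀ : ℕ} (hz : ∀ m, N₀ ≤ m → coeff m f = 0) :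
    Bd ρ (d⁄dX ℝ f) (N₀ * M / ρ) := by
  have h1 := hf.Dr hρ.le hz
  rw [Dr_eq] at h1
  have h2 : Bd ρ (PowerSeries.X ^ 1 * d⁄dX ℝ f) (N₀ * M) := by rwa [pow_one]
  simpa using h2.of_X_pow_mul hρ

end Helper43.Billiard
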