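import Pool.Agent.Helper43_Billiard.Conj

set_option autoImplicit false

/-! # The chart of the phase space -/

namespace Helper43.Billiard

open Real Set

variable {α κ c : ℝ} {ϱ : ℝ → ℝ} {a : ℂ → ℝ}

/-- the linear part of the chart -/
noncomputable def Leq {u v : ℝ} (hu : u ≠ 0) (hv : v ≠ 0) : ℂ ≃L[ℝ] ℝ × ℝ :=
  ContinuousLinearEquiv.equivOfInverse
    ((u • Complex.imCLM).prod (v • Complex.reCLM))
    ((v⁻¹ • (Complex.ofRealCLM.comp (ContinuousLinearMap.snd ℝ ℝ ℝ)))
      + (u⁻¹ • ((Complex.I : ℂ) • (Complex.ofRealCLM.comp (ContinuousLinearMap.fst ℝ ℝ ℝ)))))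
    (fun z => by
      apply Complex.ext
      · simp [hv]
      · simp [hu])
    (fun p => by
      apply Prod.ext
      · simp [hu]
      · simp [hv])

lemma Leq_coe {u v : ℝ} (hu : u ≠ 0) (hv : v ≠ 0) :
    (Leq hu hv : ℂ →L[ℝ] ℝ × ℝ) = (u • Complex.imCLM).prod (v • Complex.reCLM) := by
  ext <;> simp [Leq]

theorem conj_of_Red (R : Red α κ c ϱ a) (hsin : sin α ≠ 0) {β : ℝ}
    (hβ : Complex.exp (((2 * α : ℝ) : ℂ) * Complex.I) = Complex.exp ((β : ℂ) * Complex.I)) :
    ∃ T : Phase (Dom ϱ κ) → Phase (Dom ϱ κ), IsBilliardMap (Dom ϱ κ) T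
      ∧ LocallyConjugateToRotation (Dom ϱ κ) T β := by
  have C := R.curv
  obtain ⟨T, hT⟩ := exists_billiardMap C
  refine ⟨T, hT, ?_⟩
  have hov := symmetricOval_Dom C
  have hu : -c ≠ 0 := by have := R.c0; linarith
  have hv : c * sin α / 2 ≠ 0 := by
    have := R.c0.ne'
    positivity
  -- the local inverse
  have hstr : HasStrictFDerivAt (fun z => (a z, pz α κ ϱ a z)) (Leq hu hv : ℂ →L[ℝ] ℝ × ℝ) 0 := by
    rw [Leq_coe]
    exact R.strict.prodMk (strict_pz R)
  set e₁ := hstr.toOpenPartialHomeomorph (fun z => (a z, pz α κ ϱ a z)) with he₁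
  have he₁c : ∀ z, e₁ z = (a z, pz α κ ϱ a z) := fun z => by
    rw [he₁, hstr.toOpenPartialHomeomorph_coe]
  obtain ⟨r₀, hr₀, hsmall⟩ := exists_small R
  -- analyticity near the origin
  have hPhi : AnalyticAt ℝ (fun z => (a z, pz α κ ϱ a z)) 0 := R.an.prod (analyticAt_pz R)
  have hev1 : ∀ᶠ z in nhds (0 : ℂ), AnalyticAt ℝ (fun z => (a z, pz α κ ϱ a z)) z :=
    hPhi.eventually_analyticAt
  have hev2 : ∀ᶠ z in nhds (0 : ℂ), fderiv ℝ (fun z => (a z, pz α κ ϱ a z)) z
      ∈ range ((↑) : (ℂ ≃L[ℝ] ℝ × ℝ) → ℂ →L[ℝ] ℝ × ℝ) := by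
    have h1 : ContinuousAt (fderiv ℝ (fun z => (a z, pz α κ ϱ a z))) 0 := hPhi.fderiv.continuousAt
    refine h1.eventually_mem ?_
    rw [hstr.hasFDerivAt.fderiv]
    exact (Leq hu hv).nhds
  have hev3 : ∀ᶠ z in nhds (0 : ℂ), z ∈ e₁.source :=
    e₁.open_source.mem_nhds hstr.mem_toOpenPartialHomeomorph_source
  obtain ⟨r₁, hr₁, hball'⟩ := Metric.eventually_nhds_iff.mp (hev1.and (hev2.and hev3))
  have hball : Metric.ball (0 : ℂ) r₁ ⊆ e₁.source := fun z hz => (hball' hz).2.2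
  set r := min r₀ r₁ with hr
  have hr0 : 0 < r := lt_min hr₀ hr₁
  have hsub : Metric.ball (0 : ℂ) r ⊆ e₁.source :=
    (Metric.ball_subset_ball (min_le_right _ _)).trans hball
  set e₀ := e₁.restrOpen (Metric.ball (0 : ℂ) r) Metric.isOpen_ball with he₀
  have he₀s : e₀.source = Metric.ball (0 : ℂ) r := by
    rw [he₀, OpenPartialHomeomorph.restrOpen_source]
    exact inter_eq_right.mpr hsub
  have he₀c : ∀ z, e₀ z = (a z, pz α κ ϱ a z) := he₁c
  have hmemb : ∀ z, z ∈ e₀.source ↔ ‖z‖ < r := fun z => by rw [he₀s, mem_ball_zero_iff]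
  have hlt : ∀ z : ℂ, ‖z‖ < r → ‖z‖ < r₀ := fun z hz => lt_of_lt_of_le hz (min_le_left _ _)
  have hell : ∀ z, ‖z‖ < r → ell α κ ϱ a z ∈ Phase (Dom ϱ κ) := fun z hz => by
    obtain ⟨-, h1, h2, h3⟩ := hsmall z (hlt z hz)
    exact ell_mem C h1 h2 h3
  have h00 : ‖(0 : ℂ)‖ < r := by rw [norm_zero]; exact hr0
  -- parametrisation of the phase space near `z₁`
  classical
  set G : ℂ → Phase (Dom ϱ κ) := fun z =>
    if hz : ‖z‖ < r then ⟨ell α κ ϱ a z, hell z hz⟩ else ⟨ell α κ ϱ a 0, hell 0 h00⟩ with hG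
  have hGc : ∀ z, ‖z‖ < r → (G z : ℂ × ℝ) = ell α κ ϱ a z := fun z hz => by
    simp only [hG, dif_pos hz]
  have harc : ∀ z, ‖z‖ < r → arcsin (ell α κ ϱ a z).1.re = a z := fun z hz => by
    obtain ⟨h1, -⟩ := hsmall z (hlt z hz)
    rw [abs_lt] at h1
    have := Real.pi_gt_three
    exact arcsin_sin (by linarith) (by linarith)
  -- the dynamics
  have hTG : ∀ z, ‖z‖ < r → (T (G z) : ℂ × ℝ) = mir (ell α κ ϱ a (Rot α z))
      ∧ T (T (G z)) = G (Rot (2 * α) z) := by
    intro z hz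
    have hz1 : ‖Rot α z‖ < r := by rwa [norm_Rot]
    have hz2 : ‖Rot α (Rot α z)‖ < r := by rwa [norm_Rot]
    obtain ⟨s0, -, -, -⟩ := hsmall z (hlt _ hz)
    obtain ⟨s1, -, -, el1⟩ := hsmall _ (hlt _ hz1)
    obtain ⟨s2, -, -, el2⟩ := hsmall _ (hlt _ hz2)
    have ref1 := reflects_ell C s0 s1 el1
    have ref2 := reflects_mir hov (reflects_ell C s1 s2 el2)
    rw [mir_mir] at ref2
    have t1 : (T (G z) : ℂ × ℝ) = mir (ell α κ ϱ a (Rot α z)) := by
      symm
      rw [← hT (G z), hGc z hz]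
      exact ref1
    refine ⟨t1, ?_⟩
    apply Subtype.ext
    symm
    rw [← hT (T (G z)), t1]
    have hRR : Rot (2 * α) z = Rot α (Rot α z) := by rw [Rot_Rot]; congr 1; ring
    rw [hRR, hGc _ hz2]
    exact ref2
  -- the chart
  let e : OpenPartialHomeomorph (Phase (Dom ϱ κ)) ℂ :=
    { toFun := fun ℓ => e₀.symm (arcsin (ℓ : ℂ × ℝ).1.re, (ℓ : ℂ × ℝ).2)
      invFun := G
      source := {ℓ | (ℓ : ℂ × ℝ).1.im < 0 ∧ (arcsin (ℓ : ℂ × ℝ).1.re, (ℓ : ℂ × ℝ).2) ∈ e₀.target}
      target := e₀.source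
      map_source' := fun ℓ hℓ => e₀.map_target hℓ.2
      map_target' := fun z hz => by
        have hz' := (hmemb z).mp hz
        obtain ⟨h1, -⟩ := hsmall z (hlt z hz')
        have h2 : 0 < cos (a z) := by
          rw [abs_lt] at h1
          have := Real.pi_gt_three
          exact cos_pos_of_mem_Ioo ⟨by linarith, by linarith⟩
        refine ⟨?_, ?_⟩
        · rw [hGc z hz']
          simp only [ell]
          linarith
        · rw [hGc z hz', harc z hz']
          have h3 := e₀.map_source hz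
          rw [he₀c] at h3
          exact h3
      left_inv' := fun ℓ hℓ => by
        set w := e₀.symm (arcsin (ℓ : ℂ × ℝ).1.re, (ℓ : ℂ × ℝ).2) with hw
        have hws : w ∈ e₀.source := e₀.map_target hℓ.2
        have hwr := (hmemb w).mp hws
        have h1 := e₀.right_inv hℓ.2
        rw [← hw, he₀c] at h1
        have ha : a w = arcsin (ℓ : ℂ × ℝ).1.re := congrArg Prod.fst h1
        have hp : pz α κ ϱ a w = (ℓ : ℂ × ℝ).2 := congrArg Prod.snd h1
        have hd := ℓ.2.1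
        rw [norm_one_iff] at hd
        have hre : |(ℓ : ℂ × ℝ).1.re| ≤ 1 := by
          rw [abs_le]
          constructor <;> nlinarith [sq_nonneg (ℓ : ℂ × ℝ).1.im]
        rw [abs_le] at hre
        apply Subtype.ext
        rw [hGc w hwr]
        refine Prod.ext ?_ hp
        apply Complex.ext
        · simp only [ell]
          rw [ha, sin_arcsin hre.1 hre.2]
        · simp only [ell]
          rw [ha, cos_arcsin]
          have h2 : 1 - (ℓ : ℂ × ℝ).1.re ^ 2 = (ℓ : ℂ × ℝ).1.im ^ 2 := by linarith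
          rw [h2, sqrt_sq_eq_abs, abs_of_neg hℓ.1, neg_neg]
      right_inv' := fun z hz => by
        have hz' := (hmemb z).mp hz
        have h1 := e₀.left_inv hz
        rw [he₀c] at h1
        rw [hGc z hz', harc z hz']
        exact h1
      open_source := by
        have h1 : IsOpen {ℓ : Phase (Dom ϱ κ) | (ℓ : ℂ × ℝ).1.im < 0} :=
          isOpen_lt (by fun_prop) continuous_const
        have h2 : Continuous fun ℓ : Phase (Dom ϱ κ) => (arcsin (ℓ : ℂ × ℝ).1.re, (ℓ : ℂ × ℝ).2) :=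
          (Real.continuous_arcsin.comp (by fun_prop)).prodMk (by fun_prop)
        exact h1.inter (e₀.open_target.preimage h2)
      open_target := e₀.open_source
      continuousOn_toFun := by
        have h2 : Continuous fun ℓ : Phase (Dom ϱ κ) => (arcsin (ℓ : ℂ × ℝ).1.re, (ℓ : ℂ × ℝ).2) :=
          (Real.continuous_arcsin.comp (by fun_prop)).prodMk (by fun_prop)
        exact e₀.continuousOn_symm.comp h2.continuousOn fun ℓ hℓ => hℓ.2
      continuousOn_invFun := by
        rw [Topology.IsInducing.subtypeVal.continuousOn_iff]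
        have h1 : ContinuousOn (fun z => e₀ z) e₀.source := e₀.continuousOn
        have ha : ContinuousOn a e₀.source := by
          have := continuous_fst.comp_continuousOn h1
          refine this.congr fun z _ => ?_
          simp only [Function.comp, he₀c]
        have hp : ContinuousOn (pz α κ ϱ a) e₀.source := by
          have := continuous_snd.comp_continuousOn h1
          refine this.congr fun z _ => ?_
          simp only [Function.comp, he₀c]
        have h2 : ContinuousOn (fun z => (((sin (a z) : ℝ) : ℂ) + ((-cos (a z) : ℝ) : ℂ) * Complex.I,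
            pz α κ ϱ a z)) e₀.source := by
          refine ContinuousOn.prodMk ?_ hp
          refine ContinuousOn.add ?_ (ContinuousOn.mul ?_ continuousOn_const)
          · exact (Complex.continuous_ofReal.comp Real.continuous_sin).comp_continuousOn ha
          · exact (Complex.continuous_ofReal.comp Real.continuous_cos.neg).comp_continuousOn ha
        refine h2.congr fun z hz => ?_
        simp only [Function.comp]
        rw [hGc z ((hmemb z).mp hz), ell, Complex.mk_eq_add_mul_I] }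
  have hG0 : (G 0 : ℂ × ℝ) = (-Complex.I, 0) := by
    rw [hGc 0 h00, ell, R.zero]
    refine Prod.ext ?_ ?_
    · apply Complex.ext <;> simp
    · simp only [pz]
      rw [show Rot α 0 = 0 by rw [Rot, mul_zero], R.zero]
      simp [Hs', Xc, Yc]
  have h0s : (0 : ℂ) ∈ e₀.source := (hmemb 0).mpr h00
  have hT0 : (T (G 0) : ℂ × ℝ) = (Complex.I, 0) := by
    rw [(hTG 0 h00).1, show Rot α 0 = 0 by rw [Rot, mul_zero], ← hGc 0 h00, hG0]
    simp [mir]
  have hbi : IsBianalytic e := by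
    refine ⟨⟨fun q => e₀.symm (arcsin q.1.re, q.2), fun ℓ hℓ => ⟨?_, rfl⟩⟩, ?_⟩
    · set w := e₀.symm (arcsin (ℓ : ℂ × ℝ).1.re, (ℓ : ℂ × ℝ).2) with hw
      have hws : w ∈ e₀.source := e₀.map_target hℓ.2
      have hwr := (hmemb w).mp hws
      have h1 : e₀ w = (arcsin (ℓ : ℂ × ℝ).1.re, (ℓ : ℂ × ℝ).2) := e₀.right_inv hℓ.2
      have hwb := hball' (y := w) (by rw [dist_zero_right]; exact lt_of_lt_of_le hwr (min_le_right _ _))
      obtain ⟨i, hi⟩ := hwb.2.1
      have he₀f : (e₀ : ℂ → ℝ × ℝ) = fun z => (a z, pz α κ ϱ a z) := funext he₀c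
      have h2 : AnalyticAt ℝ e₀.symm (e₀ w) :=
        e₀.analyticAt_symm' hws (by rw [he₀f]; exact hwb.1) (by rw [he₀f]; exact hi.symm)
      have hd := ℓ.2.1
      rw [norm_one_iff] at hd
      have hre : -1 < (ℓ : ℂ × ℝ).1.re ∧ (ℓ : ℂ × ℝ).1.re < 1 := by
        have h3 : 0 < (ℓ : ℂ × ℝ).1.im ^ 2 := by
          have := hℓ.1
          nlinarith
        constructor <;> nlinarith
      have h4 : AnalyticAt ℝ arcsin (ℓ : ℂ × ℝ).1.re := by
        exact (Real.contDiffAt_arcsin hre.1.ne' hre.2.ne).analyticAt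
      have h5 : AnalyticAt ℝ (fun q : ℂ × ℝ => q.1.re) (ℓ : ℂ × ℝ) :=
        (Complex.reCLM.comp (ContinuousLinearMap.fst ℝ ℂ ℝ)).analyticAt _
      have h6 : AnalyticAt ℝ (fun q : ℂ × ℝ => q.2) (ℓ : ℂ × ℝ) :=
        (ContinuousLinearMap.snd ℝ ℂ ℝ).analyticAt _
      have h7 : AnalyticAt ℝ (fun q : ℂ × ℝ => (arcsin q.1.re, q.2)) (ℓ : ℂ × ℝ) :=
        (AnalyticAt.fun_comp (g := arcsin) (f := fun q : ℂ × ℝ => q.1.re) h4 h5).prod h6
      rw [h1] at h2
      exact AnalyticAt.fun_comp (g := e₀.symm) (f := fun q : ℂ × ℝ => (arcsin q.1.re, q.2)) h2 h7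
    · intro z hz
      have hzr := (hmemb z).mp hz
      have hzb := hball' (y := z) (by rw [dist_zero_right]; exact lt_of_lt_of_le hzr (min_le_right _ _))
      have ha : AnalyticAt ℝ a z :=
        AnalyticAt.fun_comp (g := fun q : ℝ × ℝ => q.1) (f := fun z => (a z, pz α κ ϱ a z))
          ((ContinuousLinearMap.fst ℝ ℝ ℝ).analyticAt _) hzb.1
      have hp : AnalyticAt ℝ (pz α κ ϱ a) z :=
        AnalyticAt.fun_comp (g := fun q : ℝ × ℝ => q.2) (f := fun z => (a z, pz α κ ϱ a z))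
          ((ContinuousLinearMap.snd ℝ ℝ ℝ).analyticAt _) hzb.1
      have hsin' : AnalyticAt ℝ (fun z => ((sin (a z) : ℝ) : ℂ)) z :=
        AnalyticAt.fun_comp (g := fun t : ℝ => (t : ℂ)) (f := fun z => sin (a z))
          (Complex.ofRealCLM.analyticAt _)
          (AnalyticAt.fun_comp (g := Real.sin) (f := a) analyticAt_sin ha)
      have hcos' : AnalyticAt ℝ (fun z => ((-cos (a z) : ℝ) : ℂ)) z :=
        AnalyticAt.fun_comp (g := fun t : ℝ => (t : ℂ)) (f := fun z => -cos (a z))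
          (Complex.ofRealCLM.analyticAt _)
          (AnalyticAt.fun_comp (g := Real.cos) (f := a) analyticAt_cos ha).neg
      have hfin : AnalyticAt ℝ (fun z => (((sin (a z) : ℝ) : ℂ) + ((-cos (a z) : ℝ) : ℂ) * Complex.I,
          pz α κ ϱ a z)) z :=
        (hsin'.add (hcos'.mul analyticAt_const)).prod hp
      refine hfin.congr ?_
      filter_upwards [e₀.open_source.mem_nhds hz] with y hy
      change _ = (G y : ℂ × ℝ)
      rw [hGc y ((hmemb y).mp hy), ell, Complex.mk_eq_add_mul_I]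
  refine ⟨G 0, T (G 0), hG0, hT0, rfl, ?_, e, hbi, e.map_target h0s, e.right_inv h0s, ?_⟩
  · rw [(hTG 0 h00).2]
    congr 1
    rw [Rot, mul_zero]
  · intro ℓ hℓ
    set z := e ℓ with hz
    have hzs : z ∈ e₀.source := e.map_source hℓ
    have hzr := (hmemb z).mp hzs
    have hℓz : ℓ = G z := (e.left_inv hℓ).symm
    have h1 := (hTG z hzr).2
    rw [← hℓz] at h1
    have hR : ‖Rot (2 * α) z‖ < r := by rwa [norm_Rot]
    have hRs : Rot (2 * α) z ∈ e₀.source := (hmemb _).mpr hR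
    rw [h1]
    refine ⟨e.map_target hRs, ?_⟩
    have h2 : e (G (Rot (2 * α) z)) = Rot (2 * α) z := e.right_inv hRs
    rw [h2, Rot, hβ]

end Helper43.Billiard
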