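import Pool.Agent.Helper43_Billiard.Local

set_option autoImplicit false

/-! # The local conjugacy -/

namespace Helper43.Billiard

open Real

/-- rotation of the plane -/
noncomputable def Rot (t : ℝ) (z : ℂ) : ℂ := Complex.exp ((t : ℂ) * Complex.I) * z

lemma norm_Rot (t : ℝ) (z : ℂ) : ‖Rot t z‖ = ‖z‖ := by
  rw [Rot, norm_mul, Complex.norm_exp_ofReal_mul_I, one_mul]

lemma Rot_Rot (t u : ℝ) (z : ℂ) : Rot t (Rot u z) = Rot (t + u) z := by
  rw [Rot, Rot, Rot, ← mul_assoc, ← Complex.exp_add, Complex.ofReal_add]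
  ring_nf

lemma Rot_zero (z : ℂ) : Rot 0 z = z := by simp [Rot]

/-- the data of a reduced solution -/
structure Red (α κ c : ℝ) (ϱ : ℝ → ℝ) (a : ℂ → ℝ) : Prop where
  curv : Curv ϱ κ
  rho0 : ϱ 0 = 1
  κ0 : 0 < κ
  hκ : 1 - 2 * κ = cos α
  c0 : 0 < c
  zero : a 0 = 0
  strict : HasStrictFDerivAt a ((-c) • Complex.imCLM) 0
  an : AnalyticAt ℝ a 0
  anH : AnalyticAt ℝ (Hs ϱ κ) 0
  anH' : AnalyticAt ℝ (Hs' ϱ κ) 0
  el : ∃ r > 0, ∀ z, ‖z‖ < r →
    Hs' ϱ κ ((a z - a (Rot α z)) / 2) * cos ((a z + a (Rot α z)) / 2)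
      - Hs ϱ κ ((a z - a (Rot α z)) / 2) * sin ((a z + a (Rot α z)) / 2)
    = Hs' ϱ κ ((a (Rot (-α) z) - a z) / 2) * cos ((a (Rot (-α) z) + a z) / 2)
      + Hs ϱ κ ((a (Rot (-α) z) - a z) / 2) * sin ((a (Rot (-α) z) + a z) / 2)

lemma exists_Red {α s κ Γ₀ : ℝ} {τ₀ : ℕ} (D : Dio α s κ Γ₀ τ₀) :
    ∃ c ϱ a, Red α κ c ϱ a := by
  have hs1 : s ≤ 1 := by rw [D.hs]; exact sin_le_one _
  have hΓ := Gam_nonneg D
  set Sa := ∑' j, aa (Gam s |sin α| Γ₀ τ₀) (2 * τ₀ + 13) j with hSa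
  have hS0 : 0 ≤ Sa := tsum_nonneg fun j => aa_nonneg hΓ _ j
  set E := Real.exp Sa with hE
  have hE1 : 1 ≤ E := Real.one_le_exp hS0
  have hE0 : 0 < E := Real.exp_pos _
  have hsin := D.sin0
  have hs0 := D.s0
  obtain ⟨δ, hδ0, hδ1, hδ2, hδ3⟩ : ∃ δ : ℝ, 0 < δ ∧ δ ≤ 1 / 64 ∧ 32 * (δ * E) ≤ s
      ∧ 96 * (δ * E) ≤ |sin α| := by
    refine ⟨min (1 / 64) (min (s / (32 * E)) (|sin α| / (96 * E))), ?_, min_le_left _ _, ?_, ?_⟩
    · refine lt_min (by norm_num) (lt_min (by positivity) (by positivity))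
    · have h1 := (min_le_right (1 / 64) (min (s / (32 * E)) (|sin α| / (96 * E)))).trans (min_le_left _ _)
      have h2 : min (1 / 64) (min (s / (32 * E)) (|sin α| / (96 * E))) * E ≤ s / (32 * E) * E :=
        mul_le_mul_of_nonneg_right h1 hE0.le
      have h3 : s / (32 * E) * E = s / 32 := by field_simp
      linarith
    · have h1 := (min_le_right (1 / 64) (min (s / (32 * E)) (|sin α| / (96 * E)))).trans (min_le_right _ _)
      have h2 : min (1 / 64) (min (s / (32 * E)) (|sin α| / (96 * E))) * E ≤ |sin α| / (96 * E) * E :=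
        mul_le_mul_of_nonneg_right h1 hE0.le
      have h3 : |sin α| / (96 * E) * E = |sin α| / 96 := by field_simp
      linarith
  obtain ⟨A, h, S⟩ := exists_FSol D hδ0.le hδ1 hδ2 hδ3
  set η := δ * E with hη
  have hη0 : 0 ≤ η := by positivity
  have N : Num α s κ (1 / 2) η δ :=
    { hs := D.hs, hκ := D.hκ, s0 := D.s0, s1 := hs1, ρ0 := le_refl _, ρ1 := by norm_num,
      δ0 := hδ0.le, δη := by rw [hη]; nlinarith, η1 := hδ2 }
  obtain ⟨ϱ, C, hϱ0, ψ₁, hψ₁, hloc⟩ := exists_table N hδ0 S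
  have hstrict := az_strict S hδ0 hη0
  have haz0 : az δ A 0 = 0 := by rw [az, norm_zero, aR_zero S]
  have hcos : 1 - 2 * κ = cos α := by
    have h1 := Real.cos_two_mul (α / 2)
    rw [show 2 * (α / 2) = α by ring] at h1
    have h2 := Real.sin_sq_add_cos_sq (α / 2)
    rw [D.hκ, D.hs]
    linarith
  obtain ⟨hc0, hc1, hc2⟩ := coeff_h_low S
  have hdeg := S.degree D.nonres hcos hδ0.le hδ1 hc0 hc1 hc2
  have han := az_analytic S hdeg (Bd_A_one N S)
  have hev : ∀ᶠ ψ in nhds (0 : ℝ), |ψ| < ψ₁ := by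
    have : ContinuousAt (fun ψ : ℝ => |ψ|) 0 := continuous_abs.continuousAt
    refine this.eventually (gt_mem_nhds ?_)
    change |(0 : ℝ)| < ψ₁
    rwa [abs_zero]
  obtain ⟨hh1, hh2⟩ := analyticAt_hr N hδ0 S
  refine ⟨δ, ϱ, az δ A, C, hϱ0, ?_, hcos, hδ0, haz0, hstrict, han,
    hh1.congr (hev.mono fun ψ hψ => (hloc ψ hψ).1.symm),
    hh2.congr (hev.mono fun ψ hψ => (hloc ψ hψ).2.symm), ?_⟩
  · rw [D.hκ]; positivity
  · have hcont : ContinuousAt (az δ A) 0 := hstrict.continuousAt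
    have h1 : ∀ᶠ z in nhds (0 : ℂ), |az δ A z| < ψ₁ := by
      have h2 : ContinuousAt (fun z => |az δ A z|) 0 := hcont.abs
      refine h2.eventually (gt_mem_nhds ?_)
      change |az δ A 0| < ψ₁
      rw [haz0, abs_zero]
      exact hψ₁
    obtain ⟨r, hr0, hball⟩ := Metric.eventually_nhds_iff.mp h1
    refine ⟨min r (1 / 2), lt_min hr0 (by norm_num), fun z hz => ?_⟩
    have hzr : ‖z‖ < r := lt_of_lt_of_le hz (min_le_left _ _)
    have hz2 : ‖z‖ ≤ 1 / 2 := (lt_of_lt_of_le hz (min_le_right _ _)).le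
    have b0 : |az δ A z| < ψ₁ := hball (by rwa [dist_zero_right])
    have b1 : |az δ A (Rot α z)| < ψ₁ := hball (by rwa [dist_zero_right, norm_Rot])
    have b2 : |az δ A (Rot (-α) z)| < ψ₁ := hball (by rwa [dist_zero_right, norm_Rot])
    have key := az_EL N hδ0 hδ1 S hz2 rfl rfl rfl
    change hr1 δ h ((az δ A z - az δ A (Rot α z)) / 2) * cos ((az δ A z + az δ A (Rot α z)) / 2)
      - hr κ δ h ((az δ A z - az δ A (Rot α z)) / 2) * sin ((az δ A z + az δ A (Rot α z)) / 2)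
      = hr1 δ h ((az δ A (Rot (-α) z) - az δ A z) / 2) * cos ((az δ A (Rot (-α) z) + az δ A z) / 2)
      + hr κ δ h ((az δ A (Rot (-α) z) - az δ A z) / 2) * sin ((az δ A (Rot (-α) z) + az δ A z) / 2) at key
    rw [abs_lt] at b0 b1 b2
    have l1 := hloc ((az δ A z - az δ A (Rot α z)) / 2) (abs_lt.mpr ⟨by linarith, by linarith⟩)
    have l2 := hloc ((az δ A (Rot (-α) z) - az δ A z) / 2) (abs_lt.mpr ⟨by linarith, by linarith⟩)
    rw [l1.1, l1.2, l2.1, l2.2]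
    exact key

/-- offset of the oriented line attached to `z` -/
noncomputable def pz (α κ : ℝ) (ϱ : ℝ → ℝ) (a : ℂ → ℝ) (z : ℂ) : ℝ :=
  Hs' ϱ κ ((a z - a (Rot α z)) / 2) * cos ((a z + a (Rot α z)) / 2)
    - Hs ϱ κ ((a z - a (Rot α z)) / 2) * sin ((a z + a (Rot α z)) / 2)

/-- the oriented line attached to `z` -/
noncomputable def ell (α κ : ℝ) (ϱ : ℝ → ℝ) (a : ℂ → ℝ) (z : ℂ) : ℂ × ℝ :=
  (⟨sin (a z), -cos (a z)⟩, pz α κ ϱ a z)

variable {α κ c : ℝ} {ϱ : ℝ → ℝ} {a : ℂ → ℝ}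

section red
variable (R : Red α κ c ϱ a)
include R

omit R in
lemma gam_coords (ψ : ℝ) : Xc ϱ ψ = Hs ϱ κ ψ * sin ψ + Hs' ϱ κ ψ * cos ψ
    ∧ Yc ϱ κ ψ = Hs ϱ κ ψ * cos ψ - Hs' ϱ κ ψ * sin ψ := by
  have h := Real.sin_sq_add_cos_sq ψ
  rw [Hs, Hs']
  constructor
  · linear_combination (-Xc ϱ ψ) * h
  · linear_combination (-Yc ϱ κ ψ) * h

omit R in
/-- the exit point lies on the line -/
lemma onLine_exit (C : Curv ϱ κ) (z : ℂ) :
    OnLine (ell α κ ϱ a z) (gam ϱ κ (π - (a z - a (Rot α z)) / 2)) := by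
  rw [onLine_iff]
  simp only [ell, gam, pz]
  rw [Xc_refl C, Yc_refl C]
  set ψ := (a z - a (Rot α z)) / 2 with hψ
  obtain ⟨h1, h2⟩ := gam_coords (ϱ := ϱ) (κ := κ) ψ
  have h3 : (a z + a (Rot α z)) / 2 = a z - ψ := by rw [hψ]; ring
  rw [h3, h1, h2, cos_sub, sin_sub]
  ring

omit R in
/-- the entry point lies on the line -/
lemma onLine_entry {z : ℂ}
    (hel : Hs' ϱ κ ((a z - a (Rot α z)) / 2) * cos ((a z + a (Rot α z)) / 2)
      - Hs ϱ κ ((a z - a (Rot α z)) / 2) * sin ((a z + a (Rot α z)) / 2)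
    = Hs' ϱ κ ((a (Rot (-α) z) - a z) / 2) * cos ((a (Rot (-α) z) + a z) / 2)
      + Hs ϱ κ ((a (Rot (-α) z) - a z) / 2) * sin ((a (Rot (-α) z) + a z) / 2)) :
    OnLine (ell α κ ϱ a z) (gam ϱ κ ((a (Rot (-α) z) - a z) / 2)) := by
  rw [onLine_iff]
  simp only [ell, gam, pz]
  rw [hel]
  set ψ := (a (Rot (-α) z) - a z) / 2 with hψ
  obtain ⟨h1, h2⟩ := gam_coords (ϱ := ϱ) (κ := κ) ψ
  have h3 : (a (Rot (-α) z) + a z) / 2 = a z + ψ := by rw [hψ]; ring
  rw [h3, h1, h2, cos_add, sin_add]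
  ring


/-- all smallness conditions -/
lemma exists_small : ∃ r > 0, ∀ z, ‖z‖ < r → |a z| < 1 / 2 ∧ 0 < Yc ϱ κ ((a z - a (Rot α z)) / 2)
    ∧ 0 < Yc ϱ κ ((a (Rot (-α) z) - a z) / 2) ∧
    Hs' ϱ κ ((a z - a (Rot α z)) / 2) * cos ((a z + a (Rot α z)) / 2)
      - Hs ϱ κ ((a z - a (Rot α z)) / 2) * sin ((a z + a (Rot α z)) / 2)
    = Hs' ϱ κ ((a (Rot (-α) z) - a z) / 2) * cos ((a (Rot (-α) z) + a z) / 2)
      + Hs ϱ κ ((a (Rot (-α) z) - a z) / 2) * sin ((a (Rot (-α) z) + a z) / 2) := by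
  obtain ⟨r₀, hr₀, hel⟩ := R.el
  have hY0 : 0 < Yc ϱ κ 0 := by
    have := R.κ0
    simpa [Yc] using this
  have hYc : ∀ᶠ ψ in nhds (0 : ℝ), 0 < Yc ϱ κ ψ :=
    (continuous_Yc R.curv).continuousAt.eventually (lt_mem_nhds hY0)
  obtain ⟨ε, hε, hY⟩ := Metric.eventually_nhds_iff.mp hYc
  have hcont : ContinuousAt a 0 := R.strict.continuousAt
  have h1 : ∀ᶠ z in nhds (0 : ℂ), |a z| < min (1 / 2) ε := by
    have h2 : ContinuousAt (fun z => |a z|) 0 := hcont.abs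
    refine h2.eventually (gt_mem_nhds ?_)
    change |a 0| < min (1 / 2) ε
    rw [R.zero, abs_zero]
    exact lt_min (by norm_num) hε
  obtain ⟨r, hr, hball⟩ := Metric.eventually_nhds_iff.mp h1
  refine ⟨min r r₀, lt_min hr hr₀, fun z hz => ?_⟩
  have hzr : ‖z‖ < r := lt_of_lt_of_le hz (min_le_left _ _)
  have b0 := lt_min_iff.mp (hball (y := z) (by rwa [dist_zero_right]))
  have b1 := lt_min_iff.mp (hball (y := Rot α z) (by rwa [dist_zero_right, norm_Rot]))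
  have b2 := lt_min_iff.mp (hball (y := Rot (-α) z) (by rwa [dist_zero_right, norm_Rot]))
  have c0 := abs_lt.mp b0.2
  have c1 := abs_lt.mp b1.2
  have c2 := abs_lt.mp b2.2
  refine ⟨b0.1, hY ?_, hY ?_, hel z (lt_of_lt_of_le hz (min_le_right _ _))⟩
  · rw [Real.dist_eq, sub_zero, abs_lt]; constructor <;> linarith
  · rw [Real.dist_eq, sub_zero, abs_lt]; constructor <;> linarith

omit R in
lemma norm_dir (t : ℝ) : ‖(⟨sin t, -cos t⟩ : ℂ)‖ = 1 := by
  rw [norm_one_iff]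
  have := Real.sin_sq_add_cos_sq t
  simp only
  linarith

omit R in
lemma ell_mem (C : Curv ϱ κ) {z : ℂ} (h1 : 0 < Yc ϱ κ ((a z - a (Rot α z)) / 2))
    (h2 : 0 < Yc ϱ κ ((a (Rot (-α) z) - a z) / 2))
    (hel : Hs' ϱ κ ((a z - a (Rot α z)) / 2) * cos ((a z + a (Rot α z)) / 2)
      - Hs ϱ κ ((a z - a (Rot α z)) / 2) * sin ((a z + a (Rot α z)) / 2)
    = Hs' ϱ κ ((a (Rot (-α) z) - a z) / 2) * cos ((a (Rot (-α) z) + a z) / 2)
      + Hs ϱ κ ((a (Rot (-α) z) - a z) / 2) * sin ((a (Rot (-α) z) + a z) / 2)) :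
    ell α κ ϱ a z ∈ Phase (Dom ϱ κ) := by
  refine ⟨norm_dir _, ?_⟩
  have hP := onLine_entry hel
  have hQ := onLine_exit (α := α) (a := a) C z
  set P := gam ϱ κ ((a (Rot (-α) z) - a z) / 2) with hPd
  set Q := gam ϱ κ (π - (a z - a (Rot α z)) / 2) with hQd
  have hPQ : P ≠ Q := by
    intro h
    have h3 := congrArg Complex.im h
    simp only [hPd, hQd, gam] at h3
    rw [Yc_refl C] at h3
    linarith
  have hmid := strictConvex_Dom' C (gam_mem' C ((a (Rot (-α) z) - a z) / 2))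
    (gam_mem' C (π - (a z - a (Rot α z)) / 2)) hPQ (a := 1 / 2) (b := 1 / 2) (by norm_num) (by norm_num)
    (by norm_num)
  rw [← closure_Dom C] at hmid
  have hconv : Convex ℝ (Dom ϱ κ) := by
    intro x hx y hy b c hb hc hbc
    rcases hb.eq_or_lt with h | h
    · rw [← h, zero_add] at hbc
      rw [← h, hbc, zero_smul, one_smul, zero_add]
      exact hy
    · exact combo_mem hx (Dom_subset hy) h hc hbc
  rw [hconv.interior_closure_eq_interior_of_nonempty_interior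
    (by rw [(isOpen_Dom C).interior_eq]; exact ⟨0, zero_mem_Dom C⟩), (isOpen_Dom C).interior_eq] at hmid
  refine ⟨_, hmid, ?_⟩
  rw [onLine_iff] at hP hQ ⊢
  simp only [Complex.add_re, Complex.add_im, Complex.real_smul, Complex.re_ofReal_mul,
    Complex.im_ofReal_mul]
  linarith

omit R in
lemma reflects_ell (C : Curv ϱ κ) {z : ℂ} (hz : |a z| < 1 / 2) (hz' : |a (Rot α z)| < 1 / 2)
    (hel : Hs' ϱ κ ((a (Rot α z) - a (Rot α (Rot α z))) / 2) * cos ((a (Rot α z) + a (Rot α (Rot α z))) / 2)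
      - Hs ϱ κ ((a (Rot α z) - a (Rot α (Rot α z))) / 2) * sin ((a (Rot α z) + a (Rot α (Rot α z))) / 2)
    = Hs' ϱ κ ((a (Rot (-α) (Rot α z)) - a (Rot α z)) / 2)
        * cos ((a (Rot (-α) (Rot α z)) + a (Rot α z)) / 2)
      + Hs ϱ κ ((a (Rot (-α) (Rot α z)) - a (Rot α z)) / 2)
        * sin ((a (Rot (-α) (Rot α z)) + a (Rot α z)) / 2)) :
    Reflects (Dom ϱ κ) (ell α κ ϱ a z) (mir (ell α κ ϱ a (Rot α z))) := by
  have hinv : Rot (-α) (Rot α z) = z := by rw [Rot_Rot, neg_add_cancel, Rot_zero]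
  set ψ := (a z - a (Rot α z)) / 2 with hψ
  rw [abs_lt] at hz hz'
  have hπ := Real.pi_gt_three
  have hin : inner ℝ (nrm (π - ψ)) (ell α κ ϱ a z).1 = cos (a z - ψ) := by
    rw [inner_eq]
    simp only [nrm, ell]
    rw [sin_pi_sub, cos_pi_sub, cos_sub]
    ring
  refine ⟨gam ϱ κ (π - ψ), nrm (π - ψ), ?_, isOuterNormal_gam _, onLine_exit C z, ?_, ?_, ?_⟩
  · rw [frontier_Dom C]; exact ⟨_, rfl⟩
  · rw [hin]
    exact cos_pos_of_mem_Ioo ⟨by rw [hψ]; linarith, by rw [hψ]; linarith⟩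
  · rw [hin]
    have h1 : a (Rot α z) = a z - ψ - ψ := by rw [hψ]; ring
    apply Complex.ext
    · simp only [mir, ell, nrm, Complex.conj_re, Complex.sub_re, Complex.real_smul, Complex.re_ofReal_mul]
      rw [h1, sin_pi_sub, sin_sub (a z - ψ) ψ]
      have h2 : sin (a z) = sin (a z - ψ) * cos ψ + cos (a z - ψ) * sin ψ := by
        rw [← sin_add]; congr 1; ring
      rw [h2]; ring
    · simp only [mir, ell, nrm, Complex.conj_im, Complex.sub_im, Complex.real_smul, Complex.im_ofReal_mul]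
      rw [h1, cos_pi_sub, cos_sub (a z - ψ) ψ]
      have h2 : cos (a z) = cos (a z - ψ) * cos ψ - sin (a z - ψ) * sin ψ := by
        rw [← cos_add]; congr 1; ring
      rw [h2]; ring
  · have h1 := onLine_mir (onLine_entry hel)
    rw [hinv] at h1
    have h2 : (starRingEnd ℂ) (gam ϱ κ ((a z - a (Rot α z)) / 2)) = gam ϱ κ (π - ψ) := by
      apply Complex.ext
      · simp only [gam, Complex.conj_re]; rw [Xc_refl C]
      · simp only [gam, Complex.conj_im]; rw [Yc_refl C]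
    rw [h2] at h1
    exact h1

/-- the offset is analytic at the origin -/
lemma analyticAt_pz : AnalyticAt ℝ (pz α κ ϱ a) 0 := by
  have hR : AnalyticAt ℝ (fun z => Rot α z) 0 := by
    have : (fun z => Rot α z) = fun z => Complex.exp ((α : ℂ) * Complex.I) * z := rfl
    rw [this]
    exact analyticAt_const.mul analyticAt_id
  have hR0 : Rot α 0 = 0 := by rw [Rot, mul_zero]
  have h1 : AnalyticAt ℝ (fun z => a (Rot α z)) 0 := by
    have h2 : AnalyticAt ℝ a (Rot α 0) := by rw [hR0]; exact R.an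
    exact AnalyticAt.fun_comp (g := a) (f := fun z => Rot α z) h2 hR
  have hψ : AnalyticAt ℝ (fun z => (a z - a (Rot α z)) / 2) 0 := (R.an.sub h1).div_const
  have hσ : AnalyticAt ℝ (fun z => (a z + a (Rot α z)) / 2) 0 := (R.an.add h1).div_const
  have hψ0 : (a 0 - a (Rot α 0)) / 2 = 0 := by rw [hR0, sub_self, zero_div]
  have d1 : AnalyticAt ℝ (fun z => Hs' ϱ κ ((a z - a (Rot α z)) / 2)) 0 := by
    have : AnalyticAt ℝ (Hs' ϱ κ) ((a 0 - a (Rot α 0)) / 2) := by rw [hψ0]; exact R.anH'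
    exact AnalyticAt.fun_comp (g := Hs' ϱ κ) (f := fun z => (a z - a (Rot α z)) / 2) this hψ
  have d2 : AnalyticAt ℝ (fun z => Hs ϱ κ ((a z - a (Rot α z)) / 2)) 0 := by
    have : AnalyticAt ℝ (Hs ϱ κ) ((a 0 - a (Rot α 0)) / 2) := by rw [hψ0]; exact R.anH
    exact AnalyticAt.fun_comp (g := Hs ϱ κ) (f := fun z => (a z - a (Rot α z)) / 2) this hψ
  have d3 : AnalyticAt ℝ (fun z => cos ((a z + a (Rot α z)) / 2)) 0 :=
    AnalyticAt.fun_comp (g := Real.cos) (f := fun z => (a z + a (Rot α z)) / 2) analyticAt_cos hσ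
  have d4 : AnalyticAt ℝ (fun z => sin ((a z + a (Rot α z)) / 2)) 0 :=
    AnalyticAt.fun_comp (g := Real.sin) (f := fun z => (a z + a (Rot α z)) / 2) analyticAt_sin hσ
  exact (d1.mul d3).sub (d2.mul d4)

/-- the derivative of the chart at the origin -/
lemma strict_pz : HasStrictFDerivAt (pz α κ ϱ a) ((c * sin α / 2) • Complex.reCLM) 0 := by
  have C := R.curv
  set RotL : ℂ →L[ℝ] ℂ := (Complex.exp ((α : ℂ) * Complex.I)) • ContinuousLinearMap.id ℝ ℂ with hRotL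
  have hRL : ∀ z, RotL z = Rot α z := fun z => by simp [hRotL, Rot]
  have h0 : HasStrictFDerivAt (fun z => a (Rot α z)) (((-c) • Complex.imCLM).comp RotL) 0 := by
    have h1 : HasStrictFDerivAt (fun z => Rot α z) RotL 0 := by
      have := RotL.hasStrictFDerivAt (x := (0 : ℂ))
      have e : (fun z => Rot α z) = RotL := funext fun z => (hRL z).symm
      rw [e]
      exact this
    have h2 : HasStrictFDerivAt a ((-c) • Complex.imCLM) (Rot α 0) := by
      rw [Rot, mul_zero]; exact R.strict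
    exact h2.comp 0 h1
  have hψ : HasStrictFDerivAt (fun z => (a z - a (Rot α z)) / 2)
      ((1 / 2 : ℝ) • ((-c) • Complex.imCLM - ((-c) • Complex.imCLM).comp RotL)) 0 := by
    have h1 := (R.strict.sub h0).const_mul (1 / 2 : ℝ)
    refine h1.congr_of_eventuallyEq (Filter.Eventually.of_forall fun z => ?_)
    simp only [Pi.sub_apply]
    ring
  have hσ : HasStrictFDerivAt (fun z => (a z + a (Rot α z)) / 2)
      ((1 / 2 : ℝ) • ((-c) • Complex.imCLM + ((-c) • Complex.imCLM).comp RotL)) 0 := by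
    have h1 := (R.strict.add h0).const_mul (1 / 2 : ℝ)
    refine h1.congr_of_eventuallyEq (Filter.Eventually.of_forall fun z => ?_)
    simp only [Pi.add_apply]
    ring
  have hψ0 : (a 0 - a (Rot α 0)) / 2 = 0 := by rw [Rot, mul_zero, sub_self, zero_div]
  have hσ0 : (a 0 + a (Rot α 0)) / 2 = 0 := by rw [Rot, mul_zero, R.zero]; norm_num
  have hH0 : Hs ϱ κ 0 = κ := by simp [Hs, Xc, Yc]
  have hH1 : Hs' ϱ κ 0 = 0 := by simp [Hs', Xc, Yc]
  have dH : HasStrictDerivAt (Hs ϱ κ) 0 ((a 0 - a (Rot α 0)) / 2) := by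
    rw [hψ0]
    refine (contDiff_Hs C).contDiffAt.hasStrictDerivAt' ?_ (by simp)
    have := hasDerivAt_Hs C 0
    rwa [hH1] at this
  have dH' : HasStrictDerivAt (Hs' ϱ κ) (1 - κ) ((a 0 - a (Rot α 0)) / 2) := by
    rw [hψ0]
    refine (contDiff_Hs' C).contDiffAt.hasStrictDerivAt' ?_ (by simp)
    have := hasDerivAt_Hs' C 0
    rwa [R.rho0, hH0] at this
  have dc : HasStrictDerivAt cos 0 ((a 0 + a (Rot α 0)) / 2) := by
    rw [hσ0]
    have := hasStrictDerivAt_cos 0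
    rwa [sin_zero, neg_zero] at this
  have ds : HasStrictDerivAt sin 1 ((a 0 + a (Rot α 0)) / 2) := by
    rw [hσ0]
    have := hasStrictDerivAt_sin 0
    rwa [cos_zero] at this
  have d1 := dH'.comp_hasStrictFDerivAt (0 : ℂ) hψ
  have d2 := dH.comp_hasStrictFDerivAt (0 : ℂ) hψ
  have d3 := dc.comp_hasStrictFDerivAt (0 : ℂ) hσ
  have d4 := ds.comp_hasStrictFDerivAt (0 : ℂ) hσ
  have d : HasStrictFDerivAt (pz α κ ϱ a) _ 0 := (d1.mul d3).sub (d2.mul d4)
  refine d.congr_fderiv ?_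
  refine ContinuousLinearMap.ext fun w => ?_
  have hw : RotL w = Rot α w := hRL w
  simp only [Function.comp_apply, hψ0, hσ0, hH0, hH1, cos_zero, sin_zero, zero_smul, smul_zero,
    one_smul, zero_add, add_zero, _root_.sub_apply, _root_.smul_apply,
    _root_.add_apply, ContinuousLinearMap.comp_apply, Complex.imCLM_apply,
    Complex.reCLM_apply, hw, smul_eq_mul]
  have him : (Rot α w).im = cos α * w.im + sin α * w.re := by
    rw [Rot, Complex.mul_im, Complex.exp_ofReal_mul_I_re, Complex.exp_ofReal_mul_I_im]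
  rw [him]
  have := R.hκ
  linear_combination (-(c * w.im / 2)) * this

end red

end Helper43.Billiard
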