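import Pool.Agent.Helper43_Billiard.StepK

set_option autoImplicit false

/-! # Quantitative control of approximate solutions -/

namespace Helper43.Billiard

open PowerSeries Finset Real

/-- model functions -/
noncomputable def A0 : Fam := fun φ => C (-sin φ) * X
noncomputable def B0 : Fam := fun φ => C (-cos φ) * X

/-- hypotheses on the two auxiliary series -/
structure Par (δ : ℝ) (Cc Vc : ℝ⟦X⟧) : Prop where
  evC : EvenS Cc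
  evV : EvenS Vc
  c0 : Bd 2 (Cc - 1) δ
  c1 : Bd 2 (d⁄dX ℝ Cc) δ
  c2 : Bd 2 (d⁄dX ℝ (d⁄dX ℝ Cc)) δ
  v1 : Bd 2 (d⁄dX ℝ Vc - X) δ
  v2 : Bd 2 (d⁄dX ℝ (d⁄dX ℝ Vc) - 1) δ

/-- closeness to the linear model -/
structure Ctl (α s κ ρ η : ℝ) (A : Fam) (h : ℝ⟦X⟧) : Prop where
  chi : ∀ φ, Bd ρ (Psi α A φ - C (s * cos φ) * X) (η * (|cos φ| * sin φ ^ 2))
  a0 : ∀ φ, Bd ρ (A φ - A0 φ) η
  p0 : ∀ φ, Bd ρ (Dr (A φ) - A0 φ) η
  q0 : ∀ φ, Bd ρ (Dp A φ - B0 φ) η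
  h0 : Bd (s * ρ) (h - C ((1 - κ) / 2) * X ^ 2) η
  h1 : Bd (s * ρ) (d⁄dX ℝ h - C (1 - κ) * X) η
  h2 : Bd (s * ρ) (d⁄dX ℝ (d⁄dX ℝ h) - C (1 - κ)) η

variable {α s κ ρ η δ : ℝ} {Cc Vc h : ℝ⟦X⟧} {A : Fam} {K : ℕ}

lemma Bd_A0 (hρ : 0 ≤ ρ) (φ : ℝ) : Bd ρ (A0 φ) ρ := by
  refine ((Bd.C hρ (-sin φ)).mul (Bd.X hρ) hρ).mono ?_
  rw [abs_neg]
  exact mul_le_of_le_one_left hρ (abs_sin_le_one _)

lemma Bd_B0 (hρ : 0 ≤ ρ) (φ : ℝ) : Bd ρ (B0 φ) ρ := by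
  refine ((Bd.C hρ (-cos φ)).mul (Bd.X hρ) hρ).mono ?_
  rw [abs_neg]
  exact mul_le_of_le_one_left hρ (abs_cos_le_one _)

/-- standing numerical assumptions -/
structure Num (α s κ ρ η δ : ℝ) : Prop where
  hs : s = sin (α / 2)
  hκ : κ = s ^ 2
  s0 : 0 < s
  s1 : s ≤ 1
  ρ0 : 1 / 2 ≤ ρ
  ρ1 : ρ ≤ 1
  δ0 : 0 ≤ δ
  δη : δ ≤ η
  η1 : 32 * η ≤ s

namespace Num
variable (N : Num α s κ ρ η δ)
include N
lemma ρpos : 0 < ρ := by linarith [N.ρ0]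
lemma η0 : 0 ≤ η := N.δ0.trans N.δη
lemma ηle : η ≤ 1 / 32 := by linarith [N.η1, N.s1]
lemma κ0 : 0 ≤ κ := by rw [N.hκ]; positivity
lemma κ1 : κ ≤ 1 := by rw [N.hκ]; nlinarith [N.s0, N.s1]
lemma sρpos : 0 < s * ρ := mul_pos N.s0 N.ρpos
lemma sρle : s * ρ ≤ 1 := by nlinarith [N.s0, N.s1, N.ρ0, N.ρ1]
lemma sρge : s / 2 ≤ s * ρ := by nlinarith [N.s0, N.ρ0]
end Num

lemma Ctl.mono {ρ' η' : ℝ} (H : Ctl α s κ ρ η A h) (hs : 0 ≤ s) (h0 : 0 ≤ ρ') (hρ : ρ' ≤ ρ) (hη : η ≤ η') :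
    Ctl α s κ ρ' η' A h := by
  have hsρ : 0 ≤ s * ρ' := mul_nonneg hs h0
  have hsρ' : s * ρ' ≤ s * ρ := mul_le_mul_of_nonneg_left hρ hs
  exact {
    chi := fun φ => ((H.chi φ).mono_radius h0 hρ).mono
      (mul_le_mul_of_nonneg_right hη (by positivity))
    a0 := fun φ => ((H.a0 φ).mono_radius h0 hρ).mono hη
    p0 := fun φ => ((H.p0 φ).mono_radius h0 hρ).mono hη
    q0 := fun φ => ((H.q0 φ).mono_radius h0 hρ).mono hη
    h0 := (H.h0.mono_radius hsρ hsρ').mono hη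
    h1 := (H.h1.mono_radius hsρ hsρ').mono hη
    h2 := (H.h2.mono_radius hsρ hsρ').mono hη }

section est
variable (N : Num α s κ ρ η δ) (H : Ctl α s κ ρ η A h)
include N H

lemma bd_Psi (φ : ℝ) : Bd ρ (Psi α A φ) (s * ρ) := by
  have h1 := ((Bd.C N.ρpos.le (s * cos φ)).mul (Bd.X N.ρpos.le) N.ρpos.le).add (H.chi φ) N.ρpos.le
  rw [add_sub_cancel] at h1
  refine h1.mono ?_
  rw [abs_mul, abs_of_pos N.s0]
  have hc0 := abs_nonneg (cos φ)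
  have hc1 := abs_cos_le_one φ
  have hs2 : sin φ ^ 2 = 1 - |cos φ| ^ 2 := by rw [sq_abs]; linarith [Real.sin_sq_add_cos_sq φ]
  rw [hs2]
  set c := |cos φ|
  have hη : η ≤ s * ρ / 2 := by
    have := N.η1; have := N.sρge; have := N.s0; linarith
  have h2 : 0 ≤ c * (1 - c ^ 2) := by
    apply mul_nonneg hc0
    nlinarith
  calc s * c * ρ + η * (c * (1 - c ^ 2)) ≤ s * c * ρ + s * ρ / 2 * (c * (1 - c ^ 2)) := by
        have := mul_le_mul_of_nonneg_right hη h2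
        linarith
    _ = s * ρ * (c * (3 - c ^ 2) / 2) := by ring
    _ ≤ s * ρ * 1 := by
        refine mul_le_mul_of_nonneg_left ?_ N.sρpos.le
        nlinarith [sq_nonneg (1 - c), mul_nonneg hc0 (sq_nonneg (1 - c)), sq_nonneg (c + 2), mul_nonneg (sq_nonneg (1 - c)) (by linarith : 0 ≤ c + 2)]
    _ = s * ρ := mul_one _

lemma bd_A (φ : ℝ) : Bd ρ (A φ) 2 := by
  have h1 := (Bd_A0 N.ρpos.le φ).add (H.a0 φ) N.ρpos.le
  rw [add_sub_cancel] at h1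
  exact h1.mono (by linarith [N.ρ1, N.ηle])

lemma bd_DrA (φ : ℝ) : Bd ρ (Dr (A φ)) 2 := by
  have h1 := (Bd_A0 N.ρpos.le φ).add (H.p0 φ) N.ρpos.le
  rw [add_sub_cancel] at h1
  exact h1.mono (by linarith [N.ρ1, N.ηle])

lemma bd_DpA (φ : ℝ) : Bd ρ (Dp A φ) 2 := by
  have h1 := (Bd_B0 N.ρpos.le φ).add (H.q0 φ) N.ρpos.le
  rw [add_sub_cancel] at h1
  exact h1.mono (by linarith [N.ρ1, N.ηle])

lemma bd_sg (φ ψ : ℝ) : Bd ρ (sg (A φ) (A ψ)) 2 := by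
  have h1 := ((bd_A N H φ).add (bd_A N H ψ) N.ρpos.le).smul (1 / 2)
  refine h1.mono ?_
  rw [abs_of_pos (by norm_num)]
  norm_num

lemma bd_h : Bd (s * ρ) h 1 := by
  have h1 := (((Bd.C N.sρpos.le ((1 - κ) / 2)).mul ((Bd.X N.sρpos.le).pow N.sρpos.le 2) N.sρpos.le)).add
    H.h0 N.sρpos.le
  rw [add_sub_cancel] at h1
  refine h1.mono ?_
  have hκ0 := N.κ0
  have hκ1 := N.κ1
  rw [abs_of_nonneg (by linarith)]
  have h2 : (s * ρ) ^ 2 ≤ 1 := by nlinarith [N.sρpos, N.sρle]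
  have h3 : (1 - κ) / 2 * (s * ρ) ^ 2 ≤ 1 / 2 := by nlinarith
  linarith [N.ηle]

end est

lemma bd_comp_sub {g : ℝ⟦X⟧} {r M : ℝ} {c : ℝ} {u : ℝ⟦X⟧} (hρ : 0 ≤ ρ) (hu : (X : ℝ⟦X⟧) ∣ u)
    (hB : Bd ρ u r) (hg : Bd r (g - C c) M) : Bd ρ (comp g u - C c) M := by
  have : comp g u - C c = comp (g - C c) u := by rw [comp_sub, comp_C]
  rw [this]
  exact Bd.comp hρ hu hB hg

lemma bd_comp_sub_lin {g : ℝ⟦X⟧} {r M : ℝ} {c : ℝ} {u : ℝ⟦X⟧} (hρ : 0 ≤ ρ) (hu : (X : ℝ⟦X⟧) ∣ u)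
    (hB : Bd ρ u r) (hg : Bd r (g - C c * X) M) : Bd ρ (comp g u - C c * u) M := by
  have h1 : comp (C c * X) u = C c * u := by
    rw [← smul_eq_C_mul X c, comp_smul, comp_X hu, smul_eq_C_mul]
  have : comp g u - C c * u = comp (g - C c * X) u := by
    rw [comp_sub, h1]
  rw [this]
  exact Bd.comp hρ hu hB hg

/-- two-point estimate, in abstract form -/
lemma bd_S1_aux (hP : Par δ Cc Vc) (hρ : 0 ≤ ρ) {u v : ℝ⟦X⟧} (hu : (X : ℝ⟦X⟧) ∣ u)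
    (hv : (X : ℝ⟦X⟧) ∣ v) {r : ℝ} (hr0 : 0 ≤ r) (hr1 : r ≤ 1) (hp : Bd ρ (ps u v) r)
    (hsg : Bd ρ (sg u v) 2) (hκ0 : 0 ≤ κ) (hκ1 : κ ≤ 1) (hδ : 0 ≤ δ) (hδη : δ ≤ η) (hη : η ≤ 1 / 32)
    (hh : Bd r h 1) (hh1 : Bd r (d⁄dX ℝ h - C (1 - κ) * X) η) :
    Bd ρ (S1 κ Cc Vc h u v - (C (1 - κ) * ps u v - C κ * sg u v)) (5 * η)
    ∧ Bd ρ (S2 κ Cc Vc h u v - (-(C (1 - κ) * ps u v) - C κ * sg u v)) (5 * η) := by
  have hXp := X_dvd_ps hu hv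
  have hXs := X_dvd_sg hu hv
  have t1 : Bd ρ (comp (d⁄dX ℝ h) (ps u v) - C (1 - κ) * ps u v) η := bd_comp_sub_lin hρ hXp hp hh1
  have t2 : Bd ρ (comp Cc (sg u v) - 1) δ := by
    have := bd_comp_sub (c := 1) (g := Cc) hρ hXs hsg (by simpa using hP.c0)
    simpa using this
  have t2' : Bd ρ (comp Cc (sg u v)) (1 + δ) := by
    have := (Bd.one hρ).add t2 hρ
    rwa [add_sub_cancel] at this
  have t3 : Bd ρ (comp h (ps u v)) 1 := Bd.comp hρ hXp hp hh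
  have t4 : Bd ρ (comp (d⁄dX ℝ Cc) (sg u v)) δ := Bd.comp hρ hXs hsg hP.c1
  have t5 : Bd ρ (comp (d⁄dX ℝ Vc) (sg u v) - sg u v) δ := by
    have := bd_comp_sub_lin (c := 1) (g := d⁄dX ℝ Vc) hρ hXs hsg (by simpa using hP.v1)
    simpa using this
  have t6 : Bd ρ (C (1 - κ) * ps u v) 1 := by
    refine ((Bd.C hρ (1 - κ)).mul hp hρ).mono ?_
    rw [abs_of_nonneg (by linarith)]
    nlinarith
  have m1 := (t1.mul t2' hρ)
  have m2 := (t6.mul t2 hρ)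
  have m3 := t3.mul t4 hρ
  have m4 := (Bd.C hρ κ).mul t5 hρ
  rw [abs_of_nonneg hκ0] at m4
  have hnum : η * (1 + δ) + 1 * δ + 1 * δ + κ * δ ≤ 5 * η := by nlinarith
  constructor
  · have e : S1 κ Cc Vc h u v - (C (1 - κ) * ps u v - C κ * sg u v)
        = (comp (d⁄dX ℝ h) (ps u v) - C (1 - κ) * ps u v) * comp Cc (sg u v)
          + (C (1 - κ) * ps u v) * (comp Cc (sg u v) - 1)
          + comp h (ps u v) * comp (d⁄dX ℝ Cc) (sg u v)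
          - C κ * (comp (d⁄dX ℝ Vc) (sg u v) - sg u v) := by
      rw [S1, smul_eq_C_mul]; ring
    rw [e]
    exact (((m1.add m2 hρ).add m3 hρ).sub m4 hρ).mono hnum
  · have e : S2 κ Cc Vc h u v - (-(C (1 - κ) * ps u v) - C κ * sg u v)
        = -((comp (d⁄dX ℝ h) (ps u v) - C (1 - κ) * ps u v) * comp Cc (sg u v)
          + (C (1 - κ) * ps u v) * (comp Cc (sg u v) - 1))
          + comp h (ps u v) * comp (d⁄dX ℝ Cc) (sg u v)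
          - C κ * (comp (d⁄dX ℝ Vc) (sg u v) - sg u v) := by
      rw [S2, smul_eq_C_mul]; ring
    rw [e]
    exact ((((m1.add m2 hρ).neg).add m3 hρ).sub m4 hρ).mono hnum

lemma ps_eq_Psi (A : Fam) (φ : ℝ) : ps (A φ) (A (φ + α)) = Psi α A (φ + α / 2) := by
  rw [Psi, show φ + α / 2 - α / 2 = φ by ring, show φ + α / 2 + α / 2 = φ + α by ring]
lemma ps_eq_Psi' (A : Fam) (φ : ℝ) : ps (A (φ - α)) (A φ) = Psi α A (φ - α / 2) := by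
  rw [Psi, show φ - α / 2 - α / 2 = φ - α by ring, show φ - α / 2 + α / 2 = φ by ring]

lemma bd_EL (hP : Par δ Cc Vc) (N : Num α s κ ρ η δ) (H : Ctl α s κ ρ η A h)
    (hX : ∀ φ, (X : ℝ⟦X⟧) ∣ A φ) (φ : ℝ) : Bd ρ (EL α κ Cc Vc h A φ) (12 * η) := by
  have hρ := N.ρpos.le
  have hp1 : Bd ρ (ps (A φ) (A (φ + α))) (s * ρ) := by rw [ps_eq_Psi]; exact bd_Psi N H _
  have hp2 : Bd ρ (ps (A (φ - α)) (A φ)) (s * ρ) := by rw [ps_eq_Psi']; exact bd_Psi N H _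
  have b1 := (bd_S1_aux (κ := κ) hP hρ (hX φ) (hX (φ + α)) N.sρpos.le N.sρle hp1 (bd_sg N H _ _) N.κ0 N.κ1
    N.δ0 N.δη N.ηle (bd_h N H) H.h1).1
  have b2 := (bd_S1_aux (κ := κ) hP hρ (hX (φ - α)) (hX φ) N.sρpos.le N.sρle hp2 (bd_sg N H _ _) N.κ0 N.κ1
    N.δ0 N.δη N.ηle (bd_h N H) H.h1).2
  -- linear part
  set D : Fam := fun φ => A φ - A0 φ with hD
  have b3 : Bd ρ (C (1 - 2 * κ) * D φ - C (1 / 2) * (D (φ + α) + D (φ - α))) (2 * η) := by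
    have h1 := (Bd.C hρ (1 - 2 * κ)).mul (H.a0 φ) hρ
    have h2 := (Bd.C hρ (1 / 2)).mul ((H.a0 (φ + α)).add (H.a0 (φ - α)) hρ) hρ
    refine (h1.sub h2 hρ).mono ?_
    have h3 : |1 - 2 * κ| ≤ 1 := abs_le.mpr ⟨by linarith [N.κ1], by linarith [N.κ0]⟩
    rw [abs_of_pos (by norm_num : (0 : ℝ) < 1 / 2)]
    nlinarith [N.η0]
  have hlin : C (1 - 2 * κ) * A0 φ - C (1 / 2) * (A0 (φ + α) + A0 (φ - α)) = 0 := by
    have hcos : 1 - 2 * κ = cos α := by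
      have h1 := Real.cos_two_mul (α / 2)
      rw [show 2 * (α / 2) = α by ring] at h1
      have h2 := Real.sin_sq_add_cos_sq (α / 2)
      rw [N.hκ, N.hs]
      linarith
    simp only [A0]
    rw [hcos]
    have : (C (cos α) * (C (-sin φ) * X) - C (1 / 2) * (C (-sin (φ + α)) * X + C (-sin (φ - α)) * X) : ℝ⟦X⟧)
        = C (cos α * -sin φ - 1 / 2 * (-sin (φ + α) + -sin (φ - α))) * X := by
      simp only [map_sub, map_mul, map_add]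
      ring
    rw [this, sin_add, sin_sub]
    have h0 : cos α * -sin φ - 1 / 2 * (-(sin φ * cos α + cos φ * sin α) + -(sin φ * cos α - cos φ * sin α)) = 0 := by
      ring
    rw [h0, map_zero, zero_mul]
  have e : EL α κ Cc Vc h A φ
      = (S1 κ Cc Vc h (A φ) (A (φ + α)) - (C (1 - κ) * ps (A φ) (A (φ + α)) - C κ * sg (A φ) (A (φ + α))))
        + (S2 κ Cc Vc h (A (φ - α)) (A φ) - (-(C (1 - κ) * ps (A (φ - α)) (A φ)) - C κ * sg (A (φ - α)) (A φ)))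
        + (C (1 - 2 * κ) * D φ - C (1 / 2) * (D (φ + α) + D (φ - α))) := by
    have h12 : (C (1 / 2) : ℝ⟦X⟧) * 2 = 1 := by
      rw [show (2 : ℝ⟦X⟧) = C (2 : ℝ) from (map_ofNat C 2).symm, ← map_mul]
      norm_num
    have hk : (C (1 - 2 * κ) : ℝ⟦X⟧) = C (1 - κ) - C κ := by
      rw [← map_sub]; congr 1; ring
    have hk1 : (C (1 - κ) : ℝ⟦X⟧) = 1 - C κ := by
      rw [map_sub, map_one]
    simp only [EL, hD, ps, sg, smul_eq_C_mul]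
    rw [hk] at hlin ⊢
    rw [hk1] at hlin ⊢
    linear_combination hlin + A φ * (1 - C κ - C κ) * h12
  rw [e]
  exact ((b1.add b2 hρ).add b3 hρ).mono (by linarith)

end Helper43.Billiard
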