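import Mathlib

set_option autoImplicit false

/-! # A curvature function with prescribed germ -/

namespace Helper43.Billiard

open Real intervalIntegral

/-- radius of curvature as a function of the normal angle, for a table with two axes of symmetry -/
structure Curv (ϱ : ℝ → ℝ) (y₀ : ℝ) : Prop where
  smooth : ContDiff ℝ (↑(⊤ : ℕ∞)) ϱ
  pos : ∀ ψ, 0 < ϱ ψ
  even : ∀ ψ, ϱ (-ψ) = ϱ ψ
  refl : ∀ ψ, ϱ (π - ψ) = ϱ ψ
  int : ∫ t in (0 : ℝ)..π, ϱ t * sin t = 2 * y₀

lemma abs_arcsin_le {u : ℝ} (hu : |u| ≤ 1) : |arcsin u| ≤ π / 2 * |u| := by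
  have h1 := mul_abs_le_abs_sin (x := arcsin u) (abs_le.mpr ⟨neg_pi_div_two_le_arcsin u, arcsin_le_pi_div_two u⟩)
  rw [sin_arcsin (abs_le.mp hu).1 (abs_le.mp hu).2] at h1
  have hπ := Real.pi_pos
  calc |arcsin u| = π / 2 * (2 / π * |arcsin u|) := by field_simp
    _ ≤ π / 2 * |u| := mul_le_mul_of_nonneg_left h1 (by positivity)

lemma exists_curv {ρl : ℝ → ℝ} {ψ₀ y₀ : ℝ} (hψ₀ : 0 < ψ₀)
    (hsm : ∀ ψ, |ψ| < ψ₀ → ContDiffAt ℝ (↑(⊤ : ℕ∞)) ρl ψ)
    (heven : ∀ ψ, ρl (-ψ) = ρl ψ) (hpos : 0 < ρl 0) (hy : 0 < y₀) :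
    ∃ ϱ, Curv ϱ y₀ ∧ ∃ ψ₁, 0 < ψ₁ ∧ ψ₁ ≤ ψ₀ ∧ ∀ ψ, |ψ| < ψ₁ → ϱ ψ = ρl ψ := by
  have hcont : ContinuousAt ρl 0 := (hsm 0 (by rwa [abs_zero])).continuousAt
  obtain ⟨ε₁, hε₁, hcl⟩ : ∃ ε₁ > 0, ∀ ψ, |ψ| < ε₁ → 0 < ρl ψ ∧ ρl ψ < 2 * ρl 0 := by
    have h1 : ∀ᶠ ψ in nhds (0 : ℝ), 0 < ρl ψ := hcont.eventually (lt_mem_nhds hpos)
    have h2 : ∀ᶠ ψ in nhds (0 : ℝ), ρl ψ < 2 * ρl 0 := hcont.eventually (gt_mem_nhds (by linarith))
    obtain ⟨ε, hε, h⟩ := Metric.eventually_nhds_iff.mp (h1.and h2)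
    exact ⟨ε, hε, fun ψ hψ => h (by rwa [Real.dist_eq, sub_zero])⟩
  -- the width of the bump
  obtain ⟨ε, hε0, hε1, hε2, hε3, hε4, hε5⟩ : ∃ ε : ℝ, 0 < ε ∧ 4 * ε ≤ ε₁ ∧ 4 * ε ≤ ψ₀ ∧ 4 * ε ≤ 1
      ∧ π * (2 * ρl 0) * ε < 2 * y₀ ∧ ε ≤ ψ₀ := by
    set b := π * (2 * ρl 0) with hb
    have hb0 : 0 < b := by have := Real.pi_pos; positivity
    refine ⟨min (min (ε₁ / 4) (ψ₀ / 4)) (min (1 / 4) (y₀ / b)), ?_, ?_, ?_, ?_, ?_, ?_⟩
    · refine lt_min (lt_min (by positivity) (by positivity)) (lt_min (by norm_num) (by positivity))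
    · have := (min_le_left (min (ε₁ / 4) (ψ₀ / 4)) (min (1 / 4) (y₀ / b))).trans (min_le_left _ _)
      linarith
    · have := (min_le_left (min (ε₁ / 4) (ψ₀ / 4)) (min (1 / 4) (y₀ / b))).trans (min_le_right _ _)
      linarith
    · have := (min_le_right (min (ε₁ / 4) (ψ₀ / 4)) (min (1 / 4) (y₀ / b))).trans (min_le_left _ _)
      linarith
    · have h1 := (min_le_right (min (ε₁ / 4) (ψ₀ / 4)) (min (1 / 4) (y₀ / b))).trans (min_le_right _ _)
      have h2 := mul_le_mul_of_nonneg_left h1 hb0.le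
      have h3 : b * (y₀ / b) = y₀ := by field_simp
      linarith
    · have := (min_le_left (min (ε₁ / 4) (ψ₀ / 4)) (min (1 / 4) (y₀ / b))).trans (min_le_right _ _)
      linarith
  have hπ3 := Real.pi_gt_three
  have hπ4 := Real.pi_le_four
  let χ : ContDiffBump (0 : ℝ) := ⟨ε / 2, ε, by positivity, by linarith⟩
  have hχ1 : ∀ u, |u| ≤ ε / 2 → χ u = 1 := fun u hu =>
    χ.one_of_mem_closedBall (by rwa [Metric.mem_closedBall, Real.dist_eq, sub_zero])
  have hχ0 : ∀ u, ε ≤ |u| → χ u = 0 := fun u hu =>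
    χ.zero_of_le_dist (by rwa [Real.dist_eq, sub_zero])
  have hχn : ∀ u, 0 ≤ χ u := fun u => χ.nonneg
  have hχl : ∀ u, χ u ≤ 1 := fun u => χ.le_one
  have hχe : ∀ u, χ (-u) = χ u := fun u => χ.neg u
  have hχs : ContDiff ℝ (↑(⊤ : ℕ∞)) χ := χ.contDiff
  -- arcsin estimates
  have harc : ∀ u : ℝ, |u| < 2 * ε → |arcsin u| < ε₁ ∧ |arcsin u| < ψ₀ := by
    intro u hu
    have h1 := abs_arcsin_le (u := u) (by linarith)
    have h2 : π / 2 * |u| ≤ 2 * |u| := mul_le_mul_of_nonneg_right (by linarith) (abs_nonneg u)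
    exact ⟨by linarith, by linarith⟩
  set G₁ : ℝ → ℝ := fun u => χ u * ρl (arcsin u) with hG₁
  have hG₁s : ContDiff ℝ (↑(⊤ : ℕ∞)) G₁ := by
    rw [contDiff_iff_contDiffAt]
    intro u
    rcases lt_or_ge |u| (2 * ε) with hu | hu
    · have h1 : ContDiffAt ℝ (↑(⊤ : ℕ∞)) arcsin u := by
        apply Real.contDiffAt_arcsin
        · intro h; rw [h, abs_neg, abs_one] at hu; linarith
        · intro h; rw [h, abs_one] at hu; linarith
      exact hχs.contDiffAt.mul ((hsm _ (harc u hu).2).comp u h1)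
    · have h2 : G₁ =ᶠ[nhds u] fun _ => 0 := by
        have hopen : IsOpen {v : ℝ | ε < |v|} := isOpen_lt continuous_const continuous_abs
        filter_upwards [hopen.mem_nhds (show ε < |u| by linarith)] with v hv
        simp only [hG₁]
        rw [hχ0 v (le_of_lt hv), zero_mul]
      exact contDiffAt_const.congr_of_eventuallyEq h2
  have hG₁c : Continuous G₁ := hG₁s.continuous
  have hχc : Continuous χ := hχs.continuous
  have hG₁e : ∀ u, G₁ (-u) = G₁ u := fun u => by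
    simp only [hG₁]
    rw [hχe, arcsin_neg, heven]
  have hG₁n : ∀ u, 0 ≤ G₁ u ∧ G₁ u ≤ 2 * ρl 0 := by
    intro u
    rcases lt_or_ge |u| (2 * ε) with hu | hu
    · have h1 := hcl _ (harc u hu).1
      simp only [hG₁]
      exact ⟨mul_nonneg (hχn u) h1.1.le, by nlinarith [hχn u, hχl u]⟩
    · simp only [hG₁]
      rw [hχ0 u (by linarith), zero_mul]
      exact ⟨le_refl _, by linarith⟩
  -- the integrals
  set I₁ : ℝ := ∫ t in (0 : ℝ)..π, χ (sin t) * sin t with hI₁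
  set I₂ : ℝ := ∫ t in (0 : ℝ)..π, G₁ (sin t) * sin t with hI₂
  have hI₁le : I₁ < 2 := by
    have h1 : I₁ ≤ ∫ _t in (0 : ℝ)..π, ε := by
      refine integral_mono_on Real.pi_pos.le (Continuous.intervalIntegrable (by fun_prop) _ _)
        (Continuous.intervalIntegrable (by fun_prop) _ _) fun t ht => ?_
      have hs0 := sin_nonneg_of_nonneg_of_le_pi ht.1 ht.2
      rcases lt_or_ge |sin t| ε with hu | hu
      · rw [abs_of_nonneg hs0] at hu
        nlinarith [hχn (sin t), hχl (sin t)]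
      · rw [hχ0 _ hu, zero_mul]; exact hε0.le
    rw [integral_const, smul_eq_mul, sub_zero] at h1
    nlinarith
  have hI₂le : I₂ < 2 * y₀ := by
    have h1 : I₂ ≤ ∫ _t in (0 : ℝ)..π, 2 * ρl 0 * ε := by
      refine integral_mono_on Real.pi_pos.le (Continuous.intervalIntegrable (by fun_prop) _ _)
        (Continuous.intervalIntegrable (by fun_prop) _ _) fun t ht => ?_
      have hs0 := sin_nonneg_of_nonneg_of_le_pi ht.1 ht.2
      rcases lt_or_ge |sin t| ε with hu | hu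
      · rw [abs_of_nonneg hs0] at hu
        have := hG₁n (sin t)
        nlinarith [this.1, this.2]
      · have : G₁ (sin t) = 0 := by simp only [hG₁]; rw [hχ0 _ hu, zero_mul]
        rw [this, zero_mul]
        positivity
    rw [integral_const, smul_eq_mul, sub_zero] at h1
    have : π * (2 * ρl 0 * ε) = π * (2 * ρl 0) * ε := by ring
    linarith
  set c : ℝ := (2 * y₀ - I₂) / (2 - I₁) with hc
  have hc0 : 0 < c := div_pos (by linarith) (by linarith)
  set G : ℝ → ℝ := fun u => c * (1 - χ u) + G₁ u with hG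
  have hGs : ContDiff ℝ (↑(⊤ : ℕ∞)) G := (contDiff_const.mul (contDiff_const.sub hχs)).add hG₁s
  have hGe : ∀ u, G (-u) = G u := fun u => by simp only [hG]; rw [hχe, hG₁e]
  have hGpos : ∀ u, 0 < G u := by
    intro u
    simp only [hG]
    rcases lt_or_ge |u| (2 * ε) with hu | hu
    · have h1 := (hcl _ (harc u hu).1).1
      simp only [hG₁]
      rcases (hχn u).eq_or_lt with h | h
      · rw [← h]; linarith
      · have := hχl u
        have h2 : 0 < χ u * ρl (arcsin u) := mul_pos h h1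
        have h3 : 0 ≤ c * (1 - χ u) := mul_nonneg hc0.le (by linarith)
        linarith
    · simp only [hG₁]
      rw [hχ0 u (by linarith)]
      linarith
  refine ⟨fun ψ => G (sin ψ), ⟨?_, ?_, ?_, ?_, ?_⟩, ε / 2, by positivity, by linarith, ?_⟩
  · exact hGs.comp Real.contDiff_sin
  · intro ψ; exact hGpos _
  · intro ψ
    rw [sin_neg, hGe]
  · intro ψ
    rw [sin_pi_sub]
  · have e : ∀ t, G (sin t) * sin t = c * sin t - c * (χ (sin t) * sin t) + G₁ (sin t) * sin t := by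
      intro t; simp only [hG]; ring
    simp only [e]
    rw [integral_add, integral_sub, integral_const_mul, integral_const_mul, integral_sin, ← hI₁, ← hI₂]
    · rw [cos_zero, cos_pi, hc]
      field_simp
      have : (2 - I₁) ≠ 0 := by linarith
      field_simp
      ring
    · exact Continuous.intervalIntegrable (by fun_prop) _ _
    · exact Continuous.intervalIntegrable (by fun_prop) _ _
    · exact Continuous.intervalIntegrable (by fun_prop) _ _
    · exact Continuous.intervalIntegrable (by fun_prop) _ _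
  · intro ψ hψ
    have hle : |sin ψ| ≤ ε / 2 := abs_sin_le_abs.trans hψ.le
    have hh := abs_lt.mp hψ
    simp only [hG, hG₁]
    rw [hχ1 _ hle, arcsin_sin (by linarith) (by linarith)]
    ring

end Helper43.Billiard
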