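import Mathlib

set_option autoImplicit false

/-!
# Definitions for the billiard problem

The plane is `ℂ`. An oriented line is a pair `ℓ = (d, p)` of a unit direction `d` and a signed
offset `p`; it is the line of all `x` with `Im (conj d * x) = p`, run through in direction `d`.
This identifies the space of oriented lines with (unit circle) × `ℝ`.
-/

namespace Helper43.Billiard

open Complex

/-- The point `x` lies on the oriented line `ℓ = (d, p)`. -/
def OnLine (ℓ : ℂ × ℝ) (x : ℂ) : Prop := ((starRingEnd ℂ) ℓ.1 * x).im = ℓ.2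

/-- The phase space of the billiard in `Ω`: the oriented lines that meet `Ω`. -/
def Phase (Ω : Set ℂ) : Set (ℂ × ℝ) := {ℓ | ‖ℓ.1‖ = 1 ∧ ∃ x ∈ Ω, OnLine ℓ x}

/-- `ν` is an outer unit normal of (the convex set) `Ω` at `Q`. -/
def IsOuterNormal (Ω : Set ℂ) (Q ν : ℂ) : Prop := ‖ν‖ = 1 ∧ ∀ x ∈ Ω, inner ℝ ν (x - Q) ≤ 0

/-- The billiard reflection: the oriented line `ℓ` leaves `Ω` at the boundary point `Q`, and `ℓ'` is
the oriented line through `Q` whose direction is that of `ℓ` reflected in the tangent line at `Q`. -/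
def Reflects (Ω : Set ℂ) (ℓ ℓ' : ℂ × ℝ) : Prop :=
  ∃ Q ν : ℂ, Q ∈ frontier Ω ∧ IsOuterNormal Ω Q ν ∧ OnLine ℓ Q ∧ 0 < inner ℝ ν ℓ.1 ∧
    ℓ'.1 = ℓ.1 - (2 * inner ℝ ν ℓ.1 : ℝ) • ν ∧ OnLine ℓ' Q

/-- `T` is the billiard map of `Ω`: it sends each oriented line that meets `Ω` to the reflected
oriented line (which is unique and meets `Ω` again). -/
def IsBilliardMap (Ω : Set ℂ) (T : Phase Ω → Phase Ω) : Prop :=
  ∀ (ℓ : Phase Ω) (ℓ' : ℂ × ℝ), Reflects Ω ℓ ℓ' ↔ ℓ' = T ℓ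

/-- A strictly convex domain with smooth boundary and the symmetry of an ellipse. -/
structure IsSymmetricOval (Ω : Set ℂ) : Prop where
  isOpen : IsOpen Ω
  nonempty : Ω.Nonempty
  isBounded : Bornology.IsBounded Ω
  strictConvex : StrictConvex ℝ (closure Ω)
  smooth_boundary : ∃ γ : ℝ → ℂ, ContDiff ℝ (↑(⊤ : ℕ∞)) γ ∧ (∀ t, γ (t + 2 * Real.pi) = γ t) ∧
    (∀ t, deriv γ t ≠ 0) ∧ Set.InjOn γ (Set.Ico 0 (2 * Real.pi)) ∧ Set.range γ = frontier Ω
  reflect_x : ∀ x ∈ Ω, (⟨-x.re, x.im⟩ : ℂ) ∈ Ω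
  reflect_y : ∀ x ∈ Ω, (⟨x.re, -x.im⟩ : ℂ) ∈ Ω

/-- `x` is a Diophantine number. -/
def Diophantine (x : ℝ) : Prop :=
  ∃ c : ℝ, 0 < c ∧ ∃ τ : ℝ, ∀ (p : ℤ) (q : ℕ), 0 < q → c / (q : ℝ) ^ τ ≤ |x - p / q|

/-- The homeomorphism `h` between open subsets of the phase space and of the plane is real-analytic
together with its inverse. (The phase space is open in the analytic surface of all `(d, p)` in `ℂ × ℝ`
with `|d| = 1`: `h` is locally the restriction of an analytic map defined on an open subset of `ℂ × ℝ`,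
and the inverse of `h` is analytic as a map into `ℂ × ℝ`.) -/
def IsBianalytic {Ω : Set ℂ} (h : OpenPartialHomeomorph (Phase Ω) ℂ) : Prop :=
  (∃ H : ℂ × ℝ → ℂ, ∀ ℓ ∈ h.source, AnalyticAt ℝ H (ℓ : ℂ × ℝ) ∧ H ℓ = h ℓ) ∧
    ∀ z ∈ h.target, AnalyticAt ℝ (fun w => (h.symm w : ℂ × ℝ)) z

/-- For a table `Ω` that is symmetric in both axes, the square of the billiard map is, near the
2-periodic orbit along the `y`-axis, conjugate to the rotation through the angle `β` by a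
homeomorphism that is real-analytic together with its inverse. Here `z₁` and `z₂` are the `y`-axis run
downwards and upwards. -/
def LocallyConjugateToRotation (Ω : Set ℂ) (T : Phase Ω → Phase Ω) (β : ℝ) : Prop :=
  ∃ z₁ z₂ : Phase Ω, (z₁ : ℂ × ℝ) = (-I, 0) ∧ (z₂ : ℂ × ℝ) = (I, 0) ∧ T z₁ = z₂ ∧ T z₂ = z₁ ∧
    ∃ h : OpenPartialHomeomorph (Phase Ω) ℂ, IsBianalytic h ∧ z₁ ∈ h.source ∧ h z₁ = 0 ∧
      ∀ ℓ ∈ h.source, T (T ℓ) ∈ h.source ∧ h (T (T ℓ)) = exp (β * I) * h ℓ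

end Helper43.Billiard
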