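import Pool.Agent.Helper43_Billiard.RealEL

set_option autoImplicit false

/-! # The degree of the coefficients of the solution -/

namespace Helper43.Billiard

open PowerSeries Finset Real

lemma int_TP_cos_zero {m : ℕ} {g : ℝ → ℝ} (hg : g ∈ TP m) {k : ℕ} (hk : m ≤ k) :
    ∫ φ in (0 : ℝ)..(2 * π), g φ * cos ((k + 1 : ℕ) * φ) = 0 := by
  obtain ⟨a₀, a, b, h⟩ := exists_fourier hg
  -- extend by zero
  set a' : ℕ → ℝ := fun j => if j < m then a j else 0 with ha'
  set b' : ℕ → ℝ := fun j => if j < m then b j else 0 with hb'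
  have hext : ∀ φ, tsum' m a b φ = tsum' (k + 1) a' b' φ := by
    intro φ
    simp only [tsum']
    rw [← Finset.sum_subset (range_subset_range.mpr (show m ≤ k + 1 by omega))]
    · refine sum_congr rfl fun j hj => ?_
      rw [mem_range] at hj
      simp only [ha', hb', if_pos hj]
    · intro j _ hj
      rw [mem_range] at hj
      simp only [ha', hb', if_neg hj]
      ring
  have h1 := int_tsum'_cos (k + 1) a' b' k (Nat.lt_succ_self k)
  have h2 : a' k = 0 := by simp only [ha']; rw [if_neg (by omega)]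
  rw [h2, mul_zero] at h1
  have h3 := int_cos ((k + 1 : ℕ) : ℤ)
  rw [if_neg (by exact_mod_cast Nat.succ_ne_zero k)] at h3
  have h4 : ∀ φ, g φ * cos ((k + 1 : ℕ) * φ)
      = a₀ * cos (((k + 1 : ℕ) : ℤ) * φ) + tsum' (k + 1) a' b' φ * cos ((k + 1 : ℕ) * φ) := by
    intro φ
    rw [h, hext]
    push_cast
    ring
  simp only [h4]
  rw [intervalIntegral.integral_add, intervalIntegral.integral_const_mul, h3, h1]
  · ring
  · exact Continuous.intervalIntegrable (by fun_prop) _ _
  · exact Continuous.intervalIntegrable ((continuous_tsum' _ _ _).mul (by fun_prop)) _ _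

lemma int_TP_sin_zero {m : ℕ} {g : ℝ → ℝ} (hg : g ∈ TP m) {k : ℕ} (hk : m ≤ k) :
    ∫ φ in (0 : ℝ)..(2 * π), g φ * sin ((k + 1 : ℕ) * φ) = 0 := by
  obtain ⟨a₀, a, b, h⟩ := exists_fourier hg
  set a' : ℕ → ℝ := fun j => if j < m then a j else 0 with ha'
  set b' : ℕ → ℝ := fun j => if j < m then b j else 0 with hb'
  have hext : ∀ φ, tsum' m a b φ = tsum' (k + 1) a' b' φ := by
    intro φ
    simp only [tsum']
    rw [← Finset.sum_subset (range_subset_range.mpr (show m ≤ k + 1 by omega))]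
    · refine sum_congr rfl fun j hj => ?_
      rw [mem_range] at hj
      simp only [ha', hb', if_pos hj]
    · intro j _ hj
      rw [mem_range] at hj
      simp only [ha', hb', if_neg hj]
      ring
  have h1 := int_tsum'_sin (k + 1) a' b' k (Nat.lt_succ_self k)
  have h2 : b' k = 0 := by simp only [hb']; rw [if_neg (by omega)]
  rw [h2, mul_zero] at h1
  have h3 := int_sin ((k + 1 : ℕ) : ℤ)
  have h4 : ∀ φ, g φ * sin ((k + 1 : ℕ) * φ)
      = a₀ * sin (((k + 1 : ℕ) : ℤ) * φ) + tsum' (k + 1) a' b' φ * sin ((k + 1 : ℕ) * φ) := by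
    intro φ
    rw [h, hext]
    push_cast
    ring
  simp only [h4]
  rw [intervalIntegral.integral_add, intervalIntegral.integral_const_mul, h3, h1]
  · ring
  · exact Continuous.intervalIntegrable (by fun_prop) _ _
  · exact Continuous.intervalIntegrable ((continuous_tsum' _ _ _).mul (by fun_prop)) _ _

/-- degree reduction -/
lemma TP_of_mult {α : ℝ} (hα : NonRes α) {K m : ℕ} (hm : 1 ≤ m) {f : ℝ → ℝ} (hf : f ∈ TP K)
    (hL : (fun φ => cos α * f φ - 1 / 2 * (f (φ + α) + f (φ - α))) ∈ TP m) : f ∈ TP m := by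
  obtain ⟨a₀, a, b, h⟩ := exists_fourier hf
  set lam : ℕ → ℝ := fun k => cos α - cos ((k + 1 : ℕ) * α) with hlam
  have hg : ∀ φ, cos α * f φ - 1 / 2 * (f (φ + α) + f (φ - α))
      = a₀ * (cos α - 1) + tsum' K (fun k => lam k * a k) (fun k => lam k * b k) φ := by
    intro φ
    have e1 := congrFun (tsum'_shift K a b α) φ
    have e2 := congrFun (tsum'_shift K a b (-α)) φ
    rw [h, h, h, e1, sub_eq_add_neg φ α, e2]
    simp only [tsum']
    have : ∀ k : ℕ, lam k * a k * cos ((k + 1 : ℕ) * φ) + lam k * b k * sin ((k + 1 : ℕ) * φ)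
        = cos α * (a k * cos ((k + 1 : ℕ) * φ) + b k * sin ((k + 1 : ℕ) * φ))
          - 1 / 2 * (((a k * cos ((k + 1 : ℕ) * α) + b k * sin ((k + 1 : ℕ) * α)) * cos ((k + 1 : ℕ) * φ)
              + (b k * cos ((k + 1 : ℕ) * α) - a k * sin ((k + 1 : ℕ) * α)) * sin ((k + 1 : ℕ) * φ))
            + ((a k * cos ((k + 1 : ℕ) * -α) + b k * sin ((k + 1 : ℕ) * -α)) * cos ((k + 1 : ℕ) * φ)
              + (b k * cos ((k + 1 : ℕ) * -α) - a k * sin ((k + 1 : ℕ) * -α)) * sin ((k + 1 : ℕ) * φ))) := by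
      intro k
      rw [mul_neg, cos_neg, sin_neg]
      simp only [hlam]
      ring
    simp only [this]
    have h5 : ∀ P Q W : ℕ → ℝ, ∑ k ∈ range K, (cos α * P k - 1 / 2 * (Q k + W k))
        = cos α * ∑ k ∈ range K, P k - 1 / 2 * (∑ k ∈ range K, Q k + ∑ k ∈ range K, W k) := by
      intro P Q W
      rw [← sum_add_distrib, mul_sum, mul_sum, ← sum_sub_distrib]
    rw [h5]
    ring
  have hlam0 : ∀ k, m ≤ k → lam k ≠ 0 := by
    intro k hk h0
    simp only [hlam] at h0
    have e : cos α - cos ((k + 1 : ℕ) * α) = 2 * sin ((k + 1 + 1 : ℕ) * (α / 2)) * sin ((k : ℕ) * (α / 2)) := by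
      have h1 := Real.cos_sub_cos α ((k + 1 : ℕ) * α)
      rw [h1]
      have e1 : (α + (k + 1 : ℕ) * α) / 2 = (k + 1 + 1 : ℕ) * (α / 2) := by push_cast; ring
      have e2 : (α - (k + 1 : ℕ) * α) / 2 = -((k : ℕ) * (α / 2)) := by push_cast; ring
      rw [e1, e2, sin_neg]
      ring
    rw [e] at h0
    obtain ⟨j, rfl⟩ : ∃ j, k = j + 1 := ⟨k - 1, by omega⟩
    rcases mul_eq_zero.mp h0 with h1 | h1
    · rcases mul_eq_zero.mp h1 with h2 | h2
      · norm_num at h2
      · exact hα _ h2
    · exact hα _ h1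
  have hzero : ∀ k < K, m ≤ k → a k = 0 ∧ b k = 0 := by
    intro k hk hmk
    have i1 := int_TP_cos_zero hL hmk
    have i2 := int_TP_sin_zero hL hmk
    simp only [hg] at i1 i2
    have h3 := int_cos ((k + 1 : ℕ) : ℤ)
    rw [if_neg (by exact_mod_cast Nat.succ_ne_zero k)] at h3
    have h3' := int_sin ((k + 1 : ℕ) : ℤ)
    simp only [Int.cast_natCast] at h3 h3'
    constructor
    · have h5 : ∫ φ in (0 : ℝ)..(2 * π), (a₀ * (cos α - 1)
          + tsum' K (fun k => lam k * a k) (fun k => lam k * b k) φ) * cos ((k + 1 : ℕ) * φ)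
          = π * (lam k * a k) := by
        simp only [add_mul]
        rw [intervalIntegral.integral_add, intervalIntegral.integral_const_mul, h3,
          int_tsum'_cos K _ _ k hk]
        · ring
        · exact Continuous.intervalIntegrable (by fun_prop) _ _
        · exact Continuous.intervalIntegrable ((continuous_tsum' _ _ _).mul (by fun_prop)) _ _
      rw [h5] at i1
      exact (mul_eq_zero.mp ((mul_eq_zero.mp i1).resolve_left Real.pi_ne_zero)).resolve_left (hlam0 k hmk)
    · have h5 : ∫ φ in (0 : ℝ)..(2 * π), (a₀ * (cos α - 1)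
          + tsum' K (fun k => lam k * a k) (fun k => lam k * b k) φ) * sin ((k + 1 : ℕ) * φ)
          = π * (lam k * b k) := by
        simp only [add_mul]
        rw [intervalIntegral.integral_add, intervalIntegral.integral_const_mul, h3',
          int_tsum'_sin K _ _ k hk]
        · ring
        · exact Continuous.intervalIntegrable (by fun_prop) _ _
        · exact Continuous.intervalIntegrable ((continuous_tsum' _ _ _).mul (by fun_prop)) _ _
      rw [h5] at i2
      exact (mul_eq_zero.mp ((mul_eq_zero.mp i2).resolve_left Real.pi_ne_zero)).resolve_left (hlam0 k hmk)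
  have hfin : f = fun φ => a₀ + tsum' (min m K) a b φ := by
    funext φ
    rw [h]
    congr 1
    simp only [tsum']
    rw [← Finset.sum_subset (range_subset_range.mpr (min_le_right m K))]
    intro j hj hj'
    rw [mem_range] at hj hj'
    have := hzero j hj (by omega)
    rw [this.1, this.2]
    ring
  rw [hfin]
  exact TP_mono (min_le_left m K) (tsum'_mem _ _ _ _)

variable {α s κ ρ η δ : ℝ} {Cc Vc h : ℝ⟦X⟧} {A : Fam} {K : ℕ}

lemma coeff_mul_of_dvd {f g : ℝ⟦X⟧} {m : ℕ} (h : (X : ℝ⟦X⟧) ^ m ∣ g) :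
    coeff m (f * g) = coeff 0 f * coeff m g := by
  obtain ⟨w, rfl⟩ := h
  rw [show f * (X ^ m * w) = X ^ m * (f * w) by ring]
  have h1 : ∀ u : ℝ⟦X⟧, coeff m (X ^ m * u) = coeff 0 u := fun u => by
    have := coeff_X_pow_mul u m 0
    rwa [zero_add] at this
  rw [h1, h1]
  simp only [coeff_zero_eq_constantCoeff_apply, map_mul]

lemma coeff_zero_comp {g ψ : ℝ⟦X⟧} (hψ : (X : ℝ⟦X⟧) ∣ ψ) : coeff 0 (comp g ψ) = coeff 0 g := by
  rw [coeff_comp hψ (Nat.lt_succ_self 0)]
  simp

theorem FSol.degree (S : FSol α s κ δ η A h) (hα : NonRes α) (hκ : 1 - 2 * κ = cos α)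
    (hδ : 0 ≤ δ) (hδ1 : δ ≤ 1 / 64) (h0 : coeff 0 h = 0) (h1 : coeff 1 h = 0)
    (h2 : coeff 2 h = (1 - κ) / 2) : ∀ m, cf m A ∈ TP m := by
  have hP := Par_Cs_Vs hδ hδ1
  intro m
  induction m using Nat.strong_induction_on with
  | _ m ih =>
    rcases Nat.eq_zero_or_pos m with hm | hm
    · subst hm
      have : cf 0 A = 0 := by
        funext φ
        simp only [cf, Pi.zero_apply]
        rw [coeff_zero_eq_constantCoeff_apply, X_dvd_iff.mp (S.X_dvd φ)]
      rw [this]
      exact Submodule.zero_mem _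
    · set B : Fam := fun φ => tr m (A φ) with hB
      have cB : Cls 1 0 B := by
        intro i
        by_cases hi : i < m
        · have : cf i B = cf i A := by
            funext φ
            simp only [cf, hB, coeff_tr, if_pos hi]
          rw [this]
          exact TP_mono (by omega) (ih i hi)
        · have : cf i B = 0 := by
            funext φ
            simp only [cf, hB, coeff_tr, if_neg hi, Pi.zero_apply]
          rw [this]
          exact Submodule.zero_mem _
      have hXB : ∀ φ, (X : ℝ⟦X⟧) ∣ B φ := fun φ => by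
        rw [X_dvd_iff, ← coeff_zero_eq_constantCoeff_apply, hB, coeff_tr, if_pos hm,
          coeff_zero_eq_constantCoeff_apply, X_dvd_iff.mp (S.X_dvd φ)]
      set v : Fam := fun φ => A φ - B φ with hv
      have hXv : ∀ φ, (X : ℝ⟦X⟧) ^ m ∣ v φ := fun φ => X_pow_dvd_sub_tr m (A φ)
      have hBv : B + v = A := by
        funext φ
        simp only [Pi.add_apply, hv]
        ring
      have hcv : ∀ φ, coeff m (v φ) = cf m A φ := fun φ => by
        simp only [hv, hB, cf, map_sub, coeff_tr, if_neg (lt_irrefl m), sub_zero]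
      have key : ∀ φ, cos α * cf m A φ - 1 / 2 * (cf m A (φ + α) + cf m A (φ - α))
          = -coeff m (EL α κ (Cs δ) (Vs δ) h B φ) := by
        intro φ
        have ht := EL_taylor (α := α) (κ := κ) (Cc := Cs δ) (Vc := Vs δ) (h := h) hm hXB hXv φ
        rw [hBv, S.el φ] at ht
        have hc := X_pow_dvd_iff.mp ht m (by omega)
        rw [map_sub, map_sub, map_zero] at hc
        have hX1 : ∀ φ, (X : ℝ⟦X⟧) ∣ ps (B φ) (B (φ + α)) := fun φ => X_dvd_ps (hXB _) (hXB _)
        have hX2 : ∀ φ, (X : ℝ⟦X⟧) ∣ sg (B φ) (B (φ + α)) := fun φ => X_dvd_sg (hXB _) (hXB _)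
        have hX3 : ∀ φ, (X : ℝ⟦X⟧) ∣ ps (B (φ - α)) (B φ) := fun φ => X_dvd_ps (hXB _) (hXB _)
        have hX4 : ∀ φ, (X : ℝ⟦X⟧) ∣ sg (B (φ - α)) (B φ) := fun φ => X_dvd_sg (hXB _) (hXB _)
        have hh2 : coeff 0 (d⁄dX ℝ (d⁄dX ℝ h)) = 1 - κ := by
          rw [coeff_derivative, coeff_derivative, h2]; norm_num
        have hh1 : coeff 0 (d⁄dX ℝ h) = 0 := by
          rw [coeff_derivative, h1]; norm_num
        have hC0 : coeff 0 (Cs δ) = 1 := coeff_Cs_zero δ
        have hC1 : coeff 0 (d⁄dX ℝ (Cs δ)) = 0 := by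
          rw [coeff_derivative, coeff_Cs_odd δ (by decide)]; norm_num
        have hV2 : coeff 0 (d⁄dX ℝ (d⁄dX ℝ (Vs δ))) = 1 := by
          rw [coeff_derivative, coeff_derivative, coeff_Vs_two]; norm_num
        have c0mul : ∀ f g : ℝ⟦X⟧, coeff 0 (f * g) = coeff 0 f * coeff 0 g := fun f g => by
          simp only [coeff_zero_eq_constantCoeff_apply, map_mul]
        have c02 : coeff 0 (2 : ℝ⟦X⟧) = 2 := by
          rw [coeff_zero_eq_constantCoeff_apply]; exact map_ofNat _ 2
        have e11 : coeff 0 (S11 κ (Cs δ) (Vs δ) h (B φ) (B (φ + α))) = 1 / 2 * (1 - 2 * κ) := by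
          simp only [S11, coeff_smul, map_add, map_sub, smul_eq_mul, c0mul, c02, coeff_zero_comp (hX1 φ),
            coeff_zero_comp (hX2 φ), hh2, hh1, h0, hC0, hC1, hV2]
          ring
        have e12 : coeff 0 (S12 κ (Cs δ) (Vs δ) h (B φ) (B (φ + α))) = -(1 / 2) := by
          simp only [S12, coeff_smul, map_add, map_sub, map_neg, smul_eq_mul, c0mul, coeff_zero_comp (hX1 φ),
            coeff_zero_comp (hX2 φ), hh2, h0, hC0, hV2]
          ring
        have e12' : coeff 0 (S12 κ (Cs δ) (Vs δ) h (B (φ - α)) (B φ)) = -(1 / 2) := by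
          simp only [S12, coeff_smul, map_add, map_sub, map_neg, smul_eq_mul, c0mul, coeff_zero_comp (hX3 φ),
            coeff_zero_comp (hX4 φ), hh2, h0, hC0, hV2]
          ring
        have e22 : coeff 0 (S22 κ (Cs δ) (Vs δ) h (B (φ - α)) (B φ)) = 1 / 2 * (1 - 2 * κ) := by
          simp only [S22, coeff_smul, map_add, map_sub, smul_eq_mul, c0mul, c02, coeff_zero_comp (hX3 φ),
            coeff_zero_comp (hX4 φ), hh2, hh1, h0, hC0, hC1, hV2]
          ring
        have hLin : coeff m (Lin α κ (Cs δ) (Vs δ) h B v φ)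
            = (1 - 2 * κ) * cf m A φ - 1 / 2 * (cf m A (φ + α) + cf m A (φ - α)) := by
          rw [Lin, map_add, map_add, map_add, coeff_mul_of_dvd (hXv _), coeff_mul_of_dvd (hXv _),
            coeff_mul_of_dvd (hXv _), coeff_mul_of_dvd (hXv _), e11, e12, e12', e22, hcv, hcv, hcv]
          ring
        rw [hLin, hκ] at hc
        linarith
      obtain ⟨K, hK⟩ := S.smooth m
      refine TP_of_mult hα hm hK ?_
      have e : (fun φ => cos α * cf m A φ - 1 / 2 * (cf m A (φ + α) + cf m A (φ - α)))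
          = -cf m (EL α κ (Cs δ) (Vs δ) h B) := by
        funext φ
        rw [key φ]
        rfl
      rw [e]
      refine Submodule.neg_mem _ ?_
      have := Cls_EL (α := α) (κ := κ) (Cc := Cs δ) (Vc := Vs δ) (h := h) cB m
      rwa [mul_one, add_zero] at this

end Helper43.Billiard
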