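import Pool.Agent.Helper43_Billiard.Table
import Pool.Agent.Helper43_Billiard.Defs

set_option autoImplicit false

/-! # The domain is a symmetric oval -/

namespace Helper43.Billiard

open Real Set

variable {ϱ : ℝ → ℝ} {y₀ : ℝ}

section dom
variable (C : Curv ϱ y₀)
include C

lemma isOpen_Dom : IsOpen (Dom ϱ y₀) := by
  rw [isOpen_iff_mem_nhds]
  intro x hx
  have hK : IsCompact (Icc (0 : ℝ) (2 * π)) := isCompact_Icc
  have hH := continuous_Hs C
  have h1 : ∀ᶠ z in nhds x, ∀ ψ ∈ Icc (0 : ℝ) (2 * π), z.re * sin ψ + z.im * cos ψ < Hs ϱ y₀ ψ := by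
    refine hK.eventually_forall_of_forall_eventually
      (P := fun (z : ℂ) ψ => z.re * sin ψ + z.im * cos ψ < Hs ϱ y₀ ψ) fun ψ _ => ?_
    have hopen : IsOpen {q : ℂ × ℝ | q.1.re * sin q.2 + q.1.im * cos q.2 < Hs ϱ y₀ q.2} :=
      isOpen_lt (by fun_prop) (by fun_prop)
    exact hopen.mem_nhds (hx ψ)
  filter_upwards [h1] with z hz ψ
  obtain ⟨θ, hθ, hθ'⟩ : ∃ θ ∈ Ico (0 : ℝ) (2 * π), (sin ψ, cos ψ, Hs ϱ y₀ ψ) = (sin θ, cos θ, Hs ϱ y₀ θ) := by
    have hper : Function.Periodic (fun ψ => (sin ψ, cos ψ, Hs ϱ y₀ ψ)) (2 * π) := by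
      intro ψ
      simp only [sin_add_two_pi, cos_add_two_pi, Hs_periodic C ψ]
    exact hper.exists_mem_Ico₀ Real.two_pi_pos ψ
  simp only [Prod.mk.injEq] at hθ'
  rw [hθ'.1, hθ'.2.1, hθ'.2.2]
  exact hz θ ⟨hθ.1, hθ.2.le⟩

omit C in
lemma isClosed_Dom' : IsClosed (Dom' ϱ y₀) := by
  have : Dom' ϱ y₀ = ⋂ ψ, {x : ℂ | x.re * sin ψ + x.im * cos ψ ≤ Hs ϱ y₀ ψ} := by
    ext x; simp [Dom']
  rw [this]
  exact isClosed_iInter fun ψ => isClosed_le (by fun_prop) continuous_const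

omit C in
lemma Dom_subset : Dom ϱ y₀ ⊆ Dom' ϱ y₀ := fun _ hx ψ => (hx ψ).le

lemma zero_mem_Dom : (0 : ℂ) ∈ Dom ϱ y₀ := fun ψ => by
  have := Hs_pos C ψ
  simpa using this

omit C in
/-- points strictly between an interior point and a point of the closed domain are interior -/
lemma combo_mem {x y : ℂ} (hx : x ∈ Dom ϱ y₀) (hy : y ∈ Dom' ϱ y₀) {a b : ℝ} (ha : 0 < a) (hb : 0 ≤ b)
    (hab : a + b = 1) : a • x + b • y ∈ Dom ϱ y₀ := by
  intro ψ
  have h1 := mul_lt_mul_of_pos_left (hx ψ) ha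
  have h2 := mul_le_mul_of_nonneg_left (hy ψ) hb
  have e : (a • x + b • y).re * sin ψ + (a • x + b • y).im * cos ψ
      = a * (x.re * sin ψ + x.im * cos ψ) + b * (y.re * sin ψ + y.im * cos ψ) := by
    simp only [Complex.add_re, Complex.add_im, Complex.real_smul, Complex.re_ofReal_mul,
      Complex.im_ofReal_mul]
    ring
  rw [e]
  calc _ < a * Hs ϱ y₀ ψ + b * Hs ϱ y₀ ψ := by linarith
    _ = Hs ϱ y₀ ψ := by rw [← add_mul, hab, one_mul]

lemma closure_Dom : closure (Dom ϱ y₀) = Dom' ϱ y₀ := by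
  apply Subset.antisymm
  · exact closure_minimal Dom_subset isClosed_Dom'
  · intro x hx
    have h0 := zero_mem_Dom C
    have h1 : Filter.Tendsto (fun t : ℝ => (1 - t) • (0 : ℂ) + t • x) (nhdsWithin 1 (Iio 1)) (nhds x) := by
      have : Continuous fun t : ℝ => (1 - t) • (0 : ℂ) + t • x := by fun_prop
      have h2 := this.tendsto 1
      simp only [sub_self, zero_smul, one_smul, zero_add] at h2
      exact h2.mono_left nhdsWithin_le_nhds
    refine mem_closure_of_tendsto h1 ?_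
    have h3 : ∀ᶠ t in nhdsWithin (1 : ℝ) (Iio 1), 0 < t :=
      nhdsWithin_le_nhds (lt_mem_nhds one_pos)
    filter_upwards [h3, self_mem_nhdsWithin] with t ht1 ht2
    exact combo_mem h0 hx (by simp only [mem_Iio] at ht2; linarith) ht1.le (by ring)

omit C in
lemma gam_not_mem (ψ : ℝ) : gam ϱ y₀ ψ ∉ Dom ϱ y₀ := fun h => by
  have := h ψ
  simp only [gam, Hs] at this
  exact lt_irrefl _ this

lemma frontier_Dom : frontier (Dom ϱ y₀) = range (gam ϱ y₀) := by
  rw [(isOpen_Dom C).frontier_eq, closure_Dom C]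
  ext x
  constructor
  · rintro ⟨h1, h2⟩
    simp only [Dom, mem_ofPred_eq, not_forall, not_lt] at h2
    obtain ⟨ψ, hψ⟩ := h2
    exact ⟨ψ, (eq_gam_of_gap_zero C h1 (le_antisymm (h1 ψ) hψ)).symm⟩
  · rintro ⟨ψ, rfl⟩
    exact ⟨gam_mem' C ψ, gam_not_mem ψ⟩

lemma isBounded_Dom : Bornology.IsBounded (Dom ϱ y₀) := by
  rw [Metric.isBounded_iff_subset_closedBall 0]
  refine ⟨Hs ϱ y₀ (π / 2) + Hs ϱ y₀ 0, fun x hx => ?_⟩
  rw [mem_closedBall_zero_iff]
  have h1 := hx (π / 2)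
  have h2 := hx (-(π / 2))
  have h3 := hx 0
  have h4 := hx (0 + π)
  rw [Hs_neg C] at h2
  rw [Hs_anti C] at h4
  simp only [sin_pi_div_two, cos_pi_div_two, sin_neg, cos_neg, sin_zero, cos_zero, sin_add_pi, cos_add_pi] at h1 h2 h3 h4
  refine (Complex.norm_le_abs_re_add_abs_im x).trans (add_le_add ?_ ?_)
  · rw [abs_le]; constructor <;> linarith
  · rw [abs_le]; constructor <;> linarith

lemma strictConvex_Dom' : StrictConvex ℝ (Dom' ϱ y₀) := by
  intro x hx y hy hxy a b ha hb hab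
  refine interior_maximal Dom_subset (isOpen_Dom C) ?_
  intro ψ
  have e : (a • x + b • y).re * sin ψ + (a • x + b • y).im * cos ψ
      = a * (x.re * sin ψ + x.im * cos ψ) + b * (y.re * sin ψ + y.im * cos ψ) := by
    simp only [Complex.add_re, Complex.add_im, Complex.real_smul, Complex.re_ofReal_mul,
      Complex.im_ofReal_mul]
    ring
  rw [e]
  have h1 := hx ψ
  have h2 := hy ψ
  by_contra hcon
  rw [not_lt] at hcon
  have h3 : x.re * sin ψ + x.im * cos ψ = Hs ϱ y₀ ψ := by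
    by_contra hne
    have hlt := lt_of_le_of_ne h1 hne
    have := mul_lt_mul_of_pos_left hlt ha
    have := mul_le_mul_of_nonneg_left h2 hb.le
    have : a * Hs ϱ y₀ ψ + b * Hs ϱ y₀ ψ = Hs ϱ y₀ ψ := by rw [← add_mul, hab, one_mul]
    linarith
  have h4 : y.re * sin ψ + y.im * cos ψ = Hs ϱ y₀ ψ := by
    by_contra hne
    have hlt := lt_of_le_of_ne h2 hne
    have := mul_lt_mul_of_pos_left hlt hb
    have := mul_le_mul_of_nonneg_left h1 ha.le
    have : a * Hs ϱ y₀ ψ + b * Hs ϱ y₀ ψ = Hs ϱ y₀ ψ := by rw [← add_mul, hab, one_mul]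
    linarith
  exact hxy ((eq_gam_of_gap_zero C hx h3).trans (eq_gam_of_gap_zero C hy h4).symm)

lemma gam_eq_iff {a b : ℝ} (h : gam ϱ y₀ a = gam ϱ y₀ b) : ∃ k : ℤ, b + k * (2 * π) = a := by
  apply (gap_nonneg C a b).2
  have h1 : Xc ϱ a = Xc ϱ b := congrArg Complex.re h
  have h2 : Yc ϱ y₀ a = Yc ϱ y₀ b := congrArg Complex.im h
  rw [h1, h2]; ring

omit C in
lemma nrm_add_int (b : ℝ) (k : ℤ) : nrm (b + k * (2 * π)) = nrm b := by
  simp only [nrm, sin_add_int_mul_two_pi, cos_add_int_mul_two_pi]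

lemma nrm_eq_of_gam_eq {a b : ℝ} (h : gam ϱ y₀ a = gam ϱ y₀ b) : nrm a = nrm b := by
  obtain ⟨k, hk⟩ := gam_eq_iff C h
  rw [← hk, nrm_add_int]

lemma gam_hasDerivAt (ψ : ℝ) : HasDerivAt (gam ϱ y₀) (⟨ϱ ψ * cos ψ, -(ϱ ψ * sin ψ)⟩ : ℂ) ψ := by
  have h1 := (hasDerivAt_Xc C ψ).ofReal_comp
  have h2 := ((hasDerivAt_Yc C ψ).ofReal_comp).mul_const Complex.I
  have h3 := h1.add h2
  have e1 : gam ϱ y₀ = fun ψ => (Xc ϱ ψ : ℂ) + (Yc ϱ y₀ ψ : ℂ) * Complex.I := by
    funext ψ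
    rw [gam, Complex.mk_eq_add_mul_I]
  have e2 : (⟨ϱ ψ * cos ψ, -(ϱ ψ * sin ψ)⟩ : ℂ)
      = ((ϱ ψ * cos ψ : ℝ) : ℂ) + ((-(ϱ ψ * sin ψ) : ℝ) : ℂ) * Complex.I := Complex.mk_eq_add_mul_I _ _
  rw [e1, e2]
  exact h3

lemma symmetricOval_Dom : IsSymmetricOval (Dom ϱ y₀) where
  isOpen := isOpen_Dom C
  nonempty := ⟨0, zero_mem_Dom C⟩
  isBounded := isBounded_Dom C
  strictConvex := by rw [closure_Dom C]; exact strictConvex_Dom' C
  smooth_boundary := by
    refine ⟨gam ϱ y₀, ?_, ?_, ?_, ?_, (frontier_Dom C).symm⟩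
    · have e1 : gam ϱ y₀ = fun ψ => (Xc ϱ ψ : ℂ) + (Yc ϱ y₀ ψ : ℂ) * Complex.I := by
        funext ψ
        rw [gam, Complex.mk_eq_add_mul_I]
      rw [e1]
      have h1 : ContDiff ℝ (↑(⊤ : ℕ∞)) fun ψ => (Xc ϱ ψ : ℂ) :=
        Complex.ofRealCLM.contDiff.comp (contDiff_Xc C)
      have h2 : ContDiff ℝ (↑(⊤ : ℕ∞)) fun ψ => (Yc ϱ y₀ ψ : ℂ) :=
        Complex.ofRealCLM.contDiff.comp (contDiff_Yc C)
      exact h1.add (h2.mul contDiff_const)
    · intro t
      rw [gam, gam, Xc_periodic C, Yc_periodic C]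
    · intro t
      rw [(gam_hasDerivAt C t).deriv]
      intro h
      have h1 : ϱ t * cos t = 0 := congrArg Complex.re h
      have h2 : -(ϱ t * sin t) = 0 := congrArg Complex.im h
      have h3 := (C.pos t).ne'
      have h4 : cos t = 0 := (mul_eq_zero.mp h1).resolve_left h3
      have h5 : sin t = 0 := (mul_eq_zero.mp (neg_eq_zero.mp h2)).resolve_left h3
      have := Real.sin_sq_add_cos_sq t
      rw [h4, h5] at this
      norm_num at this
    · intro a ha b hb hab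
      obtain ⟨k, hk⟩ := gam_eq_iff C hab
      have hk0 : k = 0 := by
        have hπ := Real.two_pi_pos
        have h1 : ((k : ℤ) : ℝ) < 1 := by
          by_contra hcon
          rw [not_lt] at hcon
          nlinarith [ha.2, hb.1]
        have h2 : -1 < ((k : ℤ) : ℝ) := by
          by_contra hcon
          rw [not_lt] at hcon
          nlinarith [ha.1, hb.2]
        have h3 : k < 1 := by exact_mod_cast h1
        have h4 : -1 < k := by exact_mod_cast h2
        omega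
      rw [hk0] at hk
      simpa using hk.symm
  reflect_x := by
    intro x hx ψ
    have := hx (-ψ)
    rw [Hs_neg C, sin_neg, cos_neg] at this
    simp only
    linarith
  reflect_y := by
    intro x hx ψ
    have := hx (π - ψ)
    rw [Hs_refl C, sin_pi_sub, cos_pi_sub] at this
    simp only
    linarith

end dom

end Helper43.Billiard
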