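import Pool.Agent.Helper43_Billiard.Limit

set_option autoImplicit false

/-! # Evaluation of convergent power series -/

namespace Helper43.Billiard

open PowerSeries Finset Real

/-- the value of a power series -/
noncomputable def ev (f : ℝ⟦X⟧) (x : ℝ) : ℝ := ∑' m, coeff m f * x ^ m

variable {ρ M M' x r : ℝ} {f g ψ : ℝ⟦X⟧}

lemma Bd.summable_abs (hf : Bd ρ f M) (h0 : 0 ≤ ρ) : Summable fun m => |coeff m f| * ρ ^ m :=
  summable_of_sum_range_le (fun _ => mul_nonneg (abs_nonneg _) (pow_nonneg h0 _)) hf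

lemma Bd.summable_abs' (hf : Bd ρ f M) (hx : |x| ≤ ρ) : Summable fun m => |coeff m f| * |x| ^ m := by
  have h0 : 0 ≤ ρ := (abs_nonneg x).trans hx
  refine Summable.of_nonneg_of_le (fun m => by positivity) (fun m => ?_) (hf.summable_abs h0)
  exact mul_le_mul_of_nonneg_left (pow_le_pow_left₀ (abs_nonneg x) hx m) (abs_nonneg _)

lemma Bd.summable_norm (hf : Bd ρ f M) (hx : |x| ≤ ρ) : Summable fun m => ‖coeff m f * x ^ m‖ := by
  have := hf.summable_abs' hx
  simpa [abs_mul, abs_pow] using this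

lemma Bd.summable (hf : Bd ρ f M) (hx : |x| ≤ ρ) : Summable fun m => coeff m f * x ^ m :=
  (hf.summable_norm hx).of_norm

lemma Bd.abs_tsum_le (hf : Bd ρ f M) (hx : |x| ≤ ρ) : ∑' m, |coeff m f| * |x| ^ m ≤ M := by
  have h0 : 0 ≤ ρ := (abs_nonneg x).trans hx
  refine Real.tsum_le_of_sum_range_le (fun m => by positivity) fun n => ?_
  exact (hf.mono_radius (abs_nonneg x) hx) n

lemma abs_ev_le (hf : Bd ρ f M) (hx : |x| ≤ ρ) : |ev f x| ≤ M := by
  refine le_trans ?_ (hf.abs_tsum_le hx)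
  have := norm_tsum_le_tsum_norm (hf.summable_norm hx)
  simpa [ev, abs_mul, abs_pow] using this

lemma ev_at_zero (f : ℝ⟦X⟧) : ev f 0 = coeff 0 f := by
  rw [ev, tsum_eq_single 0]
  · simp
  · intro m hm; simp [hm]

lemma ev_add (hf : Bd ρ f M) (hg : Bd ρ g M') (hx : |x| ≤ ρ) : ev (f + g) x = ev f x + ev g x := by
  rw [ev, ev, ev, ← (hf.summable hx).tsum_add (hg.summable hx)]
  refine tsum_congr fun m => ?_
  rw [map_add, add_mul]

lemma ev_neg (f : ℝ⟦X⟧) (x : ℝ) : ev (-f) x = -ev f x := by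
  rw [ev, ev, ← tsum_neg]
  refine tsum_congr fun m => ?_
  rw [map_neg, neg_mul]

lemma ev_sub (hf : Bd ρ f M) (hg : Bd ρ g M') (hx : |x| ≤ ρ) : ev (f - g) x = ev f x - ev g x := by
  rw [sub_eq_add_neg, ev_add hf hg.neg hx, ev_neg, sub_eq_add_neg]

lemma ev_smul (a : ℝ) (f : ℝ⟦X⟧) (x : ℝ) : ev (a • f) x = a * ev f x := by
  rw [ev, ev, ← tsum_mul_left]
  refine tsum_congr fun m => ?_
  rw [coeff_smul, smul_eq_mul, mul_assoc]

lemma ev_zero (x : ℝ) : ev 0 x = 0 := by
  rw [ev]; simp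

lemma ev_C (a x : ℝ) : ev (C a) x = a := by
  rw [ev, tsum_eq_single 0]
  · simp
  · intro m hm; rw [coeff_C, if_neg hm, zero_mul]

lemma ev_one (x : ℝ) : ev 1 x = 1 := by
  rw [← map_one (C (R := ℝ)), ev_C]

lemma ev_mul (hf : Bd ρ f M) (hg : Bd ρ g M') (hx : |x| ≤ ρ) : ev (f * g) x = ev f x * ev g x := by
  rw [ev, ev, ev, tsum_mul_tsum_eq_tsum_sum_antidiagonal_of_summable_norm (hf.summable_norm hx)
    (hg.summable_norm hx)]
  refine tsum_congr fun m => ?_
  rw [coeff_mul, sum_mul]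
  refine sum_congr rfl fun p hp => ?_
  rw [← mem_antidiagonal.mp hp, pow_add]
  ring

lemma ev_pow (hf : Bd ρ f M) (hx : |x| ≤ ρ) (k : ℕ) : ev (f ^ k) x = ev f x ^ k := by
  have h0 : 0 ≤ ρ := (abs_nonneg x).trans hx
  induction k with
  | zero => rw [pow_zero, pow_zero, ev_one]
  | succ k ih => rw [pow_succ, pow_succ, ev_mul (hf.pow h0 k) hf hx, ih]

lemma ev_comp (hψ : Bd ρ ψ r) (hX : (X : ℝ⟦X⟧) ∣ ψ) (hg : Bd r g M) (hx : |x| ≤ ρ) :
    ev (comp g ψ) x = ev g (ev ψ x) := by
  have h0 : 0 ≤ ρ := (abs_nonneg x).trans hx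
  have hr : 0 ≤ r := hψ.nonneg
  set F : ℕ → ℕ → ℝ := fun i m => coeff i g * (coeff m (ψ ^ i) * x ^ m) with hF
  have hsum : Summable (Function.uncurry F) := by
    refine Summable.of_norm ?_
    rw [summable_prod_of_nonneg (fun _ => norm_nonneg _)]
    have e : ∀ i m, ‖Function.uncurry F (i, m)‖ = |coeff i g| * (|coeff m (ψ ^ i)| * |x| ^ m) := by
      intro i m
      simp only [Function.uncurry, hF, Real.norm_eq_abs, abs_mul, abs_pow]
    constructor
    · intro i
      simp only [e]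
      exact ((hψ.pow h0 i).summable_abs' hx).mul_left _
    · simp only [e, tsum_mul_left]
      refine Summable.of_nonneg_of_le (fun i => ?_) (fun i => ?_) (hg.summable_abs hr)
      · exact mul_nonneg (abs_nonneg _) (tsum_nonneg fun m => by positivity)
      · exact mul_le_mul_of_nonneg_left ((hψ.pow h0 i).abs_tsum_le hx) (abs_nonneg _)
  have h1 : ∀ m, coeff m (comp g ψ) * x ^ m = ∑' i, F i m := by
    intro m
    rw [coeff_comp hX (Nat.lt_succ_self m), tsum_eq_sum (s := range (m + 1)), sum_mul]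
    · refine sum_congr rfl fun i _ => ?_
      rw [hF]; ring
    · intro i hi
      rw [mem_range, not_lt] at hi
      simp only [hF]
      rw [coeff_pow_eq_zero hX hi]
      ring
  have h2 : ∀ i, coeff i g * ev ψ x ^ i = ∑' m, F i m := by
    intro i
    simp only [hF]
    rw [tsum_mul_left, ← ev_pow hψ hx, ev]
  rw [ev, ev]
  simp only [h1, h2]
  exact hsum.tsum_comm

/-- termwise differentiation -/
lemma hasDerivAt_ev (hf : Bd ρ f M) (hf' : Bd ρ (d⁄dX ℝ f) M') (hx : |x| < ρ) :
    HasDerivAt (ev f) (ev (d⁄dX ℝ f) x) x := by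
  have h0 : 0 < ρ := (abs_nonneg x).trans_lt hx
  set u : ℕ → ℝ := fun n => n * |coeff n f| * ρ ^ (n - 1) with hu
  have hus : Summable u := by
    rw [← summable_nat_add_iff 1]
    refine (hf'.summable_abs h0.le).congr fun n => ?_
    rw [coeff_derivative, hu, abs_mul, abs_of_nonneg (by positivity : (0 : ℝ) ≤ (n : ℝ) + 1)]
    push_cast
    ring
  have key := hasDerivAt_tsum_of_isPreconnected (g := fun n y => coeff n f * y ^ n)
    (g' := fun n y => coeff n f * (n * y ^ (n - 1))) (t := Metric.ball (0 : ℝ) ρ) (y₀ := 0) (y := x)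
    hus Metric.isOpen_ball (convex_ball (0 : ℝ) ρ).isPreconnected
    (fun n y _ => (hasDerivAt_pow n y).const_mul _) (fun n y hy => ?_) (Metric.mem_ball_self h0)
    (hf.summable (by rw [abs_zero]; exact h0.le)) (by rwa [Metric.mem_ball, dist_zero_right])
  · have e : ev (d⁄dX ℝ f) x = ∑' n : ℕ, coeff n f * (n * x ^ (n - 1)) := by
      have hs : Summable fun n : ℕ => coeff n f * (n * x ^ (n - 1)) := by
        refine Summable.of_norm_bounded hus fun n => ?_
        rw [Real.norm_eq_abs, abs_mul, abs_mul, Nat.abs_cast, abs_pow, hu]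
        have : |x| ^ (n - 1) ≤ ρ ^ (n - 1) := pow_le_pow_left₀ (abs_nonneg _) hx.le _
        calc |coeff n f| * (n * |x| ^ (n - 1)) = n * |coeff n f| * |x| ^ (n - 1) := by ring
          _ ≤ _ := mul_le_mul_of_nonneg_left this (by positivity)
      rw [hs.tsum_eq_zero_add]
      simp only [Nat.cast_zero, zero_mul, mul_zero, zero_add]
      rw [ev]
      refine tsum_congr fun n => ?_
      rw [coeff_derivative, Nat.add_sub_cancel]
      push_cast
      ring
    rw [e]
    exact key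
  · rw [Metric.mem_ball, dist_zero_right, Real.norm_eq_abs] at hy
    rw [Real.norm_eq_abs, abs_mul, abs_mul, Nat.abs_cast, abs_pow, hu]
    have : |y| ^ (n - 1) ≤ ρ ^ (n - 1) := pow_le_pow_left₀ (abs_nonneg _) hy.le _
    calc |coeff n f| * (n * |y| ^ (n - 1)) = n * |coeff n f| * |y| ^ (n - 1) := by ring
      _ ≤ _ := mul_le_mul_of_nonneg_left this (by positivity)

/-- analyticity -/
lemma analyticAt_ev (hf : Bd ρ f M) (hx : |x| < ρ) : AnalyticAt ℝ (ev f) x := by
  have h0 : 0 < ρ := (abs_nonneg x).trans_lt hx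
  set p := FormalMultilinearSeries.ofScalars ℝ (fun n => coeff n f) with hp
  set R : NNReal := ⟨ρ, h0.le⟩ with hR
  have hrad : (R : ENNReal) ≤ p.radius := by
    refine p.le_radius_of_summable_norm ?_
    refine (hf.summable_abs h0.le).congr fun n => ?_
    rw [hp, FormalMultilinearSeries.ofScalars_norm, Real.norm_eq_abs]
    rfl
  have hpos : 0 < p.radius := lt_of_lt_of_le (ENNReal.coe_pos.mpr h0) hrad
  have hball := p.hasFPowerSeriesOnBall hpos
  have hmem : x ∈ Metric.eball (0 : ℝ) p.radius := by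
    refine Metric.eball_subset_eball hrad ?_
    rw [Metric.mem_eball, edist_dist, dist_zero_right, Real.norm_eq_abs]
    exact (ENNReal.ofReal_lt_coe_iff (abs_nonneg x)).mpr hx
  have han := hball.analyticAt_of_mem hmem
  have hsum : p.sum = ev f := by
    have := FormalMultilinearSeries.ofScalars_sum_eq (E := ℝ) (fun n => coeff n f) 
    funext y
    have h2 := this y
    rw [FormalMultilinearSeries.ofScalarsSum] at h2
    rw [hp, h2, ev]
    refine tsum_congr fun n => ?_
    rw [smul_eq_mul]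
  rw [hsum] at han
  exact han

/-- smoothness -/
lemma contDiffAt_ev (hf : Bd ρ f M) (hx : |x| < ρ) {n : WithTop ℕ∞} : ContDiffAt ℝ n (ev f) x :=
  (analyticAt_ev hf hx).contDiffAt

end Helper43.Billiard
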