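import Mathlib

set_option autoImplicit false

/-! # Real trigonometric polynomials -/

namespace Helper43.Billiard

open Finset Real

/-- the function `φ ↦ cos (k φ)` -/
noncomputable def ck (k : ℕ) : ℝ → ℝ := fun φ => cos (k * φ)
/-- the function `φ ↦ sin (k φ)` -/
noncomputable def sk (k : ℕ) : ℝ → ℝ := fun φ => sin (k * φ)

/-- trigonometric polynomials of degree at most one -/
noncomputable def TP1 : Submodule ℝ (ℝ → ℝ) := Submodule.span ℝ {1, ck 1, sk 1}

/-- trigonometric polynomials of degree at most `K` -/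
noncomputable def TP (K : ℕ) : Submodule ℝ (ℝ → ℝ) := TP1 ^ K

lemma TP_mul {K L : ℕ} {f g : ℝ → ℝ} (hf : f ∈ TP K) (hg : g ∈ TP L) : f * g ∈ TP (K + L) := by
  rw [TP, pow_add]
  exact Submodule.mul_mem_mul hf hg

lemma one_mem_TP1 : (1 : ℝ → ℝ) ∈ TP1 := Submodule.subset_span (by simp)
lemma ck_mem_TP1 : ck 1 ∈ TP1 := Submodule.subset_span (by simp)
lemma sk_mem_TP1 : sk 1 ∈ TP1 := Submodule.subset_span (by simp)

lemma one_mem_TP (K : ℕ) : (1 : ℝ → ℝ) ∈ TP K := by
  induction K with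
  | zero => rw [TP, pow_zero]; exact Submodule.one_le.mp (le_refl _)
  | succ K ih =>
    have := TP_mul (L := 1) ih (g := 1) (by rw [TP, pow_one]; exact one_mem_TP1)
    simpa using this

lemma TP_mono {K L : ℕ} (h : K ≤ L) : TP K ≤ TP L := by
  intro f hf
  have := TP_mul hf (one_mem_TP (L - K))
  rw [mul_one, Nat.add_sub_cancel' h] at this
  exact this

lemma const_mem_TP (K : ℕ) (a : ℝ) : (fun _ => a) ∈ TP K := by
  have := (TP K).smul_mem a (one_mem_TP K)
  convert this using 1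
  ext φ
  simp

lemma ck_zero : ck 0 = 1 := by ext φ; simp [ck]
lemma sk_zero : sk 0 = 0 := by ext φ; simp [sk]

lemma ck_succ (k : ℕ) : ck (k + 1) = ck k * ck 1 - sk k * sk 1 := by
  ext φ
  simp only [ck, sk, Pi.sub_apply, Pi.mul_apply]
  rw [← cos_add]
  congr 1
  push_cast
  ring

lemma sk_succ (k : ℕ) : sk (k + 1) = sk k * ck 1 + ck k * sk 1 := by
  ext φ
  simp only [ck, sk, Pi.add_apply, Pi.mul_apply]
  rw [← sin_add]
  congr 1
  push_cast
  ring

lemma ck_sk_mem_TP (K : ℕ) : ck K ∈ TP K ∧ sk K ∈ TP K := by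
  induction K with
  | zero => rw [ck_zero, sk_zero]; exact ⟨one_mem_TP 0, (TP 0).zero_mem⟩
  | succ K ih =>
    have hc : ck 1 ∈ TP 1 := by rw [TP, pow_one]; exact ck_mem_TP1
    have hs : sk 1 ∈ TP 1 := by rw [TP, pow_one]; exact sk_mem_TP1
    refine ⟨?_, ?_⟩
    · rw [ck_succ K]
      exact (TP _).sub_mem (TP_mul ih.1 hc) (TP_mul ih.2 hs)
    · rw [sk_succ K]
      exact (TP _).add_mem (TP_mul ih.2 hc) (TP_mul ih.1 hs)

lemma ck_mem_TP {k K : ℕ} (h : k ≤ K) : ck k ∈ TP K := TP_mono h (ck_sk_mem_TP k).1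
lemma sk_mem_TP {k K : ℕ} (h : k ≤ K) : sk k ∈ TP K := TP_mono h (ck_sk_mem_TP k).2

/-- the span of `cos kφ, sin kφ`, `k ≤ K` -/
noncomputable def FS (K : ℕ) : Submodule ℝ (ℝ → ℝ) :=
  Submodule.span ℝ {f | ∃ k ≤ K, f = ck k ∨ f = sk k}

lemma ck_mem_FS {k K : ℕ} (h : k ≤ K) : ck k ∈ FS K := Submodule.subset_span ⟨k, h, Or.inl rfl⟩
lemma sk_mem_FS {k K : ℕ} (h : k ≤ K) : sk k ∈ FS K := Submodule.subset_span ⟨k, h, Or.inr rfl⟩

lemma FS_mul (K : ℕ) : FS K * TP1 ≤ FS (K + 1) := by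
  rw [FS, TP1, Submodule.span_mul_span, Submodule.span_le]
  rintro _ ⟨f, ⟨k, hk, hf⟩, g, hg, rfl⟩
  simp only [Set.mem_insert_iff, Set.mem_singleton_iff] at hg
  have h1 : ck (k + 1) ∈ FS (K + 1) := ck_mem_FS (by omega)
  have h2 : sk (k + 1) ∈ FS (K + 1) := sk_mem_FS (by omega)
  have h3 : ck k ∈ FS (K + 1) := ck_mem_FS (by omega)
  have h4 : sk k ∈ FS (K + 1) := sk_mem_FS (by omega)
  have h5 : ck (k - 1) ∈ FS (K + 1) := ck_mem_FS (by omega)
  have h6 : sk (k - 1) ∈ FS (K + 1) := sk_mem_FS (by omega)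
  show f * g ∈ FS (K + 1)
  by_cases hk0 : k = 0
  · subst hk0
    rw [ck_zero, sk_zero] at hf
    have c1 : ck 1 ∈ FS (K + 1) := ck_mem_FS (by omega)
    have s1 : sk 1 ∈ FS (K + 1) := sk_mem_FS (by omega)
    have o1 : (1 : ℝ → ℝ) ∈ FS (K + 1) := by
      rw [← ck_zero]; exact ck_mem_FS (by omega)
    rcases hf with rfl | rfl
    · rcases hg with rfl | rfl | rfl
      · simpa using o1
      · simpa using c1
      · simpa using s1
    · rw [zero_mul]
      exact Submodule.zero_mem _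
  · obtain ⟨l, rfl⟩ := Nat.exists_eq_succ_of_ne_zero hk0
    rw [Nat.succ_eq_add_one, Nat.add_sub_cancel] at h5 h6
    rw [Nat.succ_eq_add_one] at hf h1 h2 h3 h4
    rcases hf with rfl | rfl
    · rcases hg with rfl | rfl | rfl
      · simpa using h3
      · have : ck (l + 1) * ck 1 = (1/2 : ℝ) • ck (l + 1 + 1) + (1/2 : ℝ) • ck l := by
          ext φ
          simp only [ck, Pi.mul_apply, Pi.add_apply, Pi.smul_apply, smul_eq_mul]
          have e1 : ((l + 1 + 1 : ℕ) : ℝ) * φ = ((l + 1 : ℕ) : ℝ) * φ + (1 : ℕ) * φ := by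
            push_cast; ring
          have e2 : (l : ℝ) * φ = ((l + 1 : ℕ) : ℝ) * φ - (1 : ℕ) * φ := by
            push_cast; ring
          rw [e1, e2, cos_add, cos_sub]
          ring
        rw [this]
        exact Submodule.add_mem _ (Submodule.smul_mem _ _ h1) (Submodule.smul_mem _ _ h5)
      · have : ck (l + 1) * sk 1 = (1/2 : ℝ) • sk (l + 1 + 1) - (1/2 : ℝ) • sk l := by
          ext φ
          simp only [ck, sk, Pi.mul_apply, Pi.sub_apply, Pi.smul_apply, smul_eq_mul]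
          have e1 : ((l + 1 + 1 : ℕ) : ℝ) * φ = ((l + 1 : ℕ) : ℝ) * φ + (1 : ℕ) * φ := by
            push_cast; ring
          have e2 : (l : ℝ) * φ = ((l + 1 : ℕ) : ℝ) * φ - (1 : ℕ) * φ := by
            push_cast; ring
          rw [e1, e2, sin_add, sin_sub]
          ring
        rw [this]
        exact Submodule.sub_mem _ (Submodule.smul_mem _ _ h2) (Submodule.smul_mem _ _ h6)
    · rcases hg with rfl | rfl | rfl
      · simpa using h4
      · have : sk (l + 1) * ck 1 = (1/2 : ℝ) • sk (l + 1 + 1) + (1/2 : ℝ) • sk l := by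
          ext φ
          simp only [ck, sk, Pi.mul_apply, Pi.add_apply, Pi.smul_apply, smul_eq_mul]
          have e1 : ((l + 1 + 1 : ℕ) : ℝ) * φ = ((l + 1 : ℕ) : ℝ) * φ + (1 : ℕ) * φ := by
            push_cast; ring
          have e2 : (l : ℝ) * φ = ((l + 1 : ℕ) : ℝ) * φ - (1 : ℕ) * φ := by
            push_cast; ring
          rw [e1, e2, sin_add, sin_sub]
          ring
        rw [this]
        exact Submodule.add_mem _ (Submodule.smul_mem _ _ h2) (Submodule.smul_mem _ _ h6)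
      · have : sk (l + 1) * sk 1 = (1/2 : ℝ) • ck l - (1/2 : ℝ) • ck (l + 1 + 1) := by
          ext φ
          simp only [ck, sk, Pi.mul_apply, Pi.sub_apply, Pi.smul_apply, smul_eq_mul]
          have e1 : ((l + 1 + 1 : ℕ) : ℝ) * φ = ((l + 1 : ℕ) : ℝ) * φ + (1 : ℕ) * φ := by
            push_cast; ring
          have e2 : (l : ℝ) * φ = ((l + 1 : ℕ) : ℝ) * φ - (1 : ℕ) * φ := by
            push_cast; ring
          rw [e1, e2, cos_add, cos_sub]
          ring
        rw [this]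
        exact Submodule.sub_mem _ (Submodule.smul_mem _ _ h5) (Submodule.smul_mem _ _ h1)

lemma TP_le_FS (K : ℕ) : TP K ≤ FS K := by
  induction K with
  | zero =>
    rw [TP, pow_zero, Submodule.one_le, ← ck_zero]
    exact ck_mem_FS (le_refl 0)
  | succ K ih =>
    rw [TP, pow_succ]
    exact (mul_le_mul' ih (le_refl TP1)).trans (FS_mul K)

/-- evaluation of a trigonometric sum without constant term -/
noncomputable def tsum' (K : ℕ) (a b : ℕ → ℝ) : ℝ → ℝ := fun φ =>
  ∑ k ∈ range K, (a k * cos ((k + 1 : ℕ) * φ) + b k * sin ((k + 1 : ℕ) * φ))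

lemma exists_fourier {K : ℕ} {f : ℝ → ℝ} (hf : f ∈ TP K) :
    ∃ (a₀ : ℝ) (a b : ℕ → ℝ), ∀ φ, f φ = a₀ + tsum' K a b φ := by
  have hf' := TP_le_FS K hf
  clear hf
  rw [FS] at hf'
  induction hf' using Submodule.span_induction with
  | mem g hg =>
    obtain ⟨k, hk, hg⟩ := hg
    by_cases hk0 : k = 0
    · subst hk0
      rw [ck_zero, sk_zero] at hg
      rcases hg with rfl | rfl
      · exact ⟨1, 0, 0, fun φ => by simp [tsum']⟩
      · exact ⟨0, 0, 0, fun φ => by simp [tsum']⟩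
    · obtain ⟨l, rfl⟩ := Nat.exists_eq_succ_of_ne_zero hk0
      have hl : l ∈ range K := mem_range.mpr (by omega)
      rcases hg with rfl | rfl
      · refine ⟨0, fun j => if j = l then 1 else 0, 0, fun φ => ?_⟩
        simp [tsum', ck, ite_mul, sum_ite_eq', mem_range.mp hl]
      · refine ⟨0, 0, fun j => if j = l then 1 else 0, fun φ => ?_⟩
        simp [tsum', sk, ite_mul, sum_ite_eq', mem_range.mp hl]
  | zero => exact ⟨0, 0, 0, fun φ => by simp [tsum']⟩
  | add f g _ _ ihf ihg =>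
    obtain ⟨a₀, a, b, h⟩ := ihf
    obtain ⟨a₀', a', b', h'⟩ := ihg
    refine ⟨a₀ + a₀', a + a', b + b', fun φ => ?_⟩
    rw [Pi.add_apply, h, h']
    simp only [tsum', Pi.add_apply]
    rw [add_add_add_comm, ← sum_add_distrib]
    congr 1
    refine sum_congr rfl fun k _ => ?_
    ring
  | smul c f _ ih =>
    obtain ⟨a₀, a, b, h⟩ := ih
    refine ⟨c * a₀, c • a, c • b, fun φ => ?_⟩
    rw [Pi.smul_apply, h, smul_eq_mul]
    simp only [tsum', Pi.smul_apply, smul_eq_mul]
    rw [mul_add, mul_sum]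
    congr 1
    refine sum_congr rfl fun k _ => ?_
    ring

/-! ### Integrals and coefficient bounds -/

lemma int_cos (n : ℤ) : ∫ φ in (0 : ℝ)..(2 * π), cos (n * φ) = if n = 0 then 2 * π else 0 := by
  split_ifs with h
  · subst h; simp
  · have hn : (n : ℝ) ≠ 0 := by exact_mod_cast h
    rw [intervalIntegral.integral_comp_mul_left (fun x => cos x) hn, integral_cos]
    rw [show (n : ℝ) * (2 * π) = n * (2 * π) from rfl, mul_zero, sin_zero, sub_zero]
    have : sin ((n : ℝ) * (2 * π)) = 0 := by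
      rw [show (n : ℝ) * (2 * π) = ((2 * n : ℤ) : ℝ) * π by push_cast; ring]
      exact Real.sin_int_mul_pi _
    rw [this]; simp

lemma int_sin (n : ℤ) : ∫ φ in (0 : ℝ)..(2 * π), sin (n * φ) = 0 := by
  by_cases h : n = 0
  · subst h; simp
  · have hn : (n : ℝ) ≠ 0 := by exact_mod_cast h
    rw [intervalIntegral.integral_comp_mul_left (fun x => sin x) hn, integral_sin]
    have : cos ((n : ℝ) * (2 * π)) = 1 := Real.cos_int_mul_two_pi n
    rw [this]; simp

lemma int_cos_cos (j k : ℕ) (hj : j ≠ 0) : ∫ φ in (0 : ℝ)..(2 * π), cos (j * φ) * cos (k * φ)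
    = if j = k then π else 0 := by
  have e : ∀ φ : ℝ, cos (j * φ) * cos (k * φ)
      = (1/2) * cos (((j : ℤ) - (k : ℤ) : ℤ) * φ) + (1/2) * cos (((j : ℤ) + (k : ℤ) : ℤ) * φ) := by
    intro φ
    push_cast
    rw [sub_mul, add_mul, cos_sub, cos_add]
    ring
  simp only [e]
  rw [intervalIntegral.integral_add, intervalIntegral.integral_const_mul,
    intervalIntegral.integral_const_mul, int_cos, int_cos]
  · by_cases h : j = k
    · subst h
      rw [if_pos (by ring), if_neg (by omega), if_pos rfl]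
      ring
    · rw [if_neg (by omega), if_neg (by omega), if_neg h]
      ring
  · exact (Continuous.intervalIntegrable (by fun_prop) _ _)
  · exact (Continuous.intervalIntegrable (by fun_prop) _ _)

lemma int_sin_sin (j k : ℕ) (hj : j ≠ 0) : ∫ φ in (0 : ℝ)..(2 * π), sin (j * φ) * sin (k * φ)
    = if j = k then π else 0 := by
  have e : ∀ φ : ℝ, sin (j * φ) * sin (k * φ)
      = (1/2) * cos (((j : ℤ) - (k : ℤ) : ℤ) * φ) - (1/2) * cos (((j : ℤ) + (k : ℤ) : ℤ) * φ) := by
    intro φ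
    push_cast
    rw [sub_mul, add_mul, cos_sub, cos_add]
    ring
  simp only [e]
  rw [intervalIntegral.integral_sub, intervalIntegral.integral_const_mul,
    intervalIntegral.integral_const_mul, int_cos, int_cos]
  · by_cases h : j = k
    · subst h
      rw [if_pos (by ring), if_neg (by omega), if_pos rfl]
      ring
    · rw [if_neg (by omega), if_neg (by omega), if_neg h]
      ring
  · exact (Continuous.intervalIntegrable (by fun_prop) _ _)
  · exact (Continuous.intervalIntegrable (by fun_prop) _ _)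

lemma int_sin_cos (j k : ℕ) : ∫ φ in (0 : ℝ)..(2 * π), sin (j * φ) * cos (k * φ) = 0 := by
  have e : ∀ φ : ℝ, sin (j * φ) * cos (k * φ)
      = (1/2) * sin (((j : ℤ) - (k : ℤ) : ℤ) * φ) + (1/2) * sin (((j : ℤ) + (k : ℤ) : ℤ) * φ) := by
    intro φ
    push_cast
    rw [sub_mul, add_mul, sin_sub, sin_add]
    ring
  simp only [e]
  rw [intervalIntegral.integral_add, intervalIntegral.integral_const_mul,
    intervalIntegral.integral_const_mul, int_sin, int_sin]
  · ring
  · exact (Continuous.intervalIntegrable (by fun_prop) _ _)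
  · exact (Continuous.intervalIntegrable (by fun_prop) _ _)

lemma int_cos_sin (j k : ℕ) : ∫ φ in (0 : ℝ)..(2 * π), cos (j * φ) * sin (k * φ) = 0 := by
  have := int_sin_cos k j
  rw [← this]
  congr 1
  ext φ
  ring

@[fun_prop]
lemma continuous_tsum' (K : ℕ) (a b : ℕ → ℝ) : Continuous (tsum' K a b) := by
  unfold tsum'
  fun_prop

lemma int_tsum' (K : ℕ) (a b : ℕ → ℝ) : ∫ φ in (0 : ℝ)..(2 * π), tsum' K a b φ = 0 := by
  unfold tsum'
  rw [intervalIntegral.integral_finsetSum]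
  · refine sum_eq_zero fun k _ => ?_
    rw [intervalIntegral.integral_add, intervalIntegral.integral_const_mul,
      intervalIntegral.integral_const_mul]
    · have h1 := int_cos ((k + 1 : ℕ) : ℤ)
      have h2 := int_sin ((k + 1 : ℕ) : ℤ)
      rw [if_neg (by omega)] at h1
      rw [Int.cast_natCast] at h1 h2
      rw [h1, h2]
      ring
    · exact (Continuous.intervalIntegrable (by fun_prop) _ _)
    · exact (Continuous.intervalIntegrable (by fun_prop) _ _)
  · intro k _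
    exact (Continuous.intervalIntegrable (by fun_prop) _ _)

lemma int_tsum'_cos (K : ℕ) (a b : ℕ → ℝ) (j : ℕ) (hj : j < K) :
    ∫ φ in (0 : ℝ)..(2 * π), tsum' K a b φ * cos ((j + 1 : ℕ) * φ) = π * a j := by
  unfold tsum'
  simp only [sum_mul, add_mul, mul_assoc]
  rw [intervalIntegral.integral_finsetSum]
  · rw [sum_eq_single j]
    · rw [intervalIntegral.integral_add, intervalIntegral.integral_const_mul,
        intervalIntegral.integral_const_mul, int_cos_cos _ _ (by omega), int_sin_cos, if_pos rfl]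
      · ring
      · exact (Continuous.intervalIntegrable (by fun_prop) _ _)
      · exact (Continuous.intervalIntegrable (by fun_prop) _ _)
    · intro k _ hk
      rw [intervalIntegral.integral_add, intervalIntegral.integral_const_mul,
        intervalIntegral.integral_const_mul, int_cos_cos _ _ (by omega), int_sin_cos,
        if_neg (by omega)]
      · ring
      · exact (Continuous.intervalIntegrable (by fun_prop) _ _)
      · exact (Continuous.intervalIntegrable (by fun_prop) _ _)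
    · intro h
      exact absurd (mem_range.mpr hj) h
  · intro k _
    exact (Continuous.intervalIntegrable (by fun_prop) _ _)

lemma int_tsum'_sin (K : ℕ) (a b : ℕ → ℝ) (j : ℕ) (hj : j < K) :
    ∫ φ in (0 : ℝ)..(2 * π), tsum' K a b φ * sin ((j + 1 : ℕ) * φ) = π * b j := by
  unfold tsum'
  simp only [sum_mul, add_mul, mul_assoc]
  rw [intervalIntegral.integral_finsetSum]
  · rw [sum_eq_single j]
    · rw [intervalIntegral.integral_add, intervalIntegral.integral_const_mul,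
        intervalIntegral.integral_const_mul, int_sin_sin _ _ (by omega), int_cos_sin, if_pos rfl]
      · ring
      · exact (Continuous.intervalIntegrable (by fun_prop) _ _)
      · exact (Continuous.intervalIntegrable (by fun_prop) _ _)
    · intro k _ hk
      rw [intervalIntegral.integral_add, intervalIntegral.integral_const_mul,
        intervalIntegral.integral_const_mul, int_sin_sin _ _ (by omega), int_cos_sin,
        if_neg (by omega)]
      · ring
      · exact (Continuous.intervalIntegrable (by fun_prop) _ _)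
      · exact (Continuous.intervalIntegrable (by fun_prop) _ _)
    · intro h
      exact absurd (mem_range.mpr hj) h
  · intro k _
    exact (Continuous.intervalIntegrable (by fun_prop) _ _)

lemma abs_int_le {g : ℝ → ℝ} {M : ℝ} (hg : ∀ φ, |g φ| ≤ M) :
    |∫ φ in (0 : ℝ)..(2 * π), g φ| ≤ 2 * π * M := by
  have := intervalIntegral.norm_integral_le_of_norm_le_const (a := 0) (b := 2 * π) (f := g) (C := M)
    (fun x _ => by rw [Real.norm_eq_abs]; exact hg x)
  rw [Real.norm_eq_abs, sub_zero, abs_of_pos Real.two_pi_pos] at this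
  linarith

lemma fourier_const {K : ℕ} {a b : ℕ → ℝ} {a₀ : ℝ} {f : ℝ → ℝ} (h : ∀ φ, f φ = a₀ + tsum' K a b φ) :
    ∫ φ in (0 : ℝ)..(2 * π), f φ = 2 * π * a₀ := by
  simp only [h]
  rw [intervalIntegral.integral_add, int_tsum', intervalIntegral.integral_const]
  · simp
  · exact (Continuous.intervalIntegrable (by fun_prop) _ _)
  · exact (Continuous.intervalIntegrable (by fun_prop) _ _)

lemma fourier_bound_const {K : ℕ} {a b : ℕ → ℝ} {a₀ M : ℝ} {f : ℝ → ℝ}
    (h : ∀ φ, f φ = a₀ + tsum' K a b φ) (hM : ∀ φ, |f φ| ≤ M) : |a₀| ≤ M := by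
  have h1 := abs_int_le hM
  rw [fourier_const h, abs_mul, abs_of_pos Real.two_pi_pos] at h1
  exact le_of_mul_le_mul_left h1 Real.two_pi_pos

lemma fourier_bound_cos {K : ℕ} {a b : ℕ → ℝ} {a₀ M : ℝ} {f : ℝ → ℝ}
    (h : ∀ φ, f φ = a₀ + tsum' K a b φ) (hM : ∀ φ, |f φ| ≤ M) {j : ℕ} (hj : j < K) :
    |a j| ≤ 2 * M := by
  have h0 : ∫ φ in (0 : ℝ)..(2 * π), f φ * cos ((j + 1 : ℕ) * φ) = π * a j := by
    simp only [h, add_mul]
    rw [intervalIntegral.integral_add, int_tsum'_cos K a b j hj,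
      intervalIntegral.integral_const_mul]
    · have h1 := int_cos ((j + 1 : ℕ) : ℤ)
      rw [if_neg (by omega), Int.cast_natCast] at h1
      rw [h1]
      ring
    · exact (Continuous.intervalIntegrable (by fun_prop) _ _)
    · exact (Continuous.intervalIntegrable (by fun_prop) _ _)
  have h1 := abs_int_le (g := fun φ => f φ * cos ((j + 1 : ℕ) * φ)) (M := M) (fun φ => by
    rw [abs_mul]
    calc |f φ| * |cos ((j + 1 : ℕ) * φ)| ≤ M * 1 :=
          mul_le_mul (hM φ) (abs_cos_le_one _) (abs_nonneg _) ((abs_nonneg _).trans (hM φ))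
      _ = M := mul_one M)
  rw [h0, abs_mul, abs_of_pos Real.pi_pos] at h1
  have := Real.pi_pos
  nlinarith

lemma fourier_bound_sin {K : ℕ} {a b : ℕ → ℝ} {a₀ M : ℝ} {f : ℝ → ℝ}
    (h : ∀ φ, f φ = a₀ + tsum' K a b φ) (hM : ∀ φ, |f φ| ≤ M) {j : ℕ} (hj : j < K) :
    |b j| ≤ 2 * M := by
  have h0 : ∫ φ in (0 : ℝ)..(2 * π), f φ * sin ((j + 1 : ℕ) * φ) = π * b j := by
    simp only [h, add_mul]
    rw [intervalIntegral.integral_add, int_tsum'_sin K a b j hj,
      intervalIntegral.integral_const_mul]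
    · have h1 := int_sin ((j + 1 : ℕ) : ℤ)
      rw [Int.cast_natCast] at h1
      rw [h1]
      ring
    · exact (Continuous.intervalIntegrable (by fun_prop) _ _)
    · exact (Continuous.intervalIntegrable (by fun_prop) _ _)
  have h1 := abs_int_le (g := fun φ => f φ * sin ((j + 1 : ℕ) * φ)) (M := M) (fun φ => by
    rw [abs_mul]
    calc |f φ| * |sin ((j + 1 : ℕ) * φ)| ≤ M * 1 :=
          mul_le_mul (hM φ) (abs_sin_le_one _) (abs_nonneg _) ((abs_nonneg _).trans (hM φ))
      _ = M := mul_one M)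
  rw [h0, abs_mul, abs_of_pos Real.pi_pos] at h1
  have := Real.pi_pos
  nlinarith

/-! ### Closure properties -/

lemma tsum'_mem (K : ℕ) (a₀ : ℝ) (a b : ℕ → ℝ) : (fun φ => a₀ + tsum' K a b φ) ∈ TP K := by
  have e : (fun φ => a₀ + tsum' K a b φ)
      = (fun _ => a₀) + ∑ k ∈ range K, (a k • ck (k + 1) + b k • sk (k + 1)) := by
    ext φ
    simp [tsum', ck, sk, Finset.sum_apply]
  rw [e]
  refine (TP K).add_mem (const_mem_TP K a₀) ((TP K).sum_mem fun k hk => ?_)
  rw [mem_range] at hk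
  exact (TP K).add_mem ((TP K).smul_mem _ (ck_mem_TP (by omega)))
    ((TP K).smul_mem _ (sk_mem_TP (by omega)))

lemma tsum'_mem' (K : ℕ) (a b : ℕ → ℝ) : tsum' K a b ∈ TP K := by
  have := tsum'_mem K 0 a b
  simpa using this

lemma tsum'_shift (K : ℕ) (a b : ℕ → ℝ) (t : ℝ) :
    (fun φ => tsum' K a b (φ + t)) = tsum' K
      (fun k => a k * cos ((k + 1 : ℕ) * t) + b k * sin ((k + 1 : ℕ) * t))
      (fun k => b k * cos ((k + 1 : ℕ) * t) - a k * sin ((k + 1 : ℕ) * t)) := by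
  ext φ
  simp only [tsum']
  refine sum_congr rfl fun k _ => ?_
  rw [mul_add, cos_add, sin_add]
  ring

lemma tsum'_reflect (K : ℕ) (a b : ℕ → ℝ) :
    (fun φ => tsum' K a b (-φ)) = tsum' K a (fun k => - b k) := by
  ext φ
  simp only [tsum']
  refine sum_congr rfl fun k _ => ?_
  rw [mul_neg, cos_neg, sin_neg]
  ring

lemma tsum'_sub (K : ℕ) (a b a' b' : ℕ → ℝ) :
    (fun φ => tsum' K a b φ - tsum' K a' b' φ) = tsum' K (fun k => a k - a' k) (fun k => b k - b' k) := by
  ext φ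
  simp only [tsum']
  rw [← sum_sub_distrib]
  refine sum_congr rfl fun k _ => ?_
  ring

lemma TP_shift {K : ℕ} {f : ℝ → ℝ} (hf : f ∈ TP K) (t : ℝ) : (fun φ => f (φ + t)) ∈ TP K := by
  obtain ⟨a₀, a, b, h⟩ := exists_fourier hf
  have : (fun φ => f (φ + t)) = fun φ => a₀ + (fun φ => tsum' K a b (φ + t)) φ := by
    ext φ; rw [h]
  rw [this, tsum'_shift]
  exact tsum'_mem _ _ _ _

lemma TP_reflect {K : ℕ} {f : ℝ → ℝ} (hf : f ∈ TP K) : (fun φ => f (-φ)) ∈ TP K := by
  obtain ⟨a₀, a, b, h⟩ := exists_fourier hf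
  have : (fun φ => f (-φ)) = fun φ => a₀ + (fun φ => tsum' K a b (-φ)) φ := by
    ext φ; rw [h]
  rw [this, tsum'_reflect]
  exact tsum'_mem _ _ _ _

lemma hasDerivAt_tsum' (K : ℕ) (a b : ℕ → ℝ) (φ : ℝ) :
    HasDerivAt (tsum' K a b) (tsum' K (fun k => (k + 1 : ℕ) * b k) (fun k => -((k + 1 : ℕ) * a k)) φ) φ := by
  unfold tsum'
  have : ∀ k ∈ range K, HasDerivAt (fun φ => a k * cos ((k + 1 : ℕ) * φ) + b k * sin ((k + 1 : ℕ) * φ))
      ((k + 1 : ℕ) * b k * cos ((k + 1 : ℕ) * φ) + -((k + 1 : ℕ) * a k) * sin ((k + 1 : ℕ) * φ)) φ := by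
    intro k _
    have h1 : HasDerivAt (fun φ : ℝ => ((k + 1 : ℕ) : ℝ) * φ) ((k + 1 : ℕ) : ℝ) φ := by
      simpa using (hasDerivAt_id φ).const_mul ((k + 1 : ℕ) : ℝ)
    have h2 := (h1.cos.const_mul (a k)).add (h1.sin.const_mul (b k))
    refine h2.congr_deriv ?_
    ring
  exact HasDerivAt.fun_sum this

lemma TP_hasDerivAt {K : ℕ} {f : ℝ → ℝ} (hf : f ∈ TP K) (φ : ℝ) : HasDerivAt f (deriv f φ) φ := by
  obtain ⟨a₀, a, b, h⟩ := exists_fourier hf
  have e : f = fun φ => a₀ + tsum' K a b φ := funext h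
  have := (hasDerivAt_tsum' K a b φ).const_add a₀
  rw [← e] at this
  exact this.differentiableAt.hasDerivAt

lemma TP_deriv_eq {K : ℕ} {a b : ℕ → ℝ} {a₀ : ℝ} {f : ℝ → ℝ} (h : ∀ φ, f φ = a₀ + tsum' K a b φ) :
    deriv f = tsum' K (fun k => (k + 1 : ℕ) * b k) (fun k => -((k + 1 : ℕ) * a k)) := by
  ext φ
  have e : f = fun φ => a₀ + tsum' K a b φ := funext h
  have := (hasDerivAt_tsum' K a b φ).const_add a₀
  rw [← e] at this
  exact this.deriv

lemma TP_deriv {K : ℕ} {f : ℝ → ℝ} (hf : f ∈ TP K) : deriv f ∈ TP K := by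
  obtain ⟨a₀, a, b, h⟩ := exists_fourier hf
  rw [TP_deriv_eq h]
  exact tsum'_mem' _ _ _

lemma TP_continuous {K : ℕ} {f : ℝ → ℝ} (hf : f ∈ TP K) : Continuous f := by
  obtain ⟨a₀, a, b, h⟩ := exists_fourier hf
  rw [funext h]
  fun_prop

lemma TP_periodic {K : ℕ} {f : ℝ → ℝ} (hf : f ∈ TP K) (φ : ℝ) : f (φ + 2 * π) = f φ := by
  obtain ⟨a₀, a, b, h⟩ := exists_fourier hf
  rw [h, h]
  simp only [tsum']
  congr 1
  refine sum_congr rfl fun k _ => ?_
  rw [mul_add, cos_add_nat_mul_two_pi, sin_add_nat_mul_two_pi]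

/-- bounding sums with Fourier coefficients -/
lemma abs_sum_le_of_coeff {K : ℕ} {a b : ℕ → ℝ} {c d : ℕ → ℝ} {M Λ : ℝ}
    (ha : ∀ j < K, |a j| ≤ 2 * M) (hb : ∀ j < K, |b j| ≤ 2 * M)
    (hc : ∀ j < K, |c j| ≤ Λ) (hd : ∀ j < K, |d j| ≤ Λ) :
    |∑ k ∈ range K, (a k * c k + b k * d k)| ≤ 4 * K * M * Λ := by
  calc |∑ k ∈ range K, (a k * c k + b k * d k)|
      ≤ ∑ k ∈ range K, |a k * c k + b k * d k| := abs_sum_le_sum_abs _ _
    _ ≤ ∑ k ∈ range K, (4 * M * Λ) := by
        refine sum_le_sum fun k hk => ?_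
        rw [mem_range] at hk
        calc |a k * c k + b k * d k| ≤ |a k * c k| + |b k * d k| := abs_add_le _ _
          _ = |a k| * |c k| + |b k| * |d k| := by rw [abs_mul, abs_mul]
          _ ≤ (2 * M) * Λ + (2 * M) * Λ := by
              refine add_le_add (mul_le_mul (ha k hk) (hc k hk) (abs_nonneg _) ?_)
                (mul_le_mul (hb k hk) (hd k hk) (abs_nonneg _) ?_)
              · exact (abs_nonneg _).trans (ha k hk)
              · exact (abs_nonneg _).trans (ha k hk)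
          _ = 4 * M * Λ := by ring
    _ = _ := by
        rw [sum_const, card_range, nsmul_eq_mul]
        ring

lemma TP_deriv_bound {K : ℕ} {f : ℝ → ℝ} {M : ℝ} (hf : f ∈ TP K) (hM : ∀ φ, |f φ| ≤ M) (φ : ℝ) :
    |deriv f φ| ≤ 4 * K ^ 2 * M := by
  obtain ⟨a₀, a, b, h⟩ := exists_fourier hf
  rw [TP_deriv_eq h]
  have h1 := abs_sum_le_of_coeff (K := K) (a := b) (b := a) (M := M) (Λ := K)
    (c := fun k => (k + 1 : ℕ) * cos ((k + 1 : ℕ) * φ)) (d := fun k => -((k + 1 : ℕ) * sin ((k + 1 : ℕ) * φ)))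
    (fun j hj => fourier_bound_sin h hM hj) (fun j hj => fourier_bound_cos h hM hj)
    (fun j hj => by
      rw [abs_mul, Nat.abs_cast]
      calc ((j + 1 : ℕ) : ℝ) * |cos ((j + 1 : ℕ) * φ)| ≤ (K : ℝ) * 1 :=
            mul_le_mul (by exact_mod_cast hj) (abs_cos_le_one _) (abs_nonneg _) (Nat.cast_nonneg _)
        _ = K := mul_one _)
    (fun j hj => by
      rw [abs_neg, abs_mul, Nat.abs_cast]
      calc ((j + 1 : ℕ) : ℝ) * |sin ((j + 1 : ℕ) * φ)| ≤ (K : ℝ) * 1 :=
            mul_le_mul (by exact_mod_cast hj) (abs_sin_le_one _) (abs_nonneg _) (Nat.cast_nonneg _)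
        _ = K := mul_one _)
  have e : tsum' K (fun k => (k + 1 : ℕ) * b k) (fun k => -((k + 1 : ℕ) * a k)) φ
    = ∑ k ∈ range K, (b k * ((k + 1 : ℕ) * cos ((k + 1 : ℕ) * φ))
      + a k * (-((k + 1 : ℕ) * sin ((k + 1 : ℕ) * φ)))) := by
    simp only [tsum']
    refine sum_congr rfl fun k _ => ?_
    ring
  rw [e]
  refine h1.trans (le_of_eq ?_)
  ring

/-! ### The difference equation -/

/-- solution of `x (φ + α/2) - x (φ - α/2) = tsum' K a b φ` -/
noncomputable def solA (α : ℝ) (b : ℕ → ℝ) : ℕ → ℝ := fun k => - b k / (2 * sin ((k + 1 : ℕ) * (α / 2)))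
noncomputable def solB (α : ℝ) (a : ℕ → ℝ) : ℕ → ℝ := fun k => a k / (2 * sin ((k + 1 : ℕ) * (α / 2)))

lemma sol_eq {α : ℝ} {K : ℕ} (a b : ℕ → ℝ) (hα : ∀ k < K, sin ((k + 1 : ℕ) * (α / 2)) ≠ 0) (φ : ℝ) :
    tsum' K (solA α b) (solB α a) (φ + α / 2) - tsum' K (solA α b) (solB α a) (φ - α / 2)
      = tsum' K a b φ := by
  simp only [tsum']
  rw [← sum_sub_distrib]
  refine sum_congr rfl fun k hk => ?_
  rw [mem_range] at hk
  have h := hα k hk
  simp only [solA, solB]
  rw [mul_add, mul_sub, cos_add, cos_sub, sin_add, sin_sub]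
  generalize ((k + 1 : ℕ) : ℝ) * (α / 2) = t at h ⊢
  generalize ((k + 1 : ℕ) : ℝ) * φ = u
  field_simp
  ring

lemma sol_bound {α Λ M : ℝ} {K : ℕ} {a b : ℕ → ℝ} (ha : ∀ j < K, |a j| ≤ 2 * M)
    (hb : ∀ j < K, |b j| ≤ 2 * M)
    (hα : ∀ k < K, |(sin ((k + 1 : ℕ) * (α / 2)))⁻¹| ≤ Λ) (φ : ℝ) :
    |tsum' K (solA α b) (solB α a) φ| ≤ 2 * K * M * Λ := by
  have e : tsum' K (solA α b) (solB α a) φ = ∑ k ∈ range K,
      (a k * ((sin ((k + 1 : ℕ) * (α / 2)))⁻¹ / 2 * sin ((k + 1 : ℕ) * φ))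
        + b k * (-((sin ((k + 1 : ℕ) * (α / 2)))⁻¹ / 2 * cos ((k + 1 : ℕ) * φ)))) := by
    simp only [tsum', solA, solB]
    refine sum_congr rfl fun k _ => ?_
    rw [mul_comm (2 : ℝ), ← div_div, ← div_div, div_eq_mul_inv (-b k), div_eq_mul_inv (a k)]
    ring
  rw [e]
  have := abs_sum_le_of_coeff (K := K) (a := a) (b := b) (M := M) (Λ := Λ / 2)
    (c := fun k => (sin ((k + 1 : ℕ) * (α / 2)))⁻¹ / 2 * sin ((k + 1 : ℕ) * φ))
    (d := fun k => -((sin ((k + 1 : ℕ) * (α / 2)))⁻¹ / 2 * cos ((k + 1 : ℕ) * φ)))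
    ha hb ?_ ?_
  · refine this.trans (le_of_eq ?_)
    ring
  · intro j hj
    rw [abs_mul, abs_div, abs_two]
    calc |(sin ((j + 1 : ℕ) * (α / 2)))⁻¹| / 2 * |sin ((j + 1 : ℕ) * φ)| ≤ Λ / 2 * 1 := by
          refine mul_le_mul ?_ (abs_sin_le_one _) (abs_nonneg _) ?_
          · have := hα j hj
            linarith
          · have := (abs_nonneg _).trans (hα j hj)
            linarith
      _ = Λ / 2 := mul_one _
  · intro j hj
    rw [abs_neg, abs_mul, abs_div, abs_two]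
    calc |(sin ((j + 1 : ℕ) * (α / 2)))⁻¹| / 2 * |cos ((j + 1 : ℕ) * φ)| ≤ Λ / 2 * 1 := by
          refine mul_le_mul ?_ (abs_cos_le_one _) (abs_nonneg _) ?_
          · have := hα j hj
            linarith
          · have := (abs_nonneg _).trans (hα j hj)
            linarith
      _ = Λ / 2 := mul_one _

/-- uniqueness up to constants -/
lemma coeff_eq_zero_of_diff {α : ℝ} {K : ℕ} {a b : ℕ → ℝ}
    (hα : ∀ k < K, sin ((k + 1 : ℕ) * (α / 2)) ≠ 0)
    (h : ∀ φ, tsum' K a b (φ + α / 2) = tsum' K a b (φ - α / 2)) :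
    ∀ k < K, a k = 0 ∧ b k = 0 := by
  have e : (fun φ => tsum' K a b (φ + α / 2) - tsum' K a b (φ - α / 2)) = tsum' K
      (fun k => b k * (2 * sin ((k + 1 : ℕ) * (α / 2))))
      (fun k => -(a k * (2 * sin ((k + 1 : ℕ) * (α / 2))))) := by
    ext φ
    simp only [tsum']
    rw [← sum_sub_distrib]
    refine sum_congr rfl fun k hk => ?_
    rw [mul_add, mul_sub, cos_add, cos_sub, sin_add, sin_sub]
    ring
  have h0 : ∀ φ, (fun _ => (0 : ℝ)) φ = 0 + tsum' K
      (fun k => b k * (2 * sin ((k + 1 : ℕ) * (α / 2))))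
      (fun k => -(a k * (2 * sin ((k + 1 : ℕ) * (α / 2))))) φ := by
    intro φ
    have := congrFun e φ
    rw [← this, h φ, sub_self, add_zero]
  have hM : ∀ φ, |(fun _ : ℝ => (0 : ℝ)) φ| ≤ 0 := fun φ => by simp
  intro k hk
  have h1 := fourier_bound_cos h0 hM hk
  have h2 := fourier_bound_sin h0 hM hk
  rw [mul_zero] at h1 h2
  have h1' := abs_eq_zero.mp (le_antisymm h1 (abs_nonneg _))
  have h2' := abs_eq_zero.mp (le_antisymm h2 (abs_nonneg _))
  have hs : 2 * sin ((k + 1 : ℕ) * (α / 2)) ≠ 0 := mul_ne_zero two_ne_zero (hα k hk)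
  constructor
  · have := neg_eq_zero.mp h2'
    exact (mul_eq_zero.mp this).resolve_right hs
  · exact (mul_eq_zero.mp h1').resolve_right hs

lemma tsum'_congr {K : ℕ} {a b a' b' : ℕ → ℝ} (h : ∀ k < K, a k = a' k ∧ b k = b' k) :
    tsum' K a b = tsum' K a' b' := by
  ext φ
  simp only [tsum']
  refine sum_congr rfl fun k hk => ?_
  rw [mem_range] at hk
  rw [(h k hk).1, (h k hk).2]

lemma tsum'_unique {α : ℝ} {K : ℕ} {a b a' b' : ℕ → ℝ}
    (hα : ∀ k < K, sin ((k + 1 : ℕ) * (α / 2)) ≠ 0)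
    (h : ∀ φ, tsum' K a b (φ + α / 2) - tsum' K a b (φ - α / 2)
      = tsum' K a' b' (φ + α / 2) - tsum' K a' b' (φ - α / 2)) :
    tsum' K a b = tsum' K a' b' := by
  have e := tsum'_sub K a b a' b'
  have h' : ∀ φ, tsum' K (fun k => a k - a' k) (fun k => b k - b' k) (φ + α / 2)
      = tsum' K (fun k => a k - a' k) (fun k => b k - b' k) (φ - α / 2) := by
    intro φ
    rw [← e]
    simp only
    linarith [h φ]
  have := coeff_eq_zero_of_diff hα h'
  refine tsum'_congr fun k hk => ?_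
  exact ⟨sub_eq_zero.mp (this k hk).1, sub_eq_zero.mp (this k hk).2⟩

/-- The small divisor lemma. -/
lemma exists_sol {α : ℝ} {K : ℕ} {g : ℝ → ℝ} (hg : g ∈ TP K)
    (hint : ∫ φ in (0 : ℝ)..(2 * π), g φ = 0)
    (hα : ∀ k < K, sin ((k + 1 : ℕ) * (α / 2)) ≠ 0) :
    ∃ x : ℝ → ℝ, x ∈ TP K ∧ (∀ φ, x (φ + α / 2) - x (φ - α / 2) = g φ)
      ∧ (∀ M Λ : ℝ, (∀ φ, |g φ| ≤ M) → (∀ k < K, |(sin ((k + 1 : ℕ) * (α / 2)))⁻¹| ≤ Λ) →
        ∀ φ, |x φ| ≤ 2 * K * M * Λ)
      ∧ ((∀ φ, g (-φ) = - g φ) → ∀ φ, x (-φ) = x φ)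
      ∧ ((∀ φ, g (-φ) = g φ) → ∀ φ, x (-φ) = - x φ)
      ∧ ((∀ φ, g (φ + π) = g φ) → ∀ φ, x (φ + π) = x φ) := by
  obtain ⟨a₀, a, b, h⟩ := exists_fourier hg
  have ha₀ : a₀ = 0 := by
    have := fourier_const h
    rw [hint] at this
    have h2 := Real.two_pi_pos
    rcases mul_eq_zero.mp this.symm with h3 | h3
    · exact absurd h3 h2.ne'
    · exact h3
  have h' : ∀ φ, g φ = tsum' K a b φ := fun φ => by rw [h, ha₀, zero_add]
  refine ⟨tsum' K (solA α b) (solB α a), tsum'_mem' _ _ _, ?_, ?_, ?_, ?_, ?_⟩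
  · intro φ
    rw [sol_eq a b hα, h']
  · intro M Λ hM hΛ
    exact sol_bound (fun j hj => fourier_bound_cos h hM hj) (fun j hj => fourier_bound_sin h hM hj) hΛ
  · intro hodd φ
    have e := tsum'_reflect K (solA α b) (solB α a)
    have : tsum' K (solA α b) (fun k => - solB α a k) = tsum' K (solA α b) (solB α a) := by
      apply tsum'_unique hα
      intro φ
      rw [sol_eq a b hα, ← e]
      simp only
      rw [show -(φ + α / 2) = -φ - α / 2 by ring, show -(φ - α / 2) = -φ + α / 2 by ring]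
      have := sol_eq a b hα (-φ)
      rw [← h', hodd φ] at this
      rw [← h']
      linarith
    have h1 := congrFun this φ
    have h2 := congrFun e φ
    rw [h2, h1]
  · intro heven φ
    have e := tsum'_reflect K (solA α b) (solB α a)
    have e2 : (fun φ => - tsum' K (solA α b) (solB α a) (-φ))
        = tsum' K (fun k => - solA α b k) (solB α a) := by
      ext φ
      have := congrFun e φ
      rw [this]
      simp only [tsum']
      rw [← sum_neg_distrib]
      refine sum_congr rfl fun k _ => ?_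
      ring
    have : tsum' K (fun k => - solA α b k) (solB α a) = tsum' K (solA α b) (solB α a) := by
      apply tsum'_unique hα
      intro φ
      rw [sol_eq a b hα, ← e2]
      simp only
      rw [show -(φ + α / 2) = -φ - α / 2 by ring, show -(φ - α / 2) = -φ + α / 2 by ring]
      have := sol_eq a b hα (-φ)
      rw [← h', heven φ] at this
      rw [← h']
      linarith
    have h1 := congrFun this φ
    have h2 := congrFun e2 φ
    rw [← h1, ← h2]
    ring
  · intro hper φ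
    have e := tsum'_shift K (solA α b) (solB α a) π
    have h0 := congrFun e φ
    rw [h0]
    refine congrFun ?_ φ
    apply tsum'_unique hα
    intro φ
    rw [← e, sol_eq a b hα]
    simp only
    rw [show φ + α / 2 + π = (φ + π) + α / 2 by ring, show φ - α / 2 + π = (φ + π) - α / 2 by ring,
      sol_eq a b hα, ← h', ← h', hper]

/-- functions invariant under the irrational rotation are constant -/
lemma TP_const_of_diff {α : ℝ} {K : ℕ} {f : ℝ → ℝ} (hf : f ∈ TP K)
    (hα : ∀ k < K, sin ((k + 1 : ℕ) * (α / 2)) ≠ 0)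
    (h : ∀ φ, f (φ + α / 2) = f (φ - α / 2)) :
    ∀ φ, f φ = (∫ t in (0 : ℝ)..(2 * π), f t) / (2 * π) := by
  obtain ⟨a₀, a, b, hf'⟩ := exists_fourier hf
  have h' : ∀ φ, tsum' K a b (φ + α / 2) = tsum' K a b (φ - α / 2) := by
    intro φ
    have := h φ
    rw [hf', hf'] at this
    linarith
  have h0 := coeff_eq_zero_of_diff hα h'
  intro φ
  rw [fourier_const hf', hf' φ, tsum'_congr (a' := 0) (b' := 0) (fun k hk => h0 k hk)]
  have : 2 * π ≠ 0 := Real.two_pi_pos.ne'
  simp [tsum']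

/-! ### The weighted bound -/

lemma abs_sin_nat_mul_le (n : ℕ) (x : ℝ) : |sin (n * x)| ≤ n * |sin x| := by
  induction n with
  | zero => simp
  | succ n ih =>
    push_cast
    rw [add_mul, one_mul, sin_add]
    calc |sin (n * x) * cos x + cos (n * x) * sin x|
        ≤ |sin (n * x)| * |cos x| + |cos (n * x)| * |sin x| := by
          rw [← abs_mul, ← abs_mul]; exact abs_add_le _ _
      _ ≤ |sin (n * x)| * 1 + 1 * |sin x| :=
          add_le_add (mul_le_mul_of_nonneg_left (abs_cos_le_one _) (abs_nonneg _))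
            (mul_le_mul_of_nonneg_right (abs_cos_le_one _) (abs_nonneg _))
      _ ≤ (n + 1) * |sin x| := by linarith

lemma abs_sin_two_mul_nat_mul_le (n : ℕ) (x : ℝ) : |sin ((2 * n : ℕ) * x)| ≤ (2 * n : ℕ) * (|sin x| * |cos x|) := by
  have h := abs_sin_nat_mul_le n (2 * x)
  rw [sin_two_mul, abs_mul, abs_mul, abs_two] at h
  calc |sin ((2 * n : ℕ) * x)| = |sin (n * (2 * x))| := by
        congr 2; push_cast; ring
    _ ≤ n * (2 * |sin x| * |cos x|) := h
    _ = _ := by push_cast; ring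

lemma abs_cos_odd_sub_le (i : ℕ) (φ : ℝ) :
    |cos ((2 * i + 1 : ℕ) * φ) - cos φ| ≤ 2 * (i * (i + 1)) * (|cos φ| * sin φ ^ 2) := by
  have e : cos ((2 * i + 1 : ℕ) * φ) - cos φ = -2 * sin ((i + 1 : ℕ) * φ) * sin (i * φ) := by
    have := Real.cos_sub_cos ((2 * i + 1 : ℕ) * φ) φ
    rw [this]
    congr 3
    · push_cast; ring
    · push_cast; ring
  rw [e, abs_mul, abs_mul, abs_neg, abs_two]
  have hs : |sin φ| * |sin φ| = sin φ ^ 2 := by rw [← sq, sq_abs]
  rcases Nat.even_or_odd' i with ⟨j, hj | hj⟩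
  · have h1 := abs_sin_nat_mul_le (i + 1) φ
    have h2 := abs_sin_two_mul_nat_mul_le j φ
    rw [← hj] at h2
    calc 2 * |sin ((i + 1 : ℕ) * φ)| * |sin (i * φ)|
        ≤ 2 * ((i + 1 : ℕ) * |sin φ|) * (i * (|sin φ| * |cos φ|)) := by
          refine mul_le_mul (mul_le_mul_of_nonneg_left h1 (by norm_num)) h2 (abs_nonneg _) ?_
          positivity
      _ = 2 * (i * (i + 1)) * (|cos φ| * (|sin φ| * |sin φ|)) := by push_cast; ring
      _ = _ := by rw [hs]
  · have h1 := abs_sin_two_mul_nat_mul_le (j + 1) φ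
    rw [show 2 * (j + 1) = i + 1 by omega] at h1
    have h2 := abs_sin_nat_mul_le i φ
    calc 2 * |sin ((i + 1 : ℕ) * φ)| * |sin (i * φ)|
        ≤ 2 * ((i + 1 : ℕ) * (|sin φ| * |cos φ|)) * (i * |sin φ|) := by
          refine mul_le_mul (mul_le_mul_of_nonneg_left h1 (by norm_num)) h2 (abs_nonneg _) ?_
          positivity
      _ = 2 * (i * (i + 1)) * (|cos φ| * (|sin φ| * |sin φ|)) := by push_cast; ring
      _ = _ := by rw [hs]

lemma weighted_bound {K : ℕ} {f : ℝ → ℝ} {M : ℝ} (hf : f ∈ TP K) (hM : ∀ φ, |f φ| ≤ M)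
    (heven : ∀ φ, f (-φ) = f φ) (hanti : ∀ φ, f (φ + π) = - f φ) (h0 : f 0 = 0) (φ : ℝ) :
    |f φ| ≤ 2 * K ^ 3 * M * (|cos φ| * sin φ ^ 2) := by
  obtain ⟨a₀, a, b, h⟩ := exists_fourier hf
  -- the reduced representation
  have hrep : ∀ φ, f φ = ∑ k ∈ range K, (if Even k then a k else 0) * cos ((k + 1 : ℕ) * φ) := by
    intro φ
    have e1 : f φ = (f φ + f (-φ) - f (φ + π) - f (-φ + π)) / 4 := by
      rw [hanti, hanti, heven]; ring
    rw [e1, h, h, h, h]
    simp only [tsum']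
    have e2 : a₀ + ∑ k ∈ range K, (a k * cos ((k + 1 : ℕ) * φ) + b k * sin ((k + 1 : ℕ) * φ))
        + (a₀ + ∑ k ∈ range K, (a k * cos ((k + 1 : ℕ) * (-φ)) + b k * sin ((k + 1 : ℕ) * (-φ))))
        - (a₀ + ∑ k ∈ range K, (a k * cos ((k + 1 : ℕ) * (φ + π)) + b k * sin ((k + 1 : ℕ) * (φ + π))))
        - (a₀ + ∑ k ∈ range K, (a k * cos ((k + 1 : ℕ) * (-φ + π)) + b k * sin ((k + 1 : ℕ) * (-φ + π))))
        = ∑ k ∈ range K, ((a k * cos ((k + 1 : ℕ) * φ) + b k * sin ((k + 1 : ℕ) * φ))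
          + (a k * cos ((k + 1 : ℕ) * (-φ)) + b k * sin ((k + 1 : ℕ) * (-φ)))
          - (a k * cos ((k + 1 : ℕ) * (φ + π)) + b k * sin ((k + 1 : ℕ) * (φ + π)))
          - (a k * cos ((k + 1 : ℕ) * (-φ + π)) + b k * sin ((k + 1 : ℕ) * (-φ + π)))) := by
      simp only [sum_sub_distrib, sum_add_distrib]
      ring
    rw [e2, sum_div]
    refine sum_congr rfl fun k _ => ?_
    rw [mul_add, mul_add, mul_neg, cos_add, sin_add, cos_add, sin_add,
      cos_neg, sin_neg, sin_nat_mul_pi, cos_nat_mul_pi]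
    split_ifs with hk
    · rw [pow_succ, hk.neg_one_pow]
      ring
    · rw [Nat.not_even_iff_odd] at hk
      rw [pow_succ, hk.neg_one_pow]
      ring
  have hsum : ∑ k ∈ range K, (if Even k then a k else 0) = 0 := by
    have := hrep 0
    rw [h0] at this
    simpa using this.symm
  have hrep2 : f φ = ∑ k ∈ range K, (if Even k then a k else 0) * (cos ((k + 1 : ℕ) * φ) - cos φ) := by
    have : ∑ k ∈ range K, (if Even k then a k else 0) * (cos ((k + 1 : ℕ) * φ) - cos φ)
        = ∑ k ∈ range K, (if Even k then a k else 0) * cos ((k + 1 : ℕ) * φ)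
          - (∑ k ∈ range K, (if Even k then a k else 0)) * cos φ := by
      rw [sum_mul, ← sum_sub_distrib]
      refine sum_congr rfl fun k _ => ?_
      ring
    rw [this, hsum, ← hrep]
    ring
  have hMn : 0 ≤ M := (abs_nonneg _).trans (hM 0)
  have hw : 0 ≤ |cos φ| * sin φ ^ 2 := by positivity
  rw [hrep2]
  calc |∑ k ∈ range K, (if Even k then a k else 0) * (cos ((k + 1 : ℕ) * φ) - cos φ)|
      ≤ ∑ k ∈ range K, |(if Even k then a k else 0) * (cos ((k + 1 : ℕ) * φ) - cos φ)| :=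
        abs_sum_le_sum_abs _ _
    _ ≤ ∑ k ∈ range K, (2 * K ^ 2 * M * (|cos φ| * sin φ ^ 2)) := by
        refine sum_le_sum fun k hk => ?_
        rw [mem_range] at hk
        split_ifs with he
        · obtain ⟨i, hi⟩ := he
          have h1 := abs_cos_odd_sub_le i φ
          rw [show 2 * i + 1 = k + 1 by omega] at h1
          rw [abs_mul]
          have h2 := fourier_bound_cos h hM hk
          have hiK : (i : ℝ) + 1 ≤ K := by exact_mod_cast (by omega : i + 1 ≤ K)
          have h2iK : 2 * (i : ℝ) ≤ K := by exact_mod_cast (by omega : 2 * i ≤ K)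
          have hi0 : (0 : ℝ) ≤ i := Nat.cast_nonneg i
          have hK0 : (0 : ℝ) ≤ K := Nat.cast_nonneg K
          calc |a k| * |cos ((k + 1 : ℕ) * φ) - cos φ|
              ≤ (2 * M) * (2 * (i * (i + 1)) * (|cos φ| * sin φ ^ 2)) :=
                mul_le_mul h2 h1 (abs_nonneg _) (by positivity)
            _ ≤ (2 * M) * (K ^ 2 * (|cos φ| * sin φ ^ 2)) := by
                refine mul_le_mul_of_nonneg_left ?_ (by positivity)
                refine mul_le_mul_of_nonneg_right ?_ hw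
                nlinarith
            _ = _ := by ring
        · rw [zero_mul, abs_zero]
          positivity
    _ = _ := by
        rw [sum_const, card_range, nsmul_eq_mul]
        ring

end Helper43.Billiard
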