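import Pool.Agent.Helper43_Billiard.Comp
import Pool.Agent.Helper43_Billiard.Trig

set_option autoImplicit false

/-! # Families of power series with trigonometric polynomial coefficients -/

namespace Helper43.Billiard

open PowerSeries Finset Real

/-- families of power series indexed by the angle -/
abbrev Fam := ℝ → ℝ⟦X⟧

/-- coefficient functions -/
noncomputable def cf (m : ℕ) (a : Fam) : ℝ → ℝ := fun φ => coeff m (a φ)

/-- The `m`-th coefficient is a trigonometric polynomial of degree at most `(m + d) * K`. -/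
def Cls (K d : ℕ) (a : Fam) : Prop := ∀ m, cf m a ∈ TP ((m + d) * K)

variable {K K' d d' : ℕ} {a b : Fam}

lemma Cls.mono (h : Cls K d a) (hK : K ≤ K') (hd : d ≤ d') : Cls K' d' a := fun m =>
  TP_mono (Nat.mul_le_mul (by omega) hK) (h m)

lemma Cls.add (ha : Cls K d a) (hb : Cls K d b) : Cls K d (a + b) := by
  intro m
  have : cf m (a + b) = cf m a + cf m b := by ext φ; simp [cf]
  rw [this]
  exact Submodule.add_mem _ (ha m) (hb m)

lemma Cls.neg (ha : Cls K d a) : Cls K d (-a) := by
  intro m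
  have : cf m (-a) = - cf m a := by ext φ; simp [cf]
  rw [this]
  exact Submodule.neg_mem _ (ha m)

lemma Cls.sub (ha : Cls K d a) (hb : Cls K d b) : Cls K d (a - b) := by
  rw [sub_eq_add_neg]
  exact ha.add hb.neg

lemma Cls.smul (c : ℝ) (ha : Cls K d a) : Cls K d (c • a) := by
  intro m
  have : cf m (c • a) = c • cf m a := by ext φ; simp [cf]
  rw [this]
  exact Submodule.smul_mem _ _ (ha m)

lemma Cls.mul (ha : Cls K d a) (hb : Cls K d' b) : Cls K (d + d') (a * b) := by
  intro m
  have : cf m (a * b) = ∑ p ∈ antidiagonal m, cf p.1 a * cf p.2 b := by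
    ext φ
    simp only [cf, Pi.mul_apply, coeff_mul, Finset.sum_apply]
  rw [this]
  refine Submodule.sum_mem _ fun p hp => ?_
  rw [HasAntidiagonal.mem_antidiagonal] at hp
  have h := TP_mul (ha p.1) (hb p.2)
  rwa [← add_mul, show p.1 + d + (p.2 + d') = m + (d + d') by omega] at h

lemma Cls.const (f : ℝ⟦X⟧) : Cls K d (fun _ => f) := fun _ => const_mem_TP _ _

lemma Cls.pow (ha : Cls K 0 a) (k : ℕ) : Cls K 0 (a ^ k) := by
  induction k with
  | zero => rw [pow_zero]; exact Cls.const 1
  | succ k ih => rw [pow_succ]; exact ih.mul ha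

lemma Cls.comp (ha : Cls K 0 a) (g : ℝ⟦X⟧) : Cls K 0 (fun φ => comp g (a φ)) := by
  intro m
  have : cf m (fun φ => Helper43.Billiard.comp g (a φ)) = ∑ i ∈ range (m + 1), coeff i g • cf m (a ^ i) := by
    ext φ
    simp only [cf, Helper43.Billiard.comp, coeff_mk, Finset.sum_apply, Pi.smul_apply, smul_eq_mul, Pi.pow_apply]
  rw [this]
  exact Submodule.sum_mem _ fun i _ => Submodule.smul_mem _ _ (ha.pow i m)

lemma Cls.shift (ha : Cls K d a) (t : ℝ) : Cls K d (fun φ => a (φ + t)) := fun m =>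
  TP_shift (ha m) t

lemma Cls.shift' (ha : Cls K d a) (t : ℝ) : Cls K d (fun φ => a (φ - t)) := by
  have : (fun φ => a (φ - t)) = fun φ => a (φ + -t) := by
    funext φ
    rw [sub_eq_add_neg]
  rw [this]
  exact ha.shift (-t)

lemma Cls.reflect (ha : Cls K d a) : Cls K d (fun φ => a (-φ)) := fun m => TP_reflect (ha m)

lemma Cls.Dr (ha : Cls K d a) : Cls K d (fun φ => Dr (a φ)) := fun m => by
  have : cf m (fun φ => Helper43.Billiard.Dr (a φ)) = (m : ℝ) • cf m a := by
    ext φ
    simp [cf, coeff_Dr]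
  rw [this]
  exact Submodule.smul_mem _ _ (ha m)

lemma Cls.of_X_pow_mul {n : ℕ} (h : Cls K d (fun φ => X ^ n * a φ)) : Cls K (d + n) a := fun m => by
  have h1 := h (n + m)
  have : cf (n + m) (fun φ => X ^ n * a φ) = cf m a := by
    ext φ
    simp [cf, coeff_X_pow_mul']
  rw [this, show n + m + d = m + (d + n) by omega] at h1
  exact h1

lemma Cls.tr (ha : Cls K d a) (N : ℕ) : Cls K d (fun φ => tr N (a φ)) := fun m => by
  by_cases hm : m < N
  · have : cf m (fun φ => Helper43.Billiard.tr N (a φ)) = cf m a := by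
      ext φ
      simp [cf, coeff_tr, hm]
    rw [this]
    exact ha m
  · have : cf m (fun φ => Helper43.Billiard.tr N (a φ)) = 0 := by
      ext φ
      simp [cf, coeff_tr, hm]
    rw [this]
    exact Submodule.zero_mem _

lemma Cls.continuous (ha : Cls K d a) (m : ℕ) : Continuous (cf m a) := TP_continuous (ha m)

lemma Cls.hasDerivAt (ha : Cls K d a) (m : ℕ) (φ : ℝ) :
    HasDerivAt (cf m a) (deriv (cf m a) φ) φ := TP_hasDerivAt (ha m) φ

lemma Cls.periodic (ha : Cls K d a) (φ : ℝ) : a (φ + 2 * π) = a φ := by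
  ext m
  exact TP_periodic (ha m) φ

/-! ### The angular derivative -/

/-- angular derivative, coefficientwise -/
noncomputable def Dp (a : Fam) : Fam := fun φ => mk fun m => deriv (cf m a) φ

lemma coeff_Dp (m : ℕ) (a : Fam) (φ : ℝ) : coeff m (Dp a φ) = deriv (cf m a) φ := by
  rw [Dp, coeff_mk]

lemma cf_Dp (m : ℕ) (a : Fam) : cf m (Dp a) = deriv (cf m a) := by
  ext φ
  exact coeff_Dp m a φ

lemma Cls.Dp (ha : Cls K d a) : Cls K d (Dp a) := fun m => by
  rw [cf_Dp]
  exact TP_deriv (ha m)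

lemma Dp_add (ha : Cls K d a) (hb : Cls K' d' b) : Dp (a + b) = Dp a + Dp b := by
  ext φ m
  rw [Pi.add_apply, map_add, coeff_Dp, coeff_Dp, coeff_Dp]
  have : cf m (a + b) = fun φ => cf m a φ + cf m b φ := by ext φ; simp [cf]
  rw [this]
  exact ((ha.hasDerivAt m φ).add (hb.hasDerivAt m φ)).deriv

lemma Dp_smul (c : ℝ) (a : Fam) : Dp (c • a) = c • Dp a := by
  ext φ m
  rw [Pi.smul_apply, coeff_smul, coeff_Dp, coeff_Dp]
  have : cf m (c • a) = fun φ => c * cf m a φ := by ext φ; simp [cf]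
  rw [this, deriv_const_mul_field, smul_eq_mul]

lemma Dp_neg (a : Fam) : Dp (-a) = -Dp a := by
  have := Dp_smul (-1) a
  simpa using this

lemma Dp_sub (ha : Cls K d a) (hb : Cls K' d' b) : Dp (a - b) = Dp a - Dp b := by
  rw [sub_eq_add_neg, Dp_add ha hb.neg, Dp_neg, sub_eq_add_neg]

lemma Dp_const (f : ℝ⟦X⟧) : Dp (fun _ => f) = 0 := by
  ext φ m
  rw [coeff_Dp]
  have : cf m (fun _ => f) = fun _ => coeff m f := rfl
  rw [this]
  simp

lemma Dp_mul (ha : Cls K d a) (hb : Cls K' d' b) : Dp (a * b) = Dp a * b + a * Dp b := by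
  ext φ m
  rw [Pi.add_apply, map_add, Pi.mul_apply, Pi.mul_apply, coeff_Dp, coeff_mul, coeff_mul,
    ← sum_add_distrib]
  have : cf m (a * b) = fun φ => ∑ p ∈ antidiagonal m, cf p.1 a φ * cf p.2 b φ := by
    ext φ
    simp only [cf, Pi.mul_apply, coeff_mul]
  rw [this]
  have h : HasDerivAt (fun φ => ∑ p ∈ antidiagonal m, cf p.1 a φ * cf p.2 b φ)
      (∑ p ∈ antidiagonal m, (coeff p.1 (Dp a φ) * coeff p.2 (b φ) + coeff p.1 (a φ) * coeff p.2 (Dp b φ))) φ := by
    refine HasDerivAt.fun_sum fun p _ => ?_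
    have := (ha.hasDerivAt p.1 φ).fun_mul (hb.hasDerivAt p.2 φ)
    rw [coeff_Dp, coeff_Dp]
    exact this
  exact h.deriv

lemma Dp_shift (a : Fam) (t : ℝ) : Dp (fun φ => a (φ + t)) = fun φ => Dp a (φ + t) := by
  ext φ m
  rw [coeff_Dp, coeff_Dp]
  have : cf m (fun φ => a (φ + t)) = fun φ => cf m a (φ + t) := rfl
  rw [this, deriv_comp_add_const]

lemma Dp_pow (ha : Cls K 0 a) (k : ℕ) : Dp (a ^ k) = (fun φ => (k : ℝ⟦X⟧) * a φ ^ (k - 1) * Dp a φ) := by
  induction k with
  | zero =>
    rw [pow_zero]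
    have : (1 : Fam) = fun _ => 1 := rfl
    rw [this, Dp_const]
    ext φ
    simp
  | succ k ih =>
    rw [pow_succ, Dp_mul (ha.pow k) ha, ih]
    funext φ
    simp only [Pi.add_apply, Pi.mul_apply, Pi.pow_apply]
    cases k with
    | zero => simp
    | succ k =>
      rw [Nat.add_sub_cancel, Nat.add_sub_cancel]
      push_cast
      ring

lemma Dp_X_pow_dvd {n : ℕ} (h : ∀ φ, (X : ℝ⟦X⟧) ^ n ∣ a φ) (φ : ℝ) : (X : ℝ⟦X⟧) ^ n ∣ Dp a φ := by
  rw [X_pow_dvd_iff]
  intro m hm
  rw [coeff_Dp]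
  have : cf m a = fun _ => 0 := by
    ext φ
    exact X_pow_dvd_iff.mp (h φ) m hm
  rw [this]
  simp

/-- chain rule for the angular derivative -/
lemma Dp_comp (ha : Cls K 0 a) (hX : ∀ φ, (X : ℝ⟦X⟧) ∣ a φ) (g : ℝ⟦X⟧) :
    Dp (fun φ => comp g (a φ)) = fun φ => comp (d⁄dX ℝ g) (a φ) * Dp a φ := by
  have key : ∀ (N : ℕ) (φ : ℝ), (X : ℝ⟦X⟧) ^ N ∣
      Dp (fun φ => comp g (a φ)) φ - comp (d⁄dX ℝ g) (a φ) * Dp a φ := by
    intro N φ
    have hsum : Cls K 0 (fun φ => ∑ i ∈ range (N + 1), coeff i g • a φ ^ i) := by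
      have e : (fun φ => ∑ i ∈ range (N + 1), coeff i g • a φ ^ i)
          = ∑ i ∈ range (N + 1), coeff i g • a ^ i := by
        ext φ
        simp [Finset.sum_apply]
      rw [e]
      have : ∀ s : Finset ℕ, Cls K 0 (∑ i ∈ s, coeff i g • a ^ i) := by
        intro s
        classical
        induction s using Finset.induction_on with
        | empty => rw [sum_empty]; exact Cls.const 0
        | insert i s hi ih =>
          rw [sum_insert hi]
          exact ((ha.pow i).smul _).add ih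
      exact this _
    have h1 := Dp_X_pow_dvd (a := (fun φ => comp g (a φ)) - fun φ => ∑ i ∈ range (N + 1), coeff i g • a φ ^ i)
      (n := N) (fun φ => (pow_dvd_pow (X : ℝ⟦X⟧) (show N ≤ N + 1 by omega)).trans
        (comp_mod (g := g) (hX φ) (N + 1))) φ
    rw [Dp_sub (ha.comp g) hsum, Pi.sub_apply] at h1
    have e : Dp (fun φ => ∑ i ∈ range (N + 1), coeff i g • a φ ^ i) φ
        = (∑ i ∈ range N, coeff i (d⁄dX ℝ g) • a φ ^ i) * Dp a φ := by
      have e0 : ∀ s : Finset ℕ, Dp (fun φ => ∑ i ∈ s, coeff i g • a φ ^ i) φ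
          = ∑ i ∈ s, coeff i g • ((i : ℝ⟦X⟧) * a φ ^ (i - 1) * Dp a φ) := by
        intro s
        classical
        induction s using Finset.induction_on with
        | empty =>
          simp only [sum_empty]
          rw [Dp_const]
          rfl
        | insert i s hi ih =>
          rw [sum_insert hi, ← ih]
          have e1 : (fun φ => ∑ j ∈ insert i s, coeff j g • a φ ^ j)
              = coeff i g • a ^ i + fun φ => ∑ j ∈ s, coeff j g • a φ ^ j := by
            ext φ
            simp [sum_insert hi]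
          have hs : Cls K 0 (fun φ => ∑ j ∈ s, coeff j g • a φ ^ j) := by
            have e : (fun φ => ∑ i ∈ s, coeff i g • a φ ^ i)
                = ∑ i ∈ s, coeff i g • a ^ i := by
              ext φ
              simp [Finset.sum_apply]
            rw [e]
            have : ∀ s : Finset ℕ, Cls K 0 (∑ i ∈ s, coeff i g • a ^ i) := by
              intro s
              induction s using Finset.induction_on with
              | empty => rw [sum_empty]; exact Cls.const 0
              | insert i s hi ih =>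
                rw [sum_insert hi]
                exact ((ha.pow i).smul _).add ih
            exact this _
          rw [e1, Dp_add ((ha.pow i).smul _) hs, Dp_smul, Dp_pow ha]
          rfl
      rw [e0, sum_range_succ', sum_mul]
      simp only [Nat.cast_zero, zero_mul, smul_zero, add_zero]
      refine sum_congr rfl fun i _ => ?_
      rw [coeff_derivative, Nat.add_sub_cancel]
      simp only [smul_eq_C_mul, map_mul, map_add, map_one, map_natCast]
      push_cast
      ring
    rw [e] at h1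
    have h3 := comp_mod (g := d⁄dX ℝ g) (hX φ) N
    have := h1.sub (h3.mul_right (Dp a φ))
    refine this.trans (dvd_of_eq ?_)
    ring
  funext φ
  ext m
  have := X_pow_dvd_iff.mp (key (m + 1) φ) m (Nat.lt_succ_self m)
  rwa [map_sub, sub_eq_zero] at this

/-! ### Averages -/

/-- average over the angle, coefficientwise -/
noncomputable def Av (a : Fam) : ℝ⟦X⟧ := mk fun m => (∫ φ in (0 : ℝ)..(2 * π), cf m a φ) / (2 * π)

lemma coeff_Av (m : ℕ) (a : Fam) : coeff m (Av a) = (∫ φ in (0 : ℝ)..(2 * π), cf m a φ) / (2 * π) := by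
  rw [Av, coeff_mk]

lemma Av_add (ha : Cls K d a) (hb : Cls K' d' b) : Av (a + b) = Av a + Av b := by
  ext m
  rw [map_add, coeff_Av, coeff_Av, coeff_Av, ← add_div]
  congr 1
  have : cf m (a + b) = fun φ => cf m a φ + cf m b φ := by ext φ; simp [cf]
  rw [this]
  exact intervalIntegral.integral_add ((ha.continuous m).intervalIntegrable _ _)
    ((hb.continuous m).intervalIntegrable _ _)

lemma Av_smul (c : ℝ) (a : Fam) : Av (c • a) = c • Av a := by
  ext m
  rw [coeff_smul, coeff_Av, coeff_Av]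
  have : cf m (c • a) = fun φ => c * cf m a φ := by ext φ; simp [cf]
  rw [this, intervalIntegral.integral_const_mul, smul_eq_mul]
  ring

lemma Av_neg (a : Fam) : Av (-a) = -Av a := by
  have := Av_smul (-1) a
  simpa using this

lemma Av_sub (ha : Cls K d a) (hb : Cls K' d' b) : Av (a - b) = Av a - Av b := by
  rw [sub_eq_add_neg, Av_add ha hb.neg, Av_neg, sub_eq_add_neg]

lemma Av_const (f : ℝ⟦X⟧) : Av (fun _ => f) = f := by
  ext m
  rw [coeff_Av]
  have : cf m (fun _ => f) = fun _ => coeff m f := rfl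
  rw [this, intervalIntegral.integral_const]
  have : 2 * π ≠ 0 := Real.two_pi_pos.ne'
  rw [smul_eq_mul, sub_zero, mul_comm, mul_div_assoc, div_self this, mul_one]

lemma Av_shift (ha : Cls K d a) (t : ℝ) : Av (fun φ => a (φ + t)) = Av a := by
  ext m
  rw [coeff_Av, coeff_Av]
  congr 1
  have : cf m (fun φ => a (φ + t)) = fun φ => cf m a (φ + t) := rfl
  rw [this, intervalIntegral.integral_comp_add_right (fun x => cf m a x)]
  have hp : Function.Periodic (cf m a) (2 * π) := fun φ => TP_periodic (ha m) φ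
  have := hp.intervalIntegral_add_eq 0 (0 + t)
  rw [zero_add, zero_add] at this
  rw [zero_add, add_comm (2 * π) t, ← this]

lemma Av_const_mul (f : ℝ⟦X⟧) (ha : Cls K d a) : Av (fun φ => f * a φ) = f * Av a := by
  ext m
  rw [coeff_Av, coeff_mul]
  have : cf m (fun φ => f * a φ) = fun φ => ∑ p ∈ antidiagonal m, coeff p.1 f * cf p.2 a φ := by
    ext φ
    simp only [cf, coeff_mul]
  rw [this, intervalIntegral.integral_finsetSum, sum_div]
  · refine sum_congr rfl fun p _ => ?_
    rw [intervalIntegral.integral_const_mul, coeff_Av]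
    ring
  · intro p _
    exact (Continuous.intervalIntegrable (by have := ha.continuous p.2; fun_prop) _ _)

lemma Av_Dr (a : Fam) : Av (fun φ => Dr (a φ)) = Dr (Av a) := by
  ext m
  rw [coeff_Av, coeff_Dr, coeff_Av]
  have : cf m (fun φ => Dr (a φ)) = fun φ => (m : ℝ) * cf m a φ := by
    ext φ
    simp [cf, coeff_Dr]
  rw [this, intervalIntegral.integral_const_mul]
  ring

lemma Av_odd (ha : Cls K d a) (hodd : ∀ φ, a (-φ) = - a φ) : Av a = 0 := by
  ext m
  rw [coeff_Av, map_zero]
  have h1 : ∫ φ in (0 : ℝ)..(2 * π), cf m a φ = ∫ φ in (0 : ℝ)..(2 * π), - cf m a (-(φ)) := by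
    refine intervalIntegral.integral_congr fun φ _ => ?_
    simp only [cf, hodd, map_neg, neg_neg]
  have h2 : ∫ φ in (0 : ℝ)..(2 * π), cf m a (-φ) = ∫ φ in (0 : ℝ)..(2 * π), cf m a φ := by
    rw [intervalIntegral.integral_comp_neg]
    have hp : Function.Periodic (cf m a) (2 * π) := fun φ => TP_periodic (ha m) φ
    have := hp.intervalIntegral_add_eq (-(2 * π)) 0
    rw [neg_add_cancel, zero_add] at this
    rw [neg_zero, this]
  rw [intervalIntegral.integral_neg, h2] at h1
  have : ∫ φ in (0 : ℝ)..(2 * π), cf m a φ = 0 := by linarith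
  rw [this, zero_div]

lemma Av_X_pow_dvd {n : ℕ} (h : ∀ φ, (X : ℝ⟦X⟧) ^ n ∣ a φ) : (X : ℝ⟦X⟧) ^ n ∣ Av a := by
  rw [X_pow_dvd_iff]
  intro m hm
  rw [coeff_Av]
  have : cf m a = fun _ => 0 := by
    ext φ
    exact X_pow_dvd_iff.mp (h φ) m hm
  rw [this]
  simp

lemma Bd_Av {ρ : ℝ} (h0 : 0 ≤ ρ) (ha : Cls K d a) {G : ℝ → ℝ} (hG : Continuous G)
    (h : ∀ φ, Bd ρ (a φ) (G φ)) : Bd ρ (Av a) ((∫ φ in (0 : ℝ)..(2 * π), G φ) / (2 * π)) := by
  intro N
  have hpi := Real.two_pi_pos
  rw [le_div_iff₀ hpi, sum_mul]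
  calc ∑ m ∈ range N, |coeff m (Av a)| * ρ ^ m * (2 * π)
      ≤ ∑ m ∈ range N, ∫ φ in (0 : ℝ)..(2 * π), |cf m a φ| * ρ ^ m := by
        refine sum_le_sum fun m _ => ?_
        rw [coeff_Av, abs_div, abs_of_pos hpi, intervalIntegral.integral_mul_const]
        have h1 : |∫ φ in (0 : ℝ)..(2 * π), cf m a φ| ≤ ∫ φ in (0 : ℝ)..(2 * π), |cf m a φ| :=
          intervalIntegral.abs_integral_le_integral_abs hpi.le
        calc |∫ φ in (0 : ℝ)..(2 * π), cf m a φ| / (2 * π) * ρ ^ m * (2 * π)
            = |∫ φ in (0 : ℝ)..(2 * π), cf m a φ| * ρ ^ m := by field_simp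
          _ ≤ _ := mul_le_mul_of_nonneg_right h1 (pow_nonneg h0 m)
    _ = ∫ φ in (0 : ℝ)..(2 * π), ∑ m ∈ range N, |cf m a φ| * ρ ^ m := by
        rw [intervalIntegral.integral_finsetSum]
        intro m _
        exact (Continuous.intervalIntegrable (by have := ha.continuous m; fun_prop) _ _)
    _ ≤ ∫ φ in (0 : ℝ)..(2 * π), G φ := by
        refine intervalIntegral.integral_mono_on hpi.le ?_ (hG.intervalIntegrable _ _) ?_
        · refine Continuous.intervalIntegrable ?_ _ _
          refine continuous_finsetSum _ fun m _ => ?_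
          have := ha.continuous m
          fun_prop
        · intro φ _
          exact h φ N

lemma Bd_Av_const {ρ M : ℝ} (h0 : 0 ≤ ρ) (ha : Cls K d a) (h : ∀ φ, Bd ρ (a φ) M) :
    Bd ρ (Av a) M := by
  have := Bd_Av h0 ha (G := fun _ => M) continuous_const h
  rw [intervalIntegral.integral_const, smul_eq_mul, sub_zero, mul_comm, mul_div_assoc,
    div_self Real.two_pi_pos.ne', mul_one] at this
  exact this

end Helper43.Billiard
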