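import Pool.Agent.Helper43_Billiard.Fam

set_option autoImplicit false

/-! # The discrete Euler-Lagrange functional, formally -/

namespace Helper43.Billiard

open PowerSeries Finset Real

/-- even / odd power series -/
def EvenS (g : ℝ⟦X⟧) : Prop := rescale (-1 : ℝ) g = g
def OddS (g : ℝ⟦X⟧) : Prop := rescale (-1 : ℝ) g = -g

lemma EvenS.derivative {g : ℝ⟦X⟧} (h : EvenS g) : OddS (d⁄dX ℝ g) := by
  unfold OddS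
  ext m
  have := congrArg (coeff (m + 1)) h
  rw [coeff_rescale] at this
  rw [coeff_rescale, map_neg, coeff_derivative]
  rw [pow_succ] at this
  linear_combination (-((m : ℝ) + 1)) * this

lemma OddS.derivative {g : ℝ⟦X⟧} (h : OddS g) : EvenS (d⁄dX ℝ g) := by
  unfold EvenS
  ext m
  have := congrArg (coeff (m + 1)) h
  rw [coeff_rescale, map_neg] at this
  rw [coeff_rescale, coeff_derivative]
  rw [pow_succ] at this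
  linear_combination (-((m : ℝ) + 1)) * this

lemma EvenS.comp_neg {g : ℝ⟦X⟧} (h : EvenS g) (ψ : ℝ⟦X⟧) : comp g (-ψ) = comp g ψ := by
  have := comp_rescale (-1) g ψ
  rw [h, neg_one_smul] at this
  exact this.symm

lemma OddS.comp_neg {g : ℝ⟦X⟧} (h : OddS g) (ψ : ℝ⟦X⟧) : comp g (-ψ) = -comp g ψ := by
  have := comp_rescale (-1) g ψ
  rw [h, neg_one_smul, Helper43.Billiard.comp_neg] at this
  exact this.symm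

noncomputable def ps (u v : ℝ⟦X⟧) : ℝ⟦X⟧ := (1 / 2 : ℝ) • (u - v)
noncomputable def sg (u v : ℝ⟦X⟧) : ℝ⟦X⟧ := (1 / 2 : ℝ) • (u + v)

variable (κ : ℝ) (Cc Vc h : ℝ⟦X⟧)

/-- generating function -/
noncomputable def S0 (u v : ℝ⟦X⟧) : ℝ⟦X⟧ :=
  (2 : ℝ) • (comp h (ps u v) * comp Cc (sg u v) - κ • comp Vc (sg u v))
noncomputable def S1 (u v : ℝ⟦X⟧) : ℝ⟦X⟧ :=
  comp (d⁄dX ℝ h) (ps u v) * comp Cc (sg u v) + comp h (ps u v) * comp (d⁄dX ℝ Cc) (sg u v)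
    - κ • comp (d⁄dX ℝ Vc) (sg u v)
noncomputable def S2 (u v : ℝ⟦X⟧) : ℝ⟦X⟧ :=
  -(comp (d⁄dX ℝ h) (ps u v) * comp Cc (sg u v)) + comp h (ps u v) * comp (d⁄dX ℝ Cc) (sg u v)
    - κ • comp (d⁄dX ℝ Vc) (sg u v)
noncomputable def S11 (u v : ℝ⟦X⟧) : ℝ⟦X⟧ :=
  (1 / 2 : ℝ) • (comp (d⁄dX ℝ (d⁄dX ℝ h)) (ps u v) * comp Cc (sg u v)
    + 2 * (comp (d⁄dX ℝ h) (ps u v) * comp (d⁄dX ℝ Cc) (sg u v))
    + comp h (ps u v) * comp (d⁄dX ℝ (d⁄dX ℝ Cc)) (sg u v)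
    - κ • comp (d⁄dX ℝ (d⁄dX ℝ Vc)) (sg u v))
noncomputable def S12 (u v : ℝ⟦X⟧) : ℝ⟦X⟧ :=
  (1 / 2 : ℝ) • (-(comp (d⁄dX ℝ (d⁄dX ℝ h)) (ps u v) * comp Cc (sg u v))
    + comp h (ps u v) * comp (d⁄dX ℝ (d⁄dX ℝ Cc)) (sg u v)
    - κ • comp (d⁄dX ℝ (d⁄dX ℝ Vc)) (sg u v))
noncomputable def S22 (u v : ℝ⟦X⟧) : ℝ⟦X⟧ :=
  (1 / 2 : ℝ) • (comp (d⁄dX ℝ (d⁄dX ℝ h)) (ps u v) * comp Cc (sg u v)
    - 2 * (comp (d⁄dX ℝ h) (ps u v) * comp (d⁄dX ℝ Cc) (sg u v))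
    + comp h (ps u v) * comp (d⁄dX ℝ (d⁄dX ℝ Cc)) (sg u v)
    - κ • comp (d⁄dX ℝ (d⁄dX ℝ Vc)) (sg u v))

variable {κ Cc Vc h}
variable {u v : ℝ⟦X⟧}

lemma X_dvd_ps (hu : (X : ℝ⟦X⟧) ∣ u) (hv : (X : ℝ⟦X⟧) ∣ v) : (X : ℝ⟦X⟧) ∣ ps u v := by
  rw [ps, smul_eq_C_mul]
  exact dvd_mul_of_dvd_right (hu.sub hv) _

lemma X_dvd_sg (hu : (X : ℝ⟦X⟧) ∣ u) (hv : (X : ℝ⟦X⟧) ∣ v) : (X : ℝ⟦X⟧) ∣ sg u v := by
  rw [sg, smul_eq_C_mul]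
  exact dvd_mul_of_dvd_right (hu.add hv) _

lemma X_pow_dvd_ps {n : ℕ} (hu : (X : ℝ⟦X⟧) ^ n ∣ u) (hv : (X : ℝ⟦X⟧) ^ n ∣ v) :
    (X : ℝ⟦X⟧) ^ n ∣ ps u v := by
  rw [ps, smul_eq_C_mul]
  exact dvd_mul_of_dvd_right (hu.sub hv) _

lemma X_pow_dvd_sg {n : ℕ} (hu : (X : ℝ⟦X⟧) ^ n ∣ u) (hv : (X : ℝ⟦X⟧) ^ n ∣ v) :
    (X : ℝ⟦X⟧) ^ n ∣ sg u v := by
  rw [sg, smul_eq_C_mul]
  exact dvd_mul_of_dvd_right (hu.add hv) _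

/-! ### Derivations -/

lemma Dr_ps (u v : ℝ⟦X⟧) : Dr (ps u v) = ps (Dr u) (Dr v) := by
  rw [ps, ps, Dr_smul, Dr_sub]

lemma Dr_sg (u v : ℝ⟦X⟧) : Dr (sg u v) = sg (Dr u) (Dr v) := by
  rw [sg, sg, Dr_smul, Dr_add]

lemma Dr_S0 (hu : (X : ℝ⟦X⟧) ∣ u) (hv : (X : ℝ⟦X⟧) ∣ v) :
    Dr (S0 κ Cc Vc h u v) = S1 κ Cc Vc h u v * Dr u + S2 κ Cc Vc h u v * Dr v := by
  rw [S0, S1, S2, Dr_smul, Dr_sub, Dr_mul, Dr_smul, Dr_comp (X_dvd_ps hu hv),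
    Dr_comp (X_dvd_sg hu hv), Dr_comp (X_dvd_sg hu hv), Dr_ps, Dr_sg]
  simp only [ps, sg, smul_eq_C_mul]
  have h2 : (C (2 : ℝ) : ℝ⟦X⟧) * C (1 / 2) = 1 := by rw [← map_mul]; norm_num
  linear_combination (comp (d⁄dX ℝ h) (C (1 / 2) * (u - v)) * (Dr u - Dr v) * comp Cc (C (1 / 2) * (u + v))
    + comp h (C (1 / 2) * (u - v)) * comp (d⁄dX ℝ Cc) (C (1 / 2) * (u + v)) * (Dr u + Dr v)
    - C κ * comp (d⁄dX ℝ Vc) (C (1 / 2) * (u + v)) * (Dr u + Dr v)) * h2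

lemma Dr_S1 (hu : (X : ℝ⟦X⟧) ∣ u) (hv : (X : ℝ⟦X⟧) ∣ v) :
    Dr (S1 κ Cc Vc h u v) = S11 κ Cc Vc h u v * Dr u + S12 κ Cc Vc h u v * Dr v := by
  rw [S1, S11, S12, Dr_sub, Dr_add, Dr_mul, Dr_mul, Dr_smul, Dr_comp (X_dvd_ps hu hv),
    Dr_comp (X_dvd_sg hu hv), Dr_comp (X_dvd_sg hu hv), Dr_comp (X_dvd_sg hu hv),
    Dr_comp (X_dvd_ps hu hv), Dr_ps, Dr_sg]
  simp only [ps, sg, smul_eq_C_mul]
  ring

lemma Dr_S2 (hu : (X : ℝ⟦X⟧) ∣ u) (hv : (X : ℝ⟦X⟧) ∣ v) :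
    Dr (S2 κ Cc Vc h u v) = S12 κ Cc Vc h u v * Dr u + S22 κ Cc Vc h u v * Dr v := by
  rw [S2, S12, S22, Dr_sub, Dr_add, Dr_neg, Dr_mul, Dr_mul, Dr_smul, Dr_comp (X_dvd_ps hu hv),
    Dr_comp (X_dvd_sg hu hv), Dr_comp (X_dvd_sg hu hv), Dr_comp (X_dvd_sg hu hv),
    Dr_comp (X_dvd_ps hu hv), Dr_ps, Dr_sg]
  simp only [ps, sg, smul_eq_C_mul]
  ring

/-- two-point families -/
lemma Cls_ps {K : ℕ} {a b : Fam} (ha : Cls K 0 a) (hb : Cls K 0 b) :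
    Cls K 0 (fun φ => ps (a φ) (b φ)) := (ha.sub hb).smul _
lemma Cls_sg {K : ℕ} {a b : Fam} (ha : Cls K 0 a) (hb : Cls K 0 b) :
    Cls K 0 (fun φ => sg (a φ) (b φ)) := (ha.add hb).smul _

lemma Dp_ps {K : ℕ} {a b : Fam} (ha : Cls K 0 a) (hb : Cls K 0 b) :
    Dp (fun φ => ps (a φ) (b φ)) = fun φ => ps (Dp a φ) (Dp b φ) := by
  have : (fun φ => ps (a φ) (b φ)) = (1 / 2 : ℝ) • (a - b) := rfl
  rw [this, Dp_smul, Dp_sub ha hb]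
  rfl

lemma Dp_sg {K : ℕ} {a b : Fam} (ha : Cls K 0 a) (hb : Cls K 0 b) :
    Dp (fun φ => sg (a φ) (b φ)) = fun φ => sg (Dp a φ) (Dp b φ) := by
  have : (fun φ => sg (a φ) (b φ)) = (1 / 2 : ℝ) • (a + b) := rfl
  rw [this, Dp_smul, Dp_add ha hb]
  rfl

lemma Cls_S0 {K : ℕ} {a b : Fam} (ha : Cls K 0 a) (hb : Cls K 0 b) :
    Cls K 0 (fun φ => S0 κ Cc Vc h (a φ) (b φ)) :=
  ((((Cls_ps ha hb).comp h).mul ((Cls_sg ha hb).comp Cc)).sub (((Cls_sg ha hb).comp Vc).smul κ)).smul 2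

lemma Cls_S1 {K : ℕ} {a b : Fam} (ha : Cls K 0 a) (hb : Cls K 0 b) :
    Cls K 0 (fun φ => S1 κ Cc Vc h (a φ) (b φ)) :=
  ((((Cls_ps ha hb).comp _).mul ((Cls_sg ha hb).comp _)).add
    (((Cls_ps ha hb).comp _).mul ((Cls_sg ha hb).comp _))).sub (((Cls_sg ha hb).comp _).smul κ)

lemma Cls_S2 {K : ℕ} {a b : Fam} (ha : Cls K 0 a) (hb : Cls K 0 b) :
    Cls K 0 (fun φ => S2 κ Cc Vc h (a φ) (b φ)) :=
  ((((Cls_ps ha hb).comp _).mul ((Cls_sg ha hb).comp _)).neg.add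
    (((Cls_ps ha hb).comp _).mul ((Cls_sg ha hb).comp _))).sub (((Cls_sg ha hb).comp _).smul κ)

lemma Cls_S12 {K : ℕ} {a b : Fam} (ha : Cls K 0 a) (hb : Cls K 0 b) :
    Cls K 0 (fun φ => S12 κ Cc Vc h (a φ) (b φ)) :=
  (((((Cls_ps ha hb).comp _).mul ((Cls_sg ha hb).comp _)).neg.add
    (((Cls_ps ha hb).comp _).mul ((Cls_sg ha hb).comp _))).sub (((Cls_sg ha hb).comp _).smul κ)).smul _

lemma Dp_S1 {K : ℕ} {a b : Fam} (ha : Cls K 0 a) (hb : Cls K 0 b) (hXa : ∀ φ, (X : ℝ⟦X⟧) ∣ a φ)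
    (hXb : ∀ φ, (X : ℝ⟦X⟧) ∣ b φ) :
    Dp (fun φ => S1 κ Cc Vc h (a φ) (b φ)) = fun φ => S11 κ Cc Vc h (a φ) (b φ) * Dp a φ
      + S12 κ Cc Vc h (a φ) (b φ) * Dp b φ := by
  have hp := Cls_ps ha hb
  have hs := Cls_sg ha hb
  have hXp : ∀ φ, (X : ℝ⟦X⟧) ∣ ps (a φ) (b φ) := fun φ => X_dvd_ps (hXa φ) (hXb φ)
  have hXs : ∀ φ, (X : ℝ⟦X⟧) ∣ sg (a φ) (b φ) := fun φ => X_dvd_sg (hXa φ) (hXb φ)
  have e : (fun φ => S1 κ Cc Vc h (a φ) (b φ))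
      = (fun φ => comp (d⁄dX ℝ h) (ps (a φ) (b φ))) * (fun φ => comp Cc (sg (a φ) (b φ)))
      + (fun φ => comp h (ps (a φ) (b φ))) * (fun φ => comp (d⁄dX ℝ Cc) (sg (a φ) (b φ)))
      - κ • (fun φ => comp (d⁄dX ℝ Vc) (sg (a φ) (b φ))) := rfl
  rw [e, Dp_sub (((hp.comp _).mul (hs.comp _)).add ((hp.comp _).mul (hs.comp _)))
    ((hs.comp _).smul κ), Dp_add ((hp.comp _).mul (hs.comp _)) ((hp.comp _).mul (hs.comp _)),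
    Dp_mul (hp.comp _) (hs.comp _), Dp_mul (hp.comp _) (hs.comp _), Dp_smul,
    Dp_comp hp hXp, Dp_comp hs hXs, Dp_comp hs hXs, Dp_comp hs hXs, Dp_comp hp hXp,
    Dp_ps ha hb, Dp_sg ha hb]
  funext φ
  simp only [Pi.add_apply, Pi.sub_apply, Pi.mul_apply, Pi.smul_apply, S11, S12, ps, sg, smul_eq_C_mul]
  ring

lemma Dp_S2 {K : ℕ} {a b : Fam} (ha : Cls K 0 a) (hb : Cls K 0 b) (hXa : ∀ φ, (X : ℝ⟦X⟧) ∣ a φ)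
    (hXb : ∀ φ, (X : ℝ⟦X⟧) ∣ b φ) :
    Dp (fun φ => S2 κ Cc Vc h (a φ) (b φ)) = fun φ => S12 κ Cc Vc h (a φ) (b φ) * Dp a φ
      + S22 κ Cc Vc h (a φ) (b φ) * Dp b φ := by
  have hp := Cls_ps ha hb
  have hs := Cls_sg ha hb
  have hXp : ∀ φ, (X : ℝ⟦X⟧) ∣ ps (a φ) (b φ) := fun φ => X_dvd_ps (hXa φ) (hXb φ)
  have hXs : ∀ φ, (X : ℝ⟦X⟧) ∣ sg (a φ) (b φ) := fun φ => X_dvd_sg (hXa φ) (hXb φ)
  have e : (fun φ => S2 κ Cc Vc h (a φ) (b φ))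
      = -((fun φ => comp (d⁄dX ℝ h) (ps (a φ) (b φ))) * (fun φ => comp Cc (sg (a φ) (b φ))))
      + (fun φ => comp h (ps (a φ) (b φ))) * (fun φ => comp (d⁄dX ℝ Cc) (sg (a φ) (b φ)))
      - κ • (fun φ => comp (d⁄dX ℝ Vc) (sg (a φ) (b φ))) := rfl
  rw [e, Dp_sub (((hp.comp _).mul (hs.comp _)).neg.add ((hp.comp _).mul (hs.comp _)))
    ((hs.comp _).smul κ), Dp_add ((hp.comp _).mul (hs.comp _)).neg ((hp.comp _).mul (hs.comp _)),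
    Dp_neg, Dp_mul (hp.comp _) (hs.comp _), Dp_mul (hp.comp _) (hs.comp _), Dp_smul,
    Dp_comp hp hXp, Dp_comp hs hXs, Dp_comp hs hXs, Dp_comp hs hXs, Dp_comp hp hXp,
    Dp_ps ha hb, Dp_sg ha hb]
  funext φ
  simp only [Pi.add_apply, Pi.sub_apply, Pi.mul_apply, Pi.smul_apply, Pi.neg_apply, S22, S12, ps, sg,
    smul_eq_C_mul]
  ring

/-! ### Taylor -/

lemma taylor_mul {g₁ g₂ ψ σ a b : ℝ⟦X⟧} {n : ℕ} (hn : 1 ≤ n) (hψ : (X : ℝ⟦X⟧) ∣ ψ)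
    (hσ : (X : ℝ⟦X⟧) ∣ σ) (ha : (X : ℝ⟦X⟧) ^ n ∣ a) (hb : (X : ℝ⟦X⟧) ^ n ∣ b) :
    (X : ℝ⟦X⟧) ^ (2 * n) ∣ comp g₁ (ψ + a) * comp g₂ (σ + b) - comp g₁ ψ * comp g₂ σ
      - comp (d⁄dX ℝ g₁) ψ * comp g₂ σ * a - comp g₁ ψ * comp (d⁄dX ℝ g₂) σ * b := by
  obtain ⟨r₁, h₁⟩ := comp_taylor (g := g₁) hn hψ ha
  obtain ⟨r₂, h₂⟩ := comp_taylor (g := g₂) hn hσ hb
  obtain ⟨r₃, h₃⟩ : (X : ℝ⟦X⟧) ^ (2 * n) ∣ a * b := by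
    rw [two_mul, pow_add]
    exact mul_dvd_mul ha hb
  refine ⟨r₁ * comp g₂ (σ + b) + comp g₁ ψ * r₂ + comp (d⁄dX ℝ g₁) ψ * comp (d⁄dX ℝ g₂) σ * r₃
    + comp (d⁄dX ℝ g₁) ψ * a * r₂, ?_⟩
  linear_combination comp g₂ (σ + b) * h₁ + (comp g₁ ψ + comp (d⁄dX ℝ g₁) ψ * a) * h₂
    + comp (d⁄dX ℝ g₁) ψ * comp (d⁄dX ℝ g₂) σ * h₃

lemma ps_add (u v a b : ℝ⟦X⟧) : ps (u + a) (v + b) = ps u v + ps a b := by
  simp only [ps, smul_eq_C_mul]; ring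
lemma sg_add (u v a b : ℝ⟦X⟧) : sg (u + a) (v + b) = sg u v + sg a b := by
  simp only [sg, smul_eq_C_mul]; ring

lemma S1_taylor {u v a b : ℝ⟦X⟧} {n : ℕ} (hn : 1 ≤ n) (hu : (X : ℝ⟦X⟧) ∣ u)
    (hv : (X : ℝ⟦X⟧) ∣ v) (ha : (X : ℝ⟦X⟧) ^ n ∣ a) (hb : (X : ℝ⟦X⟧) ^ n ∣ b) :
    (X : ℝ⟦X⟧) ^ (2 * n) ∣ S1 κ Cc Vc h (u + a) (v + b) - S1 κ Cc Vc h u v
      - S11 κ Cc Vc h u v * a - S12 κ Cc Vc h u v * b := by
  have hψ := X_dvd_ps hu hv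
  have hσ := X_dvd_sg hu hv
  have hpa := X_pow_dvd_ps ha hb
  have hsa := X_pow_dvd_sg ha hb
  obtain ⟨r₁, h₁⟩ := taylor_mul (g₁ := d⁄dX ℝ h) (g₂ := Cc) hn hψ hσ hpa hsa
  obtain ⟨r₂, h₂⟩ := taylor_mul (g₁ := h) (g₂ := d⁄dX ℝ Cc) hn hψ hσ hpa hsa
  obtain ⟨r₃, h₃⟩ := comp_taylor (g := d⁄dX ℝ Vc) hn hσ hsa
  refine ⟨r₁ + r₂ - C κ * r₃, ?_⟩
  simp only [S1, S11, S12, ps_add, sg_add, smul_eq_C_mul]
  simp only [show ps a b = C (1/2) * (a - b) by rw [ps, smul_eq_C_mul],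
    show sg a b = C (1/2) * (a + b) by rw [sg, smul_eq_C_mul]] at h₁ h₂ h₃ ⊢
  linear_combination h₁ + h₂ - C κ * h₃

lemma S2_taylor {u v a b : ℝ⟦X⟧} {n : ℕ} (hn : 1 ≤ n) (hu : (X : ℝ⟦X⟧) ∣ u)
    (hv : (X : ℝ⟦X⟧) ∣ v) (ha : (X : ℝ⟦X⟧) ^ n ∣ a) (hb : (X : ℝ⟦X⟧) ^ n ∣ b) :
    (X : ℝ⟦X⟧) ^ (2 * n) ∣ S2 κ Cc Vc h (u + a) (v + b) - S2 κ Cc Vc h u v
      - S12 κ Cc Vc h u v * a - S22 κ Cc Vc h u v * b := by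
  have hψ := X_dvd_ps hu hv
  have hσ := X_dvd_sg hu hv
  have hpa := X_pow_dvd_ps ha hb
  have hsa := X_pow_dvd_sg ha hb
  obtain ⟨r₁, h₁⟩ := taylor_mul (g₁ := d⁄dX ℝ h) (g₂ := Cc) hn hψ hσ hpa hsa
  obtain ⟨r₂, h₂⟩ := taylor_mul (g₁ := h) (g₂ := d⁄dX ℝ Cc) hn hψ hσ hpa hsa
  obtain ⟨r₃, h₃⟩ := comp_taylor (g := d⁄dX ℝ Vc) hn hσ hsa
  refine ⟨-r₁ + r₂ - C κ * r₃, ?_⟩
  simp only [S2, S12, S22, ps_add, sg_add, smul_eq_C_mul]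
  simp only [show ps a b = C (1/2) * (a - b) by rw [ps, smul_eq_C_mul],
    show sg a b = C (1/2) * (a + b) by rw [sg, smul_eq_C_mul]] at h₁ h₂ h₃ ⊢
  linear_combination -h₁ + h₂ - C κ * h₃

/-! ### Symmetries -/

lemma ps_neg_neg (u v : ℝ⟦X⟧) : ps (-u) (-v) = -ps u v := by
  simp only [ps, smul_eq_C_mul]; ring
lemma sg_neg_neg (u v : ℝ⟦X⟧) : sg (-u) (-v) = -sg u v := by
  simp only [sg, smul_eq_C_mul]; ring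
lemma ps_swap (u v : ℝ⟦X⟧) : ps v u = -ps u v := by
  simp only [ps, smul_eq_C_mul]; ring
lemma sg_swap (u v : ℝ⟦X⟧) : sg v u = sg u v := by
  simp only [sg, smul_eq_C_mul]; ring

lemma S1_neg_swap (hC : EvenS Cc) (hV : EvenS Vc) (u v : ℝ⟦X⟧) :
    S1 κ Cc Vc h (-u) (-v) = -S2 κ Cc Vc h v u := by
  rw [S1, S2, ps_neg_neg, sg_neg_neg, ps_swap u v, sg_swap u v, hC.comp_neg, hC.derivative.comp_neg,
    hV.derivative.comp_neg]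
  simp only [smul_eq_C_mul]
  ring

lemma S2_neg_swap (hC : EvenS Cc) (hV : EvenS Vc) (u v : ℝ⟦X⟧) :
    S2 κ Cc Vc h (-u) (-v) = -S1 κ Cc Vc h v u := by
  rw [S1, S2, ps_neg_neg, sg_neg_neg, ps_swap u v, sg_swap u v, hC.comp_neg, hC.derivative.comp_neg,
    hV.derivative.comp_neg]
  simp only [smul_eq_C_mul]
  ring

lemma S1_neg_neg (hC : EvenS Cc) (hV : EvenS Vc) (hh : EvenS h) (u v : ℝ⟦X⟧) :
    S1 κ Cc Vc h (-u) (-v) = -S1 κ Cc Vc h u v := by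
  rw [S1, S1, ps_neg_neg, sg_neg_neg, hC.comp_neg, hC.derivative.comp_neg,
    hV.derivative.comp_neg, hh.comp_neg, hh.derivative.comp_neg]
  simp only [smul_eq_C_mul]
  ring

lemma S2_neg_neg (hC : EvenS Cc) (hV : EvenS Vc) (hh : EvenS h) (u v : ℝ⟦X⟧) :
    S2 κ Cc Vc h (-u) (-v) = -S2 κ Cc Vc h u v := by
  rw [S2, S2, ps_neg_neg, sg_neg_neg, hC.comp_neg, hC.derivative.comp_neg,
    hV.derivative.comp_neg, hh.comp_neg, hh.derivative.comp_neg]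
  simp only [smul_eq_C_mul]
  ring

lemma S0_neg_neg (hC : EvenS Cc) (hV : EvenS Vc) (hh : EvenS h) (u v : ℝ⟦X⟧) :
    S0 κ Cc Vc h (-u) (-v) = S0 κ Cc Vc h u v := by
  rw [S0, S0, ps_neg_neg, sg_neg_neg, hC.comp_neg, hV.comp_neg, hh.comp_neg]

lemma S12_neg_neg (hC : EvenS Cc) (hV : EvenS Vc) (hh : EvenS h) (u v : ℝ⟦X⟧) :
    S12 κ Cc Vc h (-u) (-v) = S12 κ Cc Vc h u v := by
  rw [S12, S12, ps_neg_neg, sg_neg_neg, hC.comp_neg, hC.derivative.derivative.comp_neg,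
    hV.derivative.derivative.comp_neg, hh.comp_neg, hh.derivative.derivative.comp_neg]

lemma S12_swap (hh : EvenS h) (u v : ℝ⟦X⟧) :
    S12 κ Cc Vc h v u = S12 κ Cc Vc h u v := by
  rw [S12, S12, ps_swap u v, sg_swap u v, hh.comp_neg, hh.derivative.derivative.comp_neg]

lemma rescale_C' (a b : ℝ) : rescale a (C b) = C b := by
  ext m
  rw [coeff_rescale, coeff_C]
  split_ifs with hm
  · subst hm; simp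
  · simp

lemma rescale_ps (a : ℝ) (u v : ℝ⟦X⟧) : rescale a (ps u v) = ps (rescale a u) (rescale a v) := by
  simp only [ps, smul_eq_C_mul, map_mul, map_sub, rescale_C']
lemma rescale_sg (a : ℝ) (u v : ℝ⟦X⟧) : rescale a (sg u v) = sg (rescale a u) (rescale a v) := by
  simp only [sg, smul_eq_C_mul, map_mul, map_add, rescale_C']

lemma rescale_S0 (a : ℝ) (u v : ℝ⟦X⟧) :
    rescale a (S0 κ Cc Vc h u v) = S0 κ Cc Vc h (rescale a u) (rescale a v) := by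
  simp only [S0, smul_eq_C_mul, map_mul, map_sub, rescale_C', rescale_comp, rescale_ps,
    rescale_sg]
lemma rescale_S1 (a : ℝ) (u v : ℝ⟦X⟧) :
    rescale a (S1 κ Cc Vc h u v) = S1 κ Cc Vc h (rescale a u) (rescale a v) := by
  simp only [S1, smul_eq_C_mul, map_mul, map_add, map_sub, rescale_C', rescale_comp, rescale_ps,
    rescale_sg]
lemma rescale_S2 (a : ℝ) (u v : ℝ⟦X⟧) :
    rescale a (S2 κ Cc Vc h u v) = S2 κ Cc Vc h (rescale a u) (rescale a v) := by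
  simp only [S2, smul_eq_C_mul, map_mul, map_add, map_sub, map_neg, rescale_C', rescale_comp,
    rescale_ps, rescale_sg]
lemma rescale_S12 (a : ℝ) (u v : ℝ⟦X⟧) :
    rescale a (S12 κ Cc Vc h u v) = S12 κ Cc Vc h (rescale a u) (rescale a v) := by
  simp only [S12, smul_eq_C_mul, map_mul, map_add, map_sub, map_neg, rescale_C', rescale_comp,
    rescale_ps, rescale_sg]

/-! ### Linearity in `h` -/

lemma S0_add (k : ℝ⟦X⟧) (u v : ℝ⟦X⟧) :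
    S0 κ Cc Vc (h + k) u v = S0 κ Cc Vc h u v + S0 0 Cc Vc k u v := by
  simp only [S0, comp_add, smul_eq_C_mul, map_zero]
  ring
lemma S1_add (k : ℝ⟦X⟧) (u v : ℝ⟦X⟧) :
    S1 κ Cc Vc (h + k) u v = S1 κ Cc Vc h u v + S1 0 Cc Vc k u v := by
  simp only [S1, comp_add, map_add, smul_eq_C_mul, map_zero]
  ring
lemma S2_add (k : ℝ⟦X⟧) (u v : ℝ⟦X⟧) :
    S2 κ Cc Vc (h + k) u v = S2 κ Cc Vc h u v + S2 0 Cc Vc k u v := by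
  simp only [S2, comp_add, map_add, smul_eq_C_mul, map_zero]
  ring
lemma S12_add (k : ℝ⟦X⟧) (u v : ℝ⟦X⟧) :
    S12 κ Cc Vc (h + k) u v = S12 κ Cc Vc h u v + S12 0 Cc Vc k u v := by
  simp only [S12, comp_add, map_add, smul_eq_C_mul, map_zero]
  ring

end Helper43.Billiard
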