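import Pool.Agent.Helper43_Billiard.Start

set_option autoImplicit false

/-! # The initial stage -/

namespace Helper43.Billiard

open PowerSeries Finset Real

variable {α s κ ρ η δ : ℝ} {Cc Vc h : ℝ⟦X⟧} {A : Fam} {K : ℕ}

lemma FamA_A0 : FamA 1 A0 where
  cls := by
    intro m
    by_cases hm : m = 1
    · subst hm
      have : cf 1 A0 = (-1 : ℝ) • sk 1 := by
        ext φ
        simp [cf, A0, sk]
      rw [this]
      exact Submodule.smul_mem _ _ (sk_mem_TP (by norm_num))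
    · have : cf m A0 = 0 := by
        ext φ
        simp [cf, A0, coeff_X, hm]
      rw [this]
      exact Submodule.zero_mem _
  X_dvd := fun φ => dvd_mul_left _ _
  odd := fun φ => by simp [A0]
  anti := fun φ => by simp [A0]
  rodd := fun φ => by
    unfold OddS
    rw [A0, map_mul, rescale_C']
    have : rescale (-1 : ℝ) (X : ℝ⟦X⟧) = -X := by
      ext m
      rw [coeff_rescale, coeff_X, map_neg, coeff_X]
      split_ifs with hm
      · subst hm; simp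
      · simp
    rw [this]
    ring

lemma comp_mod_two {g ψ : ℝ⟦X⟧} (hψ : (X : ℝ⟦X⟧) ∣ ψ) :
    (X : ℝ⟦X⟧) ^ 2 ∣ comp g ψ - (C (coeff 0 g) + C (coeff 1 g) * ψ) := by
  have h1 := comp_mod (g := g) hψ 2
  rw [sum_range_succ, sum_range_one, pow_zero, pow_one, smul_eq_C_mul, smul_eq_C_mul, mul_one] at h1
  exact h1

lemma hlin_A0 (hκ : 1 - 2 * κ = cos α) (φ : ℝ) :
    C (1 - 2 * κ) * A0 φ - C (1 / 2) * (A0 (φ + α) + A0 (φ - α)) = 0 := by
  simp only [A0]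
  rw [hκ]
  have : (C (cos α) * (C (-sin φ) * X) - C (1 / 2) * (C (-sin (φ + α)) * X + C (-sin (φ - α)) * X) : ℝ⟦X⟧)
      = C (cos α * -sin φ - 1 / 2 * (-sin (φ + α) + -sin (φ - α))) * X := by
    simp only [map_sub, map_mul, map_add]
    ring
  rw [this, sin_add, sin_sub]
  have h0 : cos α * -sin φ - 1 / 2 * (-(sin φ * cos α + cos φ * sin α) + -(sin φ * cos α - cos φ * sin α)) = 0 := by
    ring
  rw [h0, map_zero, zero_mul]

lemma EL_A0 (hκ : 1 - 2 * κ = cos α) (hC : coeff 0 Cc = 1) (hCe : EvenS Cc) (hVe : EvenS Vc)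
    (hV2 : coeff 2 Vc = 1 / 2) (φ : ℝ) :
    (X : ℝ⟦X⟧) ^ 3 ∣ EL α κ Cc Vc (C ((1 - κ) / 2) * X ^ 2) A0 φ := by
  set h : ℝ⟦X⟧ := C ((1 - κ) / 2) * X ^ 2 with hh
  have hhe : EvenS h := by
    rw [evenS_iff]
    intro m hm
    rw [hh, coeff_C_mul, coeff_X_pow, if_neg, mul_zero]
    rintro rfl
    exact absurd hm (by decide)
  have hodd : OddS (EL α κ Cc Vc h A0 φ) := EL_rodd hCe hVe hhe FamA_A0.rodd φ
  have hX := FamA_A0.X_dvd
  have h0 : coeff 0 h = 0 := by simp [hh, coeff_X_pow]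
  have h1 : coeff 1 h = 0 := by simp [hh, coeff_X_pow]
  have hd0 : coeff 0 (d⁄dX ℝ h) = 0 := by rw [coeff_derivative]; simp [h1]
  have hd1 : coeff 1 (d⁄dX ℝ h) = 1 - κ := by
    rw [coeff_derivative]; simp [hh, coeff_X_pow]; ring
  have hC1 : coeff 1 Cc = 0 := evenS_iff.mp hCe 1 (by decide)
  have hdC0 : coeff 0 (d⁄dX ℝ Cc) = 0 := by rw [coeff_derivative]; simp [hC1]
  have hV1 : coeff 1 Vc = 0 := evenS_iff.mp hVe 1 (by decide)
  have hdV0 : coeff 0 (d⁄dX ℝ Vc) = 0 := by rw [coeff_derivative]; simp [hV1]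
  have hdV1 : coeff 1 (d⁄dX ℝ Vc) = 1 := by rw [coeff_derivative]; simp [hV2]; ring
  -- expansions modulo `X ^ 2`
  have key : ∀ u v : ℝ⟦X⟧, (X : ℝ⟦X⟧) ∣ u → (X : ℝ⟦X⟧) ∣ v →
      (X : ℝ⟦X⟧) ^ 2 ∣ S1 κ Cc Vc h u v - (C (1 - κ) * ps u v - C κ * sg u v)
      ∧ (X : ℝ⟦X⟧) ^ 2 ∣ S2 κ Cc Vc h u v - (-(C (1 - κ) * ps u v) - C κ * sg u v) := by
    intro u v hu hv
    have hXp := X_dvd_ps hu hv
    have hXs := X_dvd_sg hu hv
    obtain ⟨a1, e1⟩ := comp_mod_two (g := d⁄dX ℝ h) hXp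
    obtain ⟨a2, e2⟩ := comp_mod_two (g := Cc) hXs
    obtain ⟨a3, e3⟩ := comp_mod_two (g := h) hXp
    obtain ⟨a5, e5⟩ := comp_mod_two (g := d⁄dX ℝ Vc) hXs
    rw [hd0, hd1, map_zero, zero_add] at e1
    rw [hC, hC1, map_one, map_zero, zero_mul, add_zero] at e2
    rw [h0, h1, map_zero, zero_mul, zero_add, sub_zero] at e3
    rw [hdV0, hdV1, map_zero, map_one, one_mul, zero_add] at e5
    constructor
    · refine ⟨a1 * comp Cc (sg u v) + C (1 - κ) * ps u v * a2 + a3 * comp (d⁄dX ℝ Cc) (sg u v) - C κ * a5, ?_⟩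
      rw [S1, smul_eq_C_mul]
      linear_combination comp Cc (sg u v) * e1 + C (1 - κ) * ps u v * e2
        + comp (d⁄dX ℝ Cc) (sg u v) * e3 - C κ * e5
    · refine ⟨-(a1 * comp Cc (sg u v) + C (1 - κ) * ps u v * a2) + a3 * comp (d⁄dX ℝ Cc) (sg u v) - C κ * a5, ?_⟩
      rw [S2, smul_eq_C_mul]
      linear_combination -comp Cc (sg u v) * e1 - C (1 - κ) * ps u v * e2
        + comp (d⁄dX ℝ Cc) (sg u v) * e3 - C κ * e5
  have hE2 : (X : ℝ⟦X⟧) ^ 2 ∣ EL α κ Cc Vc h A0 φ := by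
    obtain ⟨r1, hr1⟩ := (key _ _ (hX φ) (hX (φ + α))).1
    obtain ⟨r2, hr2⟩ := (key _ _ (hX (φ - α)) (hX φ)).2
    refine ⟨r1 + r2, ?_⟩
    have h12 : (C (1 / 2) : ℝ⟦X⟧) * 2 = 1 := by
      rw [show (2 : ℝ⟦X⟧) = C (2 : ℝ) from (map_ofNat C 2).symm, ← map_mul]
      norm_num
    have hlin := hlin_A0 (α := α) hκ φ
    have hk : (C (1 - 2 * κ) : ℝ⟦X⟧) = C (1 - κ) - C κ := by
      rw [← map_sub]; congr 1; ring
    have hk1 : (C (1 - κ) : ℝ⟦X⟧) = 1 - C κ := by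
      rw [map_sub, map_one]
    rw [hk, hk1] at hlin
    rw [hk1] at hr1 hr2
    simp only [ps, sg, smul_eq_C_mul] at hr1 hr2
    simp only [EL]
    linear_combination hr1 + hr2 + hlin + A0 φ * (1 - C κ - C κ) * h12
  rw [X_pow_dvd_iff] at hE2 ⊢
  intro m hm
  rcases Nat.lt_or_ge m 2 with h | h
  · exact hE2 m h
  · have : m = 2 := by omega
    subst this
    exact oddS_iff.mp hodd 2 (by decide)

lemma Dr_C_mul_X (a : ℝ) : Dr (C a * X) = C a * X := by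
  ext m
  rw [coeff_Dr, coeff_C_mul, coeff_X]
  split_ifs with hm
  · subst hm; simp
  · simp

lemma Dp_A0 (φ : ℝ) : Dp A0 φ = B0 φ := by
  ext m
  rw [coeff_Dp, B0]
  by_cases hm : m = 1
  · subst hm
    have : cf 1 A0 = fun φ => -sin φ := by
      ext φ; simp [cf, A0]
    rw [this]
    simp
  · have : cf m A0 = fun _ => 0 := by
      ext φ; simp [cf, A0, coeff_X, hm]
    rw [this]
    simp [coeff_X, hm]

lemma stage_zero (hs : s = sin (α / 2)) (hκ : κ = s ^ 2) (hδ : 0 ≤ δ) (hδ1 : δ ≤ 1 / 64) :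
    Stage α s κ (Cs δ) (Vs δ) 1 δ 3 1 A0 (C ((1 - κ) / 2) * X ^ 2) := by
  have hP := Par_Cs_Vs hδ hδ1
  have hcos : 1 - 2 * κ = cos α := by
    have h1 := Real.cos_two_mul (α / 2)
    rw [show 2 * (α / 2) = α by ring] at h1
    have h2 := Real.sin_sq_add_cos_sq (α / 2)
    rw [hκ, hs]
    linarith
  have hz : ∀ ρ : ℝ, Bd ρ (0 : ℝ⟦X⟧) δ := fun ρ => Bd.zero.mono hδ
  have hd : d⁄dX ℝ (C ((1 - κ) / 2) * X ^ 2) = C (1 - κ) * X := by
    ext m
    rw [coeff_derivative, coeff_C_mul, coeff_X_pow, coeff_C_mul, coeff_X]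
    by_cases hm : m = 1
    · subst hm
      simp; ring
    · rw [if_neg (by omega), if_neg hm]; ring
  have hd2 : d⁄dX ℝ (C (1 - κ) * X) = C (1 - κ) := by
    ext m
    rw [coeff_derivative, coeff_C_mul, coeff_X, coeff_C]
    by_cases hm : m = 0
    · subst hm; simp
    · rw [if_neg (by omega), if_neg hm]; ring
  refine ⟨FamA_A0, ?_, ?_, ?_, ?_⟩
  · rw [evenS_iff]
    intro m hm
    rw [coeff_C_mul, coeff_X_pow, if_neg, mul_zero]
    rintro rfl
    exact absurd hm (by decide)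
  · rw [A0, hs]
  · exact EL_A0 hcos (coeff_Cs_zero δ) hP.evC hP.evV (coeff_Vs_two δ)
  · refine ⟨?_, ?_, ?_, ?_, ?_, ?_, ?_⟩
    · intro φ
      have : Psi α A0 φ - C (s * cos φ) * X = 0 := by
        simp only [Psi, ps, A0, smul_eq_C_mul]
        have h1 : s * cos φ = 1 / 2 * (-sin (φ - α / 2) - -sin (φ + α / 2)) := by
          rw [hs, sin_add, sin_sub]; ring
        rw [h1]
        simp only [map_mul, map_sub]
        ring
      rw [this]
      exact Bd.zero.mono (by positivity)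
    · intro φ; rw [sub_self]; exact hz _
    · intro φ; rw [A0, Dr_C_mul_X, sub_self]; exact hz _
    · intro φ; rw [Dp_A0, sub_self]; exact hz _
    · rw [sub_self]; exact hz _
    · rw [hd, sub_self]; exact hz _
    · rw [hd, hd2, sub_self]; exact hz _

end Helper43.Billiard
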