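import Pool.Agent.Helper43_Billiard.Init

set_option autoImplicit false

/-! # The iteration and its limit -/

namespace Helper43.Billiard

open PowerSeries Finset Real

variable {α s κ ρ η δ : ℝ} {Cc Vc h : ℝ⟦X⟧} {A : Fam} {K : ℕ}

/-- shrinking factors -/
noncomputable def qq (i : ℕ) : ℝ := 1 - 1 / 6 * (2 / 3) ^ i
/-- orders -/
def nn (i : ℕ) : ℕ := 2 ^ (i + 1) + 1
/-- radii -/
noncomputable def rr (i : ℕ) : ℝ := ∏ j ∈ range i, qq j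
/-- relative losses -/
noncomputable def aa (Γ : ℝ) (τ : ℕ) (i : ℕ) : ℝ := Γ * (nn i : ℝ) ^ τ * qq i ^ nn i

lemma qq_pos (i : ℕ) : 0 < qq i := by
  have : ((2 : ℝ) / 3) ^ i ≤ 1 := pow_le_one₀ (by norm_num) (by norm_num)
  rw [qq]; linarith
lemma qq_le (i : ℕ) : qq i ≤ 1 := by
  have : (0 : ℝ) ≤ (2 / 3) ^ i := by positivity
  rw [qq]; linarith

lemma rr_bounds (i : ℕ) : 1 / 2 + 1 / 2 * (2 / 3) ^ i ≤ rr i ∧ rr i ≤ 1 := by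
  induction i with
  | zero => rw [rr]; norm_num
  | succ i ih =>
    have h1 : rr (i + 1) = rr i * qq i := by rw [rr, rr, prod_range_succ]
    have hp : (0 : ℝ) < (2 / 3) ^ i := by positivity
    constructor
    · rw [h1, qq, pow_succ]
      nlinarith [ih.1, ih.2]
    · rw [h1]
      have := qq_pos i
      have := qq_le i
      nlinarith [ih.1, ih.2]

lemma rr_ge (i : ℕ) : 1 / 2 ≤ rr i := by
  have := (rr_bounds i).1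
  have hp : (0 : ℝ) < (2 / 3) ^ i := by positivity
  linarith

lemma nn_succ (i : ℕ) : 2 * nn i - 1 = nn (i + 1) := by
  simp only [nn]; rw [pow_succ 2 (i + 1)]; omega

lemma nn_ge (i : ℕ) : 3 ≤ nn i := by
  simp only [nn]
  have : 2 ^ 1 ≤ 2 ^ (i + 1) := Nat.pow_le_pow_right (by norm_num) (by omega)
  omega

lemma two_pow_le_nn (i : ℕ) : 2 ^ i ≤ nn i := by
  simp only [nn]
  have : 2 ^ i ≤ 2 ^ (i + 1) := Nat.pow_le_pow_right (by norm_num) (by omega)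
  omega

lemma lt_nn (i : ℕ) : i < nn i := lt_of_lt_of_le Nat.lt_two_pow_self (two_pow_le_nn i)

lemma nn_mono {i j : ℕ} (h : i ≤ j) : nn i ≤ nn j := by
  simp only [nn]
  have : 2 ^ (i + 1) ≤ 2 ^ (j + 1) := Nat.pow_le_pow_right (by norm_num) (by omega)
  omega

lemma aa_nonneg {Γ : ℝ} (hΓ : 0 ≤ Γ) (τ i : ℕ) : 0 ≤ aa Γ τ i := by
  have := (qq_pos i).le
  rw [aa]; positivity

lemma summable_aa {Γ : ℝ} (hΓ : 0 ≤ Γ) (τ : ℕ) : Summable (aa Γ τ) := by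
  obtain ⟨k, hk⟩ : ∃ k : ℕ, ((3 : ℝ) / 4) ^ k < 1 / 2 ^ τ :=
    exists_pow_lt_of_lt_one (by positivity) (by norm_num)
  have hr : (2 : ℝ) ^ τ * (3 / 4) ^ k < 1 := by
    rw [lt_div_iff₀ (by positivity)] at hk
    linarith
  have hgeom : Summable fun i : ℕ => (Γ * 4 ^ τ * (k.factorial : ℝ) * 3 ^ k) * (2 ^ τ * (3 / 4) ^ k) ^ i :=
    (summable_geometric_of_lt_one (by positivity) hr).mul_left _
  refine Summable.of_nonneg_of_le (aa_nonneg hΓ τ) (fun i => ?_) hgeom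
  have h1 : qq i ^ nn i ≤ (k.factorial : ℝ) * 3 ^ k * ((3 / 4) ^ k) ^ i := by
    have e1 : qq i ≤ Real.exp (-(1 / 6 * (2 / 3) ^ i)) := by
      have := Real.add_one_le_exp (-(1 / 6 * (2 / 3 : ℝ) ^ i))
      rw [qq]; linarith
    have e2 : qq i ^ nn i ≤ Real.exp (-(1 / 6 * (2 / 3) ^ i)) ^ nn i :=
      pow_le_pow_left₀ (qq_pos i).le e1 _
    rw [← Real.exp_nat_mul] at e2
    have e3 : (nn i : ℝ) * -(1 / 6 * (2 / 3) ^ i) ≤ -(1 / 3 * (4 / 3) ^ i) := by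
      have h2 : (2 : ℝ) ^ (i + 1) ≤ nn i := by
        have : 2 ^ (i + 1) ≤ nn i := by simp only [nn]; omega
        exact_mod_cast this
      have h3 : (1 : ℝ) / 3 * (4 / 3) ^ i = 2 ^ (i + 1) * (1 / 6 * (2 / 3) ^ i) := by
        rw [show (4 : ℝ) / 3 = 2 * (2 / 3) by norm_num, mul_pow, pow_succ]
        ring
      rw [h3]
      have h4 : (0 : ℝ) ≤ 1 / 6 * (2 / 3) ^ i := by positivity
      nlinarith
    have e4 : Real.exp ((nn i : ℝ) * -(1 / 6 * (2 / 3) ^ i)) ≤ Real.exp (-(1 / 3 * (4 / 3) ^ i)) :=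
      Real.exp_le_exp.mpr e3
    have hx : (0 : ℝ) < 1 / 3 * (4 / 3) ^ i := by positivity
    have e5 : Real.exp (-(1 / 3 * (4 / 3) ^ i)) ≤ (k.factorial : ℝ) / (1 / 3 * (4 / 3) ^ i) ^ k := by
      rw [Real.exp_neg, ← one_div, div_le_div_iff₀ (Real.exp_pos _) (by positivity), one_mul]
      have := Real.pow_div_factorial_le_exp _ hx.le k
      rw [div_le_iff₀ (by positivity)] at this
      linarith
    refine (e2.trans (e4.trans e5)).trans (le_of_eq ?_)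
    rw [mul_pow, ← pow_mul, mul_comm i k, pow_mul, div_pow (4 : ℝ) 3 k, div_pow (3 : ℝ) 4 k,
      div_pow (1 : ℝ) 3 k, one_pow, div_pow, div_pow]
    field_simp
  have h2 : (nn i : ℝ) ^ τ ≤ 4 ^ τ * (2 ^ τ) ^ i := by
    have e1 : (nn i : ℝ) ≤ 4 * 2 ^ i := by
      have : nn i ≤ 4 * 2 ^ i := by
        simp only [nn]
        have : 1 ≤ 2 ^ i := Nat.one_le_two_pow
        rw [pow_succ]
        omega
      exact_mod_cast this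
    calc (nn i : ℝ) ^ τ ≤ (4 * 2 ^ i) ^ τ := pow_le_pow_left₀ (Nat.cast_nonneg _) e1 τ
      _ = 4 ^ τ * (2 ^ τ) ^ i := by rw [mul_pow, ← pow_mul, ← pow_mul, mul_comm i τ]
  have hq0 : 0 ≤ qq i ^ nn i := pow_nonneg (qq_pos i).le _
  calc aa Γ τ i = Γ * ((nn i : ℝ) ^ τ * qq i ^ nn i) := by rw [aa]; ring
    _ ≤ Γ * ((4 ^ τ * (2 ^ τ) ^ i) * ((k.factorial : ℝ) * 3 ^ k * ((3 / 4) ^ k) ^ i)) := by
        refine mul_le_mul_of_nonneg_left ?_ hΓ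
        exact mul_le_mul h2 h1 hq0 (by positivity)
    _ = _ := by rw [mul_pow ((2 : ℝ) ^ τ)]; ring

/-- sizes -/
noncomputable def ee (δ Γ : ℝ) (τ : ℕ) (i : ℕ) : ℝ := δ * ∏ j ∈ range i, (1 + aa Γ τ j)

lemma ee_succ (δ Γ : ℝ) (τ i : ℕ) : ee δ Γ τ (i + 1) = ee δ Γ τ i * (1 + Γ * (nn i : ℝ) ^ τ * qq i ^ nn i) := by
  rw [ee, ee, prod_range_succ, aa]; ring

lemma ee_le {δ Γ : ℝ} (hδ : 0 ≤ δ) (hΓ : 0 ≤ Γ) (τ i : ℕ) :
    ee δ Γ τ i ≤ δ * Real.exp (∑' j, aa Γ τ j) := by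
  rw [ee]
  refine mul_le_mul_of_nonneg_left ?_ hδ
  calc ∏ j ∈ range i, (1 + aa Γ τ j) ≤ ∏ j ∈ range i, Real.exp (aa Γ τ j) := by
        refine prod_le_prod (fun j _ => by have := aa_nonneg hΓ τ j; linarith) fun j _ => ?_
        have := Real.add_one_le_exp (aa Γ τ j)
        linarith
    _ = Real.exp (∑ j ∈ range i, aa Γ τ j) := (Real.exp_sum _ _).symm
    _ ≤ _ := Real.exp_le_exp.mpr ((summable_aa hΓ τ).sum_le_tsum _ fun j _ => aa_nonneg hΓ τ j)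

lemma ee_ge {δ Γ : ℝ} (hδ : 0 ≤ δ) (hΓ : 0 ≤ Γ) (τ i : ℕ) : δ ≤ ee δ Γ τ i := by
  rw [ee]
  have : 1 ≤ ∏ j ∈ range i, (1 + aa Γ τ j) := by
    induction i with
    | zero => simp
    | succ i ih =>
      rw [prod_range_succ]
      have := aa_nonneg hΓ τ i
      nlinarith
  nlinarith

/-- The Diophantine data. -/
structure Dio (α s κ Γ₀ : ℝ) (τ₀ : ℕ) : Prop where
  hs : s = sin (α / 2)
  hκ : κ = s ^ 2
  s0 : 0 < s
  sin0 : 0 < |sin α|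
  Γ0 : 0 ≤ Γ₀
  nonres : NonRes α
  small : ∀ k : ℕ, |(sin ((k + 1 : ℕ) * (α / 2)))⁻¹| ≤ Γ₀ * ((k + 1 : ℕ) : ℝ) ^ τ₀

lemma Gam_nonneg {Γ₀ : ℝ} {τ₀ : ℕ} (D : Dio α s κ Γ₀ τ₀) : 0 ≤ Gam s |sin α| Γ₀ τ₀ := by
  have := D.s0
  have := D.sin0
  have := D.Γ0
  rw [Gam]; positivity

theorem exists_seq {Γ₀ : ℝ} {τ₀ : ℕ} (D : Dio α s κ Γ₀ τ₀) (hδ : 0 ≤ δ) (hδ1 : δ ≤ 1 / 64)
    (hsm : 32 * (δ * Real.exp (∑' j, aa (Gam s |sin α| Γ₀ τ₀) (2 * τ₀ + 13) j)) ≤ s)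
    (hsm2 : 96 * (δ * Real.exp (∑' j, aa (Gam s |sin α| Γ₀ τ₀) (2 * τ₀ + 13) j)) ≤ |sin α|) :
    ∃ f : ℕ → Fam × ℝ⟦X⟧, f 0 = (A0, C ((1 - κ) / 2) * X ^ 2)
      ∧ (∀ j, Stage α s κ (Cs δ) (Vs δ) (rr j) (ee δ (Gam s |sin α| Γ₀ τ₀) (2 * τ₀ + 13) j) (nn j) (2 ^ j)
          (f j).1 (f j).2)
      ∧ ∀ j, (∀ φ, (X : ℝ⟦X⟧) ^ nn j ∣ (f (j + 1)).1 φ - (f j).1 φ)
        ∧ (X : ℝ⟦X⟧) ^ (nn j + 1) ∣ (f (j + 1)).2 - (f j).2 := by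
  set Γ := Gam s |sin α| Γ₀ τ₀ with hΓdef
  set τ := 2 * τ₀ + 13 with hτ
  have hΓ : 0 ≤ Γ := Gam_nonneg D
  have hP := Par_Cs_Vs hδ hδ1
  have hle : ∀ j, ee δ Γ τ j ≤ δ * Real.exp (∑' j, aa Γ τ j) := ee_le hδ hΓ τ
  have hs1 : s ≤ 1 := by rw [D.hs]; exact sin_le_one _
  have step : ∀ j, ∀ x : {x : Fam × ℝ⟦X⟧ // Stage α s κ (Cs δ) (Vs δ) (rr j) (ee δ Γ τ j) (nn j) (2 ^ j) x.1 x.2},
      ∃ y : {x : Fam × ℝ⟦X⟧ // Stage α s κ (Cs δ) (Vs δ) (rr (j + 1)) (ee δ Γ τ (j + 1)) (nn (j + 1))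
          (2 ^ (j + 1)) x.1 x.2},
        (∀ φ, (X : ℝ⟦X⟧) ^ nn j ∣ y.1.1 φ - x.1.1 φ) ∧ (X : ℝ⟦X⟧) ^ (nn j + 1) ∣ y.1.2 - x.1.2 := by
    rintro j ⟨⟨A, h⟩, S⟩
    have N : Num α s κ (rr j) (ee δ Γ τ j) δ :=
      { hs := D.hs, hκ := D.hκ, s0 := D.s0, s1 := hs1, ρ0 := rr_ge j, ρ1 := (rr_bounds j).2,
        δ0 := hδ, δη := ee_ge hδ hΓ τ j, η1 := by have := hle j; linarith }
    have hrr : rr (j + 1) = qq j * rr j := by rw [rr, rr, prod_range_succ, mul_comm]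
    have hKn : ((2 : ℕ) ^ j) ≤ nn j := two_pow_le_nn j
    obtain ⟨A', h', S', h1, h2⟩ := stage_step hP D.nonres D.Γ0 D.small (nn_ge j) Nat.one_le_two_pow hKn N S
      (qq_pos j) (qq_le j) (by rw [← hrr]; exact rr_ge _) D.sin0
      (ηf := ee δ Γ τ (j + 1)) (by rw [ee_succ])
      (by have := hle (j + 1); linarith) (by have := hle (j + 1); linarith)
    rw [nn_succ, ← hrr, ← pow_succ'] at S'
    exact ⟨⟨(A', h'), S'⟩, h1, h2⟩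
  choose F hF using step
  have S0 : Stage α s κ (Cs δ) (Vs δ) (rr 0) (ee δ Γ τ 0) (nn 0) (2 ^ 0) A0 (C ((1 - κ) / 2) * X ^ 2) := by
    have h0 := stage_zero D.hs D.hκ hδ hδ1
    have e1 : rr 0 = 1 := by simp [rr]
    have e2 : ee δ Γ τ 0 = δ := by simp [ee]
    have e3 : nn 0 = 3 := rfl
    rw [e1, e2, e3, pow_zero]
    exact h0
  let g : ∀ j, {x : Fam × ℝ⟦X⟧ // Stage α s κ (Cs δ) (Vs δ) (rr j) (ee δ Γ τ j) (nn j) (2 ^ j) x.1 x.2} :=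
    fun j => Nat.rec ⟨(A0, C ((1 - κ) / 2) * X ^ 2), S0⟩ (fun j x => F j x) j
  exact ⟨fun j => (g j).1, rfl, fun j => (g j).2, fun j => hF j (g j)⟩

end Helper43.Billiard
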