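import Pool.Agent.Helper43_Billiard.StepCtl

set_option autoImplicit false

/-! # Control of the correction of `h` -/

namespace Helper43.Billiard

open PowerSeries Finset Real

variable {α s κ ρ η δ : ℝ} {Cc Vc h : ℝ⟦X⟧} {A : Fam} {K : ℕ}

lemma X_pow_succ_dvd_of_Dr {a : ℝ⟦X⟧} {n : ℕ} (h : (X : ℝ⟦X⟧) ^ (n + 1) ∣ Dr a) :
    ∀ m, 1 ≤ m → m < n + 1 → coeff m a = 0 := by
  intro m hm hm'
  have := X_pow_dvd_iff.mp h m hm'
  rw [coeff_Dr] at this
  have h1 : (m : ℝ) ≠ 0 := by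
    have : 0 < m := by omega
    exact_mod_cast this.ne'
  exact (mul_eq_zero.mp this).resolve_left h1

lemma coeff_derivative_ge {f : ℝ⟦X⟧} {N : ℕ} (hz : ∀ m, N ≤ m → coeff m f = 0) :
    ∀ m, N ≤ m → coeff m (d⁄dX ℝ f) = 0 := by
  intro m hm
  rw [coeff_derivative, hz (m + 1) (by omega), zero_mul]

lemma kstep (hP : Par δ Cc Vc) {q : ℝ} (hq0 : 0 ≤ q) (hq1 : q ≤ 1) (N : Num α s κ ρ η δ)
    (N' : Num α s κ (q * ρ) η δ) (hh : EvenS h) (hK : 1 ≤ K) (hA : FamA K A)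
    (H : Ctl α s κ ρ η A h) {n : ℕ} (hn : 1 ≤ n) (hE : ∀ φ, (X : ℝ⟦X⟧) ^ n ∣ EL α κ Cc Vc h A φ) :
    ∃ k : ℝ⟦X⟧, EvenS k ∧ (X : ℝ⟦X⟧) ^ (n + 1) ∣ k
      ∧ (X : ℝ⟦X⟧) ^ (2 * n) ∣ Av (fun φ => EL α κ Cc Vc (h + k) A φ * Dr (A φ))
      ∧ Bd (s * (q * ρ)) k (768 * n ^ 3 * q ^ n * η / s ^ 2)
      ∧ Bd (s * (q * ρ)) (d⁄dX ℝ k) (768 * n ^ 3 * q ^ n * η / s ^ 2)
      ∧ Bd (s * (q * ρ)) (d⁄dX ℝ (d⁄dX ℝ k)) (768 * n ^ 3 * q ^ n * η / s ^ 2) := by
  have hρ := N.ρpos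
  have hρ' := N'.ρpos
  have hs0 := N.s0
  have hη0 := N.η0
  have hn' : (1 : ℝ) ≤ n := by exact_mod_cast hn
  have H' : Ctl α s κ (q * ρ) η A h := H.mono hs0.le hρ'.le (mul_le_of_le_one_left hρ.le hq1) le_rfl
  -- the averaged generating function
  set a : ℝ⟦X⟧ := Av (fun φ => S0 κ Cc Vc h (A φ) (A (φ + α))) with ha
  have hDa : Dr a = Av (fun φ => EL α κ Cc Vc h A φ * Dr (A φ)) := Dr_Av_S0 hA.cls hA.X_dvd
  have hXDr : ∀ φ, (X : ℝ⟦X⟧) ∣ Dr (A φ) := fun φ => by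
    have := Dr_X_pow_dvd (n := 1) (f := A φ) (by rw [pow_one]; exact hA.X_dvd φ)
    rwa [pow_one] at this
  have hDa_dvd : (X : ℝ⟦X⟧) ^ (n + 1) ∣ Dr a := by
    rw [hDa]
    refine Av_X_pow_dvd fun φ => ?_
    rw [pow_succ]
    exact mul_dvd_mul (hE φ) (hXDr φ)
  have hDa_bd : Bd (q * ρ) (Dr a) (24 * q ^ n * η) := by
    have h1 : Bd ρ (Dr a) (24 * η) := by
      rw [hDa]
      refine Bd_Av_const (K := K) (d := 0) hρ.le ((Cls_EL hA.cls).mul hA.cls.Dr) fun φ => ?_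
      refine ((bd_EL hP N H hA.X_dvd φ).mul (bd_DrA N H φ) hρ.le).mono (by linarith)
    have h2 := h1.shrink hρ.le hq0 hq1 ((pow_dvd_pow X (Nat.le_succ n)).trans hDa_dvd)
    exact h2.mono (by linarith [h2.nonneg])
  have haE : EvenS a := by
    refine EvenS_Av fun φ => ?_
    unfold EvenS
    simp only [S0, smul_eq_C_mul, map_mul, map_sub, rescale_C', rescale_comp,
      rescale_ps, rescale_sg]
    rw [hA.rodd, hA.rodd, ps_neg_neg, sg_neg_neg, hP.evC.comp_neg, hP.evV.comp_neg, hh.comp_neg]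
  have hQ : ∀ j, Bd (q * ρ) (Qm α Cc A (2 * j) - monomial (2 * j) (s ^ (2 * j) * cc (2 * j)))
      ((s * (q * ρ)) ^ (2 * j) * cc (2 * j) / 2) := by
    intro j
    refine Bd_Qm hρ' hs0 hK hA.cls H'.chi (e2 := δ) (fun φ => ?_) hη0 ?_ ?_ j
    · have := bd_comp_sub (c := 1) (g := Cc) hρ'.le (X_dvd_Sig (α := α) hA.X_dvd φ)
        (bd_sg N' H' _ _) (by simpa using hP.c0)
      simpa using this
    · linarith [N'.sρge, N'.η1]
    · linarith [N.δη, N.ηle]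
  obtain ⟨k, hkE, hk0, hkeq, hkbd⟩ := exists_k (Vc := Vc) hρ' hs0 hP.evC hA hQ haE (N := n + 1)
    (X_pow_succ_dvd_of_Dr hDa_dvd)
  have hMa : ∀ N', ∑ m ∈ range N', (if m = 0 then 0 else |coeff m a| * (q * ρ) ^ m) ≤ 24 * q ^ n * η := by
    intro N'
    refine (sum_le_sum fun m _ => ?_).trans (hDa_bd N')
    split_ifs with hm
    · exact mul_nonneg (abs_nonneg _) (pow_nonneg hρ'.le _)
    · refine mul_le_mul_of_nonneg_right ?_ (pow_nonneg hρ'.le _)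
      rw [coeff_Dr, abs_mul, Nat.abs_cast]
      have h1 : (1 : ℝ) ≤ m := by
        have : 1 ≤ m := by omega
        exact_mod_cast this
      exact le_mul_of_one_le_left (abs_nonneg _) h1
  have hb := hkbd _ hMa (2 * n)
  set k' := tr (2 * n) k with hk'
  have hz : ∀ m, 2 * n ≤ m → coeff m k' = 0 := fun m hm => by
    rw [hk', coeff_tr, if_neg (by omega)]
  have hsρ' := N'.sρpos
  have hge : s / 2 ≤ s * (q * ρ) := N'.sρge
  have hb1 := hb.derivative hsρ' hz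
  have hb2 := hb1.derivative hsρ' (coeff_derivative_ge hz)
  have hqn : 0 ≤ q ^ n := pow_nonneg hq0 n
  have hs1 := N.s1
  have hinv : 1 / (s * (q * ρ)) ≤ 2 / s := by
    rw [div_le_div_iff₀ hsρ' hs0]
    linarith
  have hcast : ((2 * n : ℕ) : ℝ) = 2 * n := by push_cast; ring
  rw [hcast] at hb hb1 hb2
  have hM0 : 0 ≤ 48 * n * q ^ n * η := by positivity
  have g0 : 2 * (n : ℝ) * (24 * q ^ n * η) ≤ 768 * n ^ 3 * q ^ n * η / s ^ 2 := by
    rw [le_div_iff₀ (by positivity)]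
    have h1 : s ^ 2 ≤ 1 := by nlinarith
    have h2 : (n : ℝ) ≤ n ^ 3 := by
      calc (n : ℝ) = n ^ 1 := (pow_one _).symm
        _ ≤ n ^ 3 := pow_le_pow_right₀ hn' (by norm_num)
    calc 2 * (n : ℝ) * (24 * q ^ n * η) * s ^ 2 ≤ 2 * (n : ℝ) * (24 * q ^ n * η) * 1 :=
          mul_le_mul_of_nonneg_left h1 (by positivity)
      _ = 48 * (q ^ n * η) * n := by ring
      _ ≤ 48 * (q ^ n * η) * n ^ 3 := mul_le_mul_of_nonneg_left h2 (by positivity)
      _ ≤ 768 * (q ^ n * η) * n ^ 3 := by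
          have : 0 ≤ (q ^ n * η) * (n : ℝ) ^ 3 := by positivity
          linarith
      _ = _ := by ring
  have hb1' : Bd (s * (q * ρ)) (d⁄dX ℝ k') (192 * n ^ 2 * q ^ n * η / s) := by
    refine hb1.mono ?_
    calc 2 * (n : ℝ) * (2 * n * (24 * q ^ n * η)) / (s * (q * ρ))
        = (96 * n ^ 2 * q ^ n * η) * (1 / (s * (q * ρ))) := by ring
      _ ≤ (96 * n ^ 2 * q ^ n * η) * (2 / s) := mul_le_mul_of_nonneg_left hinv (by positivity)
      _ = _ := by ring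
  have hb2' : Bd (s * (q * ρ)) (d⁄dX ℝ (d⁄dX ℝ k')) (768 * n ^ 3 * q ^ n * η / s ^ 2) := by
    have h3 := hb1'.derivative hsρ' (coeff_derivative_ge hz)
    rw [hcast] at h3
    refine h3.mono ?_
    calc 2 * (n : ℝ) * (192 * n ^ 2 * q ^ n * η / s) / (s * (q * ρ))
        = (384 * n ^ 3 * q ^ n * η / s) * (1 / (s * (q * ρ))) := by ring
      _ ≤ (384 * n ^ 3 * q ^ n * η / s) * (2 / s) := mul_le_mul_of_nonneg_left hinv (by positivity)
      _ = _ := by ring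
  have g1 : 192 * (n : ℝ) ^ 2 * q ^ n * η / s ≤ 768 * n ^ 3 * q ^ n * η / s ^ 2 := by
    rw [div_le_div_iff₀ hs0 (by positivity)]
    have h2 : (n : ℝ) ^ 2 ≤ n ^ 3 := pow_le_pow_right₀ hn' (by norm_num)
    calc 192 * (n : ℝ) ^ 2 * q ^ n * η * s ^ 2 = 192 * (q ^ n * η * s) * n ^ 2 * s := by ring
      _ ≤ 192 * (q ^ n * η * s) * n ^ 2 * 1 := mul_le_mul_of_nonneg_left hs1 (by positivity)
      _ ≤ 192 * (q ^ n * η * s) * n ^ 3 * 1 := by
          have := mul_le_mul_of_nonneg_left h2 (by positivity : 0 ≤ 192 * (q ^ n * η * s))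
          linarith
      _ ≤ 768 * (q ^ n * η * s) * n ^ 3 := by
          have : 0 ≤ (q ^ n * η * s) * (n : ℝ) ^ 3 := by positivity
          linarith
      _ = _ := by ring
  refine ⟨k', hkE.tr _, ?_, ?_, hb.mono g0, hb1'.mono g1, hb2'⟩
  · rw [X_pow_dvd_iff]
    intro m hm
    rw [hk', coeff_tr, hk0 m hm]
    simp
  · rw [← Dr_Av_S0 hA.cls hA.X_dvd, X_pow_dvd_iff]
    intro m hm
    rw [coeff_Dr]
    rcases Nat.eq_zero_or_pos m with hm0 | hm0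
    · subst hm0; simp
    · have h1 := hkeq m hm0
      -- replace `k` by its truncation
      have e1 : (fun φ => S0 κ Cc Vc (h + k') (A φ) (A (φ + α)))
          = (fun φ => S0 κ Cc Vc h (A φ) (A (φ + α))) + fun φ => S0 0 Cc Vc k' (A φ) (A (φ + α)) := by
        funext φ
        rw [S0_add]
        rfl
      have cS : ∀ (κ : ℝ) (k : ℝ⟦X⟧), Cls K 0 (fun φ => S0 κ Cc Vc k (A φ) (A (φ + α))) := fun κ k =>
        Cls_S0 hA.cls (hA.cls.shift α)
      rw [e1, Av_add (cS κ h) (cS 0 k'), map_add]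
      have e2 : coeff m (Av (fun φ => S0 0 Cc Vc k' (A φ) (A (φ + α))))
          = coeff m (Av (fun φ => S0 0 Cc Vc k (A φ) (A (φ + α)))) := by
        have h2 : (X : ℝ⟦X⟧) ^ (2 * n) ∣ Av ((fun φ => S0 0 Cc Vc k' (A φ) (A (φ + α)))
            - fun φ => S0 0 Cc Vc k (A φ) (A (φ + α))) := by
          refine Av_X_pow_dvd fun φ => ?_
          have h3 := comp_congr_left (ψ := ps (A φ) (A (φ + α))) (X_pow_dvd_tr_sub (2 * n) k)
          simp only [Pi.sub_apply, S0, zero_smul, sub_zero, smul_eq_C_mul]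
          refine (dvd_mul_of_dvd_right (h3.mul_right (comp Cc (sg (A φ) (A (φ + α))))) (C 2)).trans
            (dvd_of_eq ?_)
          ring
        rw [Av_sub (cS 0 k') (cS 0 k)] at h2
        have h3 := X_pow_dvd_iff.mp h2 m hm
        rw [map_sub] at h3
        linarith
      rw [e2, ← map_add, h1, mul_zero]

end Helper43.Billiard
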