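import Pool.Agent.Helper43_Billiard.Iterate

set_option autoImplicit false

/-! # The limit of the iteration -/

namespace Helper43.Billiard

open PowerSeries Finset Real

variable {α s κ ρ η δ : ℝ} {Cc Vc h : ℝ⟦X⟧} {A : Fam} {K : ℕ}

/-- A convergent formal solution. -/
structure FSol (α s κ δ η : ℝ) (A : Fam) (h : ℝ⟦X⟧) : Prop where
  smooth : ∀ m, ∃ K, cf m A ∈ TP K
  odd : ∀ φ, A (-φ) = -A φ
  anti : ∀ φ, A (φ + π) = -A φ
  rodd : ∀ φ, OddS (A φ)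
  even : EvenS h
  lead : ∀ φ, (X : ℝ⟦X⟧) ^ 3 ∣ A φ - A0 φ
  leadh : (X : ℝ⟦X⟧) ^ 4 ∣ h - C ((1 - κ) / 2) * X ^ 2
  el : ∀ φ, EL α κ (Cs δ) (Vs δ) h A φ = 0
  ctl : Ctl α s κ (1 / 2) η A h

lemma Bd.of_approx {f : ℝ⟦X⟧} {M : ℝ}
    (h : ∀ N, ∃ g, Bd ρ g M ∧ (PowerSeries.X : ℝ⟦X⟧) ^ N ∣ f - g) : Bd ρ f M := by
  intro N
  obtain ⟨g, hg, hd⟩ := h N
  refine le_trans (le_of_eq (sum_congr rfl fun m hm => ?_)) (hg N)
  have := X_pow_dvd_iff.mp hd m (mem_range.mp hm)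
  rw [map_sub, sub_eq_zero] at this
  rw [this]

theorem exists_FSol {Γ₀ : ℝ} {τ₀ : ℕ} (D : Dio α s κ Γ₀ τ₀) (hδ : 0 ≤ δ) (hδ1 : δ ≤ 1 / 64)
    (hsm : 32 * (δ * Real.exp (∑' j, aa (Gam s |sin α| Γ₀ τ₀) (2 * τ₀ + 13) j)) ≤ s)
    (hsm2 : 96 * (δ * Real.exp (∑' j, aa (Gam s |sin α| Γ₀ τ₀) (2 * τ₀ + 13) j)) ≤ |sin α|) :
    ∃ A h, FSol α s κ δ (δ * Real.exp (∑' j, aa (Gam s |sin α| Γ₀ τ₀) (2 * τ₀ + 13) j)) A h := by
  obtain ⟨f, hf0, hS, hstep⟩ := exists_seq D hδ hδ1 hsm hsm2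
  set η := δ * Real.exp (∑' j, aa (Gam s |sin α| Γ₀ τ₀) (2 * τ₀ + 13) j) with hη
  have hΓ := Gam_nonneg D
  have chain : ∀ i j, i ≤ j → (∀ φ, (X : ℝ⟦X⟧) ^ nn i ∣ (f j).1 φ - (f i).1 φ)
      ∧ (X : ℝ⟦X⟧) ^ (nn i + 1) ∣ (f j).2 - (f i).2 := by
    intro i j hij
    induction j, hij using Nat.le_induction with
    | base => exact ⟨fun φ => by rw [sub_self]; exact dvd_zero _, by rw [sub_self]; exact dvd_zero _⟩
    | succ j hij ih =>
      have hn : nn i ≤ nn j := nn_mono hij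
      constructor
      · intro φ
        have h1 := ((pow_dvd_pow (X : ℝ⟦X⟧) hn).trans ((hstep j).1 φ)).add (ih.1 φ)
        rwa [sub_add_sub_cancel] at h1
      · have h1 := ((pow_dvd_pow (X : ℝ⟦X⟧) (Nat.succ_le_succ hn)).trans (hstep j).2).add ih.2
        rwa [sub_add_sub_cancel] at h1
  set A : Fam := fun φ => mk fun m => coeff m ((f m).1 φ) with hA
  set h : ℝ⟦X⟧ := mk fun m => coeff m (f m).2 with hh
  have hAj : ∀ j φ, (X : ℝ⟦X⟧) ^ nn j ∣ A φ - (f j).1 φ := by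
    intro j φ
    rw [X_pow_dvd_iff]
    intro m hm
    rw [map_sub, hA, coeff_mk]
    rcases le_total m j with hmj | hmj
    · have h1 := X_pow_dvd_iff.mp ((chain m j hmj).1 φ) m (lt_nn m)
      rw [map_sub] at h1
      linarith
    · have h1 := X_pow_dvd_iff.mp ((chain j m hmj).1 φ) m hm
      rwa [map_sub] at h1
  have hhj : ∀ j, (X : ℝ⟦X⟧) ^ (nn j + 1) ∣ h - (f j).2 := by
    intro j
    rw [X_pow_dvd_iff]
    intro m hm
    rw [map_sub, hh, coeff_mk]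
    rcases le_total m j with hmj | hmj
    · have h1 := X_pow_dvd_iff.mp (chain m j hmj).2 m (by have := lt_nn m; omega)
      rw [map_sub] at h1
      linarith
    · have h1 := X_pow_dvd_iff.mp (chain j m hmj).2 m hm
      rwa [map_sub] at h1
  have hAN : ∀ N φ, (X : ℝ⟦X⟧) ^ N ∣ A φ - (f N).1 φ := fun N φ =>
    (pow_dvd_pow X (lt_nn N).le).trans (hAj N φ)
  have hhN : ∀ N, (X : ℝ⟦X⟧) ^ (N + 1) ∣ h - (f N).2 := fun N =>
    (pow_dvd_pow X (by have := lt_nn N; omega)).trans (hhj N)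
  have hcf : ∀ m, cf m A = cf m (f m).1 := by
    intro m
    funext φ
    simp only [cf, hA, coeff_mk]
  have hcf2 : ∀ N m, m < N → cf m A = cf m (f N).1 := by
    intro N m hm
    funext φ
    have := X_pow_dvd_iff.mp (hAN N φ) m hm
    rw [map_sub, sub_eq_zero] at this
    exact this
  have hctl : ∀ j, Ctl α s κ (1 / 2) η (f j).1 (f j).2 := fun j =>
    (hS j).ctl.mono D.s0.le (by norm_num) (rr_ge j) (ee_le hδ hΓ _ j)
  have hXA : ∀ φ, (X : ℝ⟦X⟧) ∣ A φ := by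
    intro φ
    have h1 := ((pow_dvd_pow (X : ℝ⟦X⟧) (show 1 ≤ nn 0 by decide)).trans (hAj 0 φ))
    rw [pow_one] at h1
    have := h1.add ((hS 0).fam.X_dvd φ)
    rwa [sub_add_cancel] at this
  refine ⟨A, h, ?_, ?_, ?_, ?_, ?_, ?_, ?_, ?_, ?_⟩
  · intro m
    refine ⟨(m + 0) * 2 ^ m, ?_⟩
    rw [hcf]
    exact (hS m).fam.cls m
  · intro φ
    ext m
    simp only [hA, coeff_mk, map_neg]
    rw [(hS m).fam.odd, map_neg]
  · intro φ
    ext m
    simp only [hA, coeff_mk, map_neg]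
    rw [(hS m).fam.anti, map_neg]
  · intro φ
    rw [oddS_iff]
    intro m hm
    rw [hA, coeff_mk]
    exact oddS_iff.mp ((hS m).fam.rodd φ) m hm
  · rw [evenS_iff]
    intro m hm
    rw [hh, coeff_mk]
    exact evenS_iff.mp (hS m).even m hm
  · intro φ
    have h1 := hAj 0 φ
    rw [hf0] at h1
    exact h1
  · have h1 := hhj 0
    rw [hf0] at h1
    exact h1
  · intro φ
    have key : ∀ N, (X : ℝ⟦X⟧) ^ N ∣ EL α κ (Cs δ) (Vs δ) h A φ := by
      intro N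
      refine (pow_dvd_pow X (lt_nn N).le).trans ?_
      have e : h = (f N).2 + (h - (f N).2) := by ring
      rw [e, EL_add]
      refine dvd_add ?_ (EL_dvd_of_dvd (hhj N) φ)
      have h1 := EL_congr (α := α) (κ := κ) (Cc := Cs δ) (Vc := Vs δ) (h := (f N).2)
        hXA (hS N).fam.X_dvd (hAj N) φ
      have h2 := h1.add ((hS N).el φ)
      rwa [sub_add_cancel] at h2
    ext m
    rw [map_zero]
    exact X_pow_dvd_iff.mp (key (m + 1)) m (Nat.lt_succ_self m)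
  · refine ⟨?_, ?_, ?_, ?_, ?_, ?_, ?_⟩
    · intro φ
      refine Bd.of_approx fun N => ⟨_, (hctl N).chi φ, ?_⟩
      have e : Psi α A φ - C (s * cos φ) * X - (Psi α (f N).1 φ - C (s * cos φ) * X)
          = ps (A (φ - α / 2) - (f N).1 (φ - α / 2)) (A (φ + α / 2) - (f N).1 (φ + α / 2)) := by
        simp only [Psi, ps, smul_eq_C_mul]
        ring
      rw [e]
      exact X_pow_dvd_ps (hAN N _) (hAN N _)
    · intro φ
      refine Bd.of_approx fun N => ⟨_, (hctl N).a0 φ, ?_⟩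
      rw [sub_sub_sub_cancel_right]
      exact hAN N φ
    · intro φ
      refine Bd.of_approx fun N => ⟨_, (hctl N).p0 φ, ?_⟩
      rw [sub_sub_sub_cancel_right, ← Dr_sub]
      exact Dr_X_pow_dvd (hAN N φ)
    · intro φ
      refine Bd.of_approx fun N => ⟨_, (hctl N).q0 φ, ?_⟩
      rw [sub_sub_sub_cancel_right, X_pow_dvd_iff]
      intro m hm
      rw [map_sub, coeff_Dp, coeff_Dp, hcf2 N m hm, sub_self]
    · refine Bd.of_approx fun N => ⟨_, (hctl N).h0, ?_⟩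
      rw [sub_sub_sub_cancel_right]
      exact (pow_dvd_pow X (Nat.le_succ N)).trans (hhN N)
    · refine Bd.of_approx fun N => ⟨_, (hctl N).h1, ?_⟩
      rw [sub_sub_sub_cancel_right, ← map_sub, X_pow_dvd_iff]
      intro m hm
      rw [coeff_derivative, X_pow_dvd_iff.mp (hhN N) (m + 1) (by omega), zero_mul]
    · refine Bd.of_approx fun N => ⟨_, (hctl (N + 1)).h2, ?_⟩
      rw [sub_sub_sub_cancel_right, ← map_sub, ← map_sub, X_pow_dvd_iff]
      intro m hm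
      rw [coeff_derivative, coeff_derivative, X_pow_dvd_iff.mp (hhN (N + 1)) (m + 1 + 1) (by omega)]
      ring

end Helper43.Billiard
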