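import Pool.Agent.Helper43_Billiard.Analytic
import Pool.Agent.Helper43_Billiard.BMap

set_option autoImplicit false

/-! # The table attached to a convergent solution -/

namespace Helper43.Billiard

open PowerSeries Finset Real

variable {α s κ ρ η δ : ℝ} {Cc Vc h : ℝ⟦X⟧} {A : Fam} {K : ℕ}

lemma ev_even {f : ℝ⟦X⟧} (hf : EvenS f) (x : ℝ) : ev f (-x) = ev f x := by
  rw [ev, ev]
  refine tsum_congr fun m => ?_
  rcases Nat.even_or_odd m with hm | hm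
  · rw [hm.neg_pow]
  · rw [evenS_iff.mp hf m hm, zero_mul, zero_mul]

lemma abs_div_lt (hδ : 0 < δ) {ψ : ℝ} (hψ : |ψ| < δ * (s / 2)) : |ψ / δ| < s * (1 / 2) := by
  rw [abs_div, abs_of_pos hδ, div_lt_iff₀ hδ]
  linarith

section loc
variable (N : Num α s κ (1 / 2) η δ) (hδ : 0 < δ) (S : FSol α s κ δ η A h)
include N hδ S

lemma hasDerivAt_hr {ψ : ℝ} (hψ : |ψ| < δ * (s / 2)) : HasDerivAt (hr κ δ h) (hr1 δ h ψ) ψ := by
  have h1 := hasDerivAt_ev (bd_h N S.ctl) (Bd_dh N S) (abs_div_lt hδ hψ)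
  have h2 : HasDerivAt (fun ψ : ℝ => ψ / δ) (1 / δ) ψ := (hasDerivAt_id ψ).div_const δ
  have h3 := ((h1.comp ψ h2).const_mul (δ ^ 2)).const_add κ
  refine h3.congr_deriv ?_
  rw [hr1]
  field_simp

lemma hasDerivAt_hr1 {ψ : ℝ} (hψ : |ψ| < δ * (s / 2)) : HasDerivAt (hr1 δ h) (hr2 δ h ψ) ψ := by
  have h1 := hasDerivAt_ev (Bd_dh N S) (Bd_ddh N S) (abs_div_lt hδ hψ)
  have h2 : HasDerivAt (fun ψ : ℝ => ψ / δ) (1 / δ) ψ := (hasDerivAt_id ψ).div_const δ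
  have h3 := (h1.comp ψ h2).const_mul δ
  refine h3.congr_deriv ?_
  rw [hr2]
  field_simp

lemma contDiffAt_loc {ψ : ℝ} (hψ : |ψ| < δ * (s / 2)) :
    ContDiffAt ℝ (↑(⊤ : ℕ∞)) (fun ψ => hr κ δ h ψ + hr2 δ h ψ) ψ := by
  have h0 : ContDiffAt ℝ (↑(⊤ : ℕ∞)) (fun ψ : ℝ => ψ / δ) ψ := by fun_prop
  have g1 : ContDiffAt ℝ (↑(⊤ : ℕ∞)) (ev h) (ψ / δ) := contDiffAt_ev (bd_h N S.ctl) (abs_div_lt hδ hψ)
  have g2 : ContDiffAt ℝ (↑(⊤ : ℕ∞)) (ev (d⁄dX ℝ (d⁄dX ℝ h))) (ψ / δ) :=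
    contDiffAt_ev (Bd_ddh N S) (abs_div_lt hδ hψ)
  have h1 : ContDiffAt ℝ (↑(⊤ : ℕ∞)) (fun ψ => ev h (ψ / δ)) ψ :=
    ContDiffAt.comp (g := ev h) (f := fun ψ : ℝ => ψ / δ) ψ g1 h0
  have h2 : ContDiffAt ℝ (↑(⊤ : ℕ∞)) (fun ψ => ev (d⁄dX ℝ (d⁄dX ℝ h)) (ψ / δ)) ψ :=
    ContDiffAt.comp (g := ev (d⁄dX ℝ (d⁄dX ℝ h))) (f := fun ψ : ℝ => ψ / δ) ψ g2 h0
  exact (contDiffAt_const.add (contDiffAt_const.mul h1)).add h2

omit N hδ in
lemma coeff_h_low : coeff 0 h = 0 ∧ coeff 1 h = 0 ∧ coeff 2 h = (1 - κ) / 2 := by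
  have h1 := X_pow_dvd_iff.mp S.leadh
  have h10 := h1 0 (by norm_num)
  have h11 := h1 1 (by norm_num)
  have h12 := h1 2 (by norm_num)
  rw [map_sub, coeff_C_mul, coeff_X_pow] at h10 h11 h12
  refine ⟨?_, ?_, ?_⟩
  · simpa using h10
  · simpa using h11
  · simp at h12
    linarith

omit N hδ in
lemma hr_zero : hr κ δ h 0 = κ := by
  rw [hr, zero_div, ev_at_zero, (coeff_h_low S).1, mul_zero, add_zero]

omit N hδ in
lemma hr1_zero : hr1 δ h 0 = 0 := by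
  rw [hr1, zero_div, ev_at_zero, coeff_derivative, (coeff_h_low S).2.1]
  ring

omit N hδ in
lemma hr2_zero : hr2 δ h 0 = 1 - κ := by
  rw [hr2, zero_div, ev_at_zero, coeff_derivative, coeff_derivative, (coeff_h_low S).2.2]
  norm_num

lemma analyticAt_hr : AnalyticAt ℝ (hr κ δ h) 0 ∧ AnalyticAt ℝ (hr1 δ h) 0 := by
  have hs0 := N.s0
  have h00 : |(0 : ℝ)| < δ * (s / 2) := by rw [abs_zero]; positivity
  have h0 : AnalyticAt ℝ (fun ψ : ℝ => ψ / δ) 0 := by fun_prop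
  have g1 : AnalyticAt ℝ (ev h) (0 / δ) := analyticAt_ev (bd_h N S.ctl) (abs_div_lt hδ h00)
  have g2 : AnalyticAt ℝ (ev (d⁄dX ℝ h)) (0 / δ) := analyticAt_ev (Bd_dh N S) (abs_div_lt hδ h00)
  have h1 : AnalyticAt ℝ (fun ψ => ev h (ψ / δ)) 0 :=
    AnalyticAt.fun_comp (g := ev h) (f := fun ψ : ℝ => ψ / δ) g1 h0
  have h2 : AnalyticAt ℝ (fun ψ => ev (d⁄dX ℝ h) (ψ / δ)) 0 :=
    AnalyticAt.fun_comp (g := ev (d⁄dX ℝ h)) (f := fun ψ : ℝ => ψ / δ) g2 h0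
  exact ⟨analyticAt_const.add (analyticAt_const.mul h1), analyticAt_const.mul h2⟩

/-- the curvature function of the table -/
lemma exists_table : ∃ ϱ : ℝ → ℝ, Curv ϱ κ ∧ ϱ 0 = 1 ∧ ∃ ψ₁, 0 < ψ₁ ∧
    ∀ ψ, |ψ| < ψ₁ → Hs ϱ κ ψ = hr κ δ h ψ ∧ Hs' ϱ κ ψ = hr1 δ h ψ := by
  have hs0 := N.s0
  have hκ0 : 0 < κ := by rw [N.hκ]; positivity
  have hψ₀ : 0 < δ * (s / 2) := by positivity
  obtain ⟨ϱ, C, ψ₁, hψ₁, hψ₁₀, hϱ⟩ := exists_curv (ρl := fun ψ => hr κ δ h ψ + hr2 δ h ψ) hψ₀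
    (fun ψ hψ => contDiffAt_loc N hδ S hψ)
    (fun ψ => by
      simp only [hr, hr2]
      rw [neg_div, ev_even S.even, ev_even S.even.derivative.derivative])
    (by
      rw [hr_zero S, hr2_zero S]
      norm_num) hκ0
  refine ⟨ϱ, C, ?_, ψ₁, hψ₁, ?_⟩
  · rw [hϱ 0 (by rwa [abs_zero]), hr_zero S, hr2_zero S]
    ring
  · set U : Set ℝ := Metric.ball (0 : ℝ) ψ₁ with hU
    have hUo : IsOpen U := Metric.isOpen_ball
    have hUp : IsPreconnected U := (convex_ball (0 : ℝ) ψ₁).isPreconnected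
    have hmem : ∀ ψ, ψ ∈ U ↔ |ψ| < ψ₁ := fun ψ => by rw [hU, Metric.mem_ball, Real.dist_eq, sub_zero]
    have h0U : (0 : ℝ) ∈ U := (hmem 0).mpr (by rwa [abs_zero])
    have dX : ∀ ψ ∈ U, HasDerivAt (fun ψ => Xc ϱ ψ - (hr κ δ h ψ * sin ψ + hr1 δ h ψ * cos ψ)) 0 ψ := by
      intro ψ hψ
      have hψ' := (hmem ψ).mp hψ
      have h1 := hasDerivAt_hr N hδ S (lt_of_lt_of_le hψ' hψ₁₀)
      have h2 := hasDerivAt_hr1 N hδ S (lt_of_lt_of_le hψ' hψ₁₀)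
      have h3 : HasDerivAt (fun ψ => Xc ϱ ψ - (hr κ δ h ψ * sin ψ + hr1 δ h ψ * cos ψ)) _ ψ :=
        (hasDerivAt_Xc C ψ).sub ((h1.mul (hasDerivAt_sin ψ)).add (h2.mul (hasDerivAt_cos ψ)))
      refine h3.congr_deriv ?_
      rw [hϱ ψ hψ']
      ring
    have dY : ∀ ψ ∈ U, HasDerivAt (fun ψ => Yc ϱ κ ψ - (hr κ δ h ψ * cos ψ - hr1 δ h ψ * sin ψ)) 0 ψ := by
      intro ψ hψ
      have hψ' := (hmem ψ).mp hψ
      have h1 := hasDerivAt_hr N hδ S (lt_of_lt_of_le hψ' hψ₁₀)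
      have h2 := hasDerivAt_hr1 N hδ S (lt_of_lt_of_le hψ' hψ₁₀)
      have h3 : HasDerivAt (fun ψ => Yc ϱ κ ψ - (hr κ δ h ψ * cos ψ - hr1 δ h ψ * sin ψ)) _ ψ :=
        (hasDerivAt_Yc C ψ).sub ((h1.mul (hasDerivAt_cos ψ)).sub (h2.mul (hasDerivAt_sin ψ)))
      refine h3.congr_deriv ?_
      rw [hϱ ψ hψ']
      ring
    intro ψ hψ
    have hψU := (hmem ψ).mpr hψ
    have eX := hUo.is_const_of_deriv_eq_zero hUp
      (fun x hx => (dX x hx).differentiableAt.differentiableWithinAt) (fun x hx => (dX x hx).deriv) hψU h0U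
    have eY := hUo.is_const_of_deriv_eq_zero hUp
      (fun x hx => (dY x hx).differentiableAt.differentiableWithinAt) (fun x hx => (dY x hx).deriv) hψU h0U
    simp only [hr_zero S, hr1_zero S, sin_zero, cos_zero, mul_zero, mul_one, add_zero,
      sub_zero] at eX eY
    have x0 : Xc ϱ 0 = 0 := by simp [Xc]
    have y0 : Yc ϱ κ 0 = κ := by simp [Yc]
    rw [x0] at eX
    rw [y0, sub_self] at eY
    have hsc := Real.sin_sq_add_cos_sq ψ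
    constructor
    · rw [Hs]
      linear_combination sin ψ * eX + cos ψ * eY + hr κ δ h ψ * hsc
    · rw [Hs']
      linear_combination cos ψ * eX - sin ψ * eY + hr1 δ h ψ * hsc

end loc

end Helper43.Billiard
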