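import Pool.Agent.Helper43_Billiard.Chart

set_option autoImplicit false

/-! # Diophantine angles -/

namespace Helper43.Billiard

open Real Set

lemma abs_sin_lower (y : ℝ) : 2 * |y / π - round (y / π)| ≤ |sin y| := by
  set m := round (y / π) with hm
  have hπ := Real.pi_pos
  have h1 := abs_sub_round (y / π)
  rw [← hm] at h1
  have h2 : y - m * π = (y / π - m) * π := by field_simp
  have h3 : |y - m * π| ≤ π / 2 := by
    rw [h2, abs_mul, abs_of_pos hπ]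
    nlinarith
  have h4 := mul_abs_le_abs_sin h3
  have h5 : |sin (y - m * π)| = |sin y| := by
    rw [Real.sin_sub_int_mul_pi, abs_mul, abs_zpow, abs_neg, abs_one, one_zpow, one_mul]
  rw [h5, h2, abs_mul, abs_of_pos hπ] at h4
  calc 2 * |y / π - m| = 2 / π * (|y / π - m| * π) := by field_simp
    _ ≤ |sin y| := h4

lemma exists_Dio {β : ℝ} (hβ : Diophantine (β / π)) :
    ∃ α s κ Γ₀ : ℝ, ∃ τ₀ : ℕ, Dio α s κ Γ₀ τ₀ ∧ sin α ≠ 0
      ∧ Complex.exp (((2 * α : ℝ) : ℂ) * Complex.I) = Complex.exp ((β : ℂ) * Complex.I) := by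
  obtain ⟨c, hc, τ, hdio⟩ := hβ
  have hπ := Real.pi_pos
  set j : ℤ := ⌊β / (2 * π)⌋ with hj
  set α : ℝ := β / 2 - π * j with hα
  have hj1 : (j : ℝ) ≤ β / (2 * π) := Int.floor_le _
  have hj2 : β / (2 * π) < j + 1 := Int.lt_floor_add_one _
  have hne : (j : ℝ) ≠ β / (2 * π) := by
    intro h
    have h1 := hdio (2 * j) 1 one_pos
    have h2 : β / π - ((2 * j : ℤ) : ℝ) / ((1 : ℕ) : ℝ) = 0 := by
      push_cast
      rw [h]
      field_simp
      ring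
    rw [h2, abs_zero, Nat.cast_one, one_rpow, div_one] at h1
    linarith
  have hj1' : (j : ℝ) < β / (2 * π) := lt_of_le_of_ne hj1 hne
  have hα0 : 0 < α := by
    rw [lt_div_iff₀ (by positivity)] at hj1'
    rw [hα]; linarith
  have hαπ : α < π := by
    rw [div_lt_iff₀ (by positivity)] at hj2
    rw [hα]; linarith
  have hsinα : 0 < sin α := sin_pos_of_pos_of_lt_pi hα0 hαπ
  have hs : 0 < sin (α / 2) := sin_pos_of_pos_of_lt_pi (by linarith) (by linarith)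
  set τ₀ : ℕ := ⌈τ⌉₊ with hτ₀
  have key : ∀ k : ℕ, 0 < k → c / 2 / (k : ℝ) ^ τ₀ ≤ |sin (k * (α / 2))| := by
    intro k hk
    have hk1 : (1 : ℝ) ≤ k := by exact_mod_cast hk
    have hk0 : (0 : ℝ) < k := by linarith
    refine le_trans ?_ (abs_sin_lower _)
    set m := round (k * (α / 2) / π) with hm
    have h1 := hdio (2 * j * k + 4 * m) k hk
    have h2 : k * (α / 2) / π - m = (k / 4) * (β / π - ((2 * j * k + 4 * m : ℤ) : ℝ) / k) := by
      rw [hα]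
      push_cast
      field_simp
      ring
    rw [h2, abs_mul, abs_of_pos (by positivity : (0 : ℝ) < k / 4)]
    have h3 : (k : ℝ) ^ τ ≤ (k : ℝ) ^ τ₀ := by
      rw [← rpow_natCast]
      exact rpow_le_rpow_of_exponent_le hk1 (Nat.le_ceil τ)
    have h4 : c / (k : ℝ) ^ τ₀ ≤ c / (k : ℝ) ^ τ :=
      div_le_div_of_nonneg_left hc.le (rpow_pos_of_pos hk0 τ) h3
    have h5 : 0 ≤ c / (k : ℝ) ^ τ₀ := by positivity
    calc c / 2 / (k : ℝ) ^ τ₀ = 1 / 2 * (c / (k : ℝ) ^ τ₀) := by ring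
      _ ≤ k / 2 * (c / (k : ℝ) ^ τ₀) := mul_le_mul_of_nonneg_right (by linarith) h5
      _ ≤ k / 2 * |β / π - ((2 * j * k + 4 * m : ℤ) : ℝ) / k| :=
          mul_le_mul_of_nonneg_left (h4.trans h1) (by positivity)
      _ = 2 * (k / 4 * |β / π - ((2 * j * k + 4 * m : ℤ) : ℝ) / k|) := by ring
  refine ⟨α, sin (α / 2), sin (α / 2) ^ 2, 2 / c, τ₀, ?_, hsinα.ne', ?_⟩
  · refine ⟨rfl, rfl, hs, abs_pos.mpr hsinα.ne', by positivity, ?_, ?_⟩
    · intro k hk0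
      have h1 := key (k + 1) (Nat.succ_pos k)
      rw [hk0, abs_zero] at h1
      have : 0 < c / 2 / ((k + 1 : ℕ) : ℝ) ^ τ₀ := by positivity
      linarith
    · intro k
      have h1 := key (k + 1) (Nat.succ_pos k)
      have h2 : 0 < c / 2 / ((k + 1 : ℕ) : ℝ) ^ τ₀ := by positivity
      rw [abs_inv]
      calc |sin (((k + 1 : ℕ) : ℝ) * (α / 2))|⁻¹ ≤ (c / 2 / ((k + 1 : ℕ) : ℝ) ^ τ₀)⁻¹ :=
            inv_anti₀ h2 h1
        _ = 2 / c * ((k + 1 : ℕ) : ℝ) ^ τ₀ := by field_simp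
  · have h1 : (((2 * α : ℝ) : ℂ) * Complex.I) = (β : ℂ) * Complex.I - (j : ℂ) * (2 * π * Complex.I) := by
      rw [hα]
      push_cast
      ring
    rw [h1, Complex.exp_sub, Complex.exp_int_mul_two_pi_mul_I, div_one]

lemma diophantine_sqrt_two : Diophantine (√2) := by
  refine ⟨1 / 4, by norm_num, 2, fun p q hq => ?_⟩
  have hq0 : (0 : ℝ) < q := by exact_mod_cast hq
  have hq1 : (1 : ℝ) ≤ q := by exact_mod_cast hq
  rw [rpow_ofNat]
  by_contra hcon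
  rw [not_le] at hcon
  have hs2 : √2 ^ 2 = 2 := Real.sq_sqrt (by norm_num)
  have hs0 : 0 ≤ √2 := Real.sqrt_nonneg 2
  have hs3 : √2 ≤ 3 / 2 := by nlinarith
  have h1 : (1 / 4) / (q : ℝ) ^ 2 ≤ 1 / 4 := div_le_self (by norm_num) (one_le_pow₀ hq1)
  have h2 : |√2 + p / q| < 4 := by
    have h3 := abs_lt.mp (hcon.trans_le h1)
    rw [abs_lt]
    constructor <;> linarith
  have h4 : |(2 : ℝ) - (p / q) ^ 2| < 1 / (q : ℝ) ^ 2 := by
    have e : (2 : ℝ) - (p / q) ^ 2 = (√2 - p / q) * (√2 + p / q) := by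
      linear_combination -hs2
    rw [e, abs_mul]
    have h5 : 0 ≤ |√2 - p / q| := abs_nonneg _
    have h6 : 0 ≤ |√2 + p / q| := abs_nonneg _
    have h7 : (1 / 4) / (q : ℝ) ^ 2 * 4 = 1 / (q : ℝ) ^ 2 := by ring
    have h8 : 0 < (1 / 4) / (q : ℝ) ^ 2 := by positivity
    nlinarith
  have h9 : |(2 * (q : ℤ) ^ 2 - p ^ 2 : ℤ)| < 1 := by
    have h10 : |(2 : ℝ) * q ^ 2 - p ^ 2| < 1 := by
      have e : (2 : ℝ) * q ^ 2 - p ^ 2 = (2 - (p / q) ^ 2) * q ^ 2 := by field_simp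
      rw [e, abs_mul, abs_of_pos (by positivity : (0 : ℝ) < q ^ 2)]
      rwa [lt_div_iff₀ (by positivity)] at h4
    exact_mod_cast h10
  have h11 : 2 * (q : ℤ) ^ 2 - p ^ 2 = 0 := Int.abs_lt_one_iff.mp h9
  have h12 : √2 = |(p : ℝ)| / q := by
    have h13 : (2 : ℝ) = (|(p : ℝ)| / q) ^ 2 := by
      rw [div_pow, sq_abs, eq_div_iff (by positivity)]
      have : (2 * (q : ℝ) ^ 2 - p ^ 2) = 0 := by exact_mod_cast h11
      linarith
    rw [show √2 = √((|(p : ℝ)| / q) ^ 2) by rw [← h13], Real.sqrt_sq (by positivity)]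
  apply irrational_sqrt_two
  refine ⟨|p| / q, ?_⟩
  rw [h12]
  push_cast
  rfl

/-- Main theorem. -/
theorem main_theorem (β : ℝ) (hβ : Diophantine (β / π)) :
    ∃ Ω : Set ℂ, IsSymmetricOval Ω ∧ ∃ T : Phase Ω → Phase Ω, IsBilliardMap Ω T
      ∧ LocallyConjugateToRotation Ω T β := by
  obtain ⟨α, s, κ, Γ₀, τ₀, D, hsin, hexp⟩ := exists_Dio hβ
  obtain ⟨c, ϱ, a, R⟩ := exists_Red D
  exact ⟨Dom ϱ κ, symmetricOval_Dom R.curv, conj_of_Red R hsin hexp⟩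

end Helper43.Billiard
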