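import Pool.Agent.Helper43_Billiard.Solve

set_option autoImplicit false

/-! # The formal Newton step -/

namespace Helper43.Billiard

open PowerSeries Finset Real

/-- The class of unknown functions `A`. -/
structure FamA (K : ℕ) (A : Fam) : Prop where
  cls : Cls K 0 A
  X_dvd : ∀ φ, (X : ℝ⟦X⟧) ∣ A φ
  odd : ∀ φ, A (-φ) = -A φ
  anti : ∀ φ, A (φ + π) = -A φ
  rodd : ∀ φ, OddS (A φ)

lemma FamA.anti' {K : ℕ} {A : Fam} (hA : FamA K A) (φ : ℝ) : A (φ - π) = -A φ := by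
  have := hA.anti (φ - π)
  rw [sub_add_cancel] at this
  rw [this, neg_neg]

/-- Euler-Lagrange expression -/
noncomputable def EL (α κ : ℝ) (Cc Vc h : ℝ⟦X⟧) (A : Fam) : Fam := fun φ =>
  S1 κ Cc Vc h (A φ) (A (φ + α)) + S2 κ Cc Vc h (A (φ - α)) (A φ)

/-- Jacobi operator -/
noncomputable def Lin (α κ : ℝ) (Cc Vc h : ℝ⟦X⟧) (A v : Fam) : Fam := fun φ =>
  S11 κ Cc Vc h (A φ) (A (φ + α)) * v φ + S12 κ Cc Vc h (A φ) (A (φ + α)) * v (φ + α)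
    + S12 κ Cc Vc h (A (φ - α)) (A φ) * v (φ - α) + S22 κ Cc Vc h (A (φ - α)) (A φ) * v φ

variable {α κ : ℝ} {Cc Vc h : ℝ⟦X⟧} {A v : Fam} {K : ℕ}

lemma Cls_EL (hA : Cls K 0 A) : Cls K 0 (EL α κ Cc Vc h A) :=
  (Cls_S1 hA (hA.shift α)).add (Cls_S2 (hA.shift' α) hA)

lemma EL_taylor {n : ℕ} (hn : 1 ≤ n) (hA : ∀ φ, (X : ℝ⟦X⟧) ∣ A φ)
    (hv : ∀ φ, (X : ℝ⟦X⟧) ^ n ∣ v φ) (φ : ℝ) :
    (X : ℝ⟦X⟧) ^ (2 * n) ∣ EL α κ Cc Vc h (A + v) φ - EL α κ Cc Vc h A φ - Lin α κ Cc Vc h A v φ := by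
  have h1 := S1_taylor (κ := κ) (Cc := Cc) (Vc := Vc) (h := h) hn (hA φ) (hA (φ + α)) (hv φ) (hv (φ + α))
  have h2 := S2_taylor (κ := κ) (Cc := Cc) (Vc := Vc) (h := h) hn (hA (φ - α)) (hA φ) (hv (φ - α)) (hv φ)
  refine (h1.add h2).trans (dvd_of_eq ?_)
  simp only [EL, Lin, Pi.add_apply]
  ring

lemma Dr_EL (hA : ∀ φ, (X : ℝ⟦X⟧) ∣ A φ) (φ : ℝ) :
    Dr (EL α κ Cc Vc h A φ) = Lin α κ Cc Vc h A (fun φ => Dr (A φ)) φ := by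
  rw [EL, Dr_add, Dr_S1 (hA _) (hA _), Dr_S2 (hA _) (hA _), Lin]
  ring

lemma Dp_EL (hA : Cls K 0 A) (hX : ∀ φ, (X : ℝ⟦X⟧) ∣ A φ) (φ : ℝ) :
    Dp (EL α κ Cc Vc h A) φ = Lin α κ Cc Vc h A (Dp A) φ := by
  have e : EL α κ Cc Vc h A = (fun φ => S1 κ Cc Vc h (A φ) (A (φ + α)))
      + fun φ => S2 κ Cc Vc h (A (φ - α)) (A φ) := rfl
  have e2 : (fun φ => A (φ - α)) = fun φ => A (φ + -α) := by
    funext φ; rw [sub_eq_add_neg]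
  rw [e, Dp_add (Cls_S1 hA (hA.shift α)) (Cls_S2 (hA.shift' α) hA),
    Dp_S1 hA (hA.shift α) hX (fun φ => hX _), Dp_S2 (hA.shift' α) hA (fun φ => hX _) hX,
    Dp_shift, Pi.add_apply, Lin, e2, Dp_shift]
  simp only [← sub_eq_add_neg]
  ring

/-- parity of `EL` -/
lemma EL_odd (hC : EvenS Cc) (hV : EvenS Vc) (hA : ∀ φ, A (-φ) = -A φ) (φ : ℝ) :
    EL α κ Cc Vc h A (-φ) = -EL α κ Cc Vc h A φ := by
  have h1 : A (-φ + α) = -A (φ - α) := by rw [← hA]; congr 1; ring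
  have h2 : A (-φ - α) = -A (φ + α) := by rw [← hA]; congr 1; ring
  rw [EL, EL, h1, h2, hA, S1_neg_swap hC hV, S2_neg_swap hC hV]
  ring

lemma EL_anti (hC : EvenS Cc) (hV : EvenS Vc) (hh : EvenS h) (hA : ∀ φ, A (φ + π) = -A φ) (φ : ℝ) :
    EL α κ Cc Vc h A (φ + π) = -EL α κ Cc Vc h A φ := by
  have h1 : A (φ + π + α) = -A (φ + α) := by rw [← hA]; congr 1; ring
  have h2 : A (φ + π - α) = -A (φ - α) := by rw [← hA]; congr 1; ring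
  rw [EL, EL, h1, h2, hA, S1_neg_neg hC hV hh, S2_neg_neg hC hV hh]
  ring

lemma EL_rodd (hC : EvenS Cc) (hV : EvenS Vc) (hh : EvenS h) (hA : ∀ φ, OddS (A φ)) (φ : ℝ) :
    OddS (EL α κ Cc Vc h A φ) := by
  unfold OddS
  rw [EL, map_add, rescale_S1, rescale_S2, hA, hA, hA, S1_neg_neg hC hV hh, S2_neg_neg hC hV hh]
  ring

lemma EL_add (k : ℝ⟦X⟧) (φ : ℝ) :
    EL α κ Cc Vc (h + k) A φ = EL α κ Cc Vc h A φ + EL α 0 Cc Vc k A φ := by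
  rw [EL, EL, EL, S1_add, S2_add]
  ring

/-- `EL` of families congruent modulo `X ^ n` -/
lemma S1_congr {n : ℕ} {u v u' v' : ℝ⟦X⟧} (hu : (X : ℝ⟦X⟧) ∣ u) (hv : (X : ℝ⟦X⟧) ∣ v)
    (hu' : (X : ℝ⟦X⟧) ∣ u') (hv' : (X : ℝ⟦X⟧) ∣ v') (h1 : (X : ℝ⟦X⟧) ^ n ∣ u - u')
    (h2 : (X : ℝ⟦X⟧) ^ n ∣ v - v') :
    (X : ℝ⟦X⟧) ^ n ∣ S1 κ Cc Vc h u v - S1 κ Cc Vc h u' v' := by
  have hp := X_dvd_ps hu hv
  have hs := X_dvd_sg hu hv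
  have hp' := X_dvd_ps hu' hv'
  have hs' := X_dvd_sg hu' hv'
  have e1 : (X : ℝ⟦X⟧) ^ n ∣ ps u v - ps u' v' := by
    have : ps u v - ps u' v' = ps (u - u') (v - v') := by simp only [ps, smul_eq_C_mul]; ring
    rw [this]; exact X_pow_dvd_ps h1 h2
  have e2 : (X : ℝ⟦X⟧) ^ n ∣ sg u v - sg u' v' := by
    have : sg u v - sg u' v' = sg (u - u') (v - v') := by simp only [sg, smul_eq_C_mul]; ring
    rw [this]; exact X_pow_dvd_sg h1 h2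
  obtain ⟨r1, hr1⟩ := comp_congr_right (g := d⁄dX ℝ h) hp hp' e1
  obtain ⟨r2, hr2⟩ := comp_congr_right (g := Cc) hs hs' e2
  obtain ⟨r3, hr3⟩ := comp_congr_right (g := h) hp hp' e1
  obtain ⟨r4, hr4⟩ := comp_congr_right (g := d⁄dX ℝ Cc) hs hs' e2
  obtain ⟨r5, hr5⟩ := comp_congr_right (g := d⁄dX ℝ Vc) hs hs' e2
  refine ⟨comp (d⁄dX ℝ h) (ps u v) * r2 + r1 * comp Cc (sg u' v') + comp h (ps u v) * r4
    + r3 * comp (d⁄dX ℝ Cc) (sg u' v') - C κ * r5, ?_⟩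
  simp only [S1, smul_eq_C_mul]
  linear_combination comp (d⁄dX ℝ h) (ps u v) * hr2 + comp Cc (sg u' v') * hr1
    + comp h (ps u v) * hr4 + comp (d⁄dX ℝ Cc) (sg u' v') * hr3 - C κ * hr5

lemma S2_congr {n : ℕ} {u v u' v' : ℝ⟦X⟧} (hu : (X : ℝ⟦X⟧) ∣ u) (hv : (X : ℝ⟦X⟧) ∣ v)
    (hu' : (X : ℝ⟦X⟧) ∣ u') (hv' : (X : ℝ⟦X⟧) ∣ v') (h1 : (X : ℝ⟦X⟧) ^ n ∣ u - u')
    (h2 : (X : ℝ⟦X⟧) ^ n ∣ v - v') :
    (X : ℝ⟦X⟧) ^ n ∣ S2 κ Cc Vc h u v - S2 κ Cc Vc h u' v' := by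
  have hp := X_dvd_ps hu hv
  have hs := X_dvd_sg hu hv
  have hp' := X_dvd_ps hu' hv'
  have hs' := X_dvd_sg hu' hv'
  have e1 : (X : ℝ⟦X⟧) ^ n ∣ ps u v - ps u' v' := by
    have : ps u v - ps u' v' = ps (u - u') (v - v') := by simp only [ps, smul_eq_C_mul]; ring
    rw [this]; exact X_pow_dvd_ps h1 h2
  have e2 : (X : ℝ⟦X⟧) ^ n ∣ sg u v - sg u' v' := by
    have : sg u v - sg u' v' = sg (u - u') (v - v') := by simp only [sg, smul_eq_C_mul]; ring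
    rw [this]; exact X_pow_dvd_sg h1 h2
  obtain ⟨r1, hr1⟩ := comp_congr_right (g := d⁄dX ℝ h) hp hp' e1
  obtain ⟨r2, hr2⟩ := comp_congr_right (g := Cc) hs hs' e2
  obtain ⟨r3, hr3⟩ := comp_congr_right (g := h) hp hp' e1
  obtain ⟨r4, hr4⟩ := comp_congr_right (g := d⁄dX ℝ Cc) hs hs' e2
  obtain ⟨r5, hr5⟩ := comp_congr_right (g := d⁄dX ℝ Vc) hs hs' e2
  refine ⟨-(comp (d⁄dX ℝ h) (ps u v) * r2 + r1 * comp Cc (sg u' v')) + comp h (ps u v) * r4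
    + r3 * comp (d⁄dX ℝ Cc) (sg u' v') - C κ * r5, ?_⟩
  simp only [S2, smul_eq_C_mul]
  linear_combination -(comp (d⁄dX ℝ h) (ps u v)) * hr2 - comp Cc (sg u' v') * hr1
    + comp h (ps u v) * hr4 + comp (d⁄dX ℝ Cc) (sg u' v') * hr3 - C κ * hr5

lemma EL_congr {n : ℕ} {A' : Fam} (hA : ∀ φ, (X : ℝ⟦X⟧) ∣ A φ) (hA' : ∀ φ, (X : ℝ⟦X⟧) ∣ A' φ)
    (hAA : ∀ φ, (X : ℝ⟦X⟧) ^ n ∣ A φ - A' φ) (φ : ℝ) :
    (X : ℝ⟦X⟧) ^ n ∣ EL α κ Cc Vc h A φ - EL α κ Cc Vc h A' φ := by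
  have h1 := S1_congr (κ := κ) (Cc := Cc) (Vc := Vc) (h := h) (hA φ) (hA (φ + α)) (hA' φ)
    (hA' (φ + α)) (hAA φ) (hAA (φ + α))
  have h2 := S2_congr (κ := κ) (Cc := Cc) (Vc := Vc) (h := h) (hA (φ - α)) (hA φ) (hA' (φ - α))
    (hA' φ) (hAA (φ - α)) (hAA φ)
  refine (h1.add h2).trans (dvd_of_eq ?_)
  simp only [EL]
  ring

/-- order of `S1, S2` in `h` -/
lemma EL_dvd_of_dvd {n : ℕ} {k : ℝ⟦X⟧} (hk : (X : ℝ⟦X⟧) ^ (n + 1) ∣ k) (φ : ℝ) :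
    (X : ℝ⟦X⟧) ^ n ∣ EL α 0 Cc Vc k A φ := by
  have hk1 : (X : ℝ⟦X⟧) ^ n ∣ k := (pow_dvd_pow X (Nat.le_succ n)).trans hk
  have hk2 : (X : ℝ⟦X⟧) ^ n ∣ d⁄dX ℝ k := by
    rw [X_pow_dvd_iff] at hk ⊢
    intro m hm
    rw [coeff_derivative, hk (m + 1) (by omega), zero_mul]
  have hS1 : ∀ u v, (X : ℝ⟦X⟧) ^ n ∣ S1 0 Cc Vc k u v := by
    intro u v
    rw [S1, zero_smul, sub_zero]
    exact ((comp_dvd_of_dvd hk2).mul_right _).add ((comp_dvd_of_dvd hk1).mul_right _)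
  have hS2 : ∀ u v, (X : ℝ⟦X⟧) ^ n ∣ S2 0 Cc Vc k u v := by
    intro u v
    rw [S2, zero_smul, sub_zero]
    exact (dvd_neg.mpr ((comp_dvd_of_dvd hk2).mul_right _)).add ((comp_dvd_of_dvd hk1).mul_right _)
  exact (hS1 _ _).add (hS2 _ _)

/-- Wronskian -/
noncomputable def Wr (α κ : ℝ) (Cc Vc h : ℝ⟦X⟧) (A p q : Fam) : Fam := fun φ =>
  S12 κ Cc Vc h (A φ) (A (φ + α)) * (p φ * q (φ + α) - q φ * p (φ + α))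

lemma Wr_diff (p q : Fam) (φ : ℝ) :
    Wr α κ Cc Vc h A p q φ - Wr α κ Cc Vc h A p q (φ - α)
      = p φ * Lin α κ Cc Vc h A q φ - q φ * Lin α κ Cc Vc h A p φ := by
  simp only [Wr, Lin, sub_add_cancel]
  ring

lemma isUnit_of_constantCoeff {w : ℝ⟦X⟧} (hw : constantCoeff w ≠ 0) : IsUnit w :=
  isUnit_iff_constantCoeff.mpr (isUnit_iff_ne_zero.mpr hw)

lemma dvd_cancel {m : ℕ} {w f : ℝ⟦X⟧} (hw : constantCoeff w ≠ 0)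
    (h : (X : ℝ⟦X⟧) ^ (m + 2) ∣ X ^ 2 * w * f) : (X : ℝ⟦X⟧) ^ m ∣ f := by
  rw [add_comm, pow_add, mul_assoc] at h
  have h2 := (mul_dvd_mul_iff_left (pow_ne_zero 2 X_ne_zero)).mp h
  exact ((isUnit_of_constantCoeff hw).dvd_mul_left).mp h2

/-- The algebraic heart of the Newton step. -/
lemma newton_algebra {n : ℕ} (hn : 2 ≤ n) {F p q x y : Fam} {w : ℝ⟦X⟧}
    (hw : constantCoeff w ≠ 0)
    (hp : ∀ φ, (X : ℝ⟦X⟧) ∣ p φ) (hq : ∀ φ, (X : ℝ⟦X⟧) ∣ q φ)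
    (hF : ∀ φ, (X : ℝ⟦X⟧) ^ n ∣ F φ)
    (hLp : ∀ φ, (X : ℝ⟦X⟧) ^ n ∣ Lin α κ Cc Vc h A p φ)
    (hLq : ∀ φ, (X : ℝ⟦X⟧) ^ n ∣ Lin α κ Cc Vc h A q φ)
    (hW : ∀ φ, (X : ℝ⟦X⟧) ^ (n + 1) ∣ Wr α κ Cc Vc h A p q φ - X ^ 2 * w)
    (hx : ∀ φ, (X : ℝ⟦X⟧) ^ (n - 1) ∣ x φ) (hy : ∀ φ, (X : ℝ⟦X⟧) ^ (n - 1) ∣ y φ)
    (hx2 : ∀ φ, (X : ℝ⟦X⟧) ^ (2 * n) ∣ X ^ 2 * w * (x (φ + α / 2) - x (φ - α / 2)) - F φ * q φ)
    (hy2 : ∀ φ, (X : ℝ⟦X⟧) ^ (2 * n) ∣ X ^ 2 * w * (y (φ + α / 2) - y (φ - α / 2)) + F φ * p φ)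
    (φ : ℝ) :
    (X : ℝ⟦X⟧) ^ (2 * n - 1) ∣ Lin α κ Cc Vc h A (fun φ => (1 / 2 : ℝ) •
      ((x (φ + α / 2) + x (φ - α / 2)) * p φ + (y (φ + α / 2) + y (φ - α / 2)) * q φ)) φ + F φ := by
  -- the defect of the constraint
  have hD : ∀ φ, (X : ℝ⟦X⟧) ^ (2 * n - 1) ∣ (x (φ + α / 2) - x (φ - α / 2)) * p φ
      + (y (φ + α / 2) - y (φ - α / 2)) * q φ := by
    intro φ
    apply dvd_cancel hw
    rw [show 2 * n - 1 + 2 = 2 * n + 1 by omega, pow_succ]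
    have h1 := mul_dvd_mul (hx2 φ) (hp φ)
    have h2 := mul_dvd_mul (hy2 φ) (hq φ)
    refine (h1.add h2).trans (dvd_of_eq ?_)
    ring
  -- the main term
  have hM : (X : ℝ⟦X⟧) ^ (2 * n - 1) ∣ S12 κ Cc Vc h (A (φ - α)) (A φ)
      * ((x (φ + α / 2) - x (φ - α / 2)) * p (φ - α) + (y (φ + α / 2) - y (φ - α / 2)) * q (φ - α))
      - F φ := by
    apply dvd_cancel hw
    rw [show 2 * n - 1 + 2 = 2 * n + 1 by omega]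
    obtain ⟨r1, h1⟩ := (pow_succ (X : ℝ⟦X⟧) (2 * n)) ▸ mul_dvd_mul (hx2 φ) (hp (φ - α))
    obtain ⟨r2, h2⟩ := (pow_succ (X : ℝ⟦X⟧) (2 * n)) ▸ mul_dvd_mul (hy2 φ) (hq (φ - α))
    obtain ⟨r3, h3⟩ : (X : ℝ⟦X⟧) ^ (2 * n + 1) ∣ F φ * (Wr α κ Cc Vc h A p q (φ - α) - X ^ 2 * w) := by
      rw [show 2 * n + 1 = n + (n + 1) by ring, pow_add]
      exact mul_dvd_mul (hF φ) (hW (φ - α))
    refine ⟨S12 κ Cc Vc h (A (φ - α)) (A φ) * (r1 + r2) + r3, ?_⟩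
    simp only [Wr, sub_add_cancel] at h3
    linear_combination S12 κ Cc Vc h (A (φ - α)) (A φ) * h1 + S12 κ Cc Vc h (A (φ - α)) (A φ) * h2 + h3
  -- products of small terms
  have hX1 : (X : ℝ⟦X⟧) ^ (2 * n - 1) ∣ x (φ + α / 2) * Lin α κ Cc Vc h A p φ := by
    rw [show 2 * n - 1 = (n - 1) + n by omega, pow_add]
    exact mul_dvd_mul (hx _) (hLp φ)
  have hY1 : (X : ℝ⟦X⟧) ^ (2 * n - 1) ∣ y (φ + α / 2) * Lin α κ Cc Vc h A q φ := by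
    rw [show 2 * n - 1 = (n - 1) + n by omega, pow_add]
    exact mul_dvd_mul (hy _) (hLq φ)
  have hD0 := hD φ
  have hDp := hD (φ + α)
  have hDm := hD (φ - α)
  have e1 : φ + α - α / 2 = φ + α / 2 := by ring
  have e2 : φ - α + α / 2 = φ - α / 2 := by ring
  rw [e1] at hDp
  rw [e2] at hDm
  obtain ⟨r0, h0⟩ := hD0
  obtain ⟨rp, hp'⟩ := hDp
  obtain ⟨rm, hm'⟩ := hDm
  obtain ⟨rM, hM'⟩ := hM
  obtain ⟨rX, hX'⟩ := hX1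
  obtain ⟨rY, hY'⟩ := hY1
  have h2 : (C (1 / 2 : ℝ) : ℝ⟦X⟧) * 2 = 1 := by
    rw [show (2 : ℝ⟦X⟧) = C (2 : ℝ) from (map_ofNat C 2).symm, ← map_mul]
    norm_num
  refine ⟨rX + rY - rM - C (1 / 2) * ((S11 κ Cc Vc h (A φ) (A (φ + α)) + S22 κ Cc Vc h (A (φ - α)) (A φ)) * r0)
    + C (1 / 2) * (S12 κ Cc Vc h (A φ) (A (φ + α)) * rp)
    - C (1 / 2) * (S12 κ Cc Vc h (A (φ - α)) (A φ) * rm), ?_⟩
  simp only [Lin] at hX' hY'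
  simp only [Lin, smul_eq_C_mul]
  rw [e1, e2]
  linear_combination hX' + hY' - hM'
    - C (1 / 2) * (S11 κ Cc Vc h (A φ) (A (φ + α)) + S22 κ Cc Vc h (A (φ - α)) (A φ)) * h0
    + C (1 / 2) * S12 κ Cc Vc h (A φ) (A (φ + α)) * hp'
    - C (1 / 2) * S12 κ Cc Vc h (A (φ - α)) (A φ) * hm'
    + (S11 κ Cc Vc h (A φ) (A (φ + α)) * x (φ + α / 2) * p φ
      + S11 κ Cc Vc h (A φ) (A (φ + α)) * y (φ + α / 2) * q φ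
      + x (φ + α / 2) * p φ * S22 κ Cc Vc h (A (φ - α)) (A φ)
      + x (φ + α / 2) * S12 κ Cc Vc h (A φ) (A (φ + α)) * p (φ + α)
      + x (φ - α / 2) * S12 κ Cc Vc h (A (φ - α)) (A φ) * p (φ - α)
      + y (φ + α / 2) * q φ * S22 κ Cc Vc h (A (φ - α)) (A φ)
      + y (φ + α / 2) * S12 κ Cc Vc h (A φ) (A (φ + α)) * q (φ + α)
      + y (φ - α / 2) * S12 κ Cc Vc h (A (φ - α)) (A φ) * q (φ - α)) * h2

end Helper43.Billiard
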