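import Pool.Agent.Helper43_Billiard.Eval

set_option autoImplicit false

/-! # The real functional equation -/

namespace Helper43.Billiard

open PowerSeries Finset Real

lemma Cs_hasSum (δ x : ℝ) : HasSum (fun m => coeff m (Cs δ) * x ^ m) (cos (δ * x)) := by
  have hinj : Function.Injective (fun n : ℕ => 2 * n) := fun a b h => by
    simpa using h
  rw [← hinj.hasSum_iff]
  · convert Real.hasSum_cos (δ * x) using 1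
    funext n
    simp only [Function.comp, Cs, coeff_mk]
    rw [if_pos (even_two_mul n), Nat.mul_div_cancel_left n (by norm_num : 0 < 2), mul_pow]
    ring
  · intro m hm
    have : ¬ Even m := by
      rintro ⟨k, hk⟩
      exact hm ⟨k, by simp only; omega⟩
    rw [coeff_Cs_odd δ this, zero_mul]

lemma ev_Cs (δ x : ℝ) : ev (Cs δ) x = cos (δ * x) := (Cs_hasSum δ x).tsum_eq

variable {α s κ ρ η δ : ℝ} {Cc Vc h : ℝ⟦X⟧} {A : Fam} {K : ℕ}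

lemma Par.bdC (hP : Par δ Cc Vc) : Bd 2 Cc (1 + δ) := by
  have := (Bd.one (by norm_num : (0 : ℝ) ≤ 2)).add hP.c0 (by norm_num)
  rwa [add_sub_cancel] at this

lemma ev_dCs (hδ : 0 ≤ δ) (hδ1 : δ ≤ 1 / 64) {x : ℝ} (hx : |x| < 2) :
    ev (d⁄dX ℝ (Cs δ)) x = -δ * sin (δ * x) := by
  have hP := Par_Cs_Vs hδ hδ1
  have h1 := hasDerivAt_ev hP.bdC hP.c1 hx
  have h2 : HasDerivAt (ev (Cs δ)) (-δ * sin (δ * x)) x := by
    have : ev (Cs δ) = fun x => cos (δ * x) := funext (ev_Cs δ)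
    rw [this]
    have h3 : HasDerivAt (fun y => δ * y) δ x := by
      simpa using (hasDerivAt_id x).const_mul δ
    have h4 := h3.cos
    convert h4 using 1
    ring
  exact h1.unique h2

lemma dVs_eq (hδ : δ ≠ 0) : d⁄dX ℝ (Vs δ) = (-1 / δ ^ 2) • d⁄dX ℝ (Cs δ) := by
  ext m
  rw [coeff_smul, smul_eq_mul, coeff_derivative, coeff_derivative]
  rcases m with _ | m
  · rw [coeff_Vs_odd δ (by decide), coeff_Cs_odd δ (by decide)]; ring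
  · rw [Vs, Cs, coeff_mk, coeff_mk, if_neg (Nat.succ_ne_zero (m + 1))]
    split_ifs with h1
    · have h3 : m + 1 + 1 - 2 = m := by omega
      rw [h3, pow_succ (-1 : ℝ) ((m + 1 + 1) / 2), pow_succ δ (m + 1), pow_succ δ m]
      field_simp
    · ring

lemma ev_dVs (hδ : 0 < δ) (hδ1 : δ ≤ 1 / 64) {x : ℝ} (hx : |x| < 2) :
    ev (d⁄dX ℝ (Vs δ)) x = sin (δ * x) / δ := by
  rw [dVs_eq hδ.ne', ev_smul, ev_dCs hδ.le hδ1 hx]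
  field_simp

/-- the local support function and its derivatives -/
noncomputable def hr (κ δ : ℝ) (h : ℝ⟦X⟧) (ψ : ℝ) : ℝ := κ + δ ^ 2 * ev h (ψ / δ)
noncomputable def hr1 (δ : ℝ) (h : ℝ⟦X⟧) (ψ : ℝ) : ℝ := δ * ev (d⁄dX ℝ h) (ψ / δ)
noncomputable def hr2 (δ : ℝ) (h : ℝ⟦X⟧) (ψ : ℝ) : ℝ := ev (d⁄dX ℝ (d⁄dX ℝ h)) (ψ / δ)

/-- the angle function in polar coordinates -/
noncomputable def aR (δ : ℝ) (A : Fam) (r φ : ℝ) : ℝ := δ * ev (A φ) r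

lemma ev_ps {u v : ℝ⟦X⟧} {M M' r : ℝ} (hu : Bd ρ u M) (hv : Bd ρ v M') (hr : |r| ≤ ρ) :
    ev (ps u v) r = 1 / 2 * (ev u r - ev v r) := by
  rw [ps, ev_smul, ev_sub hu hv hr]

lemma ev_sg {u v : ℝ⟦X⟧} {M M' r : ℝ} (hu : Bd ρ u M) (hv : Bd ρ v M') (hr : |r| ≤ ρ) :
    ev (sg u v) r = 1 / 2 * (ev u r + ev v r) := by
  rw [sg, ev_smul, ev_add hu hv hr]

lemma ev_S (hP : Par δ Cc Vc) {u v : ℝ⟦X⟧} (hu : (X : ℝ⟦X⟧) ∣ u) (hv : (X : ℝ⟦X⟧) ∣ v)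
    {r₀ M₀ M₁ r : ℝ} (hp : Bd ρ (ps u v) r₀) (hs : Bd ρ (sg u v) 2) (hh : Bd r₀ h M₀)
    (hh1 : Bd r₀ (d⁄dX ℝ h) M₁) (hr : |r| ≤ ρ) :
    (∃ M, Bd ρ (S1 κ Cc Vc h u v) M) ∧ (∃ M, Bd ρ (S2 κ Cc Vc h u v) M)
    ∧ ev (S1 κ Cc Vc h u v) r = ev (d⁄dX ℝ h) (ev (ps u v) r) * ev Cc (ev (sg u v) r)
        + ev h (ev (ps u v) r) * ev (d⁄dX ℝ Cc) (ev (sg u v) r) - κ * ev (d⁄dX ℝ Vc) (ev (sg u v) r)
    ∧ ev (S2 κ Cc Vc h u v) r = -(ev (d⁄dX ℝ h) (ev (ps u v) r) * ev Cc (ev (sg u v) r))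
        + ev h (ev (ps u v) r) * ev (d⁄dX ℝ Cc) (ev (sg u v) r) - κ * ev (d⁄dX ℝ Vc) (ev (sg u v) r) := by
  have hρ : 0 ≤ ρ := (abs_nonneg r).trans hr
  have hXp := X_dvd_ps hu hv
  have hXs := X_dvd_sg hu hv
  have bV : Bd 2 (d⁄dX ℝ Vc) (2 + δ) := by
    have := (Bd.X (by norm_num : (0 : ℝ) ≤ 2)).add hP.v1 (by norm_num)
    rwa [add_sub_cancel] at this
  have t1 := Bd.comp hρ hXp hp hh1
  have t2 := Bd.comp hρ hXs hs hP.bdC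
  have t3 := Bd.comp hρ hXp hp hh
  have t4 := Bd.comp hρ hXs hs hP.c1
  have t5 := Bd.comp hρ hXs hs bV
  have m1 := t1.mul t2 hρ
  have m3 := t3.mul t4 hρ
  have m5 := t5.smul κ
  have e1 := ev_comp hp hXp hh1 hr
  have e2 := ev_comp hs hXs hP.bdC hr
  have e3 := ev_comp hp hXp hh hr
  have e4 := ev_comp hs hXs hP.c1 hr
  have e5 := ev_comp hs hXs bV hr
  refine ⟨⟨_, (m1.add m3 hρ).sub m5 hρ⟩, ⟨_, (m1.neg.add m3 hρ).sub m5 hρ⟩, ?_, ?_⟩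
  · rw [S1, ev_sub (m1.add m3 hρ) m5 hr, ev_add m1 m3 hr, ev_mul t1 t2 hr, ev_mul t3 t4 hr, ev_smul,
      e1, e2, e3, e4, e5]
  · rw [S2, ev_sub (m1.neg.add m3 hρ) m5 hr, ev_add m1.neg m3 hr, ev_neg, ev_mul t1 t2 hr,
      ev_mul t3 t4 hr, ev_smul, e1, e2, e3, e4, e5]

lemma FSol.X_dvd {η : ℝ} (S : FSol α s κ δ η A h) (φ : ℝ) : (X : ℝ⟦X⟧) ∣ A φ := by
  have h1 := (dvd_pow_self (X : ℝ⟦X⟧) (show 3 ≠ 0 by norm_num)).trans (S.lead φ)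
  have h2 := h1.add (FamA_A0.X_dvd φ)
  rwa [sub_add_cancel] at h2

lemma Bd_A_one {η : ℝ} (N : Num α s κ (1 / 2) η δ) (S : FSol α s κ δ η A h) (φ : ℝ) :
    Bd (1 / 2) (A φ) 1 := by
  have h1 := (Bd_A0 N.ρpos.le φ).add (S.ctl.a0 φ) N.ρpos.le
  rw [add_sub_cancel] at h1
  exact h1.mono (by linarith [N.ηle])

lemma Bd_dh {η : ℝ} (N : Num α s κ (1 / 2) η δ) (S : FSol α s κ δ η A h) :
    Bd (s * (1 / 2)) (d⁄dX ℝ h) 2 := by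
  have h1 := ((Bd.C N.sρpos.le (1 - κ)).mul (Bd.X N.sρpos.le) N.sρpos.le).add S.ctl.h1 N.sρpos.le
  rw [add_sub_cancel] at h1
  refine h1.mono ?_
  rw [abs_of_nonneg (by linarith [N.κ1])]
  have h2 := N.sρpos
  have h3 := N.sρle
  have h4 := N.κ0
  nlinarith [N.ηle]

lemma Bd_ddh {η : ℝ} (N : Num α s κ (1 / 2) η δ) (S : FSol α s κ δ η A h) :
    Bd (s * (1 / 2)) (d⁄dX ℝ (d⁄dX ℝ h)) 2 := by
  have h1 := (Bd.C N.sρpos.le (1 - κ)).add S.ctl.h2 N.sρpos.le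
  rw [add_sub_cancel] at h1
  refine h1.mono ?_
  rw [abs_of_nonneg (by linarith [N.κ1])]
  linarith [N.ηle, N.κ0]

theorem real_EL {η : ℝ} (N : Num α s κ (1 / 2) η δ) (hδ : 0 < δ) (hδ1 : δ ≤ 1 / 64)
    (S : FSol α s κ δ η A h) {r : ℝ} (hr' : |r| ≤ 1 / 2) (φ : ℝ) :
    hr1 δ h ((aR δ A r φ - aR δ A r (φ + α)) / 2) * cos ((aR δ A r φ + aR δ A r (φ + α)) / 2)
      - hr κ δ h ((aR δ A r φ - aR δ A r (φ + α)) / 2) * sin ((aR δ A r φ + aR δ A r (φ + α)) / 2)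
    = hr1 δ h ((aR δ A r (φ - α) - aR δ A r φ) / 2) * cos ((aR δ A r (φ - α) + aR δ A r φ) / 2)
      + hr κ δ h ((aR δ A r (φ - α) - aR δ A r φ) / 2) * sin ((aR δ A r (φ - α) + aR δ A r φ) / 2) := by
  have hP := Par_Cs_Vs hδ.le hδ1
  have hX := S.X_dvd
  have hb := Bd_A_one N S
  have hp1 : Bd (1 / 2) (ps (A φ) (A (φ + α))) (s * (1 / 2)) := by
    rw [ps_eq_Psi]; exact bd_Psi N S.ctl _
  have hp2 : Bd (1 / 2) (ps (A (φ - α)) (A φ)) (s * (1 / 2)) := by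
    rw [ps_eq_Psi']; exact bd_Psi N S.ctl _
  obtain ⟨⟨M1, hM1⟩, -, e1, -⟩ := ev_S (κ := κ) hP (hX φ) (hX (φ + α)) hp1 (bd_sg N S.ctl _ _)
    (bd_h N S.ctl) (Bd_dh N S) hr'
  obtain ⟨-, ⟨M2, hM2⟩, -, e2⟩ := ev_S (κ := κ) hP (hX (φ - α)) (hX φ) hp2 (bd_sg N S.ctl _ _)
    (bd_h N S.ctl) (Bd_dh N S) hr'
  have h0 : ev (EL α κ (Cs δ) (Vs δ) h A φ) r = 0 := by rw [S.el φ, ev_zero]
  rw [EL, ev_add hM1 hM2 hr', e1, e2] at h0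
  set U := ev (A φ) r with hU
  set V := ev (A (φ + α)) r with hV
  set W := ev (A (φ - α)) r with hW
  have hU1 : |U| ≤ 1 := abs_ev_le (hb φ) hr'
  have hV1 : |V| ≤ 1 := abs_ev_le (hb _) hr'
  have hW1 : |W| ≤ 1 := abs_ev_le (hb _) hr'
  rw [abs_le] at hU1 hV1 hW1
  rw [ev_ps (hb φ) (hb (φ + α)) hr', ev_sg (hb φ) (hb (φ + α)) hr', ev_ps (hb (φ - α)) (hb φ) hr',
    ev_sg (hb (φ - α)) (hb φ) hr', ← hU, ← hV, ← hW] at h0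
  have l1 : |1 / 2 * (U + V)| < 2 := abs_lt.mpr ⟨by linarith, by linarith⟩
  have l2 : |1 / 2 * (W + U)| < 2 := abs_lt.mpr ⟨by linarith, by linarith⟩
  rw [ev_Cs, ev_dCs hδ.le hδ1 l1, ev_dVs hδ hδ1 l1, ev_Cs, ev_dCs hδ.le hδ1 l2, ev_dVs hδ hδ1 l2] at h0
  have a1 : (aR δ A r φ - aR δ A r (φ + α)) / 2 / δ = 1 / 2 * (U - V) := by
    rw [aR, aR, ← hU, ← hV]; field_simp
  have a2 : (aR δ A r (φ - α) - aR δ A r φ) / 2 / δ = 1 / 2 * (W - U) := by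
    rw [aR, aR, ← hU, ← hW]; field_simp
  have a3 : (aR δ A r φ + aR δ A r (φ + α)) / 2 = δ * (1 / 2 * (U + V)) := by
    rw [aR, aR, ← hU, ← hV]; ring
  have a4 : (aR δ A r (φ - α) + aR δ A r φ) / 2 = δ * (1 / 2 * (W + U)) := by
    rw [aR, aR, ← hU, ← hW]; ring
  rw [hr1, hr, hr1, hr, a1, a2, a3, a4]
  have hδ' := hδ.ne'
  have e3 : κ * (sin (δ * (1 / 2 * (U + V))) / δ) * δ = κ * sin (δ * (1 / 2 * (U + V))) := by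
    field_simp
  have e4 : κ * (sin (δ * (1 / 2 * (W + U))) / δ) * δ = κ * sin (δ * (1 / 2 * (W + U))) := by
    field_simp
  linear_combination δ * h0 + e3 + e4

end Helper43.Billiard
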