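import Pool.Agent.Helper43_Billiard.Func

set_option autoImplicit false

/-! # Solving the difference equation for families -/

namespace Helper43.Billiard

open PowerSeries Finset Real

/-- The non-resonance condition. -/
def NonRes (α : ℝ) : Prop := ∀ k : ℕ, sin ((k + 1 : ℕ) * (α / 2)) ≠ 0

lemma exists_fam_sol {α : ℝ} (hα : NonRes α) {K d : ℕ} {g : Fam} (hg : Cls K d g) (N : ℕ)
    (hint : ∀ m < N, ∫ φ in (0 : ℝ)..(2 * π), cf m g φ = 0) :
    ∃ x : Fam, Cls K d x ∧ (∀ φ, (X : ℝ⟦X⟧) ^ N ∣ x (φ + α / 2) - x (φ - α / 2) - g φ)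
      ∧ (∀ j : ℕ, (∀ φ, (X : ℝ⟦X⟧) ^ j ∣ g φ) → ∀ φ, (X : ℝ⟦X⟧) ^ j ∣ x φ)
      ∧ ((∀ φ, g (-φ) = -g φ) → ∀ φ, x (-φ) = x φ)
      ∧ ((∀ φ, g (-φ) = g φ) → ∀ φ, x (-φ) = -x φ)
      ∧ ((∀ φ, g (φ + π) = g φ) → ∀ φ, x (φ + π) = x φ)
      ∧ ((∀ φ, EvenS (g φ)) → ∀ φ, EvenS (x φ))
      ∧ (∀ ρ M Λ : ℝ, 0 < ρ → (∀ φ, Bd ρ (g φ) M) →
          (∀ k < (N + d) * K, |(sin ((k + 1 : ℕ) * (α / 2)))⁻¹| ≤ Λ) →
          ∀ φ, Bd ρ (x φ) (N * (2 * ((N + d) * K : ℕ) * M * Λ))) := by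
  classical
  have key : ∀ m, ∃ y : ℝ → ℝ, y ∈ TP ((m + d) * K) ∧ (m < N → ∀ φ, y (φ + α / 2) - y (φ - α / 2) = cf m g φ)
      ∧ (N ≤ m → y = 0)
      ∧ (∀ M Λ : ℝ, 0 ≤ M → 0 ≤ Λ → (∀ φ, |cf m g φ| ≤ M) →
        (∀ k < (m + d) * K, |(sin ((k + 1 : ℕ) * (α / 2)))⁻¹| ≤ Λ) →
        ∀ φ, |y φ| ≤ 2 * ((m + d) * K : ℕ) * M * Λ)
      ∧ ((∀ φ, cf m g (-φ) = -cf m g φ) → ∀ φ, y (-φ) = y φ)
      ∧ ((∀ φ, cf m g (-φ) = cf m g φ) → ∀ φ, y (-φ) = -y φ)
      ∧ ((∀ φ, cf m g (φ + π) = cf m g φ) → ∀ φ, y (φ + π) = y φ) := by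
    intro m
    by_cases hm : m < N
    · obtain ⟨y, h1, h2, h3, h4, h5, h6⟩ := exists_sol (hg m) (hint m hm) (fun k _ => hα k)
      exact ⟨y, h1, fun _ => h2, fun h => absurd h (by omega), fun M Λ _ _ => h3 M Λ, h4, h5, h6⟩
    · refine ⟨0, Submodule.zero_mem _, fun h => absurd h hm, fun _ => rfl, ?_, ?_, ?_, ?_⟩
      · intro M Λ hM hΛ _ _ φ
        simp only [Pi.zero_apply, abs_zero]
        positivity
      all_goals intro _ φ; simp
  choose y y1 y2 y3 y4 y5 y6 y7 using key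
  have hzero : ∀ m, (∀ φ, cf m g φ = 0) → ∀ φ, y m φ = 0 := by
    intro m hm φ
    obtain ⟨Λ, hΛ⟩ : ∃ Λ : ℝ, ∀ k < (m + d) * K, |(sin ((k + 1 : ℕ) * (α / 2)))⁻¹| ≤ Λ := by
      refine ⟨∑ k ∈ range ((m + d) * K), |(sin ((k + 1 : ℕ) * (α / 2)))⁻¹|, fun k hk => ?_⟩
      exact single_le_sum (f := fun k : ℕ => |(sin ((k + 1 : ℕ) * (α / 2)))⁻¹|)
        (fun _ _ => abs_nonneg _) (mem_range.mpr hk)
    have h := y4 m 0 (max Λ 0) (le_refl 0) (le_max_right _ _) (fun φ => by rw [hm φ]; simp)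
      (fun k hk => (hΛ k hk).trans (le_max_left _ _)) φ
    simp only [mul_zero, zero_mul] at h
    exact abs_eq_zero.mp (le_antisymm h (abs_nonneg _))
  let x : Fam := fun φ => mk fun m => y m φ
  have hx : ∀ m, cf m x = y m := by
    intro m
    ext φ
    simp [cf, x]
  have hcx : ∀ m φ, coeff m (x φ) = y m φ := fun m φ => by simp [x]
  refine ⟨x, ?_, ?_, ?_, ?_, ?_, ?_, ?_, ?_⟩
  · intro m
    rw [hx]
    exact y1 m
  · intro φ
    rw [X_pow_dvd_iff]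
    intro m hm
    rw [map_sub, map_sub, hcx, hcx, y2 m hm]
    simp [cf]
  · intro j hj φ
    rw [X_pow_dvd_iff]
    intro m hm
    rw [hcx]
    exact hzero m (fun φ => X_pow_dvd_iff.mp (hj φ) m hm) φ
  · intro h φ
    ext m
    rw [hcx, hcx]
    exact y5 m (fun φ => by simp only [cf, h, map_neg]) φ
  · intro h φ
    ext m
    rw [map_neg, hcx, hcx]
    exact y6 m (fun φ => by simp only [cf, h]) φ
  · intro h φ
    ext m
    rw [hcx, hcx]
    exact y7 m (fun φ => by simp only [cf, h]) φ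
  · intro h φ
    unfold EvenS
    ext m
    rw [coeff_rescale, hcx]
    rcases Nat.even_or_odd m with hm | hm
    · rw [hm.neg_one_pow, one_mul]
    · have hz : ∀ φ, cf m g φ = 0 := by
        intro φ
        have := congrArg (coeff m) (h φ)
        rw [coeff_rescale, hm.neg_one_pow] at this
        simp only [cf]
        linarith
      rw [hzero m hz φ, mul_zero]
  · intro ρ M Λ hρ hM hΛ φ
    have hM0 : 0 ≤ M := (hM 0).nonneg
    refine Bd.of_forall_coeff_le N hρ.le (fun m hm => ?_) (fun m hm => ?_)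
    · rw [hcx, y3 m hm]
      rfl
    · rw [hcx]
      have hsub : (m + d) * K ≤ (N + d) * K := Nat.mul_le_mul_right _ (by omega)
      have hpow := pow_pos hρ m
      have h1 : ∀ φ, |cf m g φ| ≤ M / ρ ^ m := by
        intro φ
        rw [le_div_iff₀ hpow]
        exact (hM φ).coeff_le hρ.le m
      by_cases hK : (m + d) * K = 0
      · -- no divisor at all
        have h2 := y4 m (M / ρ ^ m) 0 (div_nonneg hM0 hpow.le) (le_refl 0) h1
          (fun k hk => absurd hk (by omega)) φ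
        rw [mul_zero] at h2
        have h3 : y m φ = 0 := abs_eq_zero.mp (le_antisymm h2 (abs_nonneg _))
        rw [h3, abs_zero, zero_mul]
        by_cases hNK : (N + d) * K = 0
        · rw [hNK]; simp
        · have hΛ0 : 0 ≤ Λ := (abs_nonneg _).trans (hΛ 0 (by omega))
          positivity
      · have hΛ0 : 0 ≤ Λ := (abs_nonneg _).trans (hΛ 0 (by omega))
        have h2 := y4 m (M / ρ ^ m) Λ (div_nonneg hM0 hpow.le) hΛ0 h1
          (fun k hk => hΛ k (lt_of_lt_of_le hk hsub)) φ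
        calc |y m φ| * ρ ^ m ≤ (2 * ((m + d) * K : ℕ) * (M / ρ ^ m) * Λ) * ρ ^ m :=
              mul_le_mul_of_nonneg_right h2 hpow.le
          _ = 2 * ((m + d) * K : ℕ) * M * Λ := by field_simp
          _ ≤ 2 * ((N + d) * K : ℕ) * M * Λ := by
              have : (((m + d) * K : ℕ) : ℝ) ≤ (((N + d) * K : ℕ) : ℝ) := by exact_mod_cast hsub
              gcongr

/-- Families whose low order coefficients are invariant under the rotation. -/
lemma X_pow_dvd_sub_Av {α : ℝ} (hα : NonRes α) {K d : ℕ} {w : Fam} (hw : Cls K d w) {n : ℕ}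
    (h : ∀ φ, (X : ℝ⟦X⟧) ^ n ∣ w (φ + α / 2) - w (φ - α / 2)) (φ : ℝ) :
    (X : ℝ⟦X⟧) ^ n ∣ w φ - Av w := by
  rw [X_pow_dvd_iff]
  intro m hm
  rw [map_sub, coeff_Av]
  have := TP_const_of_diff (hw m) (fun k _ => hα k) (fun φ => by
    have := X_pow_dvd_iff.mp (h φ) m hm
    rw [map_sub, sub_eq_zero] at this
    exact this) φ
  rw [sub_eq_zero]
  exact this

end Helper43.Billiard
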