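import Pool.Agent.Helper43_Billiard.Step

set_option autoImplicit false

/-! # The starting point of the iteration -/

namespace Helper43.Billiard

open PowerSeries Finset Real

/-- the series `cos (δ X)` -/
noncomputable def Cs (δ : ℝ) : ℝ⟦X⟧ :=
  mk fun m => if Even m then (-1) ^ (m / 2) * δ ^ m / (m.factorial : ℝ) else 0

/-- the series `(1 - cos (δ X)) / δ ^ 2` -/
noncomputable def Vs (δ : ℝ) : ℝ⟦X⟧ :=
  mk fun m => if Even m then (if m = 0 then 0 else (-1) ^ (m / 2 + 1) * δ ^ (m - 2) / (m.factorial : ℝ)) else 0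

lemma Bd.of_geom {ρ M : ℝ} {f : ℝ⟦X⟧} (hM : 0 ≤ M)
    (h : ∀ m, |coeff m f| * ρ ^ m ≤ M * (1 / 2) ^ (m + 1)) : Bd ρ f M := by
  intro N
  refine (sum_le_sum fun m _ => h m).trans ?_
  rw [← mul_sum]
  have h1 : ∑ m ∈ range N, ((1 : ℝ) / 2) ^ (m + 1) ≤ 1 := by
    have : ∀ N : ℕ, ∑ m ∈ range N, ((1 : ℝ) / 2) ^ (m + 1) = 1 - (1 / 2) ^ N := by
      intro N
      induction N with
      | zero => simp
      | succ N ih => rw [sum_range_succ, ih]; ring
    rw [this]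
    have : (0 : ℝ) ≤ (1 / 2) ^ N := by positivity
    linarith
  calc M * ∑ m ∈ range N, ((1 : ℝ) / 2) ^ (m + 1) ≤ M * 1 := mul_le_mul_of_nonneg_left h1 hM
    _ = M := mul_one _

lemma abs_Cs_le {δ : ℝ} (hδ : 0 ≤ δ) (m : ℕ) :
    |coeff m (Cs δ)| ≤ δ ^ m / (m.factorial : ℝ) := by
  rw [Cs, coeff_mk]
  split_ifs
  · rw [abs_div, abs_mul, abs_pow, abs_neg, abs_one, one_pow, one_mul, abs_of_nonneg (pow_nonneg hδ m),
      Nat.abs_cast]
  · rw [abs_zero]; positivity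

lemma coeff_Cs_zero (δ : ℝ) : coeff 0 (Cs δ) = 1 := by
  simp [Cs]

lemma coeff_Vs_zero (δ : ℝ) : coeff 0 (Vs δ) = 0 := by
  simp [Vs]

lemma coeff_Vs_two (δ : ℝ) : coeff 2 (Vs δ) = 1 / 2 := by
  simp [Vs]

lemma coeff_Vs_odd (δ : ℝ) {m : ℕ} (hm : ¬ Even m) : coeff m (Vs δ) = 0 := by
  rw [Vs, coeff_mk, if_neg hm]

lemma coeff_Cs_odd (δ : ℝ) {m : ℕ} (hm : ¬ Even m) : coeff m (Cs δ) = 0 := by
  rw [Cs, coeff_mk, if_neg hm]

lemma abs_Vs_le {δ : ℝ} (hδ : 0 ≤ δ) (m : ℕ) :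
    |coeff (m + 2) (Vs δ)| ≤ δ ^ m / ((m + 2).factorial : ℝ) := by
  rw [Vs, coeff_mk, if_neg (Nat.succ_ne_zero (m + 1))]
  split_ifs with h1
  · rw [abs_div, abs_mul, abs_pow, abs_neg, abs_one, one_pow, one_mul, Nat.add_sub_cancel,
      abs_of_nonneg (pow_nonneg hδ m), Nat.abs_cast]
  · rw [abs_zero]; positivity

lemma geom_aux {δ : ℝ} (hδ : 0 ≤ δ) (h : δ ≤ 1 / 64) (m : ℕ) :
    (2 * δ) ^ m ≤ (1 / 32) ^ m := pow_le_pow_left₀ (by linarith) (by linarith) m

lemma Par_Cs_Vs {δ : ℝ} (hδ : 0 ≤ δ) (h : δ ≤ 1 / 64) : Par δ (Cs δ) (Vs δ) where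
  evC := by
    rw [evenS_iff]
    intro m hm
    exact coeff_Cs_odd δ (Nat.not_even_iff_odd.mpr hm)
  evV := by
    rw [evenS_iff]
    intro m hm
    exact coeff_Vs_odd δ (Nat.not_even_iff_odd.mpr hm)
  c0 := by
    refine Bd.of_geom hδ fun m => ?_
    rw [map_sub, coeff_one]
    rcases m with _ | _ | m
    · rw [coeff_Cs_zero]; simp; positivity
    · rw [coeff_Cs_odd δ (by decide)]; simp; positivity
    · rw [if_neg (by omega), sub_zero]
      have h1 := abs_Cs_le hδ (m + 2)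
      have h2 : (1 : ℝ) ≤ ((m + 2).factorial : ℝ) := by exact_mod_cast Nat.one_le_iff_ne_zero.mpr (Nat.factorial_ne_zero _)
      have h3 := geom_aux hδ h (m + 1)
      calc |coeff (m + 2) (Cs δ)| * 2 ^ (m + 2) ≤ (δ ^ (m + 2) / ((m + 2).factorial : ℝ)) * 2 ^ (m + 2) :=
            mul_le_mul_of_nonneg_right h1 (by positivity)
        _ ≤ δ ^ (m + 2) * 2 ^ (m + 2) :=
            mul_le_mul_of_nonneg_right (div_le_self (by positivity) h2) (by positivity)
        _ = 2 * δ * (2 * δ) ^ (m + 1) := by rw [← mul_pow, mul_comm δ 2, pow_succ]; ring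
        _ ≤ 2 * δ * (1 / 32) ^ (m + 1) := mul_le_mul_of_nonneg_left h3 (by positivity)
        _ ≤ δ * (1 / 2) ^ (m + 2 + 1) := by
            have : ((1 : ℝ) / 32) ^ (m + 1) ≤ 1 / 16 * (1 / 2) ^ (m + 1) := by
              rw [show (1 : ℝ) / 32 = 1 / 16 * (1 / 2) by norm_num, mul_pow]
              refine mul_le_mul_of_nonneg_right ?_ (by positivity)
              calc ((1 : ℝ) / 16) ^ (m + 1) ≤ (1 / 16) ^ 1 := pow_le_pow_of_le_one (by norm_num) (by norm_num) (by omega)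
                _ = 1 / 16 := pow_one _
            have h5 : (0 : ℝ) ≤ (1 / 2) ^ (m + 1) := by positivity
            calc 2 * δ * (1 / 32) ^ (m + 1) ≤ 2 * δ * (1 / 16 * (1 / 2) ^ (m + 1)) :=
                  mul_le_mul_of_nonneg_left this (by positivity)
              _ ≤ 2 * δ * (1 / 8 * (1 / 2) ^ (m + 1)) := by
                  refine mul_le_mul_of_nonneg_left ?_ (by positivity)
                  linarith
              _ = δ * (1 / 2) ^ (m + 2 + 1) := by rw [pow_succ, pow_succ, pow_succ]; ring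
  c1 := by
    refine Bd.of_geom hδ fun m => ?_
    rw [coeff_derivative]
    rcases m with _ | m
    · rw [coeff_Cs_odd δ (by decide)]; simp; positivity
    · have h1 := abs_Cs_le hδ (m + 1 + 1)
      rw [abs_mul, abs_of_nonneg (by positivity : (0 : ℝ) ≤ ((m + 1 : ℕ) : ℝ) + 1)]
      have h2 : (((m + 1 : ℕ) : ℝ) + 1) ≤ ((m + 1 + 1).factorial : ℝ) := by
        have : m + 1 + 1 ≤ (m + 1 + 1).factorial := Nat.self_le_factorial _
        exact_mod_cast this
      have h3 := geom_aux hδ h (m + 1)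
      have h4 : |coeff (m + 1 + 1) (Cs δ)| * (((m + 1 : ℕ) : ℝ) + 1) ≤ δ ^ (m + 1 + 1) := by
        have hf : (0 : ℝ) < ((m + 1 + 1).factorial : ℝ) := by positivity
        calc |coeff (m + 1 + 1) (Cs δ)| * (((m + 1 : ℕ) : ℝ) + 1)
            ≤ (δ ^ (m + 1 + 1) / ((m + 1 + 1).factorial : ℝ)) * ((m + 1 + 1).factorial : ℝ) :=
              mul_le_mul h1 h2 (by positivity) (by positivity)
          _ = δ ^ (m + 1 + 1) := by field_simp
      calc |coeff (m + 1 + 1) (Cs δ)| * (((m + 1 : ℕ) : ℝ) + 1) * 2 ^ (m + 1)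
          ≤ δ ^ (m + 1 + 1) * 2 ^ (m + 1) := mul_le_mul_of_nonneg_right h4 (by positivity)
        _ = δ * (2 * δ) ^ (m + 1) := by rw [mul_pow, pow_succ δ (m + 1)]; ring
        _ ≤ δ * (1 / 32) ^ (m + 1) := mul_le_mul_of_nonneg_left h3 (by positivity)
        _ ≤ δ * (1 / 2) ^ (m + 1 + 1) := by
            refine mul_le_mul_of_nonneg_left ?_ hδ
            rw [show (1 : ℝ) / 32 = 1 / 16 * (1 / 2) by norm_num, mul_pow, pow_succ (1 / 2 : ℝ) (m + 1), mul_comm]
            refine mul_le_mul_of_nonneg_left ?_ (by positivity)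
            calc ((1 : ℝ) / 16) ^ (m + 1) ≤ (1 / 16) ^ 1 := pow_le_pow_of_le_one (by norm_num) (by norm_num) (by omega)
              _ ≤ 1 / 2 := by norm_num
  c2 := by
    refine Bd.of_geom hδ fun m => ?_
    rw [coeff_derivative, coeff_derivative]
    have h1 := abs_Cs_le hδ (m + 1 + 1)
    rw [abs_mul, abs_mul, abs_of_nonneg (by positivity : (0 : ℝ) ≤ (m : ℝ) + 1),
      abs_of_nonneg (by positivity : (0 : ℝ) ≤ ((m + 1 : ℕ) : ℝ) + 1)]
    have h2 : (((m + 1 : ℕ) : ℝ) + 1) * ((m : ℝ) + 1) ≤ ((m + 1 + 1).factorial : ℝ) := by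
      have : (m + 1 + 1) * (m + 1) ≤ (m + 1 + 1).factorial := by
        rw [Nat.factorial_succ]
        exact Nat.mul_le_mul_left _ (Nat.self_le_factorial _)
      exact_mod_cast this
    have h3 := geom_aux hδ h m
    have h4 : |coeff (m + 1 + 1) (Cs δ)| * (((m + 1 : ℕ) : ℝ) + 1) * ((m : ℝ) + 1) ≤ δ ^ (m + 1 + 1) := by
      have hf : (0 : ℝ) < ((m + 1 + 1).factorial : ℝ) := by positivity
      calc |coeff (m + 1 + 1) (Cs δ)| * (((m + 1 : ℕ) : ℝ) + 1) * ((m : ℝ) + 1)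
          = |coeff (m + 1 + 1) (Cs δ)| * ((((m + 1 : ℕ) : ℝ) + 1) * ((m : ℝ) + 1)) := by ring
        _ ≤ (δ ^ (m + 1 + 1) / ((m + 1 + 1).factorial : ℝ)) * ((m + 1 + 1).factorial : ℝ) :=
            mul_le_mul h1 h2 (by positivity) (by positivity)
        _ = δ ^ (m + 1 + 1) := by field_simp
    calc |coeff (m + 1 + 1) (Cs δ)| * (((m + 1 : ℕ) : ℝ) + 1) * ((m : ℝ) + 1) * 2 ^ m
        ≤ δ ^ (m + 1 + 1) * 2 ^ m := mul_le_mul_of_nonneg_right h4 (by positivity)
      _ = δ * δ * (2 * δ) ^ m := by rw [mul_pow, pow_succ, pow_succ]; ring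
      _ ≤ δ * δ * (1 / 32) ^ m := mul_le_mul_of_nonneg_left h3 (by positivity)
      _ ≤ δ * (1 / 2) ^ (m + 1) := by
          rw [mul_assoc]
          refine mul_le_mul_of_nonneg_left ?_ hδ
          rw [pow_succ, mul_comm]
          refine mul_le_mul ?_ (by linarith) hδ (by positivity)
          exact pow_le_pow_left₀ (by norm_num) (by norm_num) m
  v1 := by
    refine Bd.of_geom hδ fun m => ?_
    rw [map_sub, coeff_derivative, coeff_X]
    rcases m with _ | _ | m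
    · rw [coeff_Vs_odd δ (by decide)]; simp; positivity
    · rw [if_pos rfl, show 0 + 1 + 1 = 2 from rfl, coeff_Vs_two]
      norm_num
      positivity
    · rcases Nat.eq_zero_or_pos m with hm0 | hm0
      · subst hm0
        rw [coeff_Vs_odd δ (by decide)]; simp; positivity
      rw [if_neg (by omega), sub_zero, abs_mul, abs_of_nonneg (by positivity : (0 : ℝ) ≤ ((m + 1 + 1 : ℕ) : ℝ) + 1)]
      have h1 := abs_Vs_le hδ (m + 1)
      rw [show m + 1 + 2 = m + 1 + 1 + 1 by ring] at h1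
      have h2 : (((m + 1 + 1 : ℕ) : ℝ) + 1) ≤ ((m + 1 + 1 + 1).factorial : ℝ) := by
        have : m + 1 + 1 + 1 ≤ (m + 1 + 1 + 1).factorial := Nat.self_le_factorial _
        exact_mod_cast this
      have h2' : 2 * (((m + 1 + 1 : ℕ) : ℝ) + 1) ≤ ((m + 1 + 1 + 1).factorial : ℝ) := by
        have h22 : 2 ≤ (m + 1 + 1).factorial := by
          calc 2 = Nat.factorial 2 := rfl
            _ ≤ _ := Nat.factorial_le (by omega)
        have : 2 * (m + 1 + 1 + 1) ≤ (m + 1 + 1 + 1).factorial := by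
          rw [Nat.factorial_succ (m + 1 + 1), mul_comm]
          exact Nat.mul_le_mul_left _ h22
        exact_mod_cast this
      have h3 := geom_aux hδ h m
      have h4 : |coeff (m + 1 + 1 + 1) (Vs δ)| * (((m + 1 + 1 : ℕ) : ℝ) + 1) ≤ δ ^ (m + 1) / 2 := by
        have hf : (0 : ℝ) < ((m + 1 + 1 + 1).factorial : ℝ) := by positivity
        calc |coeff (m + 1 + 1 + 1) (Vs δ)| * (((m + 1 + 1 : ℕ) : ℝ) + 1)
            ≤ (δ ^ (m + 1) / ((m + 1 + 1 + 1).factorial : ℝ)) * (((m + 1 + 1 + 1).factorial : ℝ) / 2) :=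
              mul_le_mul h1 (by linarith) (by positivity) (by positivity)
          _ = δ ^ (m + 1) / 2 := by field_simp
      calc |coeff (m + 1 + 1 + 1) (Vs δ)| * (((m + 1 + 1 : ℕ) : ℝ) + 1) * 2 ^ (m + 1 + 1)
          ≤ δ ^ (m + 1) / 2 * 2 ^ (m + 1 + 1) := mul_le_mul_of_nonneg_right h4 (by positivity)
        _ = 2 * δ * (2 * δ) ^ m := by
            rw [mul_pow, pow_succ δ m, pow_succ (2 : ℝ) (m + 1), pow_succ (2 : ℝ) m]; ring
        _ ≤ 2 * δ * (1 / 32) ^ m := mul_le_mul_of_nonneg_left h3 (by positivity)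
        _ ≤ δ * (1 / 2) ^ (m + 2 + 1) := by
            have h5 : ((1 : ℝ) / 32) ^ m ≤ 1 / 16 * (1 / 2) ^ m := by
              rw [show (1 : ℝ) / 32 = 1 / 16 * (1 / 2) by norm_num, mul_pow]
              refine mul_le_mul_of_nonneg_right ?_ (by positivity)
              calc ((1 : ℝ) / 16) ^ m ≤ (1 / 16) ^ 1 := pow_le_pow_of_le_one (by norm_num) (by norm_num) hm0
                _ = 1 / 16 := pow_one _
            calc 2 * δ * (1 / 32) ^ m ≤ 2 * δ * (1 / 16 * (1 / 2) ^ m) :=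
                  mul_le_mul_of_nonneg_left h5 (by positivity)
              _ = δ * (1 / 2) ^ (m + 2 + 1) := by rw [pow_succ, pow_succ, pow_succ]; ring
  v2 := by
    refine Bd.of_geom hδ fun m => ?_
    rw [map_sub, coeff_derivative, coeff_derivative, coeff_one]
    rcases m with _ | _ | m
    · rw [if_pos rfl, show 0 + 1 + 1 = 2 from rfl, coeff_Vs_two]
      norm_num
      positivity
    · rw [coeff_Vs_odd δ (by decide)]; simp; positivity
    · rw [if_neg (by omega), sub_zero, abs_mul, abs_mul,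
        abs_of_nonneg (by positivity : (0 : ℝ) ≤ ((m + 1 + 1 : ℕ) : ℝ) + 1),
        abs_of_nonneg (by positivity : (0 : ℝ) ≤ ((m + 1 + 1 + 1 : ℕ) : ℝ) + 1)]
      have h1 := abs_Vs_le hδ (m + 2)
      rw [show m + 2 + 2 = m + 1 + 1 + 1 + 1 by ring] at h1
      have h2 : 2 * ((((m + 1 + 1 + 1 : ℕ) : ℝ) + 1) * (((m + 1 + 1 : ℕ) : ℝ) + 1))
          ≤ ((m + 1 + 1 + 1 + 1).factorial : ℝ) := by
        have h22 : 2 ≤ (m + 1 + 1).factorial := by
          calc 2 = Nat.factorial 2 := rfl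
            _ ≤ _ := Nat.factorial_le (by omega)
        have : 2 * ((m + 1 + 1 + 1 + 1) * (m + 1 + 1 + 1)) ≤ (m + 1 + 1 + 1 + 1).factorial := by
          rw [Nat.factorial_succ (m + 1 + 1 + 1), Nat.factorial_succ (m + 1 + 1)]
          calc 2 * ((m + 1 + 1 + 1 + 1) * (m + 1 + 1 + 1))
              = (m + 1 + 1 + 1 + 1) * ((m + 1 + 1 + 1) * 2) := by ring
            _ ≤ _ := Nat.mul_le_mul_left _ (Nat.mul_le_mul_left _ h22)
        exact_mod_cast this
      have h3 := geom_aux hδ h (m + 1)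
      have h4 : |coeff (m + 1 + 1 + 1 + 1) (Vs δ)| * (((m + 1 + 1 + 1 : ℕ) : ℝ) + 1) * (((m + 1 + 1 : ℕ) : ℝ) + 1)
          ≤ δ ^ (m + 2) / 2 := by
        have hf : (0 : ℝ) < ((m + 1 + 1 + 1 + 1).factorial : ℝ) := by positivity
        calc |coeff (m + 1 + 1 + 1 + 1) (Vs δ)| * (((m + 1 + 1 + 1 : ℕ) : ℝ) + 1) * (((m + 1 + 1 : ℕ) : ℝ) + 1)
            = |coeff (m + 1 + 1 + 1 + 1) (Vs δ)| * ((((m + 1 + 1 + 1 : ℕ) : ℝ) + 1) * (((m + 1 + 1 : ℕ) : ℝ) + 1)) := by
              ring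
          _ ≤ (δ ^ (m + 2) / ((m + 1 + 1 + 1 + 1).factorial : ℝ)) * (((m + 1 + 1 + 1 + 1).factorial : ℝ) / 2) :=
              mul_le_mul h1 (by linarith) (by positivity) (by positivity)
          _ = δ ^ (m + 2) / 2 := by field_simp
      calc |coeff (m + 1 + 1 + 1 + 1) (Vs δ)| * (((m + 1 + 1 + 1 : ℕ) : ℝ) + 1) * (((m + 1 + 1 : ℕ) : ℝ) + 1)
            * 2 ^ (m + 1 + 1)
          ≤ δ ^ (m + 2) / 2 * 2 ^ (m + 1 + 1) := mul_le_mul_of_nonneg_right h4 (by positivity)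
        _ = δ * (2 * δ) ^ (m + 1) := by
            rw [mul_pow, pow_succ δ (m + 1), pow_succ (2 : ℝ) (m + 1)]; ring
        _ ≤ δ * (1 / 32) ^ (m + 1) := mul_le_mul_of_nonneg_left h3 (by positivity)
        _ ≤ δ * (1 / 2) ^ (m + 2 + 1) := by
            refine mul_le_mul_of_nonneg_left ?_ hδ
            rw [show (1 : ℝ) / 32 = 1 / 16 * (1 / 2) by norm_num, mul_pow,
              show m + 2 + 1 = 2 + (m + 1) by ring, pow_add (1 / 2 : ℝ) 2]
            refine mul_le_mul_of_nonneg_right ?_ (by positivity)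
            calc ((1 : ℝ) / 16) ^ (m + 1) ≤ (1 / 16) ^ 1 := pow_le_pow_of_le_one (by norm_num) (by norm_num) (by omega)
              _ ≤ (1 / 2) ^ 2 := by norm_num

end Helper43.Billiard
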