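import Pool.Agent.Helper43_Billiard.KCtl

set_option autoImplicit false

/-! # The iteration step with estimates -/

namespace Helper43.Billiard

open PowerSeries Finset Real

variable {α s κ ρ η δ : ℝ} {Cc Vc h : ℝ⟦X⟧} {A : Fam} {K : ℕ}

lemma abs_coeff_le_div {f : ℝ⟦X⟧} {M : ℝ} (hρ : 0 < ρ) (h : Bd ρ f M) (m : ℕ) :
    |coeff m f| ≤ M / ρ ^ m := by
  rw [le_div_iff₀ (pow_pos hρ m)]
  exact h.coeff_le hρ.le m

lemma loss_Dp {v : Fam} {B : ℝ} (hρ : 0 < ρ) (hv : Cls K 0 v) {N₀ : ℕ}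
    (hz : ∀ φ m, N₀ ≤ m → coeff m (v φ) = 0) (hB : ∀ φ, Bd ρ (v φ) B) (φ : ℝ) :
    Bd ρ (Dp v φ) (N₀ * (4 * (N₀ * K) ^ 2 * B)) := by
  have hB0 := (hB 0).nonneg
  refine Bd.of_forall_coeff_le N₀ hρ.le ?_ ?_
  · intro m hm
    rw [coeff_Dp]
    have : cf m v = fun _ => 0 := by
      funext φ
      exact hz φ m hm
    rw [this]
    simp
  · intro m hm
    rw [coeff_Dp]
    have h1 := TP_deriv_bound (hv m) (M := B / ρ ^ m) (fun φ => abs_coeff_le_div hρ (hB φ) m) φ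
    have h2 : (((m + 0) * K : ℕ) : ℝ) ≤ N₀ * K := by
      have : (m + 0) * K ≤ N₀ * K := Nat.mul_le_mul_right K (by omega)
      exact_mod_cast this
    have hρm := pow_pos hρ m
    calc |deriv (cf m v) φ| * ρ ^ m ≤ (4 * (((m + 0) * K : ℕ) : ℝ) ^ 2 * (B / ρ ^ m)) * ρ ^ m :=
          mul_le_mul_of_nonneg_right h1 hρm.le
      _ = 4 * (((m + 0) * K : ℕ) : ℝ) ^ 2 * B := by field_simp
      _ ≤ 4 * (N₀ * K) ^ 2 * B := by
          refine mul_le_mul_of_nonneg_right ?_ hB0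
          refine mul_le_mul_of_nonneg_left ?_ (by norm_num)
          exact pow_le_pow_left₀ (Nat.cast_nonneg _) h2 2

lemma loss_chi {v : Fam} {B : ℝ} (hρ : 0 < ρ) (hv : Cls K 0 v) {N₀ : ℕ}
    (hz : ∀ φ m, N₀ ≤ m → coeff m (v φ) = 0) (hB : ∀ φ, Bd ρ (v φ) B)
    (hodd : ∀ φ, v (-φ) = -v φ) (hanti : ∀ φ, v (φ + π) = -v φ) (h0 : v (α / 2) = 0) (φ : ℝ) :
    Bd ρ (Psi α v φ) (N₀ * (2 * (N₀ * K) ^ 3 * B) * (|cos φ| * sin φ ^ 2)) := by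
  have hB0 := (hB 0).nonneg
  have hcls : Cls K 0 (Psi α v) := Cls_Psi hv
  have hPB : ∀ φ, Bd ρ (Psi α v φ) B := fun φ => by
    refine (((hB _).sub (hB _) hρ.le).smul (1 / 2)).mono ?_
    rw [abs_of_pos (by norm_num : (0 : ℝ) < 1 / 2)]
    linarith
  have hc : ∀ m φ, cf m (Psi α v) φ = 1 / 2 * (coeff m (v (φ - α / 2)) - coeff m (v (φ + α / 2))) := by
    intro m φ
    simp only [cf, Psi, ps, coeff_smul, smul_eq_mul, map_sub]
  rw [mul_assoc]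
  refine Bd.of_forall_coeff_le N₀ hρ.le ?_ ?_
  · intro m hm
    have := hc m φ
    simp only [cf] at this
    rw [this, hz _ m hm, hz _ m hm]
    simp
  · intro m hm
    have hev : ∀ φ, cf m (Psi α v) (-φ) = cf m (Psi α v) φ := by
      intro φ
      rw [hc, hc, show -φ - α / 2 = -(φ + α / 2) by ring, show -φ + α / 2 = -(φ - α / 2) by ring,
        hodd, hodd, map_neg, map_neg]
      ring
    have han : ∀ φ, cf m (Psi α v) (φ + π) = -cf m (Psi α v) φ := by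
      intro φ
      rw [hc, hc, show φ + π - α / 2 = (φ - α / 2) + π by ring,
        show φ + π + α / 2 = (φ + α / 2) + π by ring, hanti, hanti, map_neg, map_neg]
      ring
    have hz0 : cf m (Psi α v) 0 = 0 := by
      rw [hc, zero_sub, zero_add, hodd, h0]
      simp
    have h1 := weighted_bound (hcls m) (M := B / ρ ^ m)
      (fun φ => abs_coeff_le_div hρ (hPB φ) m) hev han hz0 φ
    have h2 : (((m + 0) * K : ℕ) : ℝ) ≤ N₀ * K := by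
      have : (m + 0) * K ≤ N₀ * K := Nat.mul_le_mul_right K (by omega)
      exact_mod_cast this
    have hρm := pow_pos hρ m
    have hw : 0 ≤ |cos φ| * sin φ ^ 2 := by positivity
    have h1' : |coeff m (Psi α v φ)| ≤ 2 * (((m + 0) * K : ℕ) : ℝ) ^ 3 * (B / ρ ^ m)
        * (|cos φ| * sin φ ^ 2) := h1
    calc |coeff m (Psi α v φ)| * ρ ^ m
        ≤ (2 * (((m + 0) * K : ℕ) : ℝ) ^ 3 * (B / ρ ^ m) * (|cos φ| * sin φ ^ 2)) * ρ ^ m :=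
          mul_le_mul_of_nonneg_right h1' hρm.le
      _ = 2 * (((m + 0) * K : ℕ) : ℝ) ^ 3 * B * (|cos φ| * sin φ ^ 2) := by field_simp
      _ ≤ 2 * (N₀ * K) ^ 3 * B * (|cos φ| * sin φ ^ 2) := by
          refine mul_le_mul_of_nonneg_right ?_ hw
          refine mul_le_mul_of_nonneg_right ?_ hB0
          refine mul_le_mul_of_nonneg_left ?_ (by norm_num)
          exact pow_le_pow_left₀ (Nat.cast_nonneg _) h2 3

/-- a stage of the iteration -/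
structure Stage (α s κ : ℝ) (Cc Vc : ℝ⟦X⟧) (ρ η : ℝ) (n K : ℕ) (A : Fam) (h : ℝ⟦X⟧) : Prop where
  fam : FamA K A
  even : EvenS h
  norm : A (α / 2) = C (-s) * X
  el : ∀ φ, (X : ℝ⟦X⟧) ^ n ∣ EL α κ Cc Vc h A φ
  ctl : Ctl α s κ ρ η A h

/-- the constant of the iteration -/
noncomputable def Gam (s σ Γ₀ : ℝ) (τ₀ : ℕ) : ℝ :=
  768 / s ^ 2 + 256 * 17920 * 768 * 2 ^ τ₀ * Γ₀ / (s ^ 3 * σ)

lemma Ctl.add_h {γ : ℝ} {k : ℝ⟦X⟧} (H : Ctl α s κ ρ η A h) (hsρ : 0 ≤ s * ρ) (hγ : 0 ≤ γ)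
    (h0 : Bd (s * ρ) k γ) (h1 : Bd (s * ρ) (d⁄dX ℝ k) γ) (h2 : Bd (s * ρ) (d⁄dX ℝ (d⁄dX ℝ k)) γ) :
    Ctl α s κ ρ (η + γ) A (h + k) where
  chi := fun φ => (H.chi φ).mono (mul_le_mul_of_nonneg_right (by linarith) (by positivity))
  a0 := fun φ => (H.a0 φ).mono (by linarith)
  p0 := fun φ => (H.p0 φ).mono (by linarith)
  q0 := fun φ => (H.q0 φ).mono (by linarith)
  h0 := by
    have := H.h0.add h0 hsρ
    rwa [show h - C ((1 - κ) / 2) * X ^ 2 + k = h + k - C ((1 - κ) / 2) * X ^ 2 by ring] at this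
  h1 := by
    have := H.h1.add h1 hsρ
    rw [map_add]
    rwa [show d⁄dX ℝ h - C (1 - κ) * X + d⁄dX ℝ k = d⁄dX ℝ h + d⁄dX ℝ k - C (1 - κ) * X by ring] at this
  h2 := by
    have := H.h2.add h2 hsρ
    rw [map_add, map_add]
    rwa [show d⁄dX ℝ (d⁄dX ℝ h) - C (1 - κ) + d⁄dX ℝ (d⁄dX ℝ k)
      = d⁄dX ℝ (d⁄dX ℝ h) + d⁄dX ℝ (d⁄dX ℝ k) - C (1 - κ) by ring] at this

lemma Ctl.add_v {γ : ℝ} {v : Fam} (H : Ctl α s κ ρ η A h) (hρ : 0 ≤ ρ)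
    (hA : Cls K 0 A) (hv : Cls K 0 v)
    (hchi : ∀ φ, Bd ρ (Psi α v φ) (γ * (|cos φ| * sin φ ^ 2)))
    (h0 : ∀ φ, Bd ρ (v φ) γ) (h1 : ∀ φ, Bd ρ (Dr (v φ)) γ) (h2 : ∀ φ, Bd ρ (Dp v φ) γ) :
    Ctl α s κ ρ (η + γ) (A + v) h where
  chi := fun φ => by
    have h3 := (H.chi φ).add (hchi φ) hρ
    have e : Psi α A φ - C (s * cos φ) * X + Psi α v φ = Psi α (A + v) φ - C (s * cos φ) * X := by
      simp only [Psi, ps, Pi.add_apply, smul_eq_C_mul]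
      ring
    rw [e] at h3
    exact h3.mono (by rw [add_mul])
  a0 := fun φ => by
    have h3 := (H.a0 φ).add (h0 φ) hρ
    rwa [show A φ - A0 φ + v φ = (A + v) φ - A0 φ by rw [Pi.add_apply]; ring] at h3
  p0 := fun φ => by
    have h3 := (H.p0 φ).add (h1 φ) hρ
    rwa [show Dr (A φ) - A0 φ + Dr (v φ) = Dr ((A + v) φ) - A0 φ by rw [Pi.add_apply, Dr_add]; ring] at h3
  q0 := fun φ => by
    have h3 := (H.q0 φ).add (h2 φ) hρ
    rwa [show Dp A φ - B0 φ + Dp v φ = Dp (A + v) φ - B0 φ by rw [Dp_add hA hv, Pi.add_apply]; ring] at h3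
  h0 := H.h0.mono (by linarith [(h0 0).nonneg])
  h1 := H.h1.mono (by linarith [(h0 0).nonneg])
  h2 := H.h2.mono (by linarith [(h0 0).nonneg])

lemma FamA.add {v : Fam} (hA : FamA K A) (hv : Cls K 0 v) (hX : ∀ φ, (X : ℝ⟦X⟧) ∣ v φ)
    (hodd : ∀ φ, v (-φ) = -v φ) (hanti : ∀ φ, v (φ + π) = -v φ) (hr : ∀ φ, OddS (v φ)) :
    FamA K (A + v) where
  cls := hA.cls.add hv
  X_dvd := fun φ => (hA.X_dvd φ).add (hX φ)
  odd := fun φ => by rw [Pi.add_apply, Pi.add_apply, hA.odd, hodd, neg_add]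
  anti := fun φ => by rw [Pi.add_apply, Pi.add_apply, hA.anti, hanti, neg_add]
  rodd := fun φ => (hA.rodd φ).add (hr φ)

lemma FamA.mono {K' : ℕ} (hA : FamA K A) (hK : K ≤ K') : FamA K' A where
  cls := hA.cls.mono hK le_rfl
  X_dvd := hA.X_dvd
  odd := hA.odd
  anti := hA.anti
  rodd := hA.rodd

lemma step_num1 {n K : ℝ} (hn : 1 ≤ n) (hK : 1 ≤ K) (hKn : K ≤ n) (τ₀ : ℕ) :
    n ^ 9 * K ^ 4 * (2 * n * K) ^ τ₀ ≤ 2 ^ τ₀ * n ^ (2 * τ₀ + 13) := by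
  have e1 : K ^ 4 ≤ n ^ 4 := pow_le_pow_left₀ (by linarith) hKn 4
  have e2 : (2 * n * K) ^ τ₀ ≤ (2 * n * n) ^ τ₀ :=
    pow_le_pow_left₀ (by positivity) (mul_le_mul_of_nonneg_left hKn (by positivity)) τ₀
  calc n ^ 9 * K ^ 4 * (2 * n * K) ^ τ₀ ≤ n ^ 9 * n ^ 4 * (2 * n * n) ^ τ₀ := by
        refine mul_le_mul (mul_le_mul_of_nonneg_left e1 (by positivity)) e2 (by positivity) (by positivity)
    _ = 2 ^ τ₀ * n ^ (2 * τ₀ + 13) := by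
        rw [mul_assoc 2 n, mul_pow, mul_pow, pow_add, pow_mul, pow_two, mul_pow]
        ring

lemma step_num2 {n K B : ℝ} (hn : 1 ≤ n) (hK : 1 ≤ K) (hB : 0 ≤ B) :
    B ≤ 256 * n ^ 4 * K ^ 3 * B ∧ 2 * n * B ≤ 256 * n ^ 4 * K ^ 3 * B
      ∧ 2 * n * (4 * (2 * n * (2 * K)) ^ 2 * B) ≤ 256 * n ^ 4 * K ^ 3 * B := by
  have n0 : 0 ≤ n := by linarith
  have K0 : 0 ≤ K := by linarith
  have e1 : n ≤ n ^ 4 := by
    calc n = n ^ 1 := (pow_one _).symm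
      _ ≤ n ^ 4 := pow_le_pow_right₀ hn (by norm_num)
  have e2 : 1 ≤ K ^ 3 := one_le_pow₀ hK
  have e3 : n ≤ n ^ 4 * K ^ 3 := by
    calc n = n * 1 := (mul_one _).symm
      _ ≤ n ^ 4 * K ^ 3 := mul_le_mul e1 e2 (by norm_num) (by positivity)
  have e4 : n ^ 3 * K ^ 2 ≤ n ^ 4 * K ^ 3 :=
    mul_le_mul (pow_le_pow_right₀ hn (by norm_num)) (pow_le_pow_right₀ hK (by norm_num))
      (by positivity) (by positivity)
  have e3B := mul_le_mul_of_nonneg_right e3 hB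
  have e4B := mul_le_mul_of_nonneg_right e4 hB
  have e5B : B ≤ n * B := by nlinarith
  have p : 0 ≤ n ^ 4 * K ^ 3 * B := by positivity
  refine ⟨by linarith, by linarith, ?_⟩
  calc 2 * n * (4 * (2 * n * (2 * K)) ^ 2 * B) = 128 * (n ^ 3 * K ^ 2 * B) := by ring
    _ ≤ 128 * (n ^ 4 * K ^ 3 * B) := mul_le_mul_of_nonneg_left e4B (by norm_num)
    _ ≤ 256 * n ^ 4 * K ^ 3 * B := by linarith

set_option maxHeartbeats 1000000 in
theorem stage_step (hP : Par δ Cc Vc) (hα : NonRes α) {Γ₀ : ℝ} {τ₀ : ℕ} (hΓ₀ : 0 ≤ Γ₀)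
    (hD : ∀ k : ℕ, |(sin ((k + 1 : ℕ) * (α / 2)))⁻¹| ≤ Γ₀ * ((k + 1 : ℕ) : ℝ) ^ τ₀)
    {n : ℕ} (hn : 3 ≤ n) (hK : 1 ≤ K) (hKn : K ≤ n) (N : Num α s κ ρ η δ)
    (S : Stage α s κ Cc Vc ρ η n K A h) {q : ℝ} (hq0 : 0 < q) (hq1 : q ≤ 1)
    (hqρ : 1 / 2 ≤ q * ρ) (hsin : 0 < |sin α|) {ηf : ℝ}
    (hηf : ηf = η * (1 + Gam s |sin α| Γ₀ τ₀ * n ^ (2 * τ₀ + 13) * q ^ n))
    (hsm : 32 * ηf ≤ s) (hsm2 : 96 * ηf ≤ |sin α|) :
    ∃ (A' : Fam) (h' : ℝ⟦X⟧), Stage α s κ Cc Vc (q * ρ) ηf (2 * n - 1) (2 * K) A' h'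
      ∧ (∀ φ, (X : ℝ⟦X⟧) ^ n ∣ A' φ - A φ) ∧ (X : ℝ⟦X⟧) ^ (n + 1) ∣ h' - h := by
  have hs0 := N.s0
  have hη0 := N.η0
  have hρ := N.ρpos
  have hρ' : 0 < q * ρ := by linarith
  have hn' : (1 : ℝ) ≤ n := by exact_mod_cast (by omega : 1 ≤ n)
  have hK' : (1 : ℝ) ≤ K := by exact_mod_cast hK
  have hKn' : (K : ℝ) ≤ n := by exact_mod_cast hKn
  have hqn : 0 < q ^ n := pow_pos hq0 n
  set σ := |sin α| with hσ
  set γ : ℝ := 768 * n ^ 3 * q ^ n * η / s ^ 2 with hγ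
  have hγ0 : 0 ≤ γ := by positivity
  set Λ : ℝ := Γ₀ * (2 * n * K) ^ τ₀ with hΛ
  have hΛ0 : 0 ≤ Λ := by positivity
  set Bv : ℝ := 17920 * n ^ 2 * K * Λ * γ / (s * σ) with hBv
  have hBv0 : 0 ≤ Bv := by positivity
  set γv : ℝ := 256 * n ^ 4 * K ^ 3 * Bv with hγv
  have hγv0 : 0 ≤ γv := by positivity
  have hsum : η + γ + γv ≤ ηf := by
    have h1 : γ ≤ η * (768 / s ^ 2 * n ^ (2 * τ₀ + 13) * q ^ n) := by
      have h3 : (n : ℝ) ^ 3 ≤ n ^ (2 * τ₀ + 13) := pow_le_pow_right₀ hn' (by omega)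
      calc γ = (768 / s ^ 2 * q ^ n * η) * n ^ 3 := by rw [hγ]; ring
        _ ≤ (768 / s ^ 2 * q ^ n * η) * n ^ (2 * τ₀ + 13) := mul_le_mul_of_nonneg_left h3 (by positivity)
        _ = _ := by ring
    have h2 : γv ≤ η * (256 * 17920 * 768 * 2 ^ τ₀ * Γ₀ / (s ^ 3 * σ) * n ^ (2 * τ₀ + 13) * q ^ n) := by
      have h4 := step_num1 hn' hK' hKn' τ₀
      calc γv = (256 * 17920 * 768 * Γ₀ / (s ^ 3 * σ) * (η * q ^ n)) * (n ^ 9 * K ^ 4 * (2 * n * K) ^ τ₀) := by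
            rw [hγv, hBv, hΛ, hγ]
            field_simp
        _ ≤ (256 * 17920 * 768 * Γ₀ / (s ^ 3 * σ) * (η * q ^ n)) * (2 ^ τ₀ * n ^ (2 * τ₀ + 13)) :=
            mul_le_mul_of_nonneg_left h4 (by positivity)
        _ = _ := by ring
    have h3 : ηf = η + η * (768 / s ^ 2 * n ^ (2 * τ₀ + 13) * q ^ n)
        + η * (256 * 17920 * 768 * 2 ^ τ₀ * Γ₀ / (s ^ 3 * σ) * n ^ (2 * τ₀ + 13) * q ^ n) := by
      rw [hηf, Gam]
      ring
    linarith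
  have N' : Num α s κ (q * ρ) η δ :=
    { N with ρ0 := hqρ, ρ1 := (mul_le_of_le_one_left hρ.le hq1).trans N.ρ1 }
  have N'' : Num α s κ (q * ρ) (η + γ) δ :=
    { N' with δη := by linarith [N.δη], η1 := by linarith }
  obtain ⟨k, hkE, hkX, hav, hk0, hk1, hk2⟩ := kstep hP hq0.le hq1 N N' S.even hK S.fam S.ctl
    (by omega : 1 ≤ n) S.el
  have H' : Ctl α s κ (q * ρ) η A h := S.ctl.mono hs0.le hρ'.le (mul_le_of_le_one_left hρ.le hq1) le_rfl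
  have H'' : Ctl α s κ (q * ρ) (η + γ) A (h + k) := H'.add_h N'.sρpos.le hγ0 hk0 hk1 hk2
  obtain ⟨w, winv, hw, hwinv, hMw⟩ := exists_w hP N'' H'' S.fam hsin (by linarith)
  have hE' : ∀ φ, (X : ℝ⟦X⟧) ^ n ∣ EL α κ Cc Vc (h + k) A φ := fun φ => by
    rw [EL_add]
    exact (S.el φ).add (EL_dvd_of_dvd hkX φ)
  -- bound for the new defect
  have hMF : ∀ φ, Bd (q * ρ) (EL α κ Cc Vc (h + k) A φ) (5 * γ) := fun φ => by
    rw [EL_add]
    have h1 := (bd_EL hP N S.ctl S.fam.X_dvd φ).shrink hρ.le hq0.le hq1 (S.el φ)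
    have hδ1 : δ ≤ 1 / 32 := by linarith [N.δη, N.ηle]
    have hp1 : Bd (q * ρ) (ps (A φ) (A (φ + α))) (s * (q * ρ)) := by
      rw [ps_eq_Psi]; exact bd_Psi N' H' _
    have hp2 : Bd (q * ρ) (ps (A (φ - α)) (A φ)) (s * (q * ρ)) := by
      rw [ps_eq_Psi']; exact bd_Psi N' H' _
    have h2 := (bd_S0k_aux hP hρ'.le (S.fam.X_dvd φ) (S.fam.X_dvd (φ + α)) hp1 (bd_sg N' H' _ _)
      hδ1 hk0 hk1).1
    have h3 := (bd_S0k_aux hP hρ'.le (S.fam.X_dvd (φ - α)) (S.fam.X_dvd φ) hp2 (bd_sg N' H' _ _)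
      hδ1 hk0 hk1).2
    refine (h1.add (h2.add h3 hρ'.le) hρ'.le).mono ?_
    have h4 : q ^ n * (12 * η) ≤ γ := by
      rw [hγ, le_div_iff₀ (by positivity)]
      have h5 : s ^ 2 ≤ 1 := by nlinarith [N.s1]
      have h6 : (1 : ℝ) ≤ n ^ 3 := one_le_pow₀ hn'
      calc q ^ n * (12 * η) * s ^ 2 ≤ q ^ n * (12 * η) * 1 := mul_le_mul_of_nonneg_left h5 (by positivity)
        _ ≤ q ^ n * (12 * η) * n ^ 3 := mul_le_mul_of_nonneg_left h6 (by positivity)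
        _ ≤ 768 * n ^ 3 * q ^ n * η := by
            have : 0 ≤ (n : ℝ) ^ 3 * q ^ n * η := by positivity
            linarith
    linarith
  obtain ⟨v, hvcls, hvX, hvodd, hvanti, hvr, hv0, hvz, hvE, hvbd⟩ := exists_v hα hP.evC hP.evV
    (S.even.add hkE) hK S.fam hs0.ne' S.norm hn hE' hav hw hwinv
  have hvB : ∀ φ, Bd (q * ρ) (v φ) Bv := fun φ => by
    have h1 := hvbd (q * ρ) (5 * γ) 2 (4 / σ) Λ hρ' hMF (bd_DrA N'' H'') (bd_DpA N'' H'') hMw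
      (fun k hk => by
        refine (hD k).trans ?_
        rw [hΛ]
        refine mul_le_mul_of_nonneg_left ?_ hΓ₀
        refine pow_le_pow_left₀ (Nat.cast_nonneg _) ?_ _
        have : k + 1 ≤ 2 * n * K := hk
        exact_mod_cast this) φ
    refine h1.mono ?_
    rw [abs_of_pos hs0]
    have e1 : 5 * γ * 2 / (q * ρ) ^ 2 ≤ 40 * γ := by
      rw [div_le_iff₀ (by positivity)]
      have : (1 / 4 : ℝ) ≤ (q * ρ) ^ 2 := by nlinarith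
      nlinarith
    have e2 : 2 * (3 + 2 / (q * ρ * s)) ≤ 14 / s := by
      have h2 : 2 / (q * ρ * s) ≤ 4 / s := by
        rw [div_le_div_iff₀ (by positivity) hs0]
        nlinarith
      have h3 : 3 ≤ 3 / s := by
        rw [le_div_iff₀ hs0]
        linarith [N.s1]
      calc 2 * (3 + 2 / (q * ρ * s)) ≤ 2 * (3 / s + 4 / s) := by linarith
        _ = 14 / s := by ring
    calc 8 * (n : ℝ) ^ 2 * K * Λ * (4 / σ * (5 * γ * 2 / (q * ρ) ^ 2)) * (2 * (3 + 2 / (q * ρ * s)))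
        ≤ 8 * (n : ℝ) ^ 2 * K * Λ * (4 / σ * (40 * γ)) * (14 / s) := by
          refine mul_le_mul ?_ e2 (by positivity) (by positivity)
          refine mul_le_mul_of_nonneg_left ?_ (by positivity)
          exact mul_le_mul_of_nonneg_left e1 (by positivity)
      _ = Bv := by rw [hBv]; field_simp; ring
  have hvz' : ∀ φ m, 2 * n ≤ m → coeff m (v φ) = 0 := fun φ m hm => hvz φ m (by omega)
  have hcast : ((2 * n : ℕ) : ℝ) = 2 * n := by push_cast; ring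
  have hcastK : ((2 * K : ℕ) : ℝ) = 2 * K := by push_cast; ring
  have hXv : ∀ φ, (X : ℝ⟦X⟧) ∣ v φ := fun φ => (dvd_pow_self X (by omega)).trans (hvX φ)
  have hA2 : FamA (2 * K) A := S.fam.mono (by omega)
  have hfin : Ctl α s κ (q * ρ) (η + γ + γv) (A + v) (h + k) := by
    refine H''.add_v hρ'.le hA2.cls hvcls ?_ ?_ ?_ ?_
    · intro φ
      refine (loss_chi hρ' hvcls hvz' hvB hvodd hvanti hv0 φ).mono (le_of_eq ?_)
      rw [hcast, hcastK, hγv]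
      ring
    · intro φ
      exact (hvB φ).mono (step_num2 hn' hK' hBv0).1
    · intro φ
      refine ((hvB φ).Dr hρ'.le (hvz' φ)).mono ?_
      rw [hcast]
      exact (step_num2 hn' hK' hBv0).2.1
    · intro φ
      refine (loss_Dp hρ' hvcls hvz' hvB φ).mono ?_
      rw [hcast, hcastK]
      exact (step_num2 hn' hK' hBv0).2.2
  refine ⟨A + v, h + k, ⟨?_, S.even.add hkE, ?_, hvE, ?_⟩, ?_, ?_⟩
  · exact hA2.add hvcls hXv hvodd hvanti hvr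
  · rw [Pi.add_apply, hv0, add_zero]
    exact S.norm
  · exact hfin.mono hs0.le hρ'.le le_rfl hsum
  · intro φ
    rw [Pi.add_apply, add_sub_cancel_left]
    exact hvX φ
  · rw [add_sub_cancel_left]
    exact hkX

end Helper43.Billiard
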