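import Pool.Agent.Helper43_Billiard.Control

set_option autoImplicit false

/-! # Control of the two half steps -/

namespace Helper43.Billiard

open PowerSeries Finset Real

variable {α s κ ρ η δ : ℝ} {Cc Vc h : ℝ⟦X⟧} {A : Fam} {K : ℕ}

lemma bd_S12_aux (hP : Par δ Cc Vc) (hρ : 0 ≤ ρ) {u v : ℝ⟦X⟧} (hu : (X : ℝ⟦X⟧) ∣ u)
    (hv : (X : ℝ⟦X⟧) ∣ v) {r : ℝ} (hp : Bd ρ (ps u v) r)
    (hsg : Bd ρ (sg u v) 2) (hκ0 : 0 ≤ κ) (hκ1 : κ ≤ 1) (hδ : 0 ≤ δ) (hδη : δ ≤ η) (hη : η ≤ 1 / 32)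
    (hh : Bd r h 1) (hh2 : Bd r (d⁄dX ℝ (d⁄dX ℝ h) - C (1 - κ)) η) :
    Bd ρ (S12 κ Cc Vc h u v + C (1 / 2)) (5 / 2 * η) := by
  have hXp := X_dvd_ps hu hv
  have hXs := X_dvd_sg hu hv
  have t1 : Bd ρ (comp (d⁄dX ℝ (d⁄dX ℝ h)) (ps u v) - C (1 - κ)) η := bd_comp_sub hρ hXp hp hh2
  have t2 : Bd ρ (comp Cc (sg u v) - 1) δ := by
    have := bd_comp_sub (c := 1) (g := Cc) hρ hXs hsg (by simpa using hP.c0)
    simpa using this
  have t2' : Bd ρ (comp Cc (sg u v)) (1 + δ) := by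
    have := (Bd.one hρ).add t2 hρ
    rwa [add_sub_cancel] at this
  have t3 : Bd ρ (comp h (ps u v)) 1 := Bd.comp hρ hXp hp hh
  have t4 : Bd ρ (comp (d⁄dX ℝ (d⁄dX ℝ Cc)) (sg u v)) δ := Bd.comp hρ hXs hsg hP.c2
  have t5 : Bd ρ (comp (d⁄dX ℝ (d⁄dX ℝ Vc)) (sg u v) - 1) δ := by
    have := bd_comp_sub (c := 1) (g := d⁄dX ℝ (d⁄dX ℝ Vc)) hρ hXs hsg (by simpa using hP.v2)
    simpa using this
  have m1 := (t1.mul t2' hρ)
  have m2 := ((Bd.C hρ (1 - κ)).mul t2 hρ)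
  have m3 := t3.mul t4 hρ
  have m4 := (Bd.C hρ κ).mul t5 hρ
  rw [abs_of_nonneg hκ0] at m4
  rw [abs_of_nonneg (by linarith)] at m2
  have m := ((((m1.add m2 hρ).neg).add m3 hρ).sub m4 hρ).smul (1 / 2)
  have e : S12 κ Cc Vc h u v + C (1 / 2)
      = (1 / 2 : ℝ) • (-((comp (d⁄dX ℝ (d⁄dX ℝ h)) (ps u v) - C (1 - κ)) * comp Cc (sg u v)
          + C (1 - κ) * (comp Cc (sg u v) - 1))
          + comp h (ps u v) * comp (d⁄dX ℝ (d⁄dX ℝ Cc)) (sg u v)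
          - C κ * (comp (d⁄dX ℝ (d⁄dX ℝ Vc)) (sg u v) - 1)) := by
    rw [S12]
    simp only [smul_eq_C_mul, map_sub, map_one]
    ring
  rw [e]
  refine m.mono ?_
  rw [abs_of_pos (by norm_num : (0 : ℝ) < 1 / 2)]
  nlinarith

/-- two-point estimate for the linear part in `k` -/
lemma bd_S0k_aux (hP : Par δ Cc Vc) (hρ : 0 ≤ ρ) {u v k : ℝ⟦X⟧} (hu : (X : ℝ⟦X⟧) ∣ u)
    (hv : (X : ℝ⟦X⟧) ∣ v) {r γ : ℝ} (hp : Bd ρ (ps u v) r)
    (hsg : Bd ρ (sg u v) 2) (hδ1 : δ ≤ 1 / 32)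
    (hk0 : Bd r k γ) (hk1 : Bd r (d⁄dX ℝ k) γ) :
    Bd ρ (S1 0 Cc Vc k u v) (2 * γ) ∧ Bd ρ (S2 0 Cc Vc k u v) (2 * γ) := by
  have hXp := X_dvd_ps hu hv
  have hXs := X_dvd_sg hu hv
  have t1 : Bd ρ (comp (d⁄dX ℝ k) (ps u v)) γ := Bd.comp hρ hXp hp hk1
  have t2 : Bd ρ (comp Cc (sg u v) - 1) δ := by
    have := bd_comp_sub (c := 1) (g := Cc) hρ hXs hsg (by simpa using hP.c0)
    simpa using this
  have t2' : Bd ρ (comp Cc (sg u v)) (1 + δ) := by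
    have := (Bd.one hρ).add t2 hρ
    rwa [add_sub_cancel] at this
  have t3 : Bd ρ (comp k (ps u v)) γ := Bd.comp hρ hXp hp hk0
  have t4 : Bd ρ (comp (d⁄dX ℝ Cc) (sg u v)) δ := Bd.comp hρ hXs hsg hP.c1
  have m1 := (t1.mul t2' hρ)
  have m3 := t3.mul t4 hρ
  have hγ := hk0.nonneg
  have hnum : γ * (1 + δ) + γ * δ ≤ 2 * γ := by nlinarith
  constructor
  · rw [S1, zero_smul, sub_zero]
    exact (m1.add m3 hρ).mono hnum
  · rw [S2, zero_smul, sub_zero]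
    exact (m1.neg.add m3 hρ).mono hnum

lemma bd_Wr (hP : Par δ Cc Vc) (N : Num α s κ ρ η δ) (H : Ctl α s κ ρ η A h)
    (hX : ∀ φ, (X : ℝ⟦X⟧) ∣ A φ) (φ : ℝ) :
    Bd ρ (Wr α κ Cc Vc h A (fun φ => Dr (A φ)) (Dp A) φ - C (sin α / 2) * X ^ 2) (6 * η) := by
  have hρ := N.ρpos.le
  have hη0 := N.η0
  have hη1 := N.ηle
  have hp1 : Bd ρ (ps (A φ) (A (φ + α))) (s * ρ) := by rw [ps_eq_Psi]; exact bd_Psi N H _
  have b1 := bd_S12_aux (κ := κ) hP hρ (hX φ) (hX (φ + α)) hp1 (bd_sg N H _ _) N.κ0 N.κ1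
    N.δ0 N.δη N.ηle (bd_h N H) H.h2
  have hA0 : ∀ φ, Bd ρ (A0 φ) 1 := fun φ => (Bd_A0 hρ φ).mono N.ρ1
  have hB0 : ∀ φ, Bd ρ (B0 φ) 1 := fun φ => (Bd_B0 hρ φ).mono N.ρ1
  have key : ∀ φ ψ, Bd ρ (Dr (A φ) * Dp A ψ - A0 φ * B0 ψ) (33 / 16 * η) := by
    intro φ ψ
    have hp := (hA0 φ).add (H.p0 φ) hρ
    rw [add_sub_cancel] at hp
    have e : Dr (A φ) * Dp A ψ - A0 φ * B0 ψ
        = Dr (A φ) * (Dp A ψ - B0 ψ) + (Dr (A φ) - A0 φ) * B0 ψ := by ring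
    rw [e]
    refine ((hp.mul (H.q0 ψ) hρ).add ((H.p0 φ).mul (hB0 ψ) hρ) hρ).mono ?_
    nlinarith
  have k2 : Bd ρ (Dr (A φ) * Dp A (φ + α) - Dp A φ * Dr (A (φ + α)) + C (sin α) * X ^ 2) (33 / 8 * η) := by
    have e0 : (C (sin α) * X ^ 2 : ℝ⟦X⟧) = -(A0 φ * B0 (φ + α) - A0 (φ + α) * B0 φ) := by
      have h1 : sin α = -(sin φ * cos (φ + α) - sin (φ + α) * cos φ) := by
        rw [show α = (φ + α) - φ by ring, sin_sub, show φ + (φ + α - φ) = φ + α by ring]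
        ring
      simp only [A0, B0]
      rw [h1]
      simp only [map_neg, map_sub, map_mul]
      ring
    have e : Dr (A φ) * Dp A (φ + α) - Dp A φ * Dr (A (φ + α)) + C (sin α) * X ^ 2
        = (Dr (A φ) * Dp A (φ + α) - A0 φ * B0 (φ + α))
          - (Dr (A (φ + α)) * Dp A φ - A0 (φ + α) * B0 φ) := by
      rw [e0]; ring
    rw [e]
    exact ((key φ (φ + α)).sub (key (φ + α) φ) hρ).mono (by linarith)
  have hsin : Bd ρ (C (sin α) * X ^ 2) 1 := by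
    refine ((Bd.C hρ (sin α)).mul ((Bd.X hρ).pow hρ 2) hρ).mono ?_
    have h1 := abs_sin_le_one α
    have h2 := abs_nonneg (sin α)
    have h3 : ρ ^ 2 ≤ 1 := by nlinarith [N.ρ1]
    nlinarith [sq_nonneg ρ]
  have k3 : Bd ρ (Dr (A φ) * Dp A (φ + α) - Dp A φ * Dr (A (φ + α))) (5 / 4) := by
    have := k2.sub hsin hρ
    rw [add_sub_cancel_right] at this
    exact this.mono (by linarith)
  have m1 := b1.mul k3 hρ
  have m2 := (Bd.C hρ (1 / 2)).mul k2 hρ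
  have e : Wr α κ Cc Vc h A (fun φ => Dr (A φ)) (Dp A) φ - C (sin α / 2) * X ^ 2
      = (S12 κ Cc Vc h (A φ) (A (φ + α)) + C (1 / 2))
          * (Dr (A φ) * Dp A (φ + α) - Dp A φ * Dr (A (φ + α)))
        - C (1 / 2) * (Dr (A φ) * Dp A (φ + α) - Dp A φ * Dr (A (φ + α)) + C (sin α) * X ^ 2) := by
    have h1 : (C (sin α / 2) : ℝ⟦X⟧) = C (1 / 2) * C (sin α) := by
      rw [← map_mul]; congr 1; ring
    simp only [Wr]
    rw [h1]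
    ring
  rw [e]
  refine (m1.sub m2 hρ).mono ?_
  rw [abs_of_pos (by norm_num : (0 : ℝ) < 1 / 2)]
  nlinarith

lemma exists_w (hP : Par δ Cc Vc) (N : Num α s κ ρ η δ) (H : Ctl α s κ ρ η A h)
    (hA : FamA K A) (hsin : 0 < |sin α|) (hη : 96 * η ≤ |sin α|) :
    ∃ w winv : ℝ⟦X⟧, Av (Wr α κ Cc Vc h A (fun φ => Dr (A φ)) (Dp A)) = X ^ 2 * w
      ∧ w * winv = 1 ∧ Bd ρ winv (4 / |sin α|) := by
  have hρ := N.ρpos
  have hs0 : sin α ≠ 0 := abs_pos.mp hsin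
  have cW : Cls K 0 (Wr α κ Cc Vc h A (fun φ => Dr (A φ)) (Dp A)) :=
    (Cls_S12 hA.cls (hA.cls.shift α)).mul
      ((hA.cls.Dr.mul (hA.cls.Dp.shift α)).sub (hA.cls.Dp.mul (hA.cls.Dr.shift α)))
  have hXp : ∀ φ, (X : ℝ⟦X⟧) ∣ Dr (A φ) := fun φ => by
    have := Dr_X_pow_dvd (n := 1) (f := A φ) (by rw [pow_one]; exact hA.X_dvd φ)
    rwa [pow_one] at this
  have hXq : ∀ φ, (X : ℝ⟦X⟧) ∣ Dp A φ := fun φ => by
    have := Dp_X_pow_dvd (a := A) (n := 1) (fun φ => by rw [pow_one]; exact hA.X_dvd φ) φ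
    rwa [pow_one] at this
  have hdvd : (X : ℝ⟦X⟧) ^ 2 ∣ Av (Wr α κ Cc Vc h A (fun φ => Dr (A φ)) (Dp A)) := by
    refine Av_X_pow_dvd fun φ => ?_
    rw [Wr, pow_two]
    exact dvd_mul_of_dvd_right ((mul_dvd_mul (hXp _) (hXq _)).sub (mul_dvd_mul (hXq _) (hXp _))) _
  set W := Av (Wr α κ Cc Vc h A (fun φ => Dr (A φ)) (Dp A)) with hW
  have hBd : Bd ρ (W - C (sin α / 2) * X ^ 2) (6 * η) := by
    have h1 := Bd_Av_const (K := K) (d := 0) hρ.le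
      (a := (Wr α κ Cc Vc h A (fun φ => Dr (A φ)) (Dp A)) - fun _ => C (sin α / 2) * X ^ 2)
      (cW.sub (Cls.const _)) (fun φ => bd_Wr hP N H hA.X_dvd φ)
    rwa [Av_sub cW (Cls.const (K := K) (d := 0) _), Av_const] at h1
  set w := dX2 W with hw
  have hw2 : X ^ 2 * w = W := X2_mul_dX2 hdvd
  have hBw : Bd ρ (w - C (sin α / 2)) (24 * η) := by
    have h1 : Bd ρ (X ^ 2 * (w - C (sin α / 2))) (6 * η) := by
      have : X ^ 2 * (w - C (sin α / 2)) = W - C (sin α / 2) * X ^ 2 := by rw [← hw2]; ring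
      rw [this]; exact hBd
    refine (h1.of_X_pow_mul hρ).mono ?_
    rw [div_le_iff₀ (by positivity)]
    have h2 : (1 / 4 : ℝ) ≤ ρ ^ 2 := by nlinarith [N.ρ0]
    nlinarith [N.η0]
  set e : ℝ⟦X⟧ := 1 - C (2 / sin α) * w with he
  have hBe : Bd ρ e (1 / 2) := by
    have h1 := (Bd.C hρ.le (-(2 / sin α))).mul hBw hρ.le
    have h2 : C (-(2 / sin α)) * (w - C (sin α / 2)) = e := by
      have h3 : (C (2 / sin α) : ℝ⟦X⟧) * C (sin α / 2) = 1 := by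
        rw [← map_mul, show 2 / sin α * (sin α / 2) = 1 by field_simp, map_one]
      rw [he, map_neg]
      linear_combination h3
    rw [h2] at h1
    refine h1.mono ?_
    rw [abs_neg, abs_div, abs_two, div_mul_eq_mul_div, div_le_iff₀ hsin]
    linarith
  have hc : constantCoeff (1 - e) ≠ 0 := by
    have h1 := hBe.coeff_le hρ.le 0
    rw [pow_zero, mul_one] at h1
    rw [map_sub, map_one, ← coeff_zero_eq_constantCoeff_apply]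
    intro h2
    have h3 : coeff 0 e = 1 := by linarith
    rw [h3] at h1
    norm_num at h1
  have hg := PowerSeries.mul_inv_cancel (1 - e) hc
  have hg' := Bd.inv_of_mul_eq_one hρ.le hBe (by norm_num) hg
  have h1e : 1 - e = C (2 / sin α) * w := by rw [he]; ring
  refine ⟨w, C (2 / sin α) * (1 - e)⁻¹, hw2.symm, ?_, ?_⟩
  · calc w * (C (2 / sin α) * (1 - e)⁻¹) = (C (2 / sin α) * w) * (1 - e)⁻¹ := by ring
      _ = 1 := by rw [← h1e, hg]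
  · refine ((Bd.C hρ.le (2 / sin α)).mul hg' hρ.le).mono (le_of_eq ?_)
    rw [abs_div, abs_two]
    norm_num
    ring

end Helper43.Billiard
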