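import Pool.Agent.Helper43_Billiard.Abel

set_option autoImplicit false

/-! # The correction of `h` -/

namespace Helper43.Billiard

open PowerSeries Finset Real

variable {α κ : ℝ} {Cc Vc h : ℝ⟦X⟧} {A : Fam} {K : ℕ}

/-- half difference and half sum of a function at symmetric points -/
noncomputable def Psi (α : ℝ) (A : Fam) : Fam := fun φ => ps (A (φ - α / 2)) (A (φ + α / 2))
noncomputable def Sig (α : ℝ) (A : Fam) : Fam := fun φ => sg (A (φ - α / 2)) (A (φ + α / 2))

lemma X_dvd_Psi (hX : ∀ φ, (X : ℝ⟦X⟧) ∣ A φ) (φ : ℝ) : (X : ℝ⟦X⟧) ∣ Psi α A φ := X_dvd_ps (hX _) (hX _)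
lemma X_dvd_Sig (hX : ∀ φ, (X : ℝ⟦X⟧) ∣ A φ) (φ : ℝ) : (X : ℝ⟦X⟧) ∣ Sig α A φ := X_dvd_sg (hX _) (hX _)

lemma Cls_Psi (hA : Cls K 0 A) : Cls K 0 (Psi α A) := Cls_ps (hA.shift' _) (hA.shift _)
lemma Cls_Sig (hA : Cls K 0 A) : Cls K 0 (Sig α A) := Cls_sg (hA.shift' _) (hA.shift _)

/-- the moments -/
noncomputable def Qm (α : ℝ) (Cc : ℝ⟦X⟧) (A : Fam) (i : ℕ) : ℝ⟦X⟧ :=
  Av (fun φ => comp Cc (Sig α A φ) * Psi α A φ ^ i)

lemma coeff_comp_mul {k ψ c : ℝ⟦X⟧} (hψ : (X : ℝ⟦X⟧) ∣ ψ) (M : ℕ) :
    coeff M (comp k ψ * c) = ∑ i ∈ range (M + 1), coeff i k * coeff M (c * ψ ^ i) := by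
  have h1 := (comp_mod (g := k) hψ (M + 1)).mul_right c
  have h2 := X_pow_dvd_iff.mp h1 M (Nat.lt_succ_self M)
  rw [sub_mul, map_sub, sub_eq_zero] at h2
  rw [h2, sum_mul, map_sum]
  refine sum_congr rfl fun i _ => ?_
  rw [smul_mul_assoc, coeff_smul, smul_eq_mul, mul_comm c]

lemma coeff_Av_comp_mul (hA : Cls K 0 A) (hX : ∀ φ, (X : ℝ⟦X⟧) ∣ A φ) (k : ℝ⟦X⟧) (M : ℕ) :
    coeff M (Av (fun φ => comp k (Psi α A φ) * comp Cc (Sig α A φ)))
      = ∑ i ∈ range (M + 1), coeff i k * coeff M (Qm α Cc A i) := by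
  rw [coeff_Av]
  have e : cf M (fun φ => comp k (Psi α A φ) * comp Cc (Sig α A φ))
      = fun φ => ∑ i ∈ range (M + 1), coeff i k * cf M (fun φ => comp Cc (Sig α A φ) * Psi α A φ ^ i) φ := by
    ext φ
    exact coeff_comp_mul (X_dvd_Psi hX φ) M
  have c1 : ∀ i, Cls K 0 (fun φ => comp Cc (Sig α A φ) * Psi α A φ ^ i) := fun i =>
    ((Cls_Sig hA).comp Cc).mul ((Cls_Psi hA).pow i)
  rw [e, intervalIntegral.integral_finsetSum, sum_div]
  · refine sum_congr rfl fun i _ => ?_
    rw [intervalIntegral.integral_const_mul, Qm, coeff_Av]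
    ring
  · intro i _
    exact (Continuous.intervalIntegrable (by have := (c1 i).continuous M; fun_prop) _ _)

lemma Av_S0_zero (hA : Cls K 0 A) (k : ℝ⟦X⟧) :
    Av (fun φ => S0 0 Cc Vc k (A φ) (A (φ + α)))
      = (2 : ℝ) • Av (fun φ => comp k (Psi α A φ) * comp Cc (Sig α A φ)) := by
  have c1 : Cls K 0 (fun φ => comp k (ps (A φ) (A (φ + α))) * comp Cc (sg (A φ) (A (φ + α)))) :=
    ((Cls_ps hA (hA.shift α)).comp k).mul ((Cls_sg hA (hA.shift α)).comp Cc)
  have e1 : (fun φ => S0 0 Cc Vc k (A φ) (A (φ + α)))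
      = (2 : ℝ) • fun φ => comp k (ps (A φ) (A (φ + α))) * comp Cc (sg (A φ) (A (φ + α))) := by
    funext φ
    simp only [S0, zero_smul, sub_zero, Pi.smul_apply]
  rw [e1, Av_smul, ← Av_shift c1 (-(α / 2))]
  congr 2
  funext φ
  simp only [Psi, Sig]
  rw [show φ + -(α / 2) = φ - α / 2 by ring, show φ - α / 2 + α = φ + α / 2 by ring]

/-- the model family -/
noncomputable def modelPow (s : ℝ) (i : ℕ) : Fam := fun φ => (C (s * cos φ) * X) ^ i

lemma coeff_modelPow (s : ℝ) (i m : ℕ) (φ : ℝ) :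
    coeff m (modelPow s i φ) = if m = i then s ^ i * cos φ ^ i else 0 := by
  rw [modelPow, mul_pow, ← map_pow, coeff_C_mul, coeff_X_pow]
  split_ifs
  · rw [mul_pow, mul_one]
  · rw [mul_zero]

lemma Cls_modelPow (s : ℝ) (i : ℕ) (hK : 1 ≤ K) : Cls K 0 (modelPow s i) := by
  intro m
  by_cases hm : m = i
  · subst hm
    have : cf m (modelPow s m) = s ^ m • (ck 1) ^ m := by
      ext φ
      simp [cf, coeff_modelPow, ck]
    rw [this]
    refine Submodule.smul_mem _ _ ?_
    have h1 : (ck 1) ^ m ∈ TP (m * 1) := by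
      rw [mul_one]
      have : ∀ m : ℕ, (ck 1) ^ m ∈ TP m := by
        intro m
        induction m with
        | zero => rw [pow_zero]; exact one_mem_TP 0
        | succ m ih =>
          rw [pow_succ]
          exact TP_mul ih (ck_mem_TP (le_refl 1))
      exact this m
    exact TP_mono (by nlinarith) h1
  · have : cf m (modelPow s i) = 0 := by
      ext φ
      simp [cf, coeff_modelPow, hm]
    rw [this]
    exact Submodule.zero_mem _

lemma Av_modelPow (s : ℝ) (i : ℕ) : Av (modelPow s i) = monomial i (s ^ i * cc i) := by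
  ext m
  rw [coeff_Av, coeff_monomial]
  by_cases hm : m = i
  · subst hm
    rw [if_pos rfl]
    have : cf m (modelPow s m) = fun φ => s ^ m * cos φ ^ m := by
      ext φ
      simp [cf, coeff_modelPow]
    rw [this, intervalIntegral.integral_const_mul, cc]
    ring
  · rw [if_neg hm]
    have : cf m (modelPow s i) = fun _ => 0 := by
      ext φ
      simp [cf, coeff_modelPow, hm]
    rw [this]
    simp

/-- the key estimate for the moments -/
lemma Bd_Qm {ρ s ε e2 : ℝ} (hρ : 0 < ρ) (hs : 0 < s) (hK : 1 ≤ K) (hA : Cls K 0 A)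
    (h1 : ∀ φ, Bd ρ (Psi α A φ - C (s * cos φ) * X) (ε * (|cos φ| * sin φ ^ 2)))
    (h2 : ∀ φ, Bd ρ (comp Cc (Sig α A φ) - 1) e2)
    (hε0 : 0 ≤ ε) (hε : 16 * ε ≤ s * ρ) (he2 : e2 ≤ 1 / 8) (j : ℕ) :
    Bd ρ (Qm α Cc A (2 * j) - monomial (2 * j) (s ^ (2 * j) * cc (2 * j)))
      ((s * ρ) ^ (2 * j) * cc (2 * j) / 2) := by
  have hsρ : 0 < s * ρ := mul_pos hs hρ
  have he20 : 0 ≤ e2 := (h2 0).nonneg
  set ε' : ℝ := ε / (s * ρ) with hε'
  have hε'0 : 0 ≤ ε' := by positivity
  have hε'1 : ε' ≤ 1 / 16 := by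
    rw [hε', div_le_iff₀ hsρ]
    linarith
  have c1 : Cls K 0 (fun φ => comp Cc (Sig α A φ) * Psi α A φ ^ (2 * j)) :=
    ((Cls_Sig hA).comp Cc).mul ((Cls_Psi hA).pow _)
  have e1 : Qm α Cc A (2 * j) - monomial (2 * j) (s ^ (2 * j) * cc (2 * j))
      = Av ((fun φ => comp Cc (Sig α A φ) * Psi α A φ ^ (2 * j)) - modelPow s (2 * j)) := by
    rw [Av_sub c1 (Cls_modelPow s (2 * j) hK), Av_modelPow, Qm]
  rw [e1]
  -- the pointwise majorant
  set G : ℝ → ℝ := fun φ => (s * ρ) ^ (2 * j) *
    ((1 + e2) * (cos φ ^ (2 * j) * (1 + ε' * sin φ ^ 2) ^ (2 * j)) - cos φ ^ (2 * j)) with hG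
  have hpt : ∀ φ, Bd ρ (((fun φ => comp Cc (Sig α A φ) * Psi α A φ ^ (2 * j)) - modelPow s (2 * j)) φ) (G φ) := by
    intro φ
    have b1 : Bd ρ (C (s * cos φ) * X) (s * ρ * |cos φ|) := by
      have := (Bd.C hρ.le (s * cos φ)).mul (Bd.X hρ.le) hρ.le
      refine this.mono (le_of_eq ?_)
      rw [abs_mul, abs_of_pos hs]
      ring
    have b2 := b1.pow_sub_pow hρ.le (h1 φ) (2 * j)
    have b3 := (b1.add (h1 φ) hρ.le).pow hρ.le (2 * j)
    rw [add_sub_cancel] at b2 b3
    have b4 := ((h2 φ).mul b3 hρ.le).add b2 hρ.le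
    have e3 : ((fun φ => comp Cc (Sig α A φ) * Psi α A φ ^ (2 * j)) - modelPow s (2 * j)) φ
        = (comp Cc (Sig α A φ) - 1) * Psi α A φ ^ (2 * j)
          + (Psi α A φ ^ (2 * j) - (C (s * cos φ) * X) ^ (2 * j)) := by
      simp only [Pi.sub_apply, modelPow]
      ring
    rw [e3]
    refine b4.mono (le_of_eq ?_)
    have e4 : s * ρ * |cos φ| + ε * (|cos φ| * sin φ ^ 2) = (s * ρ) * |cos φ| * (1 + ε' * sin φ ^ 2) := by
      rw [hε']
      field_simp
    rw [e4]
    simp only [hG]
    have e5 : |cos φ| ^ (2 * j) = cos φ ^ (2 * j) := by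
      rw [pow_mul, pow_mul, sq_abs]
    rw [mul_pow, mul_pow, e5]
    ring
  have hGc : Continuous G := by
    simp only [hG]
    fun_prop
  have hmain := Bd_Av hρ.le (c1.sub (Cls_modelPow s (2 * j) hK)) hGc hpt
  refine hmain.mono ?_
  have hint : ∫ φ in (0 : ℝ)..(2 * π), G φ
      ≤ (s * ρ) ^ (2 * j) * ((1 + e2) * (Icl j 0 / (1 - 2 * ε')) - Icl j 0) := by
    simp only [hG]
    rw [intervalIntegral.integral_const_mul]
    refine mul_le_mul_of_nonneg_left ?_ (by positivity)
    rw [intervalIntegral.integral_sub, intervalIntegral.integral_const_mul]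
    · have h3 := int_weighted_le j hε'0 (by linarith)
      have h4 : ∫ φ in (0 : ℝ)..(2 * π), cos φ ^ (2 * j) = Icl j 0 := by simp [Icl]
      rw [h4]
      have := mul_le_mul_of_nonneg_left h3 (by linarith : 0 ≤ 1 + e2)
      linarith
    · exact Continuous.intervalIntegrable (by fun_prop) _ _
    · exact Continuous.intervalIntegrable (by fun_prop) _ _
  have hI0 := Icl_nonneg j 0
  have hfrac : (1 + e2) * (Icl j 0 / (1 - 2 * ε')) - Icl j 0 ≤ Icl j 0 / 2 := by
    have h5 : (7 : ℝ) / 8 ≤ 1 - 2 * ε' := by linarith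
    have h6 : Icl j 0 / (1 - 2 * ε') ≤ Icl j 0 / (7 / 8) :=
      div_le_div_of_nonneg_left hI0 (by norm_num) h5
    have h7 : (1 + e2) * (Icl j 0 / (1 - 2 * ε')) ≤ (9 / 8) * (Icl j 0 / (7 / 8)) :=
      mul_le_mul (by linarith) h6 (by positivity) (by norm_num)
    have h8 : (9 / 8 : ℝ) * (Icl j 0 / (7 / 8)) = 9 / 7 * Icl j 0 := by ring
    rw [h8] at h7
    linarith
  have h9 := mul_le_mul_of_nonneg_left hfrac (by positivity : 0 ≤ (s * ρ) ^ (2 * j))
  rw [cc_even]
  calc (∫ φ in (0 : ℝ)..(2 * π), G φ) / (2 * π)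
      ≤ ((s * ρ) ^ (2 * j) * (Icl j 0 / 2)) / (2 * π) := by
        apply div_le_div_of_nonneg_right (hint.trans h9) Real.two_pi_pos.le
    _ = _ := by ring

/-- Solution of the average equation for the correction `k` of `h`. -/
lemma exists_k {ρ s : ℝ} (hρ : 0 < ρ) (hs : 0 < s) (hC : EvenS Cc) (hA : FamA K A)
    (hQ : ∀ j, Bd ρ (Qm α Cc A (2 * j) - monomial (2 * j) (s ^ (2 * j) * cc (2 * j)))
      ((s * ρ) ^ (2 * j) * cc (2 * j) / 2))
    {a : ℝ⟦X⟧} (ha : EvenS a) {N : ℕ} (haN : ∀ m, 1 ≤ m → m < N → coeff m a = 0) :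
    ∃ k : ℝ⟦X⟧, EvenS k ∧ (∀ i < N, coeff i k = 0)
      ∧ (∀ M, 1 ≤ M → coeff M (a + Av (fun φ => S0 0 Cc Vc k (A φ) (A (φ + α)))) = 0)
      ∧ (∀ Ma : ℝ, (∀ N', ∑ m ∈ range N', (if m = 0 then 0 else |coeff m a| * ρ ^ m) ≤ Ma) →
          ∀ n₀ : ℕ, Bd (s * ρ) (tr n₀ k) (n₀ * Ma)) := by
  classical
  set P : ℕ → Prop := fun m => Even m ∧ 1 ≤ m with hP
  set t : ℕ → ℕ → ℝ := fun M i => 2 * coeff M (Qm α Cc A i) with ht
  set b : ℕ → ℝ := fun M => -coeff M a with hb
  have hdiag : ∀ m, P m → t m m ≠ 0 := by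
    rintro m ⟨⟨j, hj⟩, -⟩ h0
    have hj' : m = 2 * j := by omega
    have h1 := (hQ j).coeff_le hρ.le (2 * j)
    rw [map_sub, coeff_monomial_same] at h1
    have h2 : coeff (2 * j) (Qm α Cc A (2 * j)) = 0 := by
      simp only [ht, hj'] at h0
      linarith
    rw [h2, zero_sub, abs_neg, abs_of_pos (mul_pos (pow_pos hs _) (cc_pos j)), mul_pow] at h1
    have h3 : 0 < s ^ (2 * j) * ρ ^ (2 * j) * cc (2 * j) :=
      mul_pos (mul_pos (pow_pos hs _) (pow_pos hρ _)) (cc_pos j)
    linarith
  set x := triSol P t b with hx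
  set k : ℝ⟦X⟧ := mk x with hk
  have hck : ∀ m, coeff m k = x m := fun m => by rw [hk, coeff_mk]
  have hk_odd : ∀ m, Odd m → coeff m k = 0 := by
    intro m hm
    rw [hck]
    exact triSol_of_not fun h => (Nat.not_even_iff_odd.mpr hm) h.1
  have hke : EvenS k := evenS_iff.mpr hk_odd
  have hk0 : coeff 0 k = 0 := by
    rw [hck]
    exact triSol_of_not fun h => by have := h.2; omega
  have hAvk : ∀ M, coeff M (Av (fun φ => S0 0 Cc Vc k (A φ) (A (φ + α))))
      = ∑ i ∈ range (M + 1), t M i * x i := by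
    intro M
    rw [Av_S0_zero hA.cls, coeff_smul, smul_eq_mul, coeff_Av_comp_mul hA.cls hA.X_dvd, mul_sum]
    refine sum_congr rfl fun i _ => ?_
    rw [hck]
    simp only [ht]
    ring
  have heq : ∀ M, 1 ≤ M → coeff M (a + Av (fun φ => S0 0 Cc Vc k (A φ) (A (φ + α)))) = 0 := by
    intro M hM
    rcases Nat.even_or_odd M with hMe | hMo
    · rw [map_add, hAvk, triSol_eq ⟨hMe, hM⟩ (hdiag M ⟨hMe, hM⟩)]
      simp [hb]
    · have h1 : EvenS (Av (fun φ => S0 0 Cc Vc k (A φ) (A (φ + α)))) := by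
        refine EvenS_Av fun φ => ?_
        unfold EvenS
        simp only [S0, zero_smul, sub_zero, smul_eq_C_mul, map_mul, rescale_C', rescale_comp,
          rescale_ps, rescale_sg]
        rw [hA.rodd, hA.rodd, ps_neg_neg, sg_neg_neg, hC.comp_neg, hke.comp_neg]
      exact evenS_iff.mp (ha.add h1) M hMo
  refine ⟨k, hke, ?_, heq, ?_⟩
  · intro i hi
    rw [hck]
    exact triSol_zero (N := N) (fun m hm hPm => by
      simp only [hb]
      rw [haN m hPm.2 hm, neg_zero]) i hi
  · intro Ma hMa n₀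
    -- the weighted sums
    have hsρ : 0 < s * ρ := mul_pos hs hρ
    have hterm0 : ∀ m, 0 ≤ |coeff m k| * (s ^ m * cc m) * ρ ^ m := by
      intro m
      rcases Nat.even_or_odd' m with ⟨j, hj | hj⟩
      · rw [hj]
        have := cc_pos j
        positivity
      · rw [hk_odd m ⟨j, hj⟩]
        simp
    have hS : ∀ N', ∑ m ∈ range N', |coeff m k| * (s ^ m * cc m) * ρ ^ m ≤ Ma := by
      intro N'
      set R : ℕ → ℝ⟦X⟧ := fun i => Qm α Cc A i - monomial i (s ^ i * cc i) with hR
      have hpt : ∀ M ∈ range N', 2 * (|coeff M k| * (s ^ M * cc M) * ρ ^ M)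
          ≤ (if M = 0 then 0 else |coeff M a| * ρ ^ M)
            + ∑ i ∈ range N', 2 * (|coeff i k| * (|coeff M (R i)| * ρ ^ M)) := by
        intro M hM
        have hnn : 0 ≤ ∑ i ∈ range N', 2 * (|coeff i k| * (|coeff M (R i)| * ρ ^ M)) :=
          sum_nonneg fun i _ => by positivity
        by_cases hM0 : M = 0
        · subst hM0
          rw [hk0, if_pos rfl]
          simpa using hnn
        · rw [if_neg hM0]
          rcases Nat.even_or_odd M with hMe | hMo
          · have h1 := heq M (by omega)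
            rw [map_add, hAvk] at h1
            -- split the diagonal term
            have h2 : ∑ i ∈ range (M + 1), t M i * x i
                = 2 * (s ^ M * cc M) * coeff M k
                  + ∑ i ∈ range (M + 1), 2 * (coeff i k * coeff M (R i)) := by
              have : ∀ i, t M i * x i = (if i = M then 2 * (s ^ M * cc M) * coeff M k else 0)
                  + 2 * (coeff i k * coeff M (R i)) := by
                intro i
                simp only [ht, hR, map_sub, coeff_monomial]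
                rw [← hck i]
                by_cases hi : i = M
                · subst hi
                  rw [if_pos rfl, if_pos rfl]
                  ring
                · rw [if_neg hi, if_neg (fun h => hi h.symm)]
                  ring
              simp only [this]
              rw [sum_add_distrib, sum_ite_eq', if_pos (mem_range.mpr (Nat.lt_succ_self M))]
            rw [h2] at h1
            obtain ⟨j, hj⟩ := hMe
            have hccM : 0 < cc M := by
              rw [show M = 2 * j by omega]; exact cc_pos j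
            have h3 : 2 * (|coeff M k| * (s ^ M * cc M)) ≤ |coeff M a|
                + ∑ i ∈ range (M + 1), 2 * (|coeff i k| * |coeff M (R i)|) := by
              have h4 : 2 * (s ^ M * cc M) * coeff M k
                  = -(coeff M a + ∑ i ∈ range (M + 1), 2 * (coeff i k * coeff M (R i))) := by linarith
              have h5 : 2 * (|coeff M k| * (s ^ M * cc M)) = |2 * (s ^ M * cc M) * coeff M k| := by
                rw [abs_mul, abs_of_pos (by positivity : 0 < 2 * (s ^ M * cc M))]
                ring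
              rw [h5, h4, abs_neg]
              refine (abs_add_le _ _).trans (add_le_add (le_refl _) ?_)
              refine (abs_sum_le_sum_abs _ _).trans (sum_le_sum fun i _ => ?_)
              rw [abs_mul, abs_mul, abs_two]
            have hρM : 0 ≤ ρ ^ M := pow_nonneg hρ.le M
            calc 2 * (|coeff M k| * (s ^ M * cc M) * ρ ^ M)
                = 2 * (|coeff M k| * (s ^ M * cc M)) * ρ ^ M := by ring
              _ ≤ (|coeff M a| + ∑ i ∈ range (M + 1), 2 * (|coeff i k| * |coeff M (R i)|)) * ρ ^ M :=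
                  mul_le_mul_of_nonneg_right h3 hρM
              _ = |coeff M a| * ρ ^ M
                  + ∑ i ∈ range (M + 1), 2 * (|coeff i k| * (|coeff M (R i)| * ρ ^ M)) := by
                  rw [add_mul, sum_mul]
                  congr 1
                  refine sum_congr rfl fun i _ => ?_
                  ring
              _ ≤ _ := by
                  refine add_le_add (le_refl _) ?_
                  refine sum_le_sum_of_subset_of_nonneg ?_ fun i _ _ => by positivity
                  rw [mem_range] at hM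
                  exact range_subset_range.mpr hM
          · rw [hk_odd M hMo]
            simp only [abs_zero, zero_mul, mul_zero]
            positivity
      have hsum := sum_le_sum hpt
      rw [← mul_sum, sum_add_distrib, sum_comm] at hsum
      have hR2 : ∑ i ∈ range N', ∑ M ∈ range N', 2 * (|coeff i k| * (|coeff M (R i)| * ρ ^ M))
          ≤ ∑ i ∈ range N', |coeff i k| * (s ^ i * cc i) * ρ ^ i := by
        refine sum_le_sum fun i _ => ?_
        rcases Nat.even_or_odd' i with ⟨j, hj | hj⟩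
        · have h6 := hQ j N'
          rw [← hj] at h6
          calc ∑ M ∈ range N', 2 * (|coeff i k| * (|coeff M (R i)| * ρ ^ M))
              = 2 * |coeff i k| * ∑ M ∈ range N', |coeff M (R i)| * ρ ^ M := by
                rw [mul_sum]
                refine sum_congr rfl fun M _ => ?_
                ring
            _ ≤ 2 * |coeff i k| * ((s * ρ) ^ i * cc i / 2) :=
                mul_le_mul_of_nonneg_left h6 (by positivity)
            _ = _ := by rw [mul_pow]; ring
        · rw [hk_odd i ⟨j, hj⟩]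
          simp
      have := hMa N'
      linarith
    have hMa0 : 0 ≤ Ma := by simpa using hMa 0
    intro N'
    calc ∑ m ∈ range N', |coeff m (tr n₀ k)| * (s * ρ) ^ m
        ≤ ∑ m ∈ range N', n₀ * (|coeff m k| * (s ^ m * cc m) * ρ ^ m) := by
          refine sum_le_sum fun m _ => ?_
          rw [coeff_tr]
          split_ifs with hm
          · rcases Nat.even_or_odd' m with ⟨j, hj | hj⟩
            · have h7 := cc_lower j
              have h8 : (2 * (j : ℝ) + 1) ≤ n₀ := by
                have : 2 * j + 1 ≤ n₀ := by omega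
                exact_mod_cast this
              have h9 : 1 ≤ n₀ * cc m := by
                rw [hj]
                have h10 : (0 : ℝ) < 2 * j + 1 := by positivity
                calc (1 : ℝ) = (2 * j + 1) * (1 / (2 * j + 1)) := by field_simp
                  _ ≤ n₀ * cc (2 * j) := mul_le_mul h8 h7 (by positivity) (by positivity)
              have h11 : 0 ≤ |coeff m k| * (s * ρ) ^ m := by positivity
              calc |coeff m k| * (s * ρ) ^ m ≤ |coeff m k| * (s * ρ) ^ m * (n₀ * cc m) :=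
                    le_mul_of_one_le_right h11 h9
                _ = _ := by rw [mul_pow]; ring
            · rw [hk_odd m ⟨j, hj⟩]
              simp
          · rw [abs_zero, zero_mul]
            exact mul_nonneg (Nat.cast_nonneg _) (hterm0 m)
      _ = n₀ * ∑ m ∈ range N', |coeff m k| * (s ^ m * cc m) * ρ ^ m := by rw [mul_sum]
      _ ≤ n₀ * Ma := mul_le_mul_of_nonneg_left (hS N') (Nat.cast_nonneg _)

end Helper43.Billiard
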