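import Pool.Agent.Helper43_Billiard.Newton

set_option autoImplicit false

/-! # The correction of `A` -/

namespace Helper43.Billiard

open PowerSeries Finset Real

/-! ### parity calculus -/

lemma EvenS.mul {f g : ℝ⟦X⟧} (hf : EvenS f) (hg : EvenS g) : EvenS (f * g) := by
  unfold EvenS; rw [map_mul, hf, hg]
lemma OddS.mul {f g : ℝ⟦X⟧} (hf : OddS f) (hg : OddS g) : EvenS (f * g) := by
  unfold EvenS; rw [map_mul, hf, hg]; ring
lemma EvenS.mul_odd {f g : ℝ⟦X⟧} (hf : EvenS f) (hg : OddS g) : OddS (f * g) := by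
  unfold OddS; rw [map_mul, hf, hg]; ring
lemma EvenS.add {f g : ℝ⟦X⟧} (hf : EvenS f) (hg : EvenS g) : EvenS (f + g) := by
  unfold EvenS; rw [map_add, hf, hg]
lemma EvenS.sub {f g : ℝ⟦X⟧} (hf : EvenS f) (hg : EvenS g) : EvenS (f - g) := by
  unfold EvenS; rw [map_sub, hf, hg]
lemma EvenS.neg {f : ℝ⟦X⟧} (hf : EvenS f) : EvenS (-f) := by
  unfold EvenS; rw [map_neg, hf]
lemma OddS.add {f g : ℝ⟦X⟧} (hf : OddS f) (hg : OddS g) : OddS (f + g) := by
  unfold OddS; rw [map_add, hf, hg]; ring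
lemma OddS.neg {f : ℝ⟦X⟧} (hf : OddS f) : OddS (-f) := by
  unfold OddS; rw [map_neg, hf]
lemma EvenS.C (a : ℝ) : EvenS (C a) := rescale_C' _ _
lemma EvenS.smul {f : ℝ⟦X⟧} (a : ℝ) (hf : EvenS f) : EvenS (a • f) := by
  rw [smul_eq_C_mul]; exact (EvenS.C a).mul hf
lemma OddS.smul {f : ℝ⟦X⟧} (a : ℝ) (hf : OddS f) : OddS (a • f) := by
  rw [smul_eq_C_mul]; exact (EvenS.C a).mul_odd hf

lemma evenS_iff {f : ℝ⟦X⟧} : EvenS f ↔ ∀ m, Odd m → coeff m f = 0 := by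
  constructor
  · intro h m hm
    have := congrArg (coeff m) h
    rw [coeff_rescale, hm.neg_one_pow] at this
    linarith
  · intro h
    unfold EvenS
    ext m
    rw [coeff_rescale]
    rcases Nat.even_or_odd m with hm | hm
    · rw [hm.neg_one_pow, one_mul]
    · rw [h m hm, mul_zero]

lemma oddS_iff {f : ℝ⟦X⟧} : OddS f ↔ ∀ m, Even m → coeff m f = 0 := by
  constructor
  · intro h m hm
    have := congrArg (coeff m) h
    rw [coeff_rescale, hm.neg_one_pow, map_neg] at this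
    linarith
  · intro h
    unfold OddS
    ext m
    rw [coeff_rescale, map_neg]
    rcases Nat.even_or_odd m with hm | hm
    · rw [h m hm]; simp
    · rw [hm.neg_one_pow, neg_one_mul]

lemma OddS.Dr {f : ℝ⟦X⟧} (hf : OddS f) : OddS (Dr f) := by
  rw [oddS_iff] at hf ⊢
  intro m hm
  rw [coeff_Dr, hf m hm, mul_zero]

lemma EvenS.Dr {f : ℝ⟦X⟧} (hf : EvenS f) : EvenS (Dr f) := by
  rw [evenS_iff] at hf ⊢
  intro m hm
  rw [coeff_Dr, hf m hm, mul_zero]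

lemma OddS.tr {f : ℝ⟦X⟧} (hf : OddS f) (N : ℕ) : OddS (tr N f) := by
  rw [oddS_iff] at hf ⊢
  intro m hm
  rw [coeff_tr, hf m hm]
  simp

lemma EvenS.tr {f : ℝ⟦X⟧} (hf : EvenS f) (N : ℕ) : EvenS (tr N f) := by
  rw [evenS_iff] at hf ⊢
  intro m hm
  rw [coeff_tr, hf m hm]
  simp

lemma OddS_Dp {a : Fam} (ha : ∀ φ, OddS (a φ)) (φ : ℝ) : OddS (Dp a φ) := by
  rw [oddS_iff]
  intro m hm
  rw [coeff_Dp]
  have : cf m a = fun _ => 0 := by
    ext φ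
    exact oddS_iff.mp (ha φ) m hm
  rw [this]
  simp

lemma EvenS_Av {a : Fam} (ha : ∀ φ, EvenS (a φ)) : EvenS (Av a) := by
  rw [evenS_iff]
  intro m hm
  rw [coeff_Av]
  have : cf m a = fun _ => 0 := by
    ext φ
    exact evenS_iff.mp (ha φ) m hm
  rw [this]
  simp

/-- division by `X ^ 2` -/
noncomputable def dX2 (f : ℝ⟦X⟧) : ℝ⟦X⟧ := mk fun m => coeff (m + 2) f

lemma X2_mul_dX2 {f : ℝ⟦X⟧} (h : (X : ℝ⟦X⟧) ^ 2 ∣ f) : X ^ 2 * dX2 f = f := by
  ext m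
  rw [coeff_X_pow_mul']
  split_ifs with hm
  · rw [dX2, coeff_mk, Nat.sub_add_cancel hm]
  · rw [X_pow_dvd_iff.mp h m (by omega)]

lemma dX2_unique {f g : ℝ⟦X⟧} (h : X ^ 2 * g = f) : dX2 f = g := by
  ext m
  rw [dX2, coeff_mk, ← h, coeff_X_pow_mul', if_pos (by omega), Nat.add_sub_cancel]

lemma EvenS.dX2 {f : ℝ⟦X⟧} (hf : EvenS f) : EvenS (dX2 f) := by
  rw [evenS_iff] at hf ⊢
  intro m hm
  rw [Helper43.Billiard.dX2, coeff_mk]
  exact hf _ (by rcases hm with ⟨k, rfl⟩; exact ⟨k + 1, by ring⟩)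

lemma dX2_dvd {n : ℕ} {f : ℝ⟦X⟧} (h : (X : ℝ⟦X⟧) ^ (n + 2) ∣ f) : (X : ℝ⟦X⟧) ^ n ∣ dX2 f := by
  rw [X_pow_dvd_iff] at h ⊢
  intro m hm
  rw [dX2, coeff_mk]
  exact h _ (by omega)

lemma dX2_neg (f : ℝ⟦X⟧) : dX2 (-f) = -dX2 f := by
  ext m; simp [dX2]

lemma Cls_dX2 {K : ℕ} {a : Fam} (ha : Cls K 0 a) : Cls K 2 (fun φ => dX2 (a φ)) := by
  intro m
  have : cf m (fun φ => dX2 (a φ)) = cf (m + 2) a := by
    ext φ; simp [cf, dX2]
  rw [this]
  exact ha (m + 2)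

lemma Av_dX2 (a : Fam) : Av (fun φ => dX2 (a φ)) = dX2 (Av a) := by
  ext m
  simp only [coeff_Av, dX2, coeff_mk, cf]

lemma Bd.dX2 {ρ M : ℝ} {f : ℝ⟦X⟧} (hρ : 0 < ρ) (hX : (PowerSeries.X : ℝ⟦X⟧) ^ 2 ∣ f) (hf : Bd ρ f M) :
    Bd ρ (dX2 f) (M / ρ ^ 2) := by
  apply Bd.of_X_pow_mul hρ
  rwa [X2_mul_dX2 hX]

lemma Dp_odd {a : Fam} (ha : ∀ φ, a (-φ) = -a φ) (φ : ℝ) : Dp a (-φ) = Dp a φ := by
  ext m
  rw [coeff_Dp, coeff_Dp]
  have h : (fun φ => cf m a (-φ)) = fun φ => -cf m a φ := by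
    ext φ
    simp only [cf, ha, map_neg]
  have h1 := deriv_comp_neg (cf m a) φ
  rw [h] at h1
  have h2 : deriv (fun φ => -cf m a φ) φ = -deriv (cf m a) φ := deriv.fun_neg
  rw [h2] at h1
  linarith

lemma Dp_anti {a : Fam} (ha : ∀ φ, a (φ + π) = -a φ) (φ : ℝ) : Dp a (φ + π) = -Dp a φ := by
  have h1 := congrFun (Dp_shift a π) φ
  have h2 : (fun φ => a (φ + π)) = -a := by
    funext φ; rw [ha]; rfl
  rw [h2, Dp_neg] at h1
  exact h1.symm

variable {α κ : ℝ} {Cc Vc h : ℝ⟦X⟧} {A : Fam} {K : ℕ}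

/-- The average identity. -/
lemma Dr_Av_S0 (hA : Cls K 0 A) (hX : ∀ φ, (X : ℝ⟦X⟧) ∣ A φ) :
    Dr (Av (fun φ => S0 κ Cc Vc h (A φ) (A (φ + α))))
      = Av (fun φ => EL α κ Cc Vc h A φ * Dr (A φ)) := by
  rw [← Av_Dr]
  have e1 : (fun φ => Dr (S0 κ Cc Vc h (A φ) (A (φ + α))))
      = (fun φ => S1 κ Cc Vc h (A φ) (A (φ + α)) * Dr (A φ))
        + (fun φ => S2 κ Cc Vc h (A φ) (A (φ + α)) * Dr (A (φ + α))) := by
    funext φ
    rw [Dr_S0 (hX _) (hX _)]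
    rfl
  have e2 : (fun φ => EL α κ Cc Vc h A φ * Dr (A φ))
      = (fun φ => S1 κ Cc Vc h (A φ) (A (φ + α)) * Dr (A φ))
        + (fun φ => S2 κ Cc Vc h (A (φ - α)) (A φ) * Dr (A φ)) := by
    funext φ
    simp only [EL, Pi.add_apply]
    ring
  have c1 : Cls K 0 (fun φ => S1 κ Cc Vc h (A φ) (A (φ + α)) * Dr (A φ)) :=
    (Cls_S1 hA (hA.shift α)).mul hA.Dr
  have c2 : Cls K 0 (fun φ => S2 κ Cc Vc h (A φ) (A (φ + α)) * Dr (A (φ + α))) :=
    (Cls_S2 hA (hA.shift α)).mul (hA.Dr.shift α)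
  have c3 : Cls K 0 (fun φ => S2 κ Cc Vc h (A (φ - α)) (A φ) * Dr (A φ)) :=
    (Cls_S2 (hA.shift' α) hA).mul hA.Dr
  rw [e1, e2, Av_add c1 c2, Av_add c1 c3]
  congr 1
  rw [← Av_shift c3 α]
  congr 1
  funext φ
  rw [add_sub_cancel_right]

/-- bounds for `v` -/
lemma exists_v (hα : NonRes α) (hC : EvenS Cc) (hV : EvenS Vc) (hh : EvenS h) (hK : 1 ≤ K)
    (hA : FamA K A) {s : ℝ} (hs : s ≠ 0) (hnorm : A (α / 2) = C (-s) * X)
    {n : ℕ} (hn : 3 ≤ n) (hE : ∀ φ, (X : ℝ⟦X⟧) ^ n ∣ EL α κ Cc Vc h A φ)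
    (hav : (X : ℝ⟦X⟧) ^ (2 * n) ∣ Av (fun φ => EL α κ Cc Vc h A φ * Dr (A φ)))
    {w winv : ℝ⟦X⟧} (hw : Av (Wr α κ Cc Vc h A (fun φ => Dr (A φ)) (Dp A)) = X ^ 2 * w)
    (hwinv : w * winv = 1) :
    ∃ v : Fam, Cls (2 * K) 0 v ∧ (∀ φ, (X : ℝ⟦X⟧) ^ n ∣ v φ)
      ∧ (∀ φ, v (-φ) = -v φ) ∧ (∀ φ, v (φ + π) = -v φ) ∧ (∀ φ, OddS (v φ))
      ∧ v (α / 2) = 0 ∧ (∀ φ m, 2 * n - 1 ≤ m → coeff m (v φ) = 0)
      ∧ (∀ φ, (X : ℝ⟦X⟧) ^ (2 * n - 1) ∣ EL α κ Cc Vc h (A + v) φ)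
      ∧ (∀ ρ MF P Mw Λ : ℝ, 0 < ρ → (∀ φ, Bd ρ (EL α κ Cc Vc h A φ) MF) →
          (∀ φ, Bd ρ (Dr (A φ)) P) → (∀ φ, Bd ρ (Dp A φ) P) → Bd ρ winv Mw →
          (∀ k < (2 * n) * K, |(sin ((k + 1 : ℕ) * (α / 2)))⁻¹| ≤ Λ) →
          ∀ φ, Bd ρ (v φ) (8 * n ^ 2 * K * Λ * (Mw * (MF * P / ρ ^ 2)) * (P * (3 + P / (ρ * |s|))))) := by
  set F : Fam := EL α κ Cc Vc h A with hFdef
  set p : Fam := fun φ => Dr (A φ) with hpdef
  set q : Fam := Dp A with hqdef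
  -- basic facts
  have cA := hA.cls
  have cF : Cls K 0 F := Cls_EL cA
  have cp : Cls K 0 p := cA.Dr
  have cq : Cls K 0 q := cA.Dp
  have hXp : ∀ φ, (X : ℝ⟦X⟧) ∣ p φ := fun φ => by
    have := Dr_X_pow_dvd (n := 1) (f := A φ) (by rw [pow_one]; exact hA.X_dvd φ)
    rwa [pow_one] at this
  have hXq : ∀ φ, (X : ℝ⟦X⟧) ∣ q φ := fun φ => by
    have := Dp_X_pow_dvd (a := A) (n := 1) (fun φ => by rw [pow_one]; exact hA.X_dvd φ) φ
    rwa [pow_one] at this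
  have hXF : ∀ φ, (X : ℝ⟦X⟧) ∣ F φ := fun φ => (dvd_pow_self X (by omega)).trans (hE φ)
  have hLp : ∀ φ, (X : ℝ⟦X⟧) ^ n ∣ Lin α κ Cc Vc h A p φ := fun φ => by
    rw [← Dr_EL hA.X_dvd]
    exact Dr_X_pow_dvd (hE φ)
  have hLq : ∀ φ, (X : ℝ⟦X⟧) ^ n ∣ Lin α κ Cc Vc h A q φ := fun φ => by
    rw [← Dp_EL cA hA.X_dvd]
    exact Dp_X_pow_dvd hE φ
  have hFodd : ∀ φ, F (-φ) = -F φ := EL_odd hC hV hA.odd
  have hFanti : ∀ φ, F (φ + π) = -F φ := EL_anti hC hV hh hA.anti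
  have hFr : ∀ φ, OddS (F φ) := EL_rodd hC hV hh hA.rodd
  have hpodd : ∀ φ, p (-φ) = -p φ := fun φ => by simp only [hpdef]; rw [hA.odd, Dr_neg]
  have hpanti : ∀ φ, p (φ + π) = -p φ := fun φ => by simp only [hpdef]; rw [hA.anti, Dr_neg]
  have hpr : ∀ φ, OddS (p φ) := fun φ => (hA.rodd φ).Dr
  have hqeven : ∀ φ, q (-φ) = q φ := Dp_odd hA.odd
  have hqanti : ∀ φ, q (φ + π) = -q φ := Dp_anti hA.anti
  have hqr : ∀ φ, OddS (q φ) := OddS_Dp hA.rodd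
  -- the Wronskian
  have cW : Cls K 0 (Wr α κ Cc Vc h A p q) :=
    (Cls_S12 cA (cA.shift α)).mul ((cp.mul (cq.shift α)).sub (cq.mul (cp.shift α)))
  have hw0 : constantCoeff w ≠ 0 := by
    intro h0
    have := congrArg constantCoeff hwinv
    rw [map_mul, h0, zero_mul, map_one] at this
    exact zero_ne_one this
  have hWd : ∀ φ, (X : ℝ⟦X⟧) ^ (n + 1) ∣ Wr α κ Cc Vc h A p q φ - X ^ 2 * w := by
    have cWh : Cls K 0 (fun φ => Wr α κ Cc Vc h A p q (φ - α / 2)) := cW.shift' (α / 2)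
    have hAvh : Av (fun φ => Wr α κ Cc Vc h A p q (φ - α / 2)) = Av (Wr α κ Cc Vc h A p q) := by
      have e : (fun φ => Wr α κ Cc Vc h A p q (φ - α / 2))
          = fun φ => Wr α κ Cc Vc h A p q (φ + -(α / 2)) := by
        funext φ; rw [sub_eq_add_neg]
      rw [e, Av_shift cW]
    have key := X_pow_dvd_sub_Av hα cWh (n := n + 1) (fun φ => by
      have e1 : φ + α / 2 - α / 2 = φ := by ring
      have e2 : φ - α / 2 - α / 2 = φ - α := by ring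
      simp only [e1, e2]
      rw [Wr_diff, pow_succ, mul_comm ((X : ℝ⟦X⟧) ^ n)]
      exact (mul_dvd_mul (hXp φ) (hLq φ)).sub (mul_dvd_mul (hXq φ) (hLp φ)))
    intro φ
    have := key (φ + α / 2)
    simp only [add_sub_cancel_right] at this
    rwa [hAvh, hw] at this
  have hwe : EvenS w := by
    have hWe : EvenS (Av (Wr α κ Cc Vc h A p q)) := by
      refine EvenS_Av fun φ => ?_
      refine EvenS.mul ?_ (((hpr _).mul (hqr _)).sub ((hqr _).mul (hpr _)))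
      unfold EvenS
      rw [rescale_S12, hA.rodd, hA.rodd, S12_neg_neg hC hV hh]
    rw [hw] at hWe
    have := hWe.dX2
    rwa [dX2_unique rfl] at this
  have hwinve : EvenS winv := by
    unfold EvenS
    have h1 : w * rescale (-1 : ℝ) winv = 1 := by
      have := congrArg (rescale (-1 : ℝ)) hwinv
      rwa [map_mul, hwe, map_one] at this
    calc rescale (-1 : ℝ) winv = (w * winv) * rescale (-1 : ℝ) winv := by rw [hwinv, one_mul]
      _ = winv * (w * rescale (-1 : ℝ) winv) := by ring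
      _ = winv := by rw [h1, mul_one]
  -- right-hand sides
  set g1 : Fam := fun φ => winv * dX2 (F φ * q φ) with hg1
  set g2 : Fam := fun φ => -(winv * dX2 (F φ * p φ)) with hg2
  have cg1 : Cls K 2 g1 := by
    have := (Cls.const (K := K) (d := 0) winv).mul (Cls_dX2 (cF.mul cq))
    rw [zero_add] at this
    exact this
  have cg2 : Cls K 2 g2 := by
    have := ((Cls.const (K := K) (d := 0) winv).mul (Cls_dX2 (cF.mul cp))).neg
    rw [zero_add] at this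
    exact this
  have hFq2 : ∀ φ, (X : ℝ⟦X⟧) ^ (n + 1) ∣ F φ * q φ := fun φ => by
    rw [pow_succ]; exact mul_dvd_mul (hE φ) (hXq φ)
  have hFp2 : ∀ φ, (X : ℝ⟦X⟧) ^ (n + 1) ∣ F φ * p φ := fun φ => by
    rw [pow_succ]; exact mul_dvd_mul (hE φ) (hXp φ)
  have hint1 : ∀ m < 2 * n - 2, ∫ φ in (0 : ℝ)..(2 * π), cf m g1 φ = 0 := by
    intro m _
    have hodd : ∀ φ, g1 (-φ) = -g1 φ := fun φ => by
      simp only [hg1]
      rw [hFodd, hqeven, neg_mul, dX2_neg]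
      ring
    have := congrArg (coeff m) (Av_odd cg1 hodd)
    rw [coeff_Av, map_zero] at this
    have h2 := Real.two_pi_pos.ne'
    field_simp at this
    simpa using this
  have hint2 : ∀ m < 2 * n - 2, ∫ φ in (0 : ℝ)..(2 * π), cf m g2 φ = 0 := by
    intro m hm
    have h1 : Av g2 = -(winv * dX2 (Av (fun φ => F φ * p φ))) := by
      have e : g2 = fun φ => (-winv) * dX2 (F φ * p φ) := by
        funext φ; simp only [hg2]; ring
      have h3 := Av_const_mul (-winv) (a := fun φ => dX2 (F φ * p φ)) (Cls_dX2 (cF.mul cp))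
      rw [e, h3, Av_dX2, neg_mul]
    have h2 : (X : ℝ⟦X⟧) ^ (2 * n - 2) ∣ Av g2 := by
      rw [h1, dvd_neg]
      refine dvd_mul_of_dvd_right (dX2_dvd ?_) _
      rw [show 2 * n - 2 + 2 = 2 * n by omega]
      exact hav
    have := X_pow_dvd_iff.mp h2 m hm
    rw [coeff_Av] at this
    have h2 := Real.two_pi_pos.ne'
    field_simp at this
    simpa using this
  obtain ⟨x0, cx0, hx0eq, hx0ord, hx0even, -, hx0per, hx0r, hx0bd⟩ :=
    exists_fam_sol hα cg1 (2 * n - 2) hint1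
  obtain ⟨y, cy, hyeq, hyord, -, hyodd, hyper, hyr, hybd⟩ :=
    exists_fam_sol hα cg2 (2 * n - 2) hint2
  have hg1ord : ∀ φ, (X : ℝ⟦X⟧) ^ (n - 1) ∣ g1 φ := fun φ => by
    refine dvd_mul_of_dvd_right (dX2_dvd ?_) _
    rw [show n - 1 + 2 = n + 1 by omega]
    exact hFq2 φ
  have hg2ord : ∀ φ, (X : ℝ⟦X⟧) ^ (n - 1) ∣ g2 φ := fun φ => by
    rw [hg2, dvd_neg]
    refine dvd_mul_of_dvd_right (dX2_dvd ?_) _
    rw [show n - 1 + 2 = n + 1 by omega]
    exact hFp2 φ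
  have hx0ord' := hx0ord (n - 1) hg1ord
  have hyord' := hyord (n - 1) hg2ord
  have hx0even' := hx0even (fun φ => by
      simp only [hg1]
      rw [hFodd, hqeven, neg_mul, dX2_neg]
      ring)
  have hyodd' := hyodd (fun φ => by
      simp only [hg2]
      rw [hFodd, hpodd, neg_mul_neg])
  have hx0per' := hx0per (fun φ => by
      simp only [hg1]
      rw [hFanti, hqanti, neg_mul_neg])
  have hyper' := hyper (fun φ => by
      simp only [hg2]
      rw [hFanti, hpanti, neg_mul_neg])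
  have hx0r' := hx0r (fun φ => hwinve.mul ((hFr φ).mul (hqr φ)).dX2)
  have hyr' := hyr (fun φ => (hwinve.mul ((hFr φ).mul (hpr φ)).dX2).neg)
  -- the normalising constant
  obtain ⟨q1, hq1⟩ := hXq (α / 2)
  have hp1 : p (α / 2) = C (-s) * X := by
    simp only [hpdef]
    rw [hnorm]
    ext m
    rw [coeff_Dr, coeff_C_mul, coeff_X]
    split_ifs with hm
    · subst hm; simp
    · simp
  have hq1e : EvenS q1 := by
    have h1 := hqr (α / 2)
    rw [hq1] at h1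
    rw [evenS_iff]
    intro m hm
    have := oddS_iff.mp h1 (m + 1) (by rcases hm with ⟨k, rfl⟩; exact ⟨k + 1, by ring⟩)
    rwa [coeff_succ_X_mul] at this
  set xb : ℝ⟦X⟧ := -((1 / 2 : ℝ) • (x0 α + x0 0)) + (1 / (2 * s) : ℝ) • ((y α + y 0) * q1) with hxb
  have hxbord : (X : ℝ⟦X⟧) ^ (n - 1) ∣ xb := by
    rw [hxb, smul_eq_C_mul, smul_eq_C_mul]
    refine dvd_add ?_ ?_
    · rw [dvd_neg]
      exact dvd_mul_of_dvd_right ((hx0ord' α).add (hx0ord' 0)) _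
    · exact dvd_mul_of_dvd_right (((hyord' α).add (hyord' 0)).mul_right _) _
  have hxbe : EvenS xb := (((hx0r' α).add (hx0r' 0)).smul _).neg.add
    ((((hyr' α).add (hyr' 0)).mul hq1e).smul _)
  set x : Fam := fun φ => x0 φ + xb with hxdef
  set v0 : Fam := fun φ => (1 / 2 : ℝ) •
      ((x (φ + α / 2) + x (φ - α / 2)) * p φ + (y (φ + α / 2) + y (φ - α / 2)) * q φ) with hv0
  have hxord : ∀ φ, (X : ℝ⟦X⟧) ^ (n - 1) ∣ x φ := fun φ => (hx0ord' φ).add hxbord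
  -- the algebraic step
  have hXw : ∀ f : ℝ⟦X⟧, (X : ℝ⟦X⟧) ^ 2 ∣ f → X ^ 2 * w * (winv * dX2 f) = f := by
    intro f hf
    calc X ^ 2 * w * (winv * dX2 f) = (w * winv) * (X ^ 2 * dX2 f) := by ring
      _ = f := by rw [hwinv, one_mul, X2_mul_dX2 hf]
  have hx2 : ∀ φ, (X : ℝ⟦X⟧) ^ (2 * n) ∣ X ^ 2 * w * (x (φ + α / 2) - x (φ - α / 2)) - F φ * q φ := by
    intro φ
    have h1 : X ^ 2 * w * (x (φ + α / 2) - x (φ - α / 2)) - F φ * q φ
        = X ^ 2 * (w * (x0 (φ + α / 2) - x0 (φ - α / 2) - g1 φ)) := by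
      have := hXw (F φ * q φ) ((pow_dvd_pow X (by omega)).trans (hFq2 φ))
      simp only [hg1, hxdef]
      linear_combination this
    rw [h1, show 2 * n = 2 + (2 * n - 2) by omega, pow_add]
    exact mul_dvd_mul_left _ (dvd_mul_of_dvd_right (hx0eq φ) _)
  have hy2 : ∀ φ, (X : ℝ⟦X⟧) ^ (2 * n) ∣ X ^ 2 * w * (y (φ + α / 2) - y (φ - α / 2)) + F φ * p φ := by
    intro φ
    have h1 : X ^ 2 * w * (y (φ + α / 2) - y (φ - α / 2)) + F φ * p φ
        = X ^ 2 * (w * (y (φ + α / 2) - y (φ - α / 2) - g2 φ)) := by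
      have := hXw (F φ * p φ) ((pow_dvd_pow X (by omega)).trans (hFp2 φ))
      simp only [hg2]
      linear_combination -this
    rw [h1, show 2 * n = 2 + (2 * n - 2) by omega, pow_add]
    exact mul_dvd_mul_left _ (dvd_mul_of_dvd_right (hyeq φ) _)
  have halg := newton_algebra (by omega : 2 ≤ n) hw0 hXp hXq hE hLp hLq hWd hxord hyord' hx2 hy2
  -- order and class of `v0`
  have hv0ord : ∀ φ, (X : ℝ⟦X⟧) ^ n ∣ v0 φ := fun φ => by
    simp only [hv0]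
    rw [smul_eq_C_mul, show n = (n - 1) + 1 by omega, pow_succ]
    refine dvd_mul_of_dvd_right (dvd_add ?_ ?_) _
    · exact mul_dvd_mul ((hxord _).add (hxord _)) (hXp φ)
    · exact mul_dvd_mul ((hyord' _).add (hyord' _)) (hXq φ)
  have hv0cls : Cls K 2 v0 := by
    have cx : Cls K 2 x := cx0.add (Cls.const xb)
    have h1 := (((cx.shift (α / 2)).add (cx.shift' (α / 2))).mul cp).add
      (((cy.shift (α / 2)).add (cy.shift' (α / 2))).mul cq)
    exact h1.smul (1 / 2)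
  have hv0odd : ∀ φ, v0 (-φ) = -v0 φ := fun φ => by
    have hxe : ∀ φ, x (-φ) = x φ := fun φ => by simp only [hxdef]; rw [hx0even']
    have e1 : x (-φ + α / 2) = x (φ - α / 2) := by rw [← hxe]; congr 1; ring
    have e2 : x (-φ - α / 2) = x (φ + α / 2) := by rw [← hxe]; congr 1; ring
    have e3 : y (-φ + α / 2) = -y (φ - α / 2) := by rw [← hyodd']; congr 1; ring
    have e4 : y (-φ - α / 2) = -y (φ + α / 2) := by rw [← hyodd']; congr 1; ring
    simp only [hv0]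
    rw [e1, e2, e3, e4, hpodd, hqeven, ← smul_neg]
    congr 1
    ring
  have hv0anti : ∀ φ, v0 (φ + π) = -v0 φ := fun φ => by
    have hxp : ∀ φ, x (φ + π) = x φ := fun φ => by simp only [hxdef]; rw [hx0per']
    have e1 : x (φ + π + α / 2) = x (φ + α / 2) := by
      rw [show φ + π + α / 2 = (φ + α / 2) + π by ring]; exact hxp _
    have e2 : x (φ + π - α / 2) = x (φ - α / 2) := by
      rw [show φ + π - α / 2 = (φ - α / 2) + π by ring]; exact hxp _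
    have e3 : y (φ + π + α / 2) = y (φ + α / 2) := by
      rw [show φ + π + α / 2 = (φ + α / 2) + π by ring]; exact hyper' _
    have e4 : y (φ + π - α / 2) = y (φ - α / 2) := by
      rw [show φ + π - α / 2 = (φ - α / 2) + π by ring]; exact hyper' _
    simp only [hv0]
    rw [e1, e2, e3, e4, hpanti, hqanti, ← smul_neg]
    congr 1
    ring
  have hxr : ∀ φ, EvenS (x φ) := fun φ => (hx0r' φ).add hxbe
  have hv0r : ∀ φ, OddS (v0 φ) := fun φ =>
    ((((hxr _).add (hxr _)).mul_odd (hpr φ)).add (((hyr' _).add (hyr' _)).mul_odd (hqr φ))).smul _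
  have hv0n : v0 (α / 2) = 0 := by
    have hss : (C (-s) : ℝ⟦X⟧) * C (1 / (2 * s)) = -C (1 / 2) := by
      rw [← map_mul, ← map_neg]
      congr 1
      field_simp
    have h22 : (C (1 / 2) : ℝ⟦X⟧) * 2 = 1 := by
      rw [show (2 : ℝ⟦X⟧) = C (2 : ℝ) from (map_ofNat C 2).symm, ← map_mul]
      norm_num
    simp only [hv0, hxdef]
    rw [add_halves, sub_self, hp1, hq1, hxb]
    simp only [smul_eq_C_mul]
    linear_combination (C (1 / 2) * 2 * X * (y α + y 0) * q1) * hss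
      - C (1 / 2) * X * ((x0 α + x0 0) * C (-s) + (y α + y 0) * q1) * h22
  refine ⟨fun φ => tr (2 * n - 1) (v0 φ), ?_, ?_, ?_, ?_, ?_, ?_, ?_, ?_, ?_⟩
  · intro m
    by_cases hm : m < 2
    · have : cf m (fun φ => tr (2 * n - 1) (v0 φ)) = 0 := by
        ext φ
        simp only [cf, coeff_tr, Pi.zero_apply]
        rw [X_pow_dvd_iff.mp (hv0ord φ) m (by omega)]
        simp
      rw [this]
      exact Submodule.zero_mem _
    · exact TP_mono (by nlinarith) (hv0cls.tr (2 * n - 1) m)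
  · intro φ
    rw [X_pow_dvd_iff]
    intro m hm
    rw [coeff_tr, X_pow_dvd_iff.mp (hv0ord φ) m hm]
    simp
  · intro φ
    ext m
    simp only [hv0odd, coeff_tr, map_neg]
    split_ifs <;> simp
  · intro φ
    ext m
    simp only [hv0anti, coeff_tr, map_neg]
    split_ifs <;> simp
  · intro φ
    exact (hv0r φ).tr _
  · simp only [hv0n]
    ext m
    simp [coeff_tr]
  · intro φ m hm
    rw [coeff_tr, if_neg (by omega)]
  · intro φ
    have hXv0 : ∀ φ, (X : ℝ⟦X⟧) ∣ v0 φ := fun φ => (dvd_pow_self X (by omega)).trans (hv0ord φ)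
    have hXt : ∀ φ, (X : ℝ⟦X⟧) ∣ tr (2 * n - 1) (v0 φ) := fun φ => by
      rw [X_dvd_iff, ← coeff_zero_eq_constantCoeff_apply, coeff_tr,
        coeff_zero_eq_constantCoeff_apply, X_dvd_iff.mp (hXv0 φ)]
      simp
    have h1 := EL_congr (α := α) (κ := κ) (Cc := Cc) (Vc := Vc) (h := h) (n := 2 * n - 1)
      (A := A + fun φ => tr (2 * n - 1) (v0 φ)) (A' := A + v0)
      (fun φ => (hA.X_dvd φ).add (hXt φ)) (fun φ => (hA.X_dvd φ).add (hXv0 φ))
      (fun φ => by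
        have := X_pow_dvd_tr_sub (2 * n - 1) (v0 φ)
        simpa using this) φ
    have h2 := (pow_dvd_pow (X : ℝ⟦X⟧) (show 2 * n - 1 ≤ 2 * n by omega)).trans
      (EL_taylor (α := α) (κ := κ) (Cc := Cc) (Vc := Vc) (h := h) (by omega : 1 ≤ n) hA.X_dvd hv0ord φ)
    have h3 := halg φ
    refine ((h1.add h2).add h3).trans (dvd_of_eq ?_)
    simp only [hFdef]
    ring
  · intro ρ MF P Mw Λ hρ hMF hP1 hP2 hMw hΛ φ
    refine Bd.tr ?_ hρ.le _
    have hMF0 := (hMF 0).nonneg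
    have hP0 := (hP1 0).nonneg
    have hMw0 := hMw.nonneg
    have hΛ0 : 0 ≤ Λ := (abs_nonneg _).trans (hΛ 0 (by positivity))
    have hsp : 0 < |s| := abs_pos.mpr hs
    -- bounds on g
    set G : ℝ := Mw * (MF * P / ρ ^ 2) with hG
    have hG0 : 0 ≤ G := by positivity
    have bg1 : ∀ φ, Bd ρ (g1 φ) G := fun φ =>
      hMw.mul (((hMF φ).mul (hP2 φ) hρ.le).dX2 hρ ((pow_dvd_pow X (by omega)).trans (hFq2 φ))) hρ.le
    have bg2 : ∀ φ, Bd ρ (g2 φ) G := fun φ =>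
      (hMw.mul (((hMF φ).mul (hP1 φ) hρ.le).dX2 hρ ((pow_dvd_pow X (by omega)).trans (hFp2 φ))) hρ.le).neg
    have hΛ' : ∀ k < (2 * n - 2 + 2) * K, |(sin ((k + 1 : ℕ) * (α / 2)))⁻¹| ≤ Λ := by
      rw [show 2 * n - 2 + 2 = 2 * n by omega]
      exact hΛ
    set T : ℝ := 8 * n ^ 2 * K * Λ * G with hT
    have hT0 : 0 ≤ T := by positivity
    have hNT : ((2 * n - 2 : ℕ) : ℝ) * (2 * ((2 * n - 2 + 2) * K : ℕ) * G * Λ) ≤ T := by
      have e1 : ((2 * n - 2 : ℕ) : ℝ) ≤ 2 * n := by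
        have : ((2 * n - 2 : ℕ) : ℝ) ≤ ((2 * n : ℕ) : ℝ) := by exact_mod_cast Nat.sub_le _ _
        simpa using this
      have e2 : (((2 * n - 2 + 2) * K : ℕ) : ℝ) = 2 * n * K := by
        rw [show 2 * n - 2 + 2 = 2 * n by omega]
        push_cast
        ring
      rw [e2, hT]
      have hn0 : (0 : ℝ) ≤ n := Nat.cast_nonneg _
      have hK0 : (0 : ℝ) ≤ K := Nat.cast_nonneg _
      calc ((2 * n - 2 : ℕ) : ℝ) * (2 * (2 * n * K) * G * Λ) ≤ (2 * n) * (2 * (2 * n * K) * G * Λ) :=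
            mul_le_mul_of_nonneg_right e1 (by positivity)
        _ = _ := by ring
    have bx0 : ∀ φ, Bd ρ (x0 φ) T := fun φ => (hx0bd ρ G Λ hρ bg1 hΛ' φ).mono hNT
    have by' : ∀ φ, Bd ρ (y φ) T := fun φ => (hybd ρ G Λ hρ bg2 hΛ' φ).mono hNT
    have bq1 : Bd ρ q1 (P / ρ) := by
      have h1 : Bd ρ (X ^ 1 * q1) P := by
        rw [pow_one, ← hq1]; exact hP2 _
      simpa using h1.of_X_pow_mul hρ
    have bxb : Bd ρ xb (T + T * (P / (ρ * |s|))) := by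
      have h1 := (((bx0 α).add (bx0 0) hρ.le).smul (1 / 2)).neg
      have h2 := (((by' α).add (by' 0) hρ.le).mul bq1 hρ.le).smul (1 / (2 * s))
      refine (h1.add h2 hρ.le).mono (le_of_eq ?_)
      rw [abs_div, abs_div, abs_mul, abs_one, abs_two]
      field_simp
      ring
    have bx : ∀ φ, Bd ρ (x φ) (T + (T + T * (P / (ρ * |s|)))) := fun φ => (bx0 φ).add bxb hρ.le
    have h3 := ((((bx (φ + α / 2)).add (bx (φ - α / 2)) hρ.le).mul (hP1 φ) hρ.le).add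
      (((by' (φ + α / 2)).add (by' (φ - α / 2)) hρ.le).mul (hP2 φ) hρ.le) hρ.le).smul (1 / 2)
    refine h3.mono (le_of_eq ?_)
    rw [abs_div, abs_one, abs_two]
    ring

end Helper43.Billiard
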