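import Pool.Agent.Helper43_Billiard.Curv

set_option autoImplicit false

/-! # The convex table with a given curvature function -/

namespace Helper43.Billiard

open Real intervalIntegral Set

/-- boundary coordinates -/
noncomputable def Xc (ϱ : ℝ → ℝ) (ψ : ℝ) : ℝ := ∫ t in (0 : ℝ)..ψ, ϱ t * cos t
noncomputable def Yc (ϱ : ℝ → ℝ) (y₀ ψ : ℝ) : ℝ := y₀ - ∫ t in (0 : ℝ)..ψ, ϱ t * sin t
/-- support function and its derivative -/
noncomputable def Hs (ϱ : ℝ → ℝ) (y₀ ψ : ℝ) : ℝ := Xc ϱ ψ * sin ψ + Yc ϱ y₀ ψ * cos ψ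
noncomputable def Hs' (ϱ : ℝ → ℝ) (y₀ ψ : ℝ) : ℝ := Xc ϱ ψ * cos ψ - Yc ϱ y₀ ψ * sin ψ
/-- boundary point -/
noncomputable def gam (ϱ : ℝ → ℝ) (y₀ ψ : ℝ) : ℂ := ⟨Xc ϱ ψ, Yc ϱ y₀ ψ⟩
/-- unit normal -/
noncomputable def nrm (ψ : ℝ) : ℂ := ⟨sin ψ, cos ψ⟩
/-- the domain -/
def Dom (ϱ : ℝ → ℝ) (y₀ : ℝ) : Set ℂ := {x | ∀ ψ, x.re * sin ψ + x.im * cos ψ < Hs ϱ y₀ ψ}
/-- the closed domain -/
def Dom' (ϱ : ℝ → ℝ) (y₀ : ℝ) : Set ℂ := {x | ∀ ψ, x.re * sin ψ + x.im * cos ψ ≤ Hs ϱ y₀ ψ}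

variable {ϱ : ℝ → ℝ} {y₀ : ℝ}

section basic
variable (C : Curv ϱ y₀)
include C

lemma Curv.cont : Continuous ϱ := C.smooth.continuous

lemma hasDerivAt_Xc (ψ : ℝ) : HasDerivAt (Xc ϱ) (ϱ ψ * cos ψ) ψ := by
  have h := C.cont
  have h1 : Continuous fun t => ϱ t * cos t := by fun_prop
  exact integral_hasDerivAt_right (h1.intervalIntegrable _ _) (h1.stronglyMeasurableAtFilter _ _)
    h1.continuousAt

lemma hasDerivAt_Yc (ψ : ℝ) : HasDerivAt (Yc ϱ y₀) (-(ϱ ψ * sin ψ)) ψ := by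
  have h := C.cont
  have h1 : Continuous fun t => ϱ t * sin t := by fun_prop
  exact (integral_hasDerivAt_right (h1.intervalIntegrable _ _) (h1.stronglyMeasurableAtFilter _ _)
    h1.continuousAt).const_sub y₀

lemma hasDerivAt_Hs (ψ : ℝ) : HasDerivAt (Hs ϱ y₀) (Hs' ϱ y₀ ψ) ψ := by
  have h : HasDerivAt (Hs ϱ y₀) _ ψ :=
    ((hasDerivAt_Xc C ψ).mul (hasDerivAt_sin ψ)).add ((hasDerivAt_Yc C ψ).mul (hasDerivAt_cos ψ))
  refine h.congr_deriv ?_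
  rw [Hs']; ring

lemma hasDerivAt_Hs' (ψ : ℝ) : HasDerivAt (Hs' ϱ y₀) (ϱ ψ - Hs ϱ y₀ ψ) ψ := by
  have h : HasDerivAt (Hs' ϱ y₀) _ ψ :=
    ((hasDerivAt_Xc C ψ).mul (hasDerivAt_cos ψ)).sub ((hasDerivAt_Yc C ψ).mul (hasDerivAt_sin ψ))
  refine h.congr_deriv ?_
  rw [Hs]
  linear_combination (ϱ ψ) * Real.sin_sq_add_cos_sq ψ

lemma continuous_Xc : Continuous (Xc ϱ) :=
  continuous_iff_continuousAt.mpr fun ψ => (hasDerivAt_Xc C ψ).continuousAt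
lemma continuous_Yc : Continuous (Yc ϱ y₀) :=
  continuous_iff_continuousAt.mpr fun ψ => (hasDerivAt_Yc C ψ).continuousAt
lemma continuous_Hs : Continuous (Hs ϱ y₀) :=
  continuous_iff_continuousAt.mpr fun ψ => (hasDerivAt_Hs C ψ).continuousAt

lemma contDiff_Xc : ContDiff ℝ (↑(⊤ : ℕ∞)) (Xc ϱ) := by
  rw [contDiff_infty_iff_deriv]
  refine ⟨fun ψ => (hasDerivAt_Xc C ψ).differentiableAt, ?_⟩
  have : deriv (Xc ϱ) = fun ψ => ϱ ψ * cos ψ := funext fun ψ => (hasDerivAt_Xc C ψ).deriv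
  rw [this]
  exact C.smooth.mul Real.contDiff_cos

lemma contDiff_Yc : ContDiff ℝ (↑(⊤ : ℕ∞)) (Yc ϱ y₀) := by
  rw [contDiff_infty_iff_deriv]
  refine ⟨fun ψ => (hasDerivAt_Yc C ψ).differentiableAt, ?_⟩
  have : deriv (Yc ϱ y₀) = fun ψ => -(ϱ ψ * sin ψ) := funext fun ψ => (hasDerivAt_Yc C ψ).deriv
  rw [this]
  exact (C.smooth.mul Real.contDiff_sin).neg

lemma contDiff_Hs : ContDiff ℝ (↑(⊤ : ℕ∞)) (Hs ϱ y₀) :=
  ((contDiff_Xc C).mul Real.contDiff_sin).add ((contDiff_Yc C).mul Real.contDiff_cos)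

lemma contDiff_Hs' : ContDiff ℝ (↑(⊤ : ℕ∞)) (Hs' ϱ y₀) :=
  ((contDiff_Xc C).mul Real.contDiff_cos).sub ((contDiff_Yc C).mul Real.contDiff_sin)

omit C in
lemma const_of_deriv_zero {F : ℝ → ℝ} (h : ∀ x, HasDerivAt F 0 x) (x y : ℝ) : F x = F y :=
  is_const_of_deriv_eq_zero (fun x => (h x).differentiableAt) (fun x => (h x).deriv) x y

lemma Xc_neg (ψ : ℝ) : Xc ϱ (-ψ) = -Xc ϱ ψ := by
  have h : ∀ x, HasDerivAt (fun ψ => Xc ϱ (-ψ) + Xc ϱ ψ) 0 x := by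
    intro x
    have h1 : HasDerivAt (fun ψ => Xc ϱ (-ψ) + Xc ϱ ψ) _ x :=
      ((hasDerivAt_Xc C (-x)).comp x (hasDerivAt_neg x)).add (hasDerivAt_Xc C x)
    refine h1.congr_deriv ?_
    rw [C.even, cos_neg]; ring
  have h2 := const_of_deriv_zero h ψ 0
  simp only [neg_zero, Xc, integral_same, add_zero] at h2 ⊢
  linarith

lemma Yc_neg (ψ : ℝ) : Yc ϱ y₀ (-ψ) = Yc ϱ y₀ ψ := by
  have h : ∀ x, HasDerivAt (fun ψ => Yc ϱ y₀ (-ψ) - Yc ϱ y₀ ψ) 0 x := by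
    intro x
    have h1 : HasDerivAt (fun ψ => Yc ϱ y₀ (-ψ) - Yc ϱ y₀ ψ) _ x :=
      ((hasDerivAt_Yc C (-x)).comp x (hasDerivAt_neg x)).sub (hasDerivAt_Yc C x)
    refine h1.congr_deriv ?_
    rw [C.even, sin_neg]; ring
  have h2 := const_of_deriv_zero h ψ 0
  simp only [neg_zero, sub_self] at h2
  linarith

lemma Xc_refl (ψ : ℝ) : Xc ϱ (π - ψ) = Xc ϱ ψ := by
  have h : ∀ x, HasDerivAt (fun ψ => Xc ϱ (π - ψ) - Xc ϱ ψ) 0 x := by
    intro x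
    have h1 : HasDerivAt (fun ψ => Xc ϱ (π - ψ) - Xc ϱ ψ) _ x :=
      ((hasDerivAt_Xc C (π - x)).comp x ((hasDerivAt_id x).const_sub π)).sub (hasDerivAt_Xc C x)
    refine h1.congr_deriv ?_
    rw [C.refl, cos_pi_sub]; ring
  have h2 := const_of_deriv_zero h ψ (π / 2)
  have h3 : π - π / 2 = π / 2 := by ring
  simp only [h3, sub_self] at h2
  linarith

lemma Yc_refl (ψ : ℝ) : Yc ϱ y₀ (π - ψ) = -Yc ϱ y₀ ψ := by
  have h : ∀ x, HasDerivAt (fun ψ => Yc ϱ y₀ (π - ψ) + Yc ϱ y₀ ψ) 0 x := by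
    intro x
    have h1 : HasDerivAt (fun ψ => Yc ϱ y₀ (π - ψ) + Yc ϱ y₀ ψ) _ x :=
      ((hasDerivAt_Yc C (π - x)).comp x ((hasDerivAt_id x).const_sub π)).add (hasDerivAt_Yc C x)
    refine h1.congr_deriv ?_
    rw [C.refl, sin_pi_sub]; ring
  have h2 := const_of_deriv_zero h ψ 0
  simp only [sub_zero, Yc, C.int, integral_same] at h2 ⊢
  linarith

lemma Xc_anti (ψ : ℝ) : Xc ϱ (ψ + π) = -Xc ϱ ψ := by
  rw [show ψ + π = π - (-ψ) by ring, Xc_refl C, Xc_neg C]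
lemma Yc_anti (ψ : ℝ) : Yc ϱ y₀ (ψ + π) = -Yc ϱ y₀ ψ := by
  rw [show ψ + π = π - (-ψ) by ring, Yc_refl C, Yc_neg C]

lemma Hs_neg (ψ : ℝ) : Hs ϱ y₀ (-ψ) = Hs ϱ y₀ ψ := by
  rw [Hs, Hs, Xc_neg C, Yc_neg C, sin_neg, cos_neg]; ring
lemma Hs_refl (ψ : ℝ) : Hs ϱ y₀ (π - ψ) = Hs ϱ y₀ ψ := by
  rw [Hs, Hs, Xc_refl C, Yc_refl C, sin_pi_sub, cos_pi_sub]; ring
lemma Hs_anti (ψ : ℝ) : Hs ϱ y₀ (ψ + π) = Hs ϱ y₀ ψ := by
  rw [Hs, Hs, Xc_anti C, Yc_anti C, sin_add_pi, cos_add_pi]; ring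

lemma Xc_periodic : Function.Periodic (Xc ϱ) (2 * π) := by
  intro ψ; rw [show ψ + 2 * π = ψ + π + π by ring, Xc_anti C, Xc_anti C, neg_neg]
lemma Yc_periodic : Function.Periodic (Yc ϱ y₀) (2 * π) := by
  intro ψ; rw [show ψ + 2 * π = ψ + π + π by ring, Yc_anti C, Yc_anti C, neg_neg]
lemma Hs_periodic : Function.Periodic (Hs ϱ y₀) (2 * π) := by
  intro ψ; rw [show ψ + 2 * π = ψ + π + π by ring, Hs_anti C, Hs_anti C]

/-- the fundamental positivity -/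
lemma gap_formula (a b : ℝ) : (Xc ϱ b - Xc ϱ a) * sin b + (Yc ϱ y₀ b - Yc ϱ y₀ a) * cos b
    = ∫ t in a..b, ϱ t * sin (b - t) := by
  have h := C.cont
  have i1 : ∀ u v, IntervalIntegrable (fun t => ϱ t * cos t) MeasureTheory.volume u v := fun u v =>
    Continuous.intervalIntegrable (by fun_prop) _ _
  have i2 : ∀ u v, IntervalIntegrable (fun t => ϱ t * sin t) MeasureTheory.volume u v := fun u v =>
    Continuous.intervalIntegrable (by fun_prop) _ _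
  have e1 : Xc ϱ b - Xc ϱ a = ∫ t in a..b, ϱ t * cos t := by
    rw [Xc, Xc, integral_interval_sub_left (i1 _ _) (i1 _ _)]
  have e2 : Yc ϱ y₀ b - Yc ϱ y₀ a = -∫ t in a..b, ϱ t * sin t := by
    have := integral_interval_sub_left (i2 0 b) (i2 0 a)
    rw [Yc, Yc]
    linarith
  rw [e1, e2, neg_mul, ← integral_mul_const, ← integral_mul_const, ← sub_eq_add_neg, ← integral_sub]
  · refine integral_congr fun t _ => ?_
    rw [sin_sub]; ring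
  · exact Continuous.intervalIntegrable (by fun_prop) _ _
  · exact Continuous.intervalIntegrable (by fun_prop) _ _

lemma gap_pos_of_near {a b : ℝ} (hab : a ≠ b) (hd : |b - a| ≤ π) :
    0 < (Xc ϱ b - Xc ϱ a) * sin b + (Yc ϱ y₀ b - Yc ϱ y₀ a) * cos b := by
  have h := C.cont
  rw [gap_formula C]
  rcases lt_or_gt_of_ne hab with hlt | hgt
  · rw [abs_of_pos (by linarith)] at hd
    refine intervalIntegral_pos_of_pos_on (Continuous.intervalIntegrable (by fun_prop) _ _) (fun t ht => ?_) hlt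
    exact mul_pos (C.pos t) (sin_pos_of_pos_of_lt_pi (by linarith [ht.2]) (by linarith [ht.1]))
  · rw [abs_of_neg (by linarith)] at hd
    rw [integral_symm, ← integral_neg]
    refine intervalIntegral_pos_of_pos_on (Continuous.intervalIntegrable (by fun_prop) _ _) (fun t ht => ?_) hgt
    have h1 : sin (b - t) = -sin (t - b) := by rw [← sin_neg]; congr 1; ring
    rw [h1]
    have := mul_pos (C.pos t) (sin_pos_of_pos_of_lt_pi (x := t - b) (by linarith [ht.1]) (by linarith [ht.2]))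
    linarith

omit C in
lemma exists_near (a b : ℝ) : ∃ k : ℤ, |b + k * (2 * π) - a| ≤ π := by
  refine ⟨-round ((b - a) / (2 * π)), ?_⟩
  have h1 := abs_sub_round ((b - a) / (2 * π))
  have hπ := Real.two_pi_pos
  have h2 : b + ((-round ((b - a) / (2 * π)) : ℤ) : ℝ) * (2 * π) - a
      = ((b - a) / (2 * π) - round ((b - a) / (2 * π))) * (2 * π) := by
    push_cast
    field_simp
    ring
  rw [h2, abs_mul, abs_of_pos hπ]
  nlinarith

lemma gap_nonneg (a b : ℝ) :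
    0 ≤ (Xc ϱ b - Xc ϱ a) * sin b + (Yc ϱ y₀ b - Yc ϱ y₀ a) * cos b
    ∧ ((Xc ϱ b - Xc ϱ a) * sin b + (Yc ϱ y₀ b - Yc ϱ y₀ a) * cos b = 0 → ∃ k : ℤ, b + k * (2 * π) = a) := by
  obtain ⟨k, hk⟩ := exists_near a b
  have e1 : Xc ϱ (b + k * (2 * π)) = Xc ϱ b := (Xc_periodic C).int_mul k b
  have e2 : Yc ϱ y₀ (b + k * (2 * π)) = Yc ϱ y₀ b := (Yc_periodic C).int_mul k b
  have e3 : sin (b + k * (2 * π)) = sin b := sin_add_int_mul_two_pi b k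
  have e4 : cos (b + k * (2 * π)) = cos b := cos_add_int_mul_two_pi b k
  by_cases hab : a = b + k * (2 * π)
  · refine ⟨?_, fun _ => ⟨k, hab.symm⟩⟩
    rw [hab, e1, e2]
    simp
  · have := gap_pos_of_near C hab hk
    rw [e1, e2, e3, e4] at this
    exact ⟨this.le, fun h => absurd h this.ne'⟩

lemma Hs_pos (ψ : ℝ) : 0 < Hs ϱ y₀ ψ := by
  have h1 := gap_pos_of_near C (a := ψ) (b := ψ + π) (by linarith [Real.pi_pos])
    (by rw [add_sub_cancel_left, abs_of_pos Real.pi_pos])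
  rw [Xc_anti C, Yc_anti C, sin_add_pi, cos_add_pi] at h1
  rw [Hs]
  nlinarith

lemma gam_mem' (a : ℝ) : gam ϱ y₀ a ∈ Dom' ϱ y₀ := by
  intro ψ
  have := (gap_nonneg C a ψ).1
  simp only [gam, Hs]
  linarith

/-- a point of the closed domain with a vanishing gap is the boundary point -/
lemma eq_gam_of_gap_zero {x : ℂ} (hx : x ∈ Dom' ϱ y₀) {ψ : ℝ}
    (h : x.re * sin ψ + x.im * cos ψ = Hs ϱ y₀ ψ) : x = gam ϱ y₀ ψ := by
  set g : ℝ → ℝ := fun t => Hs ϱ y₀ t - (x.re * sin t + x.im * cos t) with hg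
  have hd : HasDerivAt g (Hs' ϱ y₀ ψ - (x.re * cos ψ + x.im * -sin ψ)) ψ :=
    (hasDerivAt_Hs C ψ).sub (((hasDerivAt_sin ψ).const_mul _).add ((hasDerivAt_cos ψ).const_mul _))
  have hmin : IsLocalMin g ψ := by
    refine Filter.Eventually.of_forall fun t => ?_
    have := hx t
    simp only [hg]
    linarith
  have h0 := hmin.hasDerivAt_eq_zero hd
  have e1 : (Xc ϱ ψ - x.re) * cos ψ - (Yc ϱ y₀ ψ - x.im) * sin ψ = 0 := by
    rw [Hs'] at h0; linarith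
  have e2 : (Xc ϱ ψ - x.re) * sin ψ + (Yc ϱ y₀ ψ - x.im) * cos ψ = 0 := by
    rw [Hs] at h; linarith
  have hsc := Real.sin_sq_add_cos_sq ψ
  have e3 : Xc ϱ ψ - x.re = 0 := by
    linear_combination cos ψ * e1 + sin ψ * e2 - (Xc ϱ ψ - x.re) * hsc
  have e4 : Yc ϱ y₀ ψ - x.im = 0 := by
    linear_combination cos ψ * e2 - sin ψ * e1 - (Yc ϱ y₀ ψ - x.im) * hsc
  apply Complex.ext
  · simp only [gam]; linarith
  · simp only [gam]; linarith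

end basic

end Helper43.Billiard
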